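import Mathlib

set_option autoImplicit false

/-! Number of monomials of polynomials vanishing on polynomials with double roots. -/

namespace Pool.Agent.H694R2.Quad

open MvPolynomial

section support

variable {σ ι : Type} [Fintype σ] [DecidableEq σ] [DecidableEq ι]

/-- product of the powers outside the triple `t` -/
noncomputable def outp (t : Fin 3 → σ) (c : σ → ℝ) (m : σ →₀ ℕ) : ℝ :=
  ∏ i ∈ Finset.univ.filter (fun i => ∀ a, i ≠ t a), c i ^ m i

theorem prod_split {t : Fin 3 → σ} (ht : Function.Injective t) (c : σ → ℝ) (m : σ →₀ ℕ) :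
    ∏ i, c i ^ m i = outp t c m * ∏ a, c (t a) ^ m (t a) := by
  classical
  unfold outp
  rw [← Finset.prod_filter_mul_prod_filter_not Finset.univ (fun i => ∀ a, i ≠ t a)]
  congr 1
  have h : (Finset.univ.filter fun i => ¬ ∀ a, i ≠ t a) = Finset.univ.image t := by
    ext i
    simp only [Finset.mem_filter, Finset.mem_univ, true_and, Finset.mem_image, not_forall,
      not_not]
    exact ⟨fun ⟨a, ha⟩ => ⟨a, ha.symm⟩, fun ⟨a, ha⟩ => ⟨a, ha.symm⟩⟩
  rw [h, Finset.prod_image (fun a _ b _ hab => ht hab)]

/-- replace the values on the triple -/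
def upd (t : Fin 3 → σ) (c : σ → ℝ) (s : Fin 3 → ℝ) : σ → ℝ := fun i =>
  if i = t 0 then s 0 else if i = t 1 then s 1 else if i = t 2 then s 2 else c i

theorem upd_self {t : Fin 3 → σ} (ht : Function.Injective t) (c : σ → ℝ) (s : Fin 3 → ℝ)
    (a : Fin 3) : upd t c s (t a) = s a := by
  unfold upd
  fin_cases a
  · simp
  · have : t 1 ≠ t 0 := fun h => by simpa using ht h
    simp [this]
  · have h1 : t 2 ≠ t 0 := fun h => by simpa using ht h
    have h2 : t 2 ≠ t 1 := fun h => by simpa using ht h
    simp [h1, h2]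

theorem upd_of_ne {t : Fin 3 → σ} (c : σ → ℝ) (s : Fin 3 → ℝ) {i : σ} (hi : ∀ a, i ≠ t a) :
    upd t c s i = c i := by
  unfold upd
  rw [if_neg (hi 0), if_neg (hi 1), if_neg (hi 2)]

theorem outp_upd (t : Fin 3 → σ) (c : σ → ℝ) (s : Fin 3 → ℝ) (m : σ →₀ ℕ) :
    outp t (upd t c s) m = outp t c m := by
  unfold outp
  apply Finset.prod_congr rfl
  intro i hi
  rw [Finset.mem_filter] at hi
  rw [upd_of_ne c s hi.2]

/-- exponents on the triple -/
noncomputable def ex (t : Fin 3 → σ) (m : σ →₀ ℕ) : Fin 3 →₀ ℕ := Finsupp.equivFunOnFinite.symm fun a => m (t a)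

omit [Fintype σ] [DecidableEq σ] in
theorem ex_apply (t : Fin 3 → σ) (m : σ →₀ ℕ) (a : Fin 3) : ex t m a = m (t a) := rfl

theorem eval_upd {t : Fin 3 → σ} (ht : Function.Injective t) (c : σ → ℝ) (s : Fin 3 → ℝ)
    (T : MvPolynomial σ ℝ) :
    eval (upd t c s) T = ∑ m ∈ T.support, T.coeff m * (outp t c m * ∏ a, s a ^ ex t m a) := by
  rw [eval_eq']
  apply Finset.sum_congr rfl
  intro m _
  rw [prod_split ht, outp_upd]
  simp only [upd_self ht, ex_apply]

/-- the part of `T` with given exponents on the triple -/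
noncomputable def part (t : Fin 3 → σ) (T : MvPolynomial σ ℝ) (e : Fin 3 →₀ ℕ) :
    MvPolynomial σ ℝ :=
  ∑ m ∈ T.support.filter (fun m => ex t m = e), monomial m (T.coeff m)

theorem coeff_part (t : Fin 3 → σ) (T : MvPolynomial σ ℝ) (e : Fin 3 →₀ ℕ) (m : σ →₀ ℕ) :
    (part t T e).coeff m = if ex t m = e then T.coeff m else 0 := by
  classical
  unfold part
  rw [coeff_sum]
  simp only [coeff_monomial]
  rw [Finset.sum_ite_eq']
  simp only [Finset.mem_filter, mem_support_iff]
  by_cases h1 : ex t m = e
  · by_cases h2 : T.coeff m = 0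
    · simp [h2]
    · simp [h1, h2]
  · simp [h1]

theorem part_vanish {t : Fin 3 → σ} (ht : Function.Injective t) (c : σ → ℝ)
    (T : MvPolynomial σ ℝ) (h : ∀ s, eval (upd t c s) T = 0) (e : Fin 3 →₀ ℕ) :
    eval c (part t T e) = 0 := by
  classical
  let P : MvPolynomial (Fin 3) ℝ :=
    ∑ m ∈ T.support, monomial (ex t m) (T.coeff m * outp t c m)
  have hP : P = 0 := by
    apply MvPolynomial.funext
    intro s
    rw [map_zero, ← h s, eval_upd ht]
    simp only [P, map_sum]
    apply Finset.sum_congr rfl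
    intro m _
    rw [eval_monomial, Finsupp.prod_fintype _ _ (fun i => pow_zero _)]
    ring
  have hc : ∑ m ∈ T.support, (if ex t m = e then T.coeff m * outp t c m else 0) = 0 := by
    have h1 : P.coeff e = 0 := by rw [hP, coeff_zero]
    have h2 : P.coeff e = ∑ m ∈ T.support, (if ex t m = e then T.coeff m * outp t c m else 0) := by
      simp only [P, coeff_sum, coeff_monomial]
    rw [← h2]
    exact h1
  have h2 : eval c (part t T e) = ∑ m ∈ T.support.filter (fun m => ex t m = e),
      T.coeff m * (outp t c m * ∏ a, c (t a) ^ e a) := by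
    unfold part
    rw [map_sum]
    apply Finset.sum_congr rfl
    intro m hm
    rw [Finset.mem_filter] at hm
    rw [eval_monomial, Finsupp.prod_fintype _ _ (fun i => pow_zero _), prod_split ht, ← hm.2]
    rfl
  rw [h2]
  have h3 : ∀ m ∈ T.support.filter (fun m => ex t m = e),
      T.coeff m * (outp t c m * ∏ a, c (t a) ^ e a) =
      (T.coeff m * outp t c m) * ∏ a, c (t a) ^ e a := by
    intro m _; ring
  rw [Finset.sum_congr rfl h3, ← Finset.sum_mul, Finset.sum_filter, hc, zero_mul]

/-- **Counting monomials.** -/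
theorem card_support (t : ι → Fin 3 → σ)
    (ht : Function.Injective (fun p : ι × Fin 3 => t p.1 p.2)) (J : Finset ι) :
    ∀ T : MvPolynomial σ ℝ, T ≠ 0 →
      (∀ j ∈ J, ∀ (c : σ → ℝ) (κ ρ : ℝ), ρ ≠ 0 → c (t j 0) = κ * ρ ^ 2 → c (t j 1) = -2 * κ * ρ →
        c (t j 2) = κ → eval c T = 0) → 2 ^ J.card ≤ T.support.card := by
  classical
  have ht1 : ∀ j, Function.Injective (t j) := by
    intro j a b hab
    have := @ht (j, a) (j, b) hab
    simpa using this
  induction J using Finset.induction_on with
  | empty =>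
    intro T hT _
    rw [Finset.card_empty, pow_zero, Nat.one_le_iff_ne_zero, Finset.card_ne_zero]
    rw [Finset.nonempty_iff_ne_empty]
    intro h
    exact hT (support_eq_empty.1 h)
  | insert j J hj ih =>
    intro T hT hv
    -- two different exponents
    obtain ⟨m0, hm0⟩ : T.support.Nonempty := by
      rw [Finset.nonempty_iff_ne_empty]
      intro h
      exact hT (support_eq_empty.1 h)
    have hex : ∃ m1 ∈ T.support, ex (t j) m1 ≠ ex (t j) m0 := by
      by_contra hno
      push Not at hno
      apply hT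
      apply MvPolynomial.funext
      intro c
      rw [map_zero]
      have h1 := hv j (Finset.mem_insert_self _ _) (upd (t j) c ![1, -2, 1]) 1 1 one_ne_zero
        (by rw [upd_self (ht1 j)]; simp) (by rw [upd_self (ht1 j)]; simp)
        (by rw [upd_self (ht1 j)]; simp)
      rw [eval_upd (ht1 j)] at h1
      have h2 : eval c T = ∑ m ∈ T.support, T.coeff m * (outp (t j) c m *
          ∏ a, c (t j a) ^ ex (t j) m a) := by
        rw [eval_eq']
        apply Finset.sum_congr rfl
        intro m _
        rw [prod_split (ht1 j)]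
        rfl
      have h3 : ∏ a, (![1, -2, 1] : Fin 3 → ℝ) a ^ ex (t j) m0 a ≠ 0 := by
        rw [Finset.prod_ne_zero_iff]
        intro a _
        apply pow_ne_zero
        fin_cases a <;> simp
      have h4 : (∑ m ∈ T.support, T.coeff m * outp (t j) c m) *
          ∏ a, (![1, -2, 1] : Fin 3 → ℝ) a ^ ex (t j) m0 a = 0 := by
        rw [Finset.sum_mul, ← h1]
        apply Finset.sum_congr rfl
        intro m hm
        rw [hno m hm]; ring
      have h5 := (mul_eq_zero.1 h4).resolve_right h3
      rw [h2]
      calc _ = (∑ m ∈ T.support, T.coeff m * outp (t j) c m) *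
          ∏ a, c (t j a) ^ ex (t j) m0 a := by
            rw [Finset.sum_mul]
            apply Finset.sum_congr rfl
            intro m hm
            rw [hno m hm]; ring
        _ = 0 := by rw [h5, zero_mul]
    obtain ⟨m1, hm1, hne⟩ := hex
    have key : ∀ m ∈ T.support, 2 ^ J.card ≤ (part (t j) T (ex (t j) m)).support.card := by
      intro m hm
      apply ih
      · intro h0
        have h1 := coeff_part (t j) T (ex (t j) m) m
        rw [h0, coeff_zero, if_pos rfl] at h1
        exact (mem_support_iff.1 hm) h1.symm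
      · intro j' hj' c κ ρ hρ e0 e1 e2
        apply part_vanish (ht1 j)
        intro s
        have hjj : ∀ a b, t j' a ≠ t j b := by
          intro a b hab
          have := @ht (j', a) (j, b) hab
          simp only [Prod.mk.injEq] at this
          exact hj (this.1 ▸ hj')
        apply hv j' (Finset.mem_insert_of_mem hj') _ κ ρ hρ
        · rw [upd_of_ne _ _ (hjj 0), e0]
        · rw [upd_of_ne _ _ (hjj 1), e1]
        · rw [upd_of_ne _ _ (hjj 2), e2]
    have hsub : ∀ m, (part (t j) T (ex (t j) m)).support ⊆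
        T.support.filter (fun m' => ex (t j) m' = ex (t j) m) := by
      intro m m' hm'
      rw [mem_support_iff, coeff_part] at hm'
      rw [Finset.mem_filter, mem_support_iff]
      split_ifs at hm' with h1
      · exact ⟨hm', h1⟩
      · exact absurd rfl hm'
    have hdis : Disjoint (T.support.filter (fun m' => ex (t j) m' = ex (t j) m0))
        (T.support.filter (fun m' => ex (t j) m' = ex (t j) m1)) := by
      rw [Finset.disjoint_left]
      intro m h0 h1
      rw [Finset.mem_filter] at h0 h1
      exact hne (h1.2.symm.trans h0.2)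
    rw [Finset.card_insert_of_notMem hj, pow_succ, mul_two]
    calc 2 ^ J.card + 2 ^ J.card ≤ _ := Nat.add_le_add
          ((key m0 hm0).trans (Finset.card_le_card (hsub m0)))
          ((key m1 hm1).trans (Finset.card_le_card (hsub m1)))
      _ = _ := (Finset.card_union_of_disjoint hdis).symm
      _ ≤ _ := Finset.card_le_card (by
          intro m hm
          rw [Finset.mem_union, Finset.mem_filter, Finset.mem_filter] at hm
          rcases hm with h | h <;> exact h.1)

end support

/-! ### leading forms -/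

section leading

variable {σ : Type} [Fintype σ]

/-- weight of an exponent -/
def wt (w : σ → ℕ) (m : σ →₀ ℕ) : ℕ := ∑ i, w i * m i

/-- top part -/
noncomputable def top (w : σ → ℕ) (W : ℕ) (Q : MvPolynomial σ ℝ) : MvPolynomial σ ℝ :=
  ∑ m ∈ Q.support.filter (fun m => wt w m = W), monomial m (Q.coeff m)

theorem coeff_top (w : σ → ℕ) (W : ℕ) (Q : MvPolynomial σ ℝ) (m : σ →₀ ℕ) :
    (top w W Q).coeff m = if wt w m = W then Q.coeff m else 0 := by
  classical
  unfold top
  rw [coeff_sum]
  simp only [coeff_monomial]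
  rw [Finset.sum_ite_eq']
  simp only [Finset.mem_filter, mem_support_iff]
  by_cases h1 : wt w m = W
  · by_cases h2 : Q.coeff m = 0
    · simp [h2]
    · simp [h1, h2]
  · simp [h1]

theorem top_support (w : σ → ℕ) (W : ℕ) (Q : MvPolynomial σ ℝ) :
    (top w W Q).support.card ≤ Q.support.card := by
  classical
  apply Finset.card_le_card
  intro m hm
  rw [mem_support_iff, coeff_top] at hm
  rw [mem_support_iff]
  split_ifs at hm with h1
  · exact hm
  · exact absurd rfl hm

theorem exists_top (w : σ → ℕ) {Q : MvPolynomial σ ℝ} (hQ : Q ≠ 0) :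
    ∃ W, top w W Q ≠ 0 ∧ ∀ m ∈ Q.support, wt w m ≤ W := by
  classical
  obtain ⟨m0, hm0⟩ : Q.support.Nonempty := by
    rw [Finset.nonempty_iff_ne_empty]
    intro h
    exact hQ (support_eq_empty.1 h)
  obtain ⟨m1, hm1, hmax⟩ := Finset.exists_max_image Q.support (wt w) ⟨m0, hm0⟩
  refine ⟨wt w m1, ?_, hmax⟩
  intro h0
  have h1 := coeff_top w (wt w m1) Q m1
  rw [h0, coeff_zero, if_pos rfl] at h1
  exact (mem_support_iff.1 hm1) h1.symm

open Filter Topology in
theorem top_vanish (w : σ → ℕ) (W : ℕ) (Q : MvPolynomial σ ℝ)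
    (hW : ∀ m ∈ Q.support, wt w m ≤ W) (u : ℝ → σ → ℝ) (c : σ → ℝ)
    (hu : ∀ i, Tendsto (fun R => u R i) atTop (𝓝 (c i)))
    (hz : ∀ᶠ R : ℝ in atTop, eval (fun i => R ^ w i * u R i) Q = 0) :
    eval c (top w W Q) = 0 := by
  classical
  have h1 : ∀ᶠ R : ℝ in atTop, ∑ m ∈ Q.support, Q.coeff m *
      (R ^ wt w m / R ^ W * ∏ i, u R i ^ m i) = 0 := by
    filter_upwards [hz, eventually_gt_atTop 0] with R hR hR0
    have h2 : ∑ m ∈ Q.support, Q.coeff m * (R ^ wt w m / R ^ W * ∏ i, u R i ^ m i) =
        (eval (fun i => R ^ w i * u R i) Q) / R ^ W := by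
      rw [eval_eq', Finset.sum_div]
      apply Finset.sum_congr rfl
      intro m _
      simp only [mul_pow, Finset.prod_mul_distrib, ← pow_mul]
      rw [Finset.prod_pow_eq_pow_sum]
      unfold wt
      ring
    rw [h2, hR, zero_div]
  have h2 : Tendsto (fun R : ℝ => ∑ m ∈ Q.support, Q.coeff m *
      (R ^ wt w m / R ^ W * ∏ i, u R i ^ m i)) atTop
      (𝓝 (∑ m ∈ Q.support, Q.coeff m * ((if wt w m = W then 1 else 0) * ∏ i, c i ^ m i))) := by
    apply tendsto_finsetSum
    intro m hm
    apply Tendsto.const_mul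
    apply Tendsto.mul
    · rcases (hW m hm).lt_or_eq with hlt | heq
      · rw [if_neg hlt.ne]
        exact tendsto_pow_div_pow_atTop_zero hlt
      · rw [if_pos heq, heq]
        apply tendsto_const_nhds.congr'
        filter_upwards [eventually_gt_atTop 0] with R hR0
        rw [div_self (pow_ne_zero _ hR0.ne')]
    · apply tendsto_finsetProd
      intro i _
      exact (hu i).pow _
  have h3 := tendsto_nhds_unique (h2.congr' h1) tendsto_const_nhds
  have h4 : eval c (top w W Q) = ∑ m ∈ Q.support, Q.coeff m *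
      ((if wt w m = W then 1 else 0) * ∏ i, c i ^ m i) := by
    unfold top
    rw [map_sum, Finset.sum_filter]
    apply Finset.sum_congr rfl
    intro m _
    split_ifs with h5
    · rw [eval_monomial, Finsupp.prod_fintype _ _ (fun i => pow_zero _), one_mul]
    · rw [zero_mul, mul_zero]
  rw [h4]
  exact h3

end leading

end Pool.Agent.H694R2.Quad
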