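import Mathlib

set_option autoImplicit false

/-! The secular functions `Φ_y` and the polynomials `G_y = A Φ_y`. -/

namespace Pool.Agent.H694R2.Quad

open Polynomial Filter Topology

section

variable {m : ℕ}

/-- nodes -/
noncomputable def nd (l : Fin m) : ℝ := ((l : ℕ) : ℝ) + 1

theorem nd_pos (l : Fin m) : 0 < nd l := by unfold nd; positivity

theorem nd_inj {l l' : Fin m} (h : nd l = nd l') : l = l' := by
  unfold nd at h
  have : ((l : ℕ) : ℝ) = ((l' : ℕ) : ℝ) := by linarith
  exact Fin.ext (by exact_mod_cast this)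

/-- product of all factors -/
noncomputable def Apol (m : ℕ) : ℝ[X] := ∏ l : Fin m, (C (nd l) + X)

/-- product of all factors but one -/
noncomputable def Alpol (l : Fin m) : ℝ[X] := ∏ l' ∈ Finset.univ.erase l, (C (nd l') + X)

/-- the value of `Alpol l` at `- nd l` -/
noncomputable def pil (l : Fin m) : ℝ := ∏ l' ∈ Finset.univ.erase l, (nd l' - nd l)

theorem pil_ne (l : Fin m) : pil l ≠ 0 := by
  unfold pil
  rw [Finset.prod_ne_zero_iff]
  intro l' hl' h
  rw [Finset.mem_erase] at hl'
  exact hl'.1 (nd_inj (by linarith))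

/-- partial fraction coefficients -/
noncomputable def kap (l i : Fin m) : ℝ := (-nd l) ^ (i : ℕ) / pil l

theorem Alpol_degree (l : Fin m) : (Alpol l).degree < m := by
  unfold Alpol
  have h1 : (∏ l' ∈ Finset.univ.erase l, (C (nd l') + X)).natDegree ≤ m - 1 := by
    refine (natDegree_prod_le _ _).trans ?_
    have : ∑ l' ∈ Finset.univ.erase l, (C (nd l') + X : ℝ[X]).natDegree ≤
        ∑ l' ∈ Finset.univ.erase l, 1 := by
      apply Finset.sum_le_sum
      intro l' _
      compute_degree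
    refine this.trans ?_
    simp
  have hm : 0 < m := l.pos
  have h2 := degree_le_of_natDegree_le h1
  refine lt_of_le_of_lt h2 ?_
  exact_mod_cast (by omega : m - 1 < m)

theorem Alpol_eval_self (l : Fin m) : (Alpol l).eval (-nd l) = pil l := by
  unfold Alpol pil
  rw [eval_prod]
  apply Finset.prod_congr rfl
  intro l' _
  simp; ring

theorem Alpol_eval_ne {l k : Fin m} (h : k ≠ l) : (Alpol l).eval (-nd k) = 0 := by
  unfold Alpol
  rw [eval_prod]
  apply Finset.prod_eq_zero (i := k)
  · rw [Finset.mem_erase]; exact ⟨h, Finset.mem_univ _⟩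
  · simp

theorem lagrange (i : Fin m) : ∑ l, C (kap l i) * Alpol l = X ^ (i : ℕ) := by
  classical
  apply eq_of_degrees_lt_of_eval_index_eq (v := fun l : Fin m => -nd l) Finset.univ
  · intro a _ b _ h
    exact nd_inj (neg_injective h)
  · rw [Finset.card_univ, Fintype.card_fin, ← mem_degreeLT]
    apply Submodule.sum_mem
    intro l _
    rw [← smul_eq_C_mul]
    apply Submodule.smul_mem
    rw [mem_degreeLT]
    exact Alpol_degree l
  · rw [Finset.card_univ, Fintype.card_fin, degree_X_pow]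
    exact_mod_cast i.2
  · intro k _
    rw [eval_finsetSum, Finset.sum_eq_single k]
    · rw [eval_mul, eval_C, Alpol_eval_self, eval_pow, eval_X]
      unfold kap
      rw [div_mul_cancel₀ _ (pil_ne k)]
    · intro l _ hl
      rw [eval_mul, Alpol_eval_ne hl.symm, mul_zero]
    · intro h; exact absurd (Finset.mem_univ _) h

theorem Apol_eval (m : ℕ) (x : ℝ) : (Apol m).eval x = ∏ l : Fin m, (nd l + x) := by
  unfold Apol
  rw [eval_prod]
  simp

theorem Alpol_eval (l : Fin m) {x : ℝ} (hx : nd l + x ≠ 0) :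
    (Alpol l).eval x = (Apol m).eval x / (nd l + x) := by
  rw [Apol_eval, ← Finset.mul_prod_erase Finset.univ _ (Finset.mem_univ l)]
  unfold Alpol
  rw [eval_prod, mul_div_cancel_left₀ _ hx]
  simp

/-- constants `K_l` -/
noncomputable def Kc (l : Fin m) : ℝ := 1 + ∑ i, (kap l i) ^ 2 / 4

theorem Kc_pos (l : Fin m) : 0 < Kc l := by unfold Kc; positivity

/-- `r0` -/
noncomputable def r0 (m : ℕ) : ℝ := ∑ l : Fin m, Kc l / (nd l + 1) ^ 2

/-- `c0` -/
noncomputable def c0 (m : ℕ) : ℝ := r0 m + ∑ l : Fin m, Kc l / (nd l + 1)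

/-- squared norm of `b_l` on the sphere -/
noncomputable def Bl (y : Fin m → ℝ) (l : Fin m) : ℝ := Kc l + ∑ i, kap l i * y i

/-- secular function -/
noncomputable def Phi (y : Fin m → ℝ) (x : ℝ) : ℝ := r0 m * x - c0 m + ∑ l, Bl y l / (nd l + x)

/-- derivative of the secular function -/
noncomputable def Phi' (y : Fin m → ℝ) (x : ℝ) : ℝ := r0 m - ∑ l, Bl y l / (nd l + x) ^ 2

/-- constant part -/
noncomputable def N0 (m : ℕ) : ℝ[X] :=
  (C (r0 m) * X - C (c0 m)) * Apol m + ∑ l : Fin m, C (Kc l) * Alpol l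

/-- `G_y` -/
noncomputable def GG (y : Fin m → ℝ) : ℝ[X] := N0 m + ∑ i : Fin m, C (y i) * X ^ (i : ℕ)

theorem GG_eq (y : Fin m → ℝ) :
    GG y = (C (r0 m) * X - C (c0 m)) * Apol m + ∑ l : Fin m, C (Bl y l) * Alpol l := by
  unfold GG N0
  have h1 : ∑ i : Fin m, C (y i) * X ^ (i : ℕ) =
      ∑ l : Fin m, C (∑ i, kap l i * y i) * Alpol l := by
    have h2 : ∀ i : Fin m, C (y i) * X ^ (i : ℕ) =
        ∑ l : Fin m, C (kap l i * y i) * Alpol l := by
      intro i
      rw [← lagrange i, Finset.mul_sum]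
      apply Finset.sum_congr rfl
      intro l _
      rw [C_mul]; ring
    simp only [h2]
    rw [Finset.sum_comm]
    apply Finset.sum_congr rfl
    intro l _
    rw [← Finset.sum_mul, map_sum]
  rw [h1, add_assoc, ← Finset.sum_add_distrib]
  congr 1
  apply Finset.sum_congr rfl
  intro l _
  unfold Bl
  rw [C_add]; ring

theorem GG_eval (y : Fin m → ℝ) {x : ℝ} (hx : 0 < x) :
    (GG y).eval x = (Apol m).eval x * Phi y x := by
  rw [GG_eq]
  unfold Phi
  rw [eval_add, eval_mul, eval_finsetSum, mul_add, Finset.mul_sum]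
  congr 1
  · simp; ring
  · apply Finset.sum_congr rfl
    intro l _
    rw [eval_mul, eval_C, Alpol_eval l (by have := nd_pos l; positivity)]
    ring

theorem Phi_hasDerivAt (y : Fin m → ℝ) {x : ℝ} (hx : 0 < x) :
    HasDerivAt (Phi y) (Phi' y x) x := by
  unfold Phi Phi'
  have h1 : HasDerivAt (fun x : ℝ => r0 m * x - c0 m) (r0 m) x := by
    simpa using ((hasDerivAt_id x).const_mul (r0 m)).sub_const (c0 m)
  have h2 : HasDerivAt (fun x : ℝ => ∑ l, Bl y l / (nd l + x))
      (∑ l, -(Bl y l / (nd l + x) ^ 2)) x := by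
    apply HasDerivAt.fun_sum
    intro l _
    have hne : nd l + x ≠ 0 := by have := nd_pos l; positivity
    have := ((hasDerivAt_id x).const_add (nd l)).inv hne
    have h3 := this.const_mul (Bl y l)
    refine (h3.congr_deriv ?_).congr_of_eventuallyEq ?_
    · simp; ring
    · filter_upwards with z
      simp [div_eq_mul_inv]
  have h4 := h1.add h2
  rw [Finset.sum_neg_distrib, ← sub_eq_add_neg] at h4
  exact h4

theorem GG_deriv_eval (y : Fin m → ℝ) {x : ℝ} (hx : 0 < x) :
    (GG y).derivative.eval x = (Apol m).derivative.eval x * Phi y x +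
      (Apol m).eval x * Phi' y x := by
  have h1 := (GG y).hasDerivAt x
  have h2 := ((Apol m).hasDerivAt x).mul (Phi_hasDerivAt y hx)
  have h3 : (fun x => (GG y).eval x) =ᶠ[𝓝 x] ((fun x => (Apol m).eval x) * Phi y) := by
    filter_upwards [lt_mem_nhds hx] with z hz
    rw [Pi.mul_apply]
    exact GG_eval y hz
  exact h1.unique (h2.congr_of_eventuallyEq h3)

theorem Apol_pos (m : ℕ) {x : ℝ} (hx : 0 < x) : 0 < (Apol m).eval x := by
  rw [Apol_eval]
  apply Finset.prod_pos
  intro l _
  have := nd_pos l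
  positivity

theorem Phi_of_GG {y : Fin m → ℝ} {x : ℝ} (hx : 0 < x) (h0 : (GG y).eval x = 0)
    (h1 : (GG y).derivative.eval x = 0) : Phi y x = 0 ∧ Phi' y x = 0 := by
  have hA := Apol_pos m hx
  rw [GG_eval y hx] at h0
  have e0 := (mul_eq_zero.1 h0).resolve_left hA.ne'
  rw [GG_deriv_eval y hx, e0, mul_zero, zero_add] at h1
  exact ⟨e0, (mul_eq_zero.1 h1).resolve_left hA.ne'⟩

theorem Bl_zero (l : Fin m) : Bl (0 : Fin m → ℝ) l = Kc l := by
  unfold Bl; simp

theorem Phi_one : Phi (0 : Fin m → ℝ) 1 = 0 := by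
  unfold Phi c0
  simp only [Bl_zero]
  ring

theorem Phi'_one : Phi' (0 : Fin m → ℝ) 1 = 0 := by
  unfold Phi' r0
  simp only [Bl_zero]
  ring

theorem GG_zero : GG (0 : Fin m → ℝ) = N0 m := by
  unfold GG; simp

theorem N0_one (m : ℕ) : (N0 m).eval 1 = 0 := by
  rw [← GG_zero, GG_eval _ one_pos, Phi_one, mul_zero]

theorem N0_deriv_one (m : ℕ) : (N0 m).derivative.eval 1 = 0 := by
  rw [← GG_zero, GG_deriv_eval _ one_pos, Phi_one, Phi'_one, mul_zero, mul_zero, add_zero]

/-- lowering `y_0` lowers `Φ` -/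
theorem Phi_lower (y : Fin m → ℝ) (i0 : Fin m) (hi0 : (i0 : ℕ) = 0) {x : ℝ} (hx : 0 < x) (s : ℝ) :
    Phi (Function.update y i0 (y i0 - s)) x = Phi y x - s / (Apol m).eval x := by
  have hA := Apol_pos m hx
  have h1 : (GG (Function.update y i0 (y i0 - s))).eval x = (GG y).eval x - s := by
    unfold GG
    rw [eval_add, eval_add, eval_finsetSum, eval_finsetSum]
    rw [← Finset.add_sum_erase Finset.univ _ (Finset.mem_univ i0)]
    rw [← Finset.add_sum_erase Finset.univ (fun i : Fin m => eval x (C (y i) * X ^ (i : ℕ)))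
      (Finset.mem_univ i0)]
    have h2 : ∑ i ∈ Finset.univ.erase i0,
        eval x (C (Function.update y i0 (y i0 - s) i) * X ^ (i : ℕ)) =
        ∑ i ∈ Finset.univ.erase i0, eval x (C (y i) * X ^ (i : ℕ)) := by
      apply Finset.sum_congr rfl
      intro i hi
      rw [Finset.mem_erase] at hi
      rw [Function.update_of_ne hi.1]
    rw [h2, Function.update_self, hi0]
    simp
    ring
  rw [GG_eval _ hx, GG_eval _ hx] at h1
  have h3 := hA.ne'
  field_simp
  linarith

end

end Pool.Agent.H694R2.Quad
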