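import Pool.Agent.H694R2.QuadAlg

set_option autoImplicit false

/-! A nonzero polynomial that vanishes at every coefficient vector for which
`N0 + ∑ y_i λ^i` has a double root has at least `2^r` monomials. -/

namespace Pool.Agent.H694R2.Quad

open MvPolynomial Filter Topology

/-- weights -/
def WW (i : ℕ) : ℕ := 3 * (i / 3) ^ 2 + 2 * (i % 3) * (i / 3) - 2 * (i / 3)

theorem WW_add (i : ℕ) : WW i + 2 * (i / 3) = 3 * (i / 3) ^ 2 + 2 * (i % 3) * (i / 3) := by
  unfold WW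
  apply Nat.sub_add_cancel
  have : 2 * (i / 3) ≤ 3 * (i / 3) ^ 2 := by
    rcases Nat.eq_zero_or_pos (i / 3) with h | h
    · rw [h]; norm_num
    · nlinarith
  exact this.trans (Nat.le_add_right _ _)

theorem WW_le {i r : ℕ} (hi : i < 3 * r) : WW i ≤ 3 * r ^ 2 + 4 * r := by
  have h1 := WW_add i
  have h2 : i / 3 < r := by omega
  have h3 : i % 3 < 3 := Nat.mod_lt _ (by norm_num)
  have h4 : 3 * (i / 3) ^ 2 ≤ 3 * r ^ 2 := by
    have := Nat.pow_le_pow_left h2.le 2
    omega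
  have h5 : 2 * (i % 3) * (i / 3) ≤ 4 * r := by
    calc 2 * (i % 3) * (i / 3) ≤ 4 * (i / 3) := Nat.mul_le_mul_right _ (by omega)
      _ ≤ 4 * r := Nat.mul_le_mul_left _ h2.le
  omega

/-- offset -/
def BB (r n : ℕ) : ℕ := 3 * r ^ 2 + 4 * r + 2 * r * n + 1

/-- the weight of variable `i` -/
def ww (r n : ℕ) (i : ℕ) : ℕ := BB r n - WW i

theorem ww_add {r n i : ℕ} (hi : i < 3 * r) : ww r n i + WW i = BB r n := by
  unfold ww
  apply Nat.sub_add_cancel
  have := WW_le hi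
  unfold BB
  omega

/-- exponent -/
def EE (r n j : ℕ) : ℕ := BB r n + 3 * j ^ 2 + 2 * j

theorem g_lt {r n i j : ℕ} (hi : i < 3 * r) (hij : i / 3 ≠ j) :
    2 * j * i + ww r n i < EE r n j := by
  have h1 := WW_add i
  have h2 := @ww_add r n i hi
  have h3 : i % 3 < 3 := Nat.mod_lt _ (by norm_num)
  have h4 : 3 * (i / 3) + i % 3 = i := by omega
  unfold EE
  generalize hq : i / 3 = q at *
  generalize ha : i % 3 = a at *
  subst h4
  zify at *
  rcases lt_or_gt_of_ne hij with h | h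
  · have : a = 0 ∨ a = 1 ∨ a = 2 := by omega
    rcases this with rfl | rfl | rfl <;> push_cast at * <;> nlinarith
  · have : a = 0 ∨ a = 1 ∨ a = 2 := by omega
    rcases this with rfl | rfl | rfl <;> push_cast at * <;> nlinarith

theorem g_eq {r n i j : ℕ} (hi : i < 3 * r) (hij : i / 3 = j) :
    2 * j * i + ww r n i = EE r n j := by
  have h1 := WW_add i
  have h2 := @ww_add r n i hi
  have h3 : i % 3 < 3 := Nat.mod_lt _ (by norm_num)
  have h4 : 3 * (i / 3) + i % 3 = i := by omega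
  unfold EE
  generalize hq : i / 3 = q at *
  generalize ha : i % 3 = a at *
  subst h4
  subst hij
  zify at *
  nlinarith

theorem n_lt {r n j k : ℕ} (hj : j < r) (hk : k ≤ n) : 2 * j * k < EE r n j := by
  unfold EE BB
  have h1 : 2 * j * k ≤ 2 * r * n := Nat.mul_le_mul (Nat.mul_le_mul_left _ hj.le) hk
  have : 2 * r * n < 3 * r ^ 2 + 4 * r + 2 * r * n + 1 := by
    have := Nat.zero_le (3 * r ^ 2 + 4 * r)
    omega
  omega

theorem tendsto_term (a : ℝ) {g E : ℕ} (h : g < E) :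
    Tendsto (fun R : ℝ => a * R ^ g / R ^ E) atTop (𝓝 0) := by
  have h1 : Tendsto (fun R : ℝ => R ^ g / R ^ E) atTop (𝓝 0) := tendsto_pow_div_pow_atTop_zero h
  have h2 := h1.const_mul a
  rw [mul_zero] at h2
  refine h2.congr fun R => ?_
  ring

theorem tendsto_term_eq (a : ℝ) (E : ℕ) :
    Tendsto (fun R : ℝ => a * R ^ E / R ^ E) atTop (𝓝 a) := by
  apply tendsto_const_nhds.congr'
  filter_upwards [eventually_gt_atTop 0] with R hR0
  rw [mul_div_assoc, div_self (pow_ne_zero _ hR0.ne'), mul_one]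

theorem poly_tendsto (P : Polynomial ℝ) (ρ : ℝ) (j E : ℕ)
    (h : ∀ k ≤ P.natDegree, 2 * j * k < E) :
    Tendsto (fun R : ℝ => P.eval (ρ * R ^ (2 * j)) / R ^ E) atTop (𝓝 0) := by
  have h1 : ∀ R : ℝ, P.eval (ρ * R ^ (2 * j)) / R ^ E =
      ∑ k ∈ Finset.range (P.natDegree + 1), (P.coeff k * ρ ^ k) * R ^ (2 * j * k) / R ^ E := by
    intro R
    rw [Polynomial.eval_eq_sum_range, Finset.sum_div]
    apply Finset.sum_congr rfl
    intro k _
    rw [mul_pow, ← pow_mul]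
    ring
  simp only [h1]
  have h2 : (0 : ℝ) = ∑ k ∈ Finset.range (P.natDegree + 1), (0 : ℝ) := by simp
  rw [h2]
  apply tendsto_finsetSum
  intro k hk
  apply tendsto_term
  apply h
  rw [Finset.mem_range] at hk
  omega

section block

variable (r : ℕ) (N0 : Polynomial ℝ) (j : ℕ) (c : ℕ → ℝ) (ρ : ℝ)

/-- numerator -/
noncomputable def num (α R : ℝ) : ℝ :=
  (Polynomial.X * N0.derivative - Polynomial.C α * N0).eval (ρ * R ^ (2 * j)) +
    ∑ i ∈ (Finset.range (3 * r)).filter (fun i => i ≠ 3 * j ∧ i ≠ 3 * j + 1),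
      ((i : ℝ) - α) * c i * ρ ^ i * R ^ (2 * j * i + ww r N0.natDegree i)

theorem num_tendsto (hj : j < r) (α : ℝ) :
    Tendsto (fun R => num r N0 j c ρ α R / R ^ EE r N0.natDegree j) atTop
      (𝓝 (((3 * j + 2 : ℕ) - α) * c (3 * j + 2) * ρ ^ (3 * j + 2))) := by
  have h1 : ∀ R, num r N0 j c ρ α R / R ^ EE r N0.natDegree j =
      (Polynomial.X * N0.derivative - Polynomial.C α * N0).eval (ρ * R ^ (2 * j)) /
        R ^ EE r N0.natDegree j +
      ∑ i ∈ (Finset.range (3 * r)).filter (fun i => i ≠ 3 * j ∧ i ≠ 3 * j + 1),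
      (((i : ℝ) - α) * c i * ρ ^ i) * R ^ (2 * j * i + ww r N0.natDegree i) /
        R ^ EE r N0.natDegree j := by
    intro R
    unfold num
    rw [add_div, Finset.sum_div]
  simp only [h1]
  have h2 : ((3 * j + 2 : ℕ) - α) * c (3 * j + 2) * ρ ^ (3 * j + 2) =
      0 + ∑ i ∈ (Finset.range (3 * r)).filter (fun i => i ≠ 3 * j ∧ i ≠ 3 * j + 1),
        if i = 3 * j + 2 then ((i : ℝ) - α) * c i * ρ ^ i else 0 := by
    rw [Finset.sum_ite_eq', if_pos, zero_add]
    rw [Finset.mem_filter, Finset.mem_range]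
    omega
  rw [h2]
  apply Tendsto.add
  · apply poly_tendsto
    intro k hk
    apply n_lt hj
    refine hk.trans ?_
    apply (Polynomial.natDegree_sub_le _ _).trans
    apply max_le
    · by_cases h0 : N0.natDegree = 0
      · have : N0.derivative = 0 := Polynomial.derivative_of_natDegree_zero h0
        rw [this, mul_zero, Polynomial.natDegree_zero]
        exact Nat.zero_le _
      · refine Polynomial.natDegree_mul_le.trans ?_
        rw [Polynomial.natDegree_X]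
        have := Polynomial.natDegree_derivative_lt h0
        omega
    · exact Polynomial.natDegree_C_mul_le _ _
  · apply tendsto_finsetSum
    intro i hi
    rw [Finset.mem_filter, Finset.mem_range] at hi
    split_ifs with h3
    · have := @g_eq r N0.natDegree i j hi.1 (by omega)
      rw [this]
      exact tendsto_term_eq _ _
    · exact tendsto_term _ (g_lt hi.1 (by omega))

/-- normalised coefficient vector -/
noncomputable def uu (R : ℝ) (i : ℕ) : ℝ :=
  if i = 3 * j then num r N0 j c ρ (3 * j + 1 : ℕ) R / R ^ EE r N0.natDegree j / ρ ^ (3 * j)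
  else if i = 3 * j + 1 then
    -(num r N0 j c ρ (3 * j : ℕ) R / R ^ EE r N0.natDegree j) / ρ ^ (3 * j + 1)
  else c i

theorem uu_tendsto (hj : j < r) (hρ : ρ ≠ 0) (c0 : c (3 * j) = c (3 * j + 2) * ρ ^ 2)
    (c1 : c (3 * j + 1) = -2 * c (3 * j + 2) * ρ) (i : ℕ) :
    Tendsto (fun R => uu r N0 j c ρ R i) atTop (𝓝 (c i)) := by
  unfold uu
  split_ifs with h1 h2
  · subst h1
    have := (num_tendsto r N0 j c ρ hj (3 * j + 1 : ℕ)).div_const (ρ ^ (3 * j))
    convert this using 2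
    rw [c0]
    push_cast
    field_simp
    ring
  · subst h2
    have := (num_tendsto r N0 j c ρ hj (3 * j : ℕ)).neg.div_const (ρ ^ (3 * j + 1))
    convert this using 2
    rw [c1]
    push_cast
    field_simp
    ring
  · exact tendsto_const_nhds

theorem sum_split (hj : j < r) (f : ℕ → ℝ) :
    ∑ i : Fin (3 * r), f i = f (3 * j) + f (3 * j + 1) +
      ∑ i ∈ (Finset.range (3 * r)).filter (fun i => i ≠ 3 * j ∧ i ≠ 3 * j + 1), f i := by
  rw [Fin.sum_univ_eq_sum_range f (3 * r)]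
  rw [← Finset.sum_filter_add_sum_filter_not (Finset.range (3 * r))
    (fun i => i ≠ 3 * j ∧ i ≠ 3 * j + 1), add_comm]
  congr 1
  have : (Finset.range (3 * r)).filter (fun i => ¬ (i ≠ 3 * j ∧ i ≠ 3 * j + 1)) =
      {3 * j, 3 * j + 1} := by
    ext i
    simp only [Finset.mem_filter, Finset.mem_range, Finset.mem_insert, Finset.mem_singleton]
    omega
  rw [this, Finset.sum_pair (by omega)]

theorem root0 (hj : j < r) (hρ : ρ ≠ 0) {R : ℝ} (hR : 0 < R) :
    N0.eval (ρ * R ^ (2 * j)) + ∑ i : Fin (3 * r),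
      (R ^ ww r N0.natDegree i * uu r N0 j c ρ R i) * (ρ * R ^ (2 * j)) ^ (i : ℕ) = 0 ∧
    N0.derivative.eval (ρ * R ^ (2 * j)) * (ρ * R ^ (2 * j)) + ∑ i : Fin (3 * r),
      ((i : ℕ) : ℝ) * ((R ^ ww r N0.natDegree i * uu r N0 j c ρ R i) *
        (ρ * R ^ (2 * j)) ^ (i : ℕ)) = 0 := by
  have hR' : R ^ EE r N0.natDegree j ≠ 0 := pow_ne_zero _ hR.ne'
  have e1 : ∀ i : ℕ, (R ^ ww r N0.natDegree i * uu r N0 j c ρ R i) * (ρ * R ^ (2 * j)) ^ i =
      uu r N0 j c ρ R i * ρ ^ i * R ^ (2 * j * i + ww r N0.natDegree i) := by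
    intro i
    rw [mul_pow, ← pow_mul, pow_add]
    ring
  have hu0 : uu r N0 j c ρ R (3 * j) * ρ ^ (3 * j) *
      R ^ (2 * j * (3 * j) + ww r N0.natDegree (3 * j)) = num r N0 j c ρ (3 * j + 1 : ℕ) R := by
    rw [@g_eq r N0.natDegree (3 * j) j (by omega) (by omega)]
    unfold uu
    rw [if_pos rfl]
    field_simp
  have hu1 : uu r N0 j c ρ R (3 * j + 1) * ρ ^ (3 * j + 1) *
      R ^ (2 * j * (3 * j + 1) + ww r N0.natDegree (3 * j + 1)) =
      - num r N0 j c ρ (3 * j : ℕ) R := by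
    rw [@g_eq r N0.natDegree (3 * j + 1) j (by omega) (by omega)]
    unfold uu
    rw [if_neg (by omega), if_pos rfl]
    field_simp
  have hu2 : ∀ i, i ≠ 3 * j ∧ i ≠ 3 * j + 1 → uu r N0 j c ρ R i = c i := by
    intro i hi
    unfold uu
    rw [if_neg hi.1, if_neg hi.2]
  have hs : ∀ α : ℝ, num r N0 j c ρ α R = N0.derivative.eval (ρ * R ^ (2 * j)) *
      (ρ * R ^ (2 * j)) - α * N0.eval (ρ * R ^ (2 * j)) +
      (∑ i ∈ (Finset.range (3 * r)).filter (fun i => i ≠ 3 * j ∧ i ≠ 3 * j + 1),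
        (i : ℝ) * (c i * ρ ^ i * R ^ (2 * j * i + ww r N0.natDegree i)) - α *
      ∑ i ∈ (Finset.range (3 * r)).filter (fun i => i ≠ 3 * j ∧ i ≠ 3 * j + 1),
        c i * ρ ^ i * R ^ (2 * j * i + ww r N0.natDegree i)) := by
    intro α
    unfold num
    rw [Finset.mul_sum, ← Finset.sum_sub_distrib]
    simp only [Polynomial.eval_sub, Polynomial.eval_mul, Polynomial.eval_X, Polynomial.eval_C]
    congr 1
    · ring
    · apply Finset.sum_congr rfl
      intro i _
      ring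
  have s1 : ∑ i ∈ (Finset.range (3 * r)).filter (fun i => i ≠ 3 * j ∧ i ≠ 3 * j + 1),
      (R ^ ww r N0.natDegree i * uu r N0 j c ρ R i) * (ρ * R ^ (2 * j)) ^ i =
      ∑ i ∈ (Finset.range (3 * r)).filter (fun i => i ≠ 3 * j ∧ i ≠ 3 * j + 1),
        c i * ρ ^ i * R ^ (2 * j * i + ww r N0.natDegree i) := by
    apply Finset.sum_congr rfl
    intro i hi
    rw [Finset.mem_filter] at hi
    rw [e1, hu2 i hi.2]
  have s2 : ∑ i ∈ (Finset.range (3 * r)).filter (fun i => i ≠ 3 * j ∧ i ≠ 3 * j + 1),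
      (i : ℝ) * ((R ^ ww r N0.natDegree i * uu r N0 j c ρ R i) * (ρ * R ^ (2 * j)) ^ i) =
      ∑ i ∈ (Finset.range (3 * r)).filter (fun i => i ≠ 3 * j ∧ i ≠ 3 * j + 1),
        (i : ℝ) * (c i * ρ ^ i * R ^ (2 * j * i + ww r N0.natDegree i)) := by
    apply Finset.sum_congr rfl
    intro i hi
    rw [Finset.mem_filter] at hi
    rw [e1, hu2 i hi.2]
  constructor
  · rw [sum_split r j hj (fun i : ℕ => (R ^ ww r N0.natDegree i * uu r N0 j c ρ R i) *
      (ρ * R ^ (2 * j)) ^ i), s1, e1, e1, hu0, hu1, hs, hs]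
    push_cast
    ring
  · rw [sum_split r j hj (fun i : ℕ => (i : ℝ) * ((R ^ ww r N0.natDegree i *
      uu r N0 j c ρ R i) * (ρ * R ^ (2 * j)) ^ i)), s2, e1, e1, hu0, hu1, hs, hs]
    push_cast
    ring

end block

/-- triples -/
def trip (r : ℕ) (j : Fin r) (a : Fin 3) : Fin (3 * r) := ⟨3 * j + a, by omega⟩

theorem trip_inj (r : ℕ) : Function.Injective (fun p : Fin r × Fin 3 => trip r p.1 p.2) := by
  rintro ⟨j, a⟩ ⟨j', a'⟩ h
  simp only [trip, Fin.mk.injEq] at h
  have h1 : (j : ℕ) = j' := by omega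
  have h2 : (a : ℕ) = a' := by omega
  rw [Prod.mk.injEq]
  exact ⟨Fin.ext h1, Fin.ext h2⟩

/-- **Monomial count.** -/
theorem root_card (r : ℕ) (N0 : Polynomial ℝ) (Q : MvPolynomial (Fin (3 * r)) ℝ) (hQ : Q ≠ 0)
    (h : ∀ (t : ℝ) (y : Fin (3 * r) → ℝ), t ≠ 0 →
      N0.eval t + ∑ i : Fin (3 * r), y i * t ^ (i : ℕ) = 0 →
      N0.derivative.eval t * t + ∑ i : Fin (3 * r), ((i : ℕ) : ℝ) * (y i * t ^ (i : ℕ)) = 0 →
      eval y Q = 0) : 2 ^ r ≤ Q.support.card := by
  classical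
  obtain ⟨W, hT, hW⟩ := exists_top (fun i : Fin (3 * r) => ww r N0.natDegree i) hQ
  refine le_trans ?_ (top_support (fun i : Fin (3 * r) => ww r N0.natDegree i) W Q)
  have := card_support (ι := Fin r) (trip r) (trip_inj r) Finset.univ _ hT ?_
  · simpa using this
  · intro j _ c κ ρ hρ h0 h1 h2
    let c' : ℕ → ℝ := fun i => if hi : i < 3 * r then c ⟨i, hi⟩ else 0
    have hc' : ∀ i : Fin (3 * r), c' i = c i := fun i => by simp [c']
    have e0 : c' (3 * j) = κ * ρ ^ 2 := by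
      rw [← h0, ← hc']; rfl
    have e1 : c' (3 * j + 1) = -2 * κ * ρ := by
      rw [← h1, ← hc']; rfl
    have e2 : c' (3 * j + 2) = κ := by
      rw [← h2, ← hc']; rfl
    apply top_vanish _ W Q hW (fun R i => uu r N0 j c' ρ R i)
    · intro i
      rw [← hc']
      apply uu_tendsto r N0 j c' ρ j.2 hρ
      · rw [e0, e2]
      · rw [e1, e2]
    · filter_upwards [eventually_gt_atTop 0] with R hR
      obtain ⟨r1, r2⟩ := root0 r N0 j c' ρ j.2 hρ hR
      exact h (ρ * R ^ (2 * (j : ℕ))) _ (mul_ne_zero hρ (pow_ne_zero _ hR.ne')) r1 r2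

end Pool.Agent.H694R2.Quad
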