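import Pool.Agent.H694R2.QuadSet
import Pool.Agent.H694R2.QuadRoot

set_option autoImplicit false

/-! Quantifier-free descriptions of the projection. -/

namespace Pool.Agent.H694R2.Quad

open MvPolynomial Filter Topology

/-- Quantifier-free formulas in the variables `Y_1, …, Y_m`: Boolean combinations of sign
conditions `Q > 0`, `Q = 0`, `Q < 0` on real polynomials. -/
inductive QF (m : ℕ) : Type
  | gt (Q : MvPolynomial (Fin m) ℝ) : QF m
  | eq (Q : MvPolynomial (Fin m) ℝ) : QF m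
  | lt (Q : MvPolynomial (Fin m) ℝ) : QF m
  | not (φ : QF m) : QF m
  | and (φ ψ : QF m) : QF m
  | or (φ ψ : QF m) : QF m

namespace QF

/-- The formula holds at the point `y`. -/
def Holds {m : ℕ} : QF m → (Fin m → ℝ) → Prop
  | gt Q, y => 0 < eval y Q
  | eq Q, y => eval y Q = 0
  | lt Q, y => eval y Q < 0
  | not φ, y => ¬ φ.Holds y
  | and φ ψ, y => φ.Holds y ∧ ψ.Holds y
  | or φ ψ, y => φ.Holds y ∨ ψ.Holds y

/-- The list of the polynomials of the sign conditions occurring in the formula. -/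
def polys {m : ℕ} : QF m → List (MvPolynomial (Fin m) ℝ)
  | gt Q => [Q]
  | eq Q => [Q]
  | lt Q => [Q]
  | not φ => φ.polys
  | and φ ψ => φ.polys ++ ψ.polys
  | or φ ψ => φ.polys ++ ψ.polys

/-- The total number of nonzero coefficients of the polynomials of the formula. -/
def size {m : ℕ} (φ : QF m) : ℕ := (φ.polys.map fun Q => Q.support.card).sum

theorem card_le_size {m : ℕ} {φ : QF m} {Q : MvPolynomial (Fin m) ℝ} (hQ : Q ∈ φ.polys) :
    Q.support.card ≤ φ.size := by
  unfold size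
  apply List.single_le_sum (fun _ _ => Nat.zero_le _)
  exact List.mem_map_of_mem hQ

theorem sign_atom {m : ℕ} {Q : MvPolynomial (Fin m) ℝ} {y : Fin m → ℝ}
    (h : Q ≠ 0 → eval y Q ≠ 0) : ∀ᶠ y' in 𝓝 y, (0 < eval y' Q ↔ 0 < eval y Q) ∧
      (eval y' Q = 0 ↔ eval y Q = 0) ∧ (eval y' Q < 0 ↔ eval y Q < 0) := by
  by_cases hQ : Q = 0
  · subst hQ
    filter_upwards with y'
    simp
  · have hc : ContinuousAt (fun y => eval y Q) y := (MvPolynomial.continuous_eval Q).continuousAt
    rcases lt_or_gt_of_ne (h hQ) with h1 | h1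
    · filter_upwards [hc.eventually_lt_const h1] with y' h2
      refine ⟨?_, ?_, ?_⟩
      · exact ⟨fun h => absurd h h2.le.not_gt, fun h => absurd h h1.le.not_gt⟩
      · exact ⟨fun h => absurd h h2.ne, fun h => absurd h h1.ne⟩
      · exact ⟨fun _ => h1, fun _ => h2⟩
    · filter_upwards [hc.eventually_const_lt h1] with y' h2
      refine ⟨?_, ?_, ?_⟩
      · exact ⟨fun _ => h1, fun _ => h2⟩
      · exact ⟨fun h => absurd h h2.ne', fun h => absurd h h1.ne'⟩
      · exact ⟨fun h => absurd h h2.le.not_gt, fun h => absurd h h1.le.not_gt⟩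

theorem locally_const {m : ℕ} (φ : QF m) (y : Fin m → ℝ)
    (h : ∀ Q ∈ φ.polys, Q ≠ 0 → eval y Q ≠ 0) : ∀ᶠ y' in 𝓝 y, (φ.Holds y' ↔ φ.Holds y) := by
  induction φ with
  | gt Q =>
    filter_upwards [sign_atom (h Q (by simp [polys]))] with y' h'
    exact h'.1
  | eq Q =>
    filter_upwards [sign_atom (h Q (by simp [polys]))] with y' h'
    exact h'.2.1
  | lt Q =>
    filter_upwards [sign_atom (h Q (by simp [polys]))] with y' h'
    exact h'.2.2
  | not φ ih =>
    filter_upwards [ih h] with y' h'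
    exact not_congr h'
  | and φ ψ ih1 ih2 =>
    filter_upwards [ih1 fun Q hQ => h Q (by simp [polys, hQ]),
      ih2 fun Q hQ => h Q (by simp [polys, hQ])] with y' h1 h2
    exact and_congr h1 h2
  | or φ ψ ih1 ih2 =>
    filter_upwards [ih1 fun Q hQ => h Q (by simp [polys, hQ]),
      ih2 fun Q hQ => h Q (by simp [polys, hQ])] with y' h1 h2
    exact or_congr h1 h2

end QF

/-- the projection -/
def projS (m : ℕ) : Set (Fin m → ℝ) := {y | ∃ x : Xi m → ℝ, Sum.elim x y ∈ SS m}

theorem root_of_double {m : ℕ} (i0 : Fin m) (hi0 : (i0 : ℕ) = 0) (φ : QF m)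
    (hφ : ∀ y, φ.Holds y ↔ y ∈ projS m) {y : Fin m → ℝ} {t : ℝ} (ht : 0 < t)
    (hy : ∑ i, y i ^ 2 ≤ 1) (h0 : Phi y t = 0) (h1 : Phi' y t = 0) :
    ∃ Q ∈ φ.polys, Q ≠ 0 ∧ eval y Q = 0 := by
  by_contra hno
  push Not at hno
  have hlc := φ.locally_const y hno
  have hmem : y ∈ projS m := exists_mem ht hy h0 h1
  have hcont : Tendsto (fun s : ℝ => Function.update y i0 (y i0 - s)) (𝓝[>] 0) (𝓝 y) := by
    have h2 : Continuous fun s : ℝ => Function.update y i0 (y i0 - s) :=
      continuous_const.update i0 (continuous_const.sub continuous_id)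
    have h3 := h2.tendsto 0
    simp only [sub_zero, Function.update_eq_self] at h3
    exact h3.mono_left nhdsWithin_le_nhds
  have h4 := hcont.eventually hlc
  have h5 : ∀ᶠ s : ℝ in 𝓝[>] 0, 0 < s := self_mem_nhdsWithin
  obtain ⟨s, hs1, hs2⟩ := (h4.and h5).exists
  rw [hφ, hφ] at hs1
  obtain ⟨x, hx⟩ := hs1.2 hmem
  have h6 := Phi_nonneg hx ht
  have h7 : (fun i => Sum.elim x (Function.update y i0 (y i0 - s)) (Sum.inr i)) =
      Function.update y i0 (y i0 - s) := rfl
  rw [h7, Phi_lower y i0 hi0 ht s, h0] at h6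
  have h8 : 0 < s / (Polynomial.eval t (Apol m)) := div_pos hs2 (Apol_pos m ht)
  linarith

/-! ### parametrisation -/

section param

variable {m : ℕ} (i0 i1 : Fin m)

/-- inner sum for `ψ_1` -/
noncomputable def psi1 : MvPolynomial (Fin m) ℝ :=
  -(Polynomial.aeval (X i0 : MvPolynomial (Fin m) ℝ) (N0 m).derivative +
    ∑ i ∈ (Finset.univ.erase i0).erase i1, C ((i : ℕ) : ℝ) * X i * X i0 ^ ((i : ℕ) - 1))

/-- `ψ_0` -/
noncomputable def psi0 : MvPolynomial (Fin m) ℝ :=
  -(Polynomial.aeval (X i0 : MvPolynomial (Fin m) ℝ) (N0 m) + psi1 i0 i1 * X i0 +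
    ∑ i ∈ (Finset.univ.erase i0).erase i1, X i * X i0 ^ (i : ℕ))

/-- parametrisation of the coefficient vectors with a double root -/
noncomputable def psi (i : Fin m) : MvPolynomial (Fin m) ℝ :=
  if i = i0 then psi0 i0 i1 else if i = i1 then psi1 i0 i1 else X i

theorem eval_aeval_poly (θ : Fin m → ℝ) (P : Polynomial ℝ) :
    eval θ (Polynomial.aeval (X i0 : MvPolynomial (Fin m) ℝ) P) = P.eval (θ i0) := by
  induction P using Polynomial.induction_on' with
  | add p q hp hq => rw [map_add, map_add, hp, hq, Polynomial.eval_add]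
  | monomial n a =>
    rw [Polynomial.aeval_monomial, map_mul, map_pow, eval_X, Polynomial.eval_monomial]
    congr 1
    exact eval_C _

theorem eval_psi1 (θ : Fin m → ℝ) : eval θ (psi1 i0 i1) = -((N0 m).derivative.eval (θ i0) +
    ∑ i ∈ (Finset.univ.erase i0).erase i1, ((i : ℕ) : ℝ) * θ i * θ i0 ^ ((i : ℕ) - 1)) := by
  unfold psi1
  rw [map_neg, map_add, eval_aeval_poly, map_sum]
  simp

theorem eval_psi0 (θ : Fin m → ℝ) : eval θ (psi0 i0 i1) = -((N0 m).eval (θ i0) +
    eval θ (psi1 i0 i1) * θ i0 +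
    ∑ i ∈ (Finset.univ.erase i0).erase i1, θ i * θ i0 ^ (i : ℕ)) := by
  unfold psi0
  rw [map_neg, map_add, map_add, map_mul, eval_aeval_poly, map_sum]
  simp

theorem sum_erase2 (h01 : i0 ≠ i1) (f : Fin m → ℝ) :
    ∑ i, f i = f i0 + (f i1 + ∑ i ∈ (Finset.univ.erase i0).erase i1, f i) := by
  rw [← Finset.add_sum_erase Finset.univ f (Finset.mem_univ i0),
    ← Finset.add_sum_erase (Finset.univ.erase i0) f
      (Finset.mem_erase.2 ⟨h01.symm, Finset.mem_univ i1⟩)]

theorem GG_eval' (y : Fin m → ℝ) (x : ℝ) :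
    (GG y).eval x = (N0 m).eval x + ∑ i, y i * x ^ (i : ℕ) := by
  unfold GG
  rw [Polynomial.eval_add, Polynomial.eval_finsetSum]
  simp

theorem GG_deriv_eval' (y : Fin m → ℝ) (x : ℝ) :
    (GG y).derivative.eval x = (N0 m).derivative.eval x +
      ∑ i : Fin m, ((i : ℕ) : ℝ) * y i * x ^ ((i : ℕ) - 1) := by
  unfold GG
  rw [Polynomial.derivative_add, Polynomial.derivative_sum, Polynomial.eval_add,
    Polynomial.eval_finsetSum]
  congr 1
  apply Finset.sum_congr rfl
  intro i _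
  rw [Polynomial.derivative_C_mul, Polynomial.derivative_X_pow]
  simp
  ring

theorem psi_root (hi0 : (i0 : ℕ) = 0) (hi1 : (i1 : ℕ) = 1) (θ : Fin m → ℝ) :
    (GG fun i => eval θ (psi i0 i1 i)).eval (θ i0) = 0 ∧
    (GG fun i => eval θ (psi i0 i1 i)).derivative.eval (θ i0) = 0 := by
  have h01 : i0 ≠ i1 := by
    intro h
    rw [h, hi1] at hi0
    exact one_ne_zero hi0
  have e0 : psi i0 i1 i0 = psi0 i0 i1 := by unfold psi; rw [if_pos rfl]
  have e1 : psi i0 i1 i1 = psi1 i0 i1 := by unfold psi; rw [if_neg h01.symm, if_pos rfl]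
  have e2 : ∀ i ∈ (Finset.univ.erase i0).erase i1, psi i0 i1 i = X i := by
    intro i hi
    rw [Finset.mem_erase, Finset.mem_erase] at hi
    unfold psi
    rw [if_neg hi.2.1, if_neg hi.1]
  rw [GG_eval', GG_deriv_eval', sum_erase2 i0 i1 h01, sum_erase2 i0 i1 h01]
  constructor
  · have s : ∑ i ∈ (Finset.univ.erase i0).erase i1, eval θ (psi i0 i1 i) * θ i0 ^ (i : ℕ) =
        ∑ i ∈ (Finset.univ.erase i0).erase i1, θ i * θ i0 ^ (i : ℕ) := by
      apply Finset.sum_congr rfl
      intro i hi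
      rw [e2 i hi, eval_X]
    rw [s, e0, e1, eval_psi0, hi0, hi1]
    ring
  · have s : ∑ i ∈ (Finset.univ.erase i0).erase i1,
        ((i : ℕ) : ℝ) * eval θ (psi i0 i1 i) * θ i0 ^ ((i : ℕ) - 1) =
        ∑ i ∈ (Finset.univ.erase i0).erase i1,
          ((i : ℕ) : ℝ) * θ i * θ i0 ^ ((i : ℕ) - 1) := by
      apply Finset.sum_congr rfl
      intro i hi
      rw [e2 i hi, eval_X]
    rw [s, e0, e1, eval_psi1, hi0, hi1]
    simp

theorem psi_surj (hi0 : (i0 : ℕ) = 0) (hi1 : (i1 : ℕ) = 1) {y : Fin m → ℝ} {t : ℝ}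
    (h0 : (GG y).eval t = 0) (h1 : (GG y).derivative.eval t = 0) :
    (fun i => eval (Function.update y i0 t) (psi i0 i1 i)) = y := by
  have h01 : i0 ≠ i1 := by
    intro h
    rw [h, hi1] at hi0
    exact one_ne_zero hi0
  have hne : ∀ i ∈ (Finset.univ.erase i0).erase i1, Function.update y i0 t i = y i := by
    intro i hi
    rw [Finset.mem_erase, Finset.mem_erase] at hi
    exact Function.update_of_ne hi.2.1 _ _
  rw [GG_eval', sum_erase2 i0 i1 h01] at h0
  rw [GG_deriv_eval', sum_erase2 i0 i1 h01] at h1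
  have g1 : eval (Function.update y i0 t) (psi1 i0 i1) = y i1 := by
    rw [eval_psi1, Function.update_self]
    have s : ∑ i ∈ (Finset.univ.erase i0).erase i1,
        ((i : ℕ) : ℝ) * Function.update y i0 t i * t ^ ((i : ℕ) - 1) =
        ∑ i ∈ (Finset.univ.erase i0).erase i1, ((i : ℕ) : ℝ) * y i * t ^ ((i : ℕ) - 1) := by
      apply Finset.sum_congr rfl
      intro i hi
      rw [hne i hi]
    rw [s]
    rw [hi0, hi1] at h1
    simp at h1
    linarith
  have g0 : eval (Function.update y i0 t) (psi0 i0 i1) = y i0 := by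
    rw [eval_psi0, g1, Function.update_self]
    have s : ∑ i ∈ (Finset.univ.erase i0).erase i1,
        Function.update y i0 t i * t ^ (i : ℕ) =
        ∑ i ∈ (Finset.univ.erase i0).erase i1, y i * t ^ (i : ℕ) := by
      apply Finset.sum_congr rfl
      intro i hi
      rw [hne i hi]
    rw [s]
    rw [hi0, hi1] at h0
    simp at h0
    linarith
  funext i
  unfold psi
  split_ifs with c1 c2
  · rw [c1, g0]
  · rw [c2, g1]
  · rw [eval_X, Function.update_of_ne c1]

/-- **Some polynomial of the formula vanishes on the whole discriminant.** -/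
theorem exists_vanish (hi0 : (i0 : ℕ) = 0) (hi1 : (i1 : ℕ) = 1) (φ : QF m)
    (hφ : ∀ y, φ.Holds y ↔ y ∈ projS m) :
    ∃ Q ∈ φ.polys, Q ≠ 0 ∧ ∀ (t : ℝ) (y : Fin m → ℝ), (GG y).eval t = 0 →
      (GG y).derivative.eval t = 0 → eval y Q = 0 := by
  classical
  have h01 : i0 ≠ i1 := by
    intro h
    rw [h, hi1] at hi0
    exact one_ne_zero hi0
  let θ0 : Fin m → ℝ := fun i => if i = i0 then 1 else 0
  have hθ0 : θ0 i0 = 1 := by simp [θ0]
  have hθ1 : ∀ i ∈ (Finset.univ.erase i0).erase i1, θ0 i = 0 := by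
    intro i hi
    rw [Finset.mem_erase, Finset.mem_erase] at hi
    simp [θ0, hi.2.1]
  have z1 : eval θ0 (psi1 i0 i1) = 0 := by
    rw [eval_psi1, hθ0, N0_deriv_one, Finset.sum_eq_zero]
    · simp
    · intro i hi
      rw [hθ1 i hi]; simp
  have z0 : eval θ0 (psi0 i0 i1) = 0 := by
    rw [eval_psi0, z1, hθ0, N0_one, Finset.sum_eq_zero]
    · simp
    · intro i hi
      rw [hθ1 i hi]; simp
  have zz : ∀ i, eval θ0 (psi i0 i1 i) = 0 := by
    intro i
    unfold psi
    split_ifs with c1 c2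
    · exact z0
    · exact z1
    · rw [eval_X]; simp [θ0, c1]
  -- the good open set
  have hU : ∀ᶠ θ in 𝓝 θ0, 0 < θ i0 ∧ ∑ i, (eval θ (psi i0 i1 i)) ^ 2 < 1 := by
    apply Filter.Eventually.and
    · have : ContinuousAt (fun θ : Fin m → ℝ => θ i0) θ0 := (continuous_apply i0).continuousAt
      apply this.eventually_const_lt
      change (0 : ℝ) < θ0 i0
      rw [hθ0]; exact one_pos
    · have : ContinuousAt (fun θ : Fin m → ℝ => ∑ i, (eval θ (psi i0 i1 i)) ^ 2) θ0 := by
        apply Continuous.continuousAt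
        apply continuous_finsetSum
        intro i _
        exact (MvPolynomial.continuous_eval _).pow 2
      apply this.eventually_lt_const
      simp only [zz]
      simp
  rw [Metric.eventually_nhds_iff] at hU
  obtain ⟨ε, hε, hU⟩ := hU
  -- the product vanishes on a box
  let Pr : MvPolynomial (Fin m) ℝ := ((φ.polys.filter (fun Q => Q ≠ 0)).map (bind₁ (psi i0 i1))).prod
  have hPr : Pr = 0 := by
    apply MvPolynomial.funext_set (fun i => Set.Ioo (θ0 i - ε / 2) (θ0 i + ε / 2))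
    · intro i
      apply Set.Ioo_infinite
      linarith
    · intro θ hθ
      rw [map_zero]
      have hd : dist θ θ0 < ε := by
        rw [dist_pi_lt_iff hε]
        intro i
        have := hθ i (Set.mem_univ _)
        simp only [Set.mem_Ioo] at this
        rw [Real.dist_eq, abs_lt]
        constructor <;> linarith
      obtain ⟨u1, u2⟩ := hU hd
      obtain ⟨r0', r1'⟩ := psi_root i0 i1 hi0 hi1 θ
      obtain ⟨p0, p1⟩ := Phi_of_GG u1 r0' r1'
      obtain ⟨Q, hQ, hQ0, hQe⟩ := root_of_double i0 hi0 φ hφ u1 u2.le p0 p1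
      simp only [Pr]
      rw [map_list_prod, List.prod_eq_zero_iff]
      rw [List.map_map, List.mem_map]
      refine ⟨Q, ?_, ?_⟩
      · rw [List.mem_filter]
        exact ⟨hQ, by simpa using hQ0⟩
      · rw [Function.comp_apply, ← hQe]
        have := MvPolynomial.eval₂Hom_bind₁ (RingHom.id ℝ) θ (psi i0 i1) Q
        exact this
  have h2 : (0 : MvPolynomial (Fin m) ℝ) ∈
      (φ.polys.filter (fun Q => Q ≠ 0)).map (bind₁ (psi i0 i1)) := by
    rw [← List.prod_eq_zero_iff]
    exact hPr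
  rw [List.mem_map] at h2
  obtain ⟨Q, hQ, hQ0⟩ := h2
  rw [List.mem_filter] at hQ
  refine ⟨Q, hQ.1, by simpa using hQ.2, ?_⟩
  intro t y g0 g1
  have h3 := psi_surj i0 i1 hi0 hi1 g0 g1
  have h4 := MvPolynomial.eval₂Hom_bind₁ (RingHom.id ℝ) (Function.update y i0 t) (psi i0 i1) Q
  have h5 : eval (fun i => eval (Function.update y i0 t) (psi i0 i1 i)) Q = 0 := by
    have h6 : eval (Function.update y i0 t) (bind₁ (psi i0 i1) Q) = 0 := by
      rw [hQ0, map_zero]
    rw [← h6]
    exact h4.symm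
  rw [h3] at h5
  exact h5

end param

/-- **Exponential lower bound.** -/
theorem exp_lower {r : ℕ} (hr : 1 ≤ r) (φ : QF (3 * r))
    (hφ : ∀ y, φ.Holds y ↔ y ∈ projS (3 * r)) : ∃ Q ∈ φ.polys, 2 ^ r ≤ Q.support.card := by
  obtain ⟨Q, hQ, hQ0, h⟩ := exists_vanish (⟨0, by omega⟩ : Fin (3 * r)) ⟨1, by omega⟩ rfl rfl φ hφ
  refine ⟨Q, hQ, root_card r (N0 (3 * r)) Q hQ0 ?_⟩
  intro t y ht g0 g1
  apply h t y
  · rw [GG_eval']; exact g0
  · rw [GG_deriv_eval']
    have : ((N0 (3 * r)).derivative.eval t +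
        ∑ i : Fin (3 * r), ((i : ℕ) : ℝ) * y i * t ^ ((i : ℕ) - 1)) * t = 0 := by
      rw [add_mul, Finset.sum_mul, ← g1]
      congr 1
      apply Finset.sum_congr rfl
      intro i _
      rcases Nat.eq_zero_or_pos (i : ℕ) with hi | hi
      · rw [hi]; simp
      · obtain ⟨n, hn⟩ := Nat.exists_eq_succ_of_ne_zero hi.ne'
        rw [hn]
        simp only [Nat.succ_eq_add_one, Nat.add_sub_cancel]
        ring
    exact (mul_eq_zero.1 this).resolve_right ht

end Pool.Agent.H694R2.Quad
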