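import Pool.Agent.H694R2.QuadGeo

set_option autoImplicit false

/-! The four quadratic inequalities. -/

namespace Pool.Agent.H694R2.Quad

open MvPolynomial

section

variable {m : ℕ}

/-- index type of the variables to be eliminated -/
abbrev Xi (m : ℕ) : Type := Option (Fin m × Option (Fin m))

/-- the vector `b_l` -/
noncomputable def bb (y : Fin m → ℝ) (z : ℝ) (l : Fin m) : Option (Fin m) → ℝ
  | none => z
  | some i => y i + kap l i / 2

theorem bb_normsq {y : Fin m → ℝ} {z : ℝ} (h : z ^ 2 + ∑ i, y i ^ 2 = 1) (l : Fin m) :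
    ∑ o, bb y z l o ^ 2 = Bl y l := by
  rw [Fintype.sum_option]
  unfold Bl Kc
  simp only [bb]
  have h1 : ∑ i, (y i + kap l i / 2) ^ 2 = ∑ i, y i ^ 2 + (∑ i, kap l i * y i +
      ∑ i, kap l i ^ 2 / 4) := by
    rw [← Finset.sum_add_distrib, ← Finset.sum_add_distrib]
    apply Finset.sum_congr rfl
    intro i _
    ring
  rw [h1]
  linarith

/-- variables -/
noncomputable def vz : MvPolynomial (Xi m ⊕ Fin m) ℝ := X (Sum.inl none)
/-- variables -/
noncomputable def vy (i : Fin m) : MvPolynomial (Xi m ⊕ Fin m) ℝ := X (Sum.inr i)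
/-- variables -/
noncomputable def vx (l : Fin m) (o : Option (Fin m)) : MvPolynomial (Xi m ⊕ Fin m) ℝ :=
  X (Sum.inl (some (l, o)))
/-- `b_l` as polynomials -/
noncomputable def vb (l : Fin m) : Option (Fin m) → MvPolynomial (Xi m ⊕ Fin m) ℝ
  | none => vz
  | some i => vy i + C (kap l i / 2)

/-- first inequality -/
noncomputable def P1 : MvPolynomial (Xi m ⊕ Fin m) ℝ := C 1 - (vz * vz + ∑ i, vy i * vy i)
/-- second inequality -/
noncomputable def P2 : MvPolynomial (Xi m ⊕ Fin m) ℝ := (vz * vz + ∑ i, vy i * vy i) - C 1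
/-- third inequality -/
noncomputable def P3 : MvPolynomial (Xi m ⊕ Fin m) ℝ := C (r0 m) - ∑ l, ∑ o, vx l o * vx l o
/-- fourth inequality -/
noncomputable def P4 : MvPolynomial (Xi m ⊕ Fin m) ℝ := C (-c0 m) -
  ∑ l, (nd l • (∑ o, vx l o * vx l o) - (2 : ℝ) • ∑ o, vb l o * vx l o)

theorem eval_vb (p : Xi m ⊕ Fin m → ℝ) (l : Fin m) (o : Option (Fin m)) :
    eval p (vb l o) = bb (fun i => p (Sum.inr i)) (p (Sum.inl none)) l o := by
  cases o with
  | none => simp [vb, bb, vz]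
  | some i => simp [vb, bb, vy]

theorem eval_P1 (p : Xi m ⊕ Fin m → ℝ) : eval p P1 =
    1 - (p (Sum.inl none) ^ 2 + ∑ i, p (Sum.inr i) ^ 2) := by
  simp [P1, vz, vy, pow_two]

theorem eval_P2 (p : Xi m ⊕ Fin m → ℝ) : eval p P2 =
    (p (Sum.inl none) ^ 2 + ∑ i, p (Sum.inr i) ^ 2) - 1 := by
  simp [P2, vz, vy, pow_two]

theorem eval_P3 (p : Xi m ⊕ Fin m → ℝ) : eval p P3 =
    r0 m - ∑ l, ∑ o, p (Sum.inl (some (l, o))) ^ 2 := by
  simp [P3, vx, pow_two]

theorem eval_P4 (p : Xi m ⊕ Fin m → ℝ) : eval p P4 =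
    -c0 m - ∑ l, (nd l * (∑ o, p (Sum.inl (some (l, o))) ^ 2) -
      2 * ∑ o, bb (fun i => p (Sum.inr i)) (p (Sum.inl none)) l o * p (Sum.inl (some (l, o)))) := by
  simp only [P4, map_sub, map_sum, eval_C, smul_eval, map_mul, eval_vb]
  simp [vx, pow_two]

theorem deg_le_one_X (a : Xi m ⊕ Fin m) :
    (X a : MvPolynomial (Xi m ⊕ Fin m) ℝ) ∈ restrictTotalDegree (Xi m ⊕ Fin m) ℝ 1 := by
  rw [mem_restrictTotalDegree]
  exact (totalDegree_X a).le

theorem deg_le_C (n : ℕ) (a : ℝ) :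
    (C a : MvPolynomial (Xi m ⊕ Fin m) ℝ) ∈ restrictTotalDegree (Xi m ⊕ Fin m) ℝ n := by
  rw [mem_restrictTotalDegree, totalDegree_C]
  exact Nat.zero_le _

theorem deg_mul {p q : MvPolynomial (Xi m ⊕ Fin m) ℝ}
    (hp : p ∈ restrictTotalDegree (Xi m ⊕ Fin m) ℝ 1)
    (hq : q ∈ restrictTotalDegree (Xi m ⊕ Fin m) ℝ 1) :
    p * q ∈ restrictTotalDegree (Xi m ⊕ Fin m) ℝ 2 := by
  rw [mem_restrictTotalDegree] at *
  exact (totalDegree_mul _ _).trans (by omega)

theorem deg_sphere : (vz * vz + ∑ i, vy i * vy i : MvPolynomial (Xi m ⊕ Fin m) ℝ) ∈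
    restrictTotalDegree (Xi m ⊕ Fin m) ℝ 2 := by
  apply Submodule.add_mem
  · exact deg_mul (deg_le_one_X _) (deg_le_one_X _)
  · exact Submodule.sum_mem _ fun i _ => deg_mul (deg_le_one_X _) (deg_le_one_X _)

theorem deg_P1 : (P1 : MvPolynomial (Xi m ⊕ Fin m) ℝ).totalDegree ≤ 2 := by
  rw [← mem_restrictTotalDegree]
  exact Submodule.sub_mem _ (deg_le_C _ _) deg_sphere

theorem deg_P2 : (P2 : MvPolynomial (Xi m ⊕ Fin m) ℝ).totalDegree ≤ 2 := by
  rw [← mem_restrictTotalDegree]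
  exact Submodule.sub_mem _ deg_sphere (deg_le_C _ _)

theorem deg_P3 : (P3 : MvPolynomial (Xi m ⊕ Fin m) ℝ).totalDegree ≤ 2 := by
  rw [← mem_restrictTotalDegree]
  exact Submodule.sub_mem _ (deg_le_C _ _) (Submodule.sum_mem _ fun l _ =>
    Submodule.sum_mem _ fun o _ => deg_mul (deg_le_one_X _) (deg_le_one_X _))

theorem deg_vb (l : Fin m) (o : Option (Fin m)) :
    vb l o ∈ restrictTotalDegree (Xi m ⊕ Fin m) ℝ 1 := by
  cases o with
  | none => exact deg_le_one_X _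
  | some i => exact Submodule.add_mem _ (deg_le_one_X _) (deg_le_C _ _)

theorem deg_P4 : (P4 : MvPolynomial (Xi m ⊕ Fin m) ℝ).totalDegree ≤ 2 := by
  rw [← mem_restrictTotalDegree]
  refine Submodule.sub_mem _ (deg_le_C _ _) (Submodule.sum_mem _ fun l _ =>
    Submodule.sub_mem _ ?_ ?_)
  · exact Submodule.smul_mem _ _ (Submodule.sum_mem _ fun o _ =>
      deg_mul (deg_le_one_X _) (deg_le_one_X _))
  · exact Submodule.smul_mem _ _ (Submodule.sum_mem _ fun o _ =>
      deg_mul (deg_vb l o) (deg_le_one_X _))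

/-- the system -/
noncomputable def PP : Fin 4 → MvPolynomial (Xi m ⊕ Fin m) ℝ := ![P1, P2, P3, P4]

theorem deg_PP (i : Fin 4) : (PP i : MvPolynomial (Xi m ⊕ Fin m) ℝ).totalDegree ≤ 2 := by
  fin_cases i
  · exact deg_P1
  · exact deg_P2
  · exact deg_P3
  · exact deg_P4

/-- the set defined by the system -/
def SS (m : ℕ) : Set (Xi m ⊕ Fin m → ℝ) := {p | ∀ i, 0 ≤ eval p (PP i)}

theorem mem_SS {p : Xi m ⊕ Fin m → ℝ} : p ∈ SS m ↔
    p (Sum.inl none) ^ 2 + ∑ i, p (Sum.inr i) ^ 2 = 1 ∧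
    ∑ l, ∑ o, p (Sum.inl (some (l, o))) ^ 2 ≤ r0 m ∧ c0 m + ∑ l, (nd l *
      (∑ o, p (Sum.inl (some (l, o))) ^ 2) - 2 * ∑ o, bb (fun i => p (Sum.inr i))
      (p (Sum.inl none)) l o * p (Sum.inl (some (l, o)))) ≤ 0 := by
  have h1 := eval_P1 p
  have h2 := eval_P2 p
  have h3 := eval_P3 p
  have h4 := eval_P4 p
  constructor
  · intro h
    have g1 : 0 ≤ eval p P1 := h 0
    have g2 : 0 ≤ eval p P2 := h 1
    have g3 : 0 ≤ eval p P3 := h 2
    have g4 : 0 ≤ eval p P4 := h 3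
    refine ⟨?_, ?_, ?_⟩
    · apply le_antisymm <;> linarith
    · linarith
    · linarith
  · rintro ⟨g1, g2, g3⟩ i
    fin_cases i
    · change 0 ≤ eval p P1
      linarith
    · change 0 ≤ eval p P2
      linarith
    · change 0 ≤ eval p P3
      linarith
    · change 0 ≤ eval p P4
      linarith

/-- **Weak duality.** -/
theorem Phi_nonneg {p : Xi m ⊕ Fin m → ℝ} (hp : p ∈ SS m) {t : ℝ} (ht : 0 < t) :
    0 ≤ Phi (fun i => p (Sum.inr i)) t := by
  obtain ⟨h1, h2, h3⟩ := mem_SS.1 hp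
  set y : Fin m → ℝ := fun i => p (Sum.inr i) with hy
  set z := p (Sum.inl none) with hz
  set x : Fin m → Option (Fin m) → ℝ := fun l o => p (Sum.inl (some (l, o))) with hx
  have h3' : c0 m + ∑ l, (nd l * (∑ o, x l o ^ 2) - 2 * ∑ o, bb y z l o * x l o) ≤ 0 := h3
  have h2' : ∑ l, ∑ o, x l o ^ 2 ≤ r0 m := h2
  have key : ∀ l, 2 * ∑ o, bb y z l o * x l o ≤ (nd l + t) * ∑ o, x l o ^ 2 +
      Bl y l / (nd l + t) := by
    intro l
    rw [← bb_normsq h1 l, Finset.mul_sum, Finset.mul_sum, Finset.sum_div,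
      ← Finset.sum_add_distrib]
    apply Finset.sum_le_sum
    intro o _
    have hpos : 0 < nd l + t := by have := nd_pos l; positivity
    have h5 : (nd l + t) * x l o ^ 2 + bb y z l o ^ 2 / (nd l + t) -
        2 * (bb y z l o * x l o) = ((nd l + t) * x l o - bb y z l o) ^ 2 / (nd l + t) := by
      field_simp
      ring
    have h6 : 0 ≤ ((nd l + t) * x l o - bb y z l o) ^ 2 / (nd l + t) := by positivity
    linarith
  have h4 : ∑ l, 2 * ∑ o, bb y z l o * x l o ≤ ∑ l, ((nd l + t) * ∑ o, x l o ^ 2 +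
      Bl y l / (nd l + t)) := Finset.sum_le_sum fun l _ => key l
  rw [Finset.sum_add_distrib] at h4
  rw [Finset.sum_sub_distrib] at h3'
  have h5 : ∑ l, (nd l + t) * ∑ o, x l o ^ 2 = ∑ l, nd l * ∑ o, x l o ^ 2 +
      t * ∑ l, ∑ o, x l o ^ 2 := by
    rw [Finset.mul_sum, ← Finset.sum_add_distrib]
    apply Finset.sum_congr rfl
    intro l _
    ring
  have h6 : t * ∑ l, ∑ o, x l o ^ 2 ≤ t * r0 m := mul_le_mul_of_nonneg_left h2' ht.le
  unfold Phi
  linarith

/-- **Membership.** -/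
theorem exists_mem {y : Fin m → ℝ} {t : ℝ} (ht : 0 < t) (hy : ∑ i, y i ^ 2 ≤ 1)
    (h0 : Phi y t = 0) (h1 : Phi' y t = 0) : ∃ x : Xi m → ℝ, Sum.elim x y ∈ SS m := by
  set z : ℝ := Real.sqrt (1 - ∑ i, y i ^ 2) with hz
  have hzz : z ^ 2 + ∑ i, y i ^ 2 = 1 := by
    rw [hz, Real.sq_sqrt (by linarith)]; ring
  let x : Xi m → ℝ := fun a => match a with
    | none => z
    | some (l, o) => bb y z l o / (nd l + t)
  refine ⟨x, mem_SS.2 ⟨hzz, ?_, ?_⟩⟩
  · have e1 : ∀ l, ∑ o, (Sum.elim x y (Sum.inl (some (l, o)))) ^ 2 =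
        Bl y l / (nd l + t) ^ 2 := by
      intro l
      rw [← bb_normsq hzz l, Finset.sum_div]
      apply Finset.sum_congr rfl
      intro o _
      rw [Sum.elim_inl, ← div_pow]
    simp only [e1]
    unfold Phi' at h1
    linarith
  · have e1 : ∀ l, (nd l * (∑ o, (Sum.elim x y (Sum.inl (some (l, o)))) ^ 2) -
        2 * ∑ o, bb y z l o * (Sum.elim x y (Sum.inl (some (l, o))))) =
        -(Bl y l / (nd l + t)) - t * (Bl y l / (nd l + t) ^ 2) := by
      intro l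
      have hpos : 0 < nd l + t := by have := nd_pos l; positivity
      have e2 : -(Bl y l / (nd l + t)) - t * (Bl y l / (nd l + t) ^ 2) =
          nd l * (Bl y l / (nd l + t) ^ 2) - 2 * (Bl y l / (nd l + t)) := by
        field_simp
        ring
      rw [e2, ← bb_normsq hzz l, Finset.sum_div, Finset.sum_div]
      congr 1
      · congr 1
        apply Finset.sum_congr rfl
        intro o _
        rw [Sum.elim_inl, ← div_pow]
      · congr 1
        apply Finset.sum_congr rfl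
        intro o _
        rw [Sum.elim_inl]
        change bb y z l o * (bb y z l o / (nd l + t)) = _
        ring
    change c0 m + ∑ l, (nd l * (∑ o, (Sum.elim x y (Sum.inl (some (l, o)))) ^ 2) -
        2 * ∑ o, bb y z l o * (Sum.elim x y (Sum.inl (some (l, o))))) ≤ 0
    simp only [e1]
    rw [Finset.sum_sub_distrib, Finset.sum_neg_distrib, ← Finset.mul_sum]
    unfold Phi at h0
    unfold Phi' at h1
    have : t * ∑ l, Bl y l / (nd l + t) ^ 2 = t * r0 m := by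
      congr 1
      linarith
    linarith

theorem SS_bound {p : Xi m ⊕ Fin m → ℝ} (hp : p ∈ SS m) (a : Xi m ⊕ Fin m) :
    |p a| ≤ r0 m + 1 := by
  obtain ⟨h1, h2, _⟩ := mem_SS.1 hp
  have hr : 0 ≤ r0 m := by
    unfold r0
    apply Finset.sum_nonneg
    intro l _
    have := Kc_pos l
    positivity
  rw [abs_le]
  rcases a with (_ | ⟨l, o⟩) | i
  · have : 0 ≤ ∑ i, p (Sum.inr i) ^ 2 := Finset.sum_nonneg fun i _ => sq_nonneg _
    constructor <;> nlinarith
  · have g1 : p (Sum.inl (some (l, o))) ^ 2 ≤ ∑ o, p (Sum.inl (some (l, o))) ^ 2 :=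
      Finset.single_le_sum (f := fun o => p (Sum.inl (some (l, o))) ^ 2)
        (fun o _ => sq_nonneg _) (Finset.mem_univ o)
    have g2 : ∑ o, p (Sum.inl (some (l, o))) ^ 2 ≤ ∑ l, ∑ o, p (Sum.inl (some (l, o))) ^ 2 :=
      Finset.single_le_sum (f := fun l => ∑ o, p (Sum.inl (some (l, o))) ^ 2)
        (fun l _ => Finset.sum_nonneg fun o _ => sq_nonneg _) (Finset.mem_univ l)
    constructor <;> nlinarith
  · have g1 : p (Sum.inr i) ^ 2 ≤ ∑ i, p (Sum.inr i) ^ 2 :=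
      Finset.single_le_sum (f := fun i => p (Sum.inr i) ^ 2)
        (fun o _ => sq_nonneg _) (Finset.mem_univ i)
    constructor <;> nlinarith [sq_nonneg (p (Sum.inl none))]

end

end Pool.Agent.H694R2.Quad
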