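import Mathlib

set_option autoImplicit false

namespace Pool.Agent.H694R2.Stab

theorem asym_bound (s : ℕ → ℕ) (h1 : ∀ d, 1 ≤ s d)
    (h2 : ∀ d k : ℕ, 13 * ((2 * k + 1) * 2 ^ k) ≤ d → 4 ^ k ≤ s d * (4 * k + 3) ^ 2) :
    ∀ d : ℕ, 2 ≤ d → (d : ℝ) ^ 2 / (10 ^ 6 * Real.log d ^ 4) ≤ s d := by
  intro d hd
  have hlog2 : (0.69 : ℝ) < Real.log 2 := by
    have := Real.log_two_gt_d9
    linarith
  have hlogd : Real.log 2 ≤ Real.log d := Real.log_le_log (by norm_num) (by exact_mod_cast hd)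
  have hlpos : 0 < Real.log d := by linarith
  by_cases h13 : 13 ≤ d
  · classical
    let P : ℕ → Prop := fun k => 13 * ((2 * k + 1) * 2 ^ k) ≤ d
    have hP0 : P 0 := by simp only [P]; simpa using h13
    set k := Nat.findGreatest P d with hk
    have hPk : P k := Nat.findGreatest_spec (Nat.zero_le d) hP0
    have hkd : 2 ^ k ≤ d := by
      have : 2 ^ k ≤ 13 * ((2 * k + 1) * 2 ^ k) := by
        have h0 : 0 < 2 ^ k := by positivity
        nlinarith
      exact this.trans hPk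
    have hk1 : k + 1 ≤ d := by
      have := Nat.lt_two_pow_self (n := k)
      omega
    have hnot : ¬ P (k + 1) := Nat.findGreatest_is_greatest (P := P) (n := d) (Nat.lt_succ_self k) hk1
    have hlt : d < 13 * ((2 * (k + 1) + 1) * 2 ^ (k + 1)) := not_le.1 hnot
    have hs := h2 d k hPk
    -- real versions
    have e1 : (d : ℝ) < 26 * (2 * k + 3) * 2 ^ k := by
      have : (d : ℝ) < 13 * ((2 * (k + 1) + 1) * 2 ^ (k + 1)) := by exact_mod_cast hlt
      calc (d : ℝ) < _ := this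
        _ = _ := by ring
    have e2 : (4 : ℝ) ^ k ≤ s d * (4 * k + 3) ^ 2 := by exact_mod_cast hs
    have e3 : (k : ℝ) * Real.log 2 ≤ Real.log d := by
      rw [← Real.log_pow]
      exact Real.log_le_log (by positivity) (by exact_mod_cast hkd)
    have hk0 : (0 : ℝ) ≤ k := Nat.cast_nonneg k
    have e4 : (k : ℝ) * 0.69 ≤ Real.log d := by nlinarith
    have e5 : (2 : ℝ) ≤ Real.log d := by
      rw [Real.le_log_iff_exp_le (by positivity)]
      have h3 := Real.exp_one_lt_d9
      have h4 : Real.exp 2 = Real.exp 1 * Real.exp 1 := by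
        rw [← Real.exp_add]; norm_num
      rw [h4]
      have h5 : (13 : ℝ) ≤ d := by exact_mod_cast h13
      have h6 := Real.exp_pos 1
      nlinarith
    have e6 : (2 * (k : ℝ) + 3) ≤ 4.4 * Real.log d := by nlinarith
    have e7 : (4 * (k : ℝ) + 3) ≤ 7.3 * Real.log d := by nlinarith
    have e8 : (d : ℝ) ^ 2 ≤ (26 * (2 * k + 3) * 2 ^ k) ^ 2 := by
      have : (0 : ℝ) ≤ d := Nat.cast_nonneg d
      gcongr
    have e9 : ((26 * (2 * (k : ℝ) + 3) * 2 ^ k) ^ 2) = 676 * (2 * k + 3) ^ 2 * 4 ^ k := by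
      have : (4 : ℝ) ^ k = 2 ^ k * 2 ^ k := by
        rw [← mul_pow]; norm_num
      rw [this]; ring
    rw [div_le_iff₀ (by positivity)]
    calc (d : ℝ) ^ 2 ≤ 676 * (2 * k + 3) ^ 2 * 4 ^ k := by rw [← e9]; exact e8
      _ ≤ 676 * (4.4 * Real.log d) ^ 2 * (s d * (7.3 * Real.log d) ^ 2) := by
          gcongr
          exact e2.trans (by gcongr)
      _ = s d * (676 * 4.4 ^ 2 * 7.3 ^ 2 * Real.log d ^ 4) := by ring
      _ ≤ s d * (10 ^ 6 * Real.log d ^ 4) := by
          gcongr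
          norm_num
  · have h5 : (1 : ℝ) ≤ s d := by exact_mod_cast h1 d
    refine le_trans ?_ h5
    rw [div_le_one (by positivity)]
    have h6 : (d : ℝ) ≤ 12 := by
      have : d ≤ 12 := by omega
      exact_mod_cast this
    have h7 : (0.69 : ℝ) ^ 4 ≤ Real.log d ^ 4 := by
      gcongr
      linarith
    have h8 : (0 : ℝ) ≤ d := Nat.cast_nonneg d
    nlinarith

theorem asym_tendsto (s : ℕ → ℕ)
    (h : ∀ d : ℕ, 2 ≤ d → (d : ℝ) ^ 2 / (10 ^ 6 * Real.log d ^ 4) ≤ s d) :
    Filter.Tendsto (fun d : ℕ => (s d : ℝ) / d) Filter.atTop Filter.atTop := by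
  have h1 : Filter.Tendsto (fun x : ℝ => Real.log x ^ 4 / x) Filter.atTop (nhds 0) := by
    have := (Real.isLittleO_pow_log_id_atTop (n := 4)).tendsto_div_nhds_zero
    simpa using this
  have h2 : Filter.Tendsto (fun x : ℝ => Real.log x ^ 4 / x) Filter.atTop (nhdsWithin 0 (Set.Ioi 0)) := by
    rw [tendsto_nhdsWithin_iff]
    refine ⟨h1, ?_⟩
    filter_upwards [Filter.eventually_gt_atTop 1] with x hx
    have := Real.log_pos hx
    have hx0 : 0 < x := by linarith
    exact Set.mem_Ioi.2 (by positivity)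
  have h3 := h2.inv_tendsto_nhdsGT_zero
  have h4 : Filter.Tendsto (fun x : ℝ => (10 ^ 6)⁻¹ * (Real.log x ^ 4 / x)⁻¹) Filter.atTop Filter.atTop :=
    Filter.Tendsto.const_mul_atTop (by norm_num) h3
  have h5 := h4.comp tendsto_natCast_atTop_atTop
  refine Filter.tendsto_atTop_mono' _ ?_ h5
  filter_upwards [Filter.eventually_ge_atTop 2] with d hd
  have h6 := h d hd
  have hd0 : (0 : ℝ) < d := by
    have : 0 < d := by omega
    exact_mod_cast this
  simp only [Function.comp_apply]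
  rw [le_div_iff₀ hd0]
  refine le_trans (le_of_eq ?_) h6
  rw [inv_div]
  have hl : 0 < Real.log d := Real.log_pos (by exact_mod_cast hd)
  field_simp

end Pool.Agent.H694R2.Stab
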