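import Mathlib

set_option autoImplicit false

/-! Vectors determined up to a scalar by the Pauli operators fixing them. -/

namespace Pool.Agent.H694R2.Stab

abbrev F := ZMod 2

/-- the sign of a bit -/
noncomputable def sg (a : F) : ℂ := if a = 0 then 1 else -1

theorem sg_zero : sg 0 = 1 := by simp [sg]
theorem sg_one : sg 1 = -1 := by simp [sg]

theorem F_cases (a : F) : a = 0 ∨ a = 1 := by revert a; decide

theorem sg_add (a b : F) : sg (a + b) = sg a * sg b := by
  rcases F_cases a with rfl | rfl <;> rcases F_cases b with rfl | rfl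
  · simp [sg_zero]
  · simp [sg_zero, sg_one]
  · simp [sg_zero, sg_one]
  · have : (1 : F) + 1 = 0 := by decide
    rw [this, sg_zero, sg_one]; norm_num

theorem sg_mul_self (a : F) : sg a * sg a = 1 := by
  rcases F_cases a with rfl | rfl
  · simp [sg_zero]
  · simp [sg_one]

theorem sg_ne (a : F) : sg a ≠ 0 := by
  intro h
  have := sg_mul_self a
  rw [h] at this
  norm_num at this

section

variable {E : Type} [AddCommGroup E] [Module F E]

abbrev Du (E : Type) [AddCommGroup E] [Module F E] := E →ₗ[F] F

theorem add_self' (a : E) : a + a = 0 := by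
  have : (2 : F) • a = 0 := by
    have h : (2 : F) = 0 := by decide
    rw [h, zero_smul]
  rwa [two_smul] at this

/-- `T` is fixed by the Pauli operator `ω X^a Z^b` -/
def Fx (ω : ℂ) (a : E) (b : Du E) (T : E → ℂ) : Prop := ∀ x, ω * sg (b x) * T (x + a) = T x

theorem Fx.comp {ω ω' : ℂ} {a a' : E} {b b' : Du E} {T : E → ℂ} (h : Fx ω a b T)
    (h' : Fx ω' a' b' T) : Fx (ω * ω' * sg (b' a)) (a + a') (b + b') T := by
  intro x
  have h1 := h x
  have h2 := h' (x + a)
  rw [← h2] at h1
  rw [← h1]
  simp only [LinearMap.add_apply, map_add, sg_add, add_assoc]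
  ring

theorem Fx.unique {ω ω' : ℂ} {a : E} {b : Du E} {T : E → ℂ} (hT : T ≠ 0) (h : Fx ω a b T)
    (h' : Fx ω' a b T) : ω = ω' := by
  obtain ⟨x, hx⟩ := Function.ne_iff.1 hT
  have h1 := h x
  have h2 := h' x
  have h3 : T (x + a) ≠ 0 := by
    intro h0
    rw [h0, mul_zero] at h1
    exact hx h1.symm
  have h4 : ω * (sg (b x) * T (x + a)) = ω' * (sg (b x) * T (x + a)) := by
    rw [← mul_assoc, ← mul_assoc, h1, h2]
  exact mul_right_cancel₀ (mul_ne_zero (sg_ne _) h3) h4

theorem Fx.one (T : E → ℂ) : Fx 1 0 0 T := by
  intro x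
  simp [sg_zero]

theorem Fx.sq {ω : ℂ} {a : E} {b : Du E} {T : E → ℂ} (hT : T ≠ 0) (h : Fx ω a b T) :
    ω * ω * sg (b a) = 1 := by
  have h1 := h.comp h
  rw [add_self', add_self'] at h1
  exact h1.unique hT (Fx.one T)

/-- the vector is determined up to a scalar by its Pauli symmetries -/
def Good (T : E → ℂ) : Prop :=
  ∀ T' : E → ℂ, (∀ ω a b, Fx ω a b T → Fx ω a b T') → ∃ c : ℂ, T' = c • T

theorem good_zero_aux {T' : E → ℂ} (h : ∀ ω (a : E) (b : Du E), Fx ω a b (0 : E → ℂ) → Fx ω a b T') :
    T' = 0 := by
  have h1 := h 2 0 0 (by intro x; simp)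
  funext x
  have h2 := h1 x
  simp only [LinearMap.zero_apply, sg_zero, add_zero, mul_one] at h2
  have : T' x = 0 := by linear_combination h2
  simpa using this

open Classical in
/-- the phase with which `X^a Z^b` fixes `T` (zero if it does not) -/
noncomputable def om (T : E → ℂ) (a : E) (b : Du E) : ℂ :=
  if h : ∃ ω, Fx ω a b T then h.choose else 0

theorem om_spec {T : E → ℂ} {a : E} {b : Du E} (h : ∃ ω, Fx ω a b T) : Fx (om T a b) a b T := by
  unfold om
  rw [dif_pos h]
  exact h.choose_spec

theorem om_eq {T : E → ℂ} (hT : T ≠ 0) {ω : ℂ} {a : E} {b : Du E} (h : Fx ω a b T) :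
    om T a b = ω := (om_spec ⟨ω, h⟩).unique hT h

theorem om_add {T : E → ℂ} (hT : T ≠ 0) {ω' : ℂ} {a' : E} {b' : Du E} (h' : Fx ω' a' b' T)
    (a : E) (b : Du E) : om T (a + a') (b + b') = ω' * om T a b * sg (b a') := by
  by_cases h : ∃ ω, Fx ω a b T
  · have h1 := h'.comp (om_spec h)
    rw [add_comm a' a, add_comm b' b] at h1
    rw [om_eq hT h1]
  · have h2 : ¬ ∃ ω, Fx ω (a + a') (b + b') T := by
      rintro ⟨ω, hω⟩
      apply h
      have h3 := hω.comp h'
      rw [add_assoc, add_assoc, add_self', add_self', add_zero, add_zero] at h3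
      exact ⟨_, h3⟩
    have e1 : om T (a + a') (b + b') = 0 := by unfold om; rw [dif_neg h2]
    have e2 : om T a b = 0 := by unfold om; rw [dif_neg h]
    rw [e1, e2, mul_zero, zero_mul]

variable [Fintype E]

instance : Finite (Du E) :=
  Finite.of_injective (fun f : Du E => (f : E → F)) DFunLike.coe_injective

noncomputable instance : Fintype (Du E) := Fintype.ofFinite _

/-- the (unnormalised) projection to the vectors with the symmetries of `T` -/
noncomputable def proj (T T1 : E → ℂ) : E → ℂ :=
  fun x => ∑ p : E × Du E, om T p.1 p.2 * sg (p.2 x) * T1 (x + p.1)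

theorem proj_fixed {T : E → ℂ} (hT : T ≠ 0) (T1 : E → ℂ) {ω' : ℂ} {a' : E} {b' : Du E}
    (h' : Fx ω' a' b' T) : Fx ω' a' b' (proj T T1) := by
  intro x
  unfold proj
  rw [Finset.mul_sum]
  refine Fintype.sum_equiv (Equiv.addRight ((a', b') : E × Du E)) _ _ ?_
  rintro ⟨a, b⟩
  simp only [Equiv.coe_addRight, Prod.mk_add_mk]
  rw [om_add hT h', LinearMap.add_apply, sg_add, map_add, sg_add]
  have e : x + a' + a = x + (a + a') := by abel
  rw [e]
  ring

theorem proj_eq {T : E → ℂ} (hT : T ≠ 0) (hG : Good T) (T1 : E → ℂ) : ∃ c : ℂ, proj T T1 = c • T :=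
  hG _ fun _ _ _ h => proj_fixed hT T1 h

end

section closure

variable {E E' : Type} [AddCommGroup E] [Module F E] [AddCommGroup E'] [Module F E']

/-- multiplication by a character -/
theorem Good.char {T : E → ℂ} (hG : Good T) (c : Du E) : Good (fun x => sg (c x) * T x) := by
  intro T' h
  have h1 := hG (fun x => sg (c x) * T' x) (by
    intro ω a b hF
    have h2 : Fx (ω * sg (c a)) a b (fun x => sg (c x) * T x) := by
      intro x
      have := hF x
      simp only [map_add, sg_add]
      rw [← this]
      have h3 := sg_mul_self (c a)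
      calc ω * sg (c a) * sg (b x) * (sg (c x) * sg (c a) * T (x + a))
          = (sg (c a) * sg (c a)) * (ω * sg (b x) * (sg (c x) * T (x + a))) := by ring
        _ = _ := by rw [h3]; ring
    have h4 := h _ _ _ h2
    intro x
    have := h4 x
    simp only [map_add, sg_add]
    rw [← this]
    ring)
  obtain ⟨l, hl⟩ := h1
  refine ⟨l, ?_⟩
  funext x
  have := congrFun hl x
  simp only [Pi.smul_apply, smul_eq_mul] at this ⊢
  have h3 := sg_mul_self (c x)
  calc T' x = (sg (c x) * sg (c x)) * T' x := by rw [h3, one_mul]
    _ = sg (c x) * (sg (c x) * T' x) := by ring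
    _ = _ := by rw [this]; ring

variable [Fintype E]

/-- pull back along an affine map -/
theorem Good.pull {T : E → ℂ} (hG : Good T) (L : E' →ₗ[F] E) (c : E) :
    Good (fun y => T (L y + c)) := by
  classical
  intro T'' h
  by_cases hT : T = 0
  · subst hT
    refine ⟨0, ?_⟩
    rw [zero_smul]
    exact good_zero_aux h
  have hker : ∀ y a', L a' = 0 → T'' (y + a') = T'' y := by
    intro y a' ha
    have h1 := h 1 a' 0 (by intro x; simp [ha, sg_zero])
    have := h1 y
    simpa [sg_zero] using this
  let T1 : E → ℂ := fun x => if hx : ∃ y, L y + c = x then T'' hx.choose else 0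
  have hT1 : ∀ y, T1 (L y + c) = T'' y := by
    intro y
    have hx : ∃ y', L y' + c = L y + c := ⟨y, rfl⟩
    simp only [T1]
    rw [dif_pos hx]
    have h1 := hx.choose_spec
    have h2 : L hx.choose = L y := add_right_cancel h1
    have h3 := hker y (hx.choose - y) (by rw [map_sub, h2, sub_self])
    rwa [add_sub_cancel] at h3
  obtain ⟨l, hl⟩ := proj_eq hT hG T1
  -- number of symmetries translating along the image
  let n0 : ℕ := (Finset.univ.filter (fun p : E × Du E =>
    (∃ ω, Fx ω p.1 p.2 T) ∧ ∃ a', L a' = p.1)).card
  have hn0 : n0 ≠ 0 := by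
    apply Finset.card_ne_zero.2
    refine ⟨(0, 0), ?_⟩
    simp only [Finset.mem_filter, Finset.mem_univ, true_and]
    exact ⟨⟨1, Fx.one T⟩, 0, map_zero L⟩
  have key : ∀ y, proj T T1 (L y + c) = n0 * T'' y := by
    intro y
    unfold proj
    have h1 : ∀ p : E × Du E, om T p.1 p.2 * sg (p.2 (L y + c)) * T1 (L y + c + p.1) =
        if (∃ ω, Fx ω p.1 p.2 T) ∧ ∃ a', L a' = p.1 then T'' y else 0 := by
      rintro ⟨a, b⟩
      simp only
      split_ifs with hc
      · obtain ⟨hF, a', rfl⟩ := hc
        have hF' := om_spec hF
        have e1 : L y + c + L a' = L (y + a') + c := by rw [map_add]; abel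
        rw [e1, hT1]
        have h2 : Fx (om T (L a') b * sg (b c)) a' (b.comp L) (fun y => T (L y + c)) := by
          intro z
          have := hF' (L z + c)
          simp only [LinearMap.comp_apply]
          rw [← this, map_add, map_add, sg_add]
          have e2 : L z + c + L a' = L z + L a' + c := by abel
          rw [e2]
          ring
        have h3 := h _ _ _ h2 y
        simp only [LinearMap.comp_apply] at h3
        rw [map_add, sg_add, ← h3]
        ring
      · by_cases hF : ∃ ω, Fx ω a b T
        · have hno : ¬ ∃ a', L a' = a := fun hh => hc ⟨hF, hh⟩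
          have : T1 (L y + c + a) = 0 := by
            simp only [T1]
            rw [dif_neg]
            rintro ⟨z, hz⟩
            apply hno
            refine ⟨z - y, ?_⟩
            rw [map_sub]
            have : L z = L y + a := by
              have h5 : L z + c = (L y + a) + c := by rw [hz]; abel
              exact add_right_cancel h5
            rw [this]; abel
          rw [this, mul_zero]
        · have : om T a b = 0 := by unfold om; rw [dif_neg hF]
          rw [this, zero_mul, zero_mul]
    rw [Finset.sum_congr rfl (fun p _ => h1 p), ← Finset.sum_filter, Finset.sum_const,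
      nsmul_eq_mul]
  refine ⟨l / n0, ?_⟩
  funext y
  have h1 := key y
  rw [hl] at h1
  simp only [Pi.smul_apply, smul_eq_mul] at h1 ⊢
  have : (n0 : ℂ) ≠ 0 := by exact_mod_cast hn0
  field_simp
  linear_combination -h1

open Classical in
/-- push forward along a linear map -/
noncomputable def push (L : E →ₗ[F] E') (T : E → ℂ) : E' → ℂ :=
  fun y => ∑ x ∈ Finset.univ.filter (fun x => L x = y), T x

theorem Good.push {T : E → ℂ} (hG : Good T) (L : E →ₗ[F] E') : Good (push L T) := by
  classical
  intro T'' h
  by_cases hT : T = 0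
  · subst hT
    refine ⟨0, ?_⟩
    rw [zero_smul]
    have e0 : Stab.push L (0 : E → ℂ) = 0 := by
      funext y; simp [Stab.push]
    rw [e0] at h
    exact good_zero_aux h
  -- transfer of symmetries
  have htr : ∀ ω a (b' : Du E'), Fx ω a (b'.comp L) T → Fx ω (L a) b' (Stab.push L T) := by
    intro ω a b' hF y
    unfold Stab.push
    rw [Finset.mul_sum]
    refine Finset.sum_bij' (fun x _ => x + a) (fun x _ => x + a) ?_ ?_ ?_ ?_ ?_
    · intro x hx
      simp only [Finset.mem_filter, Finset.mem_univ, true_and] at hx ⊢
      rw [map_add, hx, add_assoc, add_self', add_zero]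
    · intro x hx
      simp only [Finset.mem_filter, Finset.mem_univ, true_and] at hx ⊢
      rw [map_add, hx]
    · intro x _
      rw [add_assoc, add_self', add_zero]
    · intro x _
      rw [add_assoc, add_self', add_zero]
    · intro x hx
      simp only [Finset.mem_filter, Finset.mem_univ, true_and] at hx
      have := hF (x + a)
      simp only [LinearMap.comp_apply, map_add, hx] at this
      have e : b' y + b' (L a) + b' (L a) = b' y := by rw [add_assoc, add_self', add_zero]
      rw [add_assoc x, add_self', add_zero, e] at this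
      exact this
  -- support of T''
  have hsupp : ∀ y, (¬ ∃ x, L x = y) → T'' y = 0 := by
    intro y hy
    have hy' : y ∉ LinearMap.range L := by
      rintro ⟨x, hx⟩
      exact hy ⟨x, hx⟩
    obtain ⟨b', hb1, hb2⟩ := Submodule.exists_le_ker_of_notMem hy'
    have hcomp : b'.comp L = 0 := by
      ext x
      simp only [LinearMap.comp_apply, LinearMap.zero_apply]
      exact hb2 ⟨x, rfl⟩
    have h1 := htr 1 0 b' (by rw [hcomp]; exact Fx.one T)
    have h2 := h _ _ _ h1 y
    rw [map_zero, add_zero, one_mul] at h2
    have h3 : b' y = 1 := by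
      rcases F_cases (b' y) with h4 | h4
      · exact absurd h4 hb1
      · exact h4
    rw [h3, sg_one] at h2
    linear_combination (-1 / 2 : ℂ) * h2
  obtain ⟨l, hl⟩ := proj_eq hT hG (fun x => T'' (L x))
  let kc : ℕ := (Finset.univ.filter (fun x : E => L x = 0)).card
  have hkc : kc ≠ 0 := by
    apply Finset.card_ne_zero.2
    exact ⟨0, by simp⟩
  let n1 : ℕ := (Finset.univ.filter (fun p : E × Du E =>
    (∃ ω, Fx ω p.1 p.2 T) ∧ ∃ b' : Du E', b'.comp L = p.2)).card
  have hn1 : n1 ≠ 0 := by
    apply Finset.card_ne_zero.2
    refine ⟨(0, 0), ?_⟩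
    simp only [Finset.mem_filter, Finset.mem_univ, true_and]
    exact ⟨⟨1, Fx.one T⟩, 0, by ext; simp⟩
  have key : ∀ x0, Stab.push L (proj T (fun x => T'' (L x))) (L x0) = (kc * n1) * T'' (L x0) := by
    intro x0
    unfold Stab.push proj
    rw [Finset.sum_comm]
    have h1 : ∀ p : E × Du E, ∑ x ∈ Finset.univ.filter (fun x => L x = L x0),
        om T p.1 p.2 * sg (p.2 x) * T'' (L (x + p.1)) =
        if (∃ ω, Fx ω p.1 p.2 T) ∧ ∃ b' : Du E', b'.comp L = p.2 then kc * T'' (L x0) else 0 := by
      rintro ⟨a, b⟩
      simp only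
      -- the sum over the fibre
      have h2 : ∑ x ∈ Finset.univ.filter (fun x => L x = L x0),
          om T a b * sg (b x) * T'' (L (x + a)) =
          om T a b * T'' (L (x0 + a)) * (sg (b x0) *
            ∑ k ∈ Finset.univ.filter (fun k : E => L k = 0), sg (b k)) := by
        rw [Finset.mul_sum, Finset.mul_sum]
        refine Finset.sum_bij' (fun x _ => x + x0) (fun k _ => k + x0) ?_ ?_ ?_ ?_ ?_
        · intro x hx
          simp only [Finset.mem_filter, Finset.mem_univ, true_and] at hx ⊢
          rw [map_add, hx, add_self']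
        · intro x hx
          simp only [Finset.mem_filter, Finset.mem_univ, true_and] at hx ⊢
          rw [map_add, hx, zero_add]
        · intro x _
          rw [add_assoc, add_self', add_zero]
        · intro x _
          rw [add_assoc, add_self', add_zero]
        · intro x hx
          simp only [Finset.mem_filter, Finset.mem_univ, true_and] at hx
          rw [map_add, hx, map_add, map_add, sg_add]
          have := sg_mul_self (b x0)
          calc om T a b * sg (b x) * T'' (L x0 + L a)
              = (sg (b x0) * sg (b x0)) * (om T a b * sg (b x) * T'' (L x0 + L a)) := by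
                rw [this, one_mul]
            _ = _ := by ring
      rw [h2]
      by_cases hb : ∃ k, L k = 0 ∧ b k = 1
      · -- the character is nontrivial on the kernel
        obtain ⟨k, hk, hbk⟩ := hb
        have h3 : ∑ k ∈ Finset.univ.filter (fun k : E => L k = 0), sg (b k) = 0 := by
          have h4 : ∑ x ∈ Finset.univ.filter (fun k : E => L k = 0), sg (b x) =
              - ∑ x ∈ Finset.univ.filter (fun k : E => L k = 0), sg (b x) := by
            rw [← Finset.sum_neg_distrib]
            refine Finset.sum_bij' (fun x _ => x + k) (fun x _ => x + k) ?_ ?_ ?_ ?_ ?_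
            · intro x hx
              simp only [Finset.mem_filter, Finset.mem_univ, true_and] at hx ⊢
              rw [map_add, hx, hk, add_zero]
            · intro x hx
              simp only [Finset.mem_filter, Finset.mem_univ, true_and] at hx ⊢
              rw [map_add, hx, hk, add_zero]
            · intro x _
              rw [add_assoc, add_self', add_zero]
            · intro x _
              rw [add_assoc, add_self', add_zero]
            · intro x _
              rw [map_add, sg_add, hbk, sg_one]
              ring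
          linear_combination (1 / 2 : ℂ) * h4
        rw [h3, mul_zero, mul_zero, if_neg]
        rintro ⟨-, b', hb'⟩
        rw [← hb', LinearMap.comp_apply, hk, map_zero] at hbk
        exact zero_ne_one hbk
      · push Not at hb
        have hb0 : ∀ k, L k = 0 → b k = 0 := fun k hk =>
          (F_cases (b k)).resolve_right (hb k hk)
        have h3 : ∑ k ∈ Finset.univ.filter (fun k : E => L k = 0), sg (b k) = kc := by
          rw [Finset.sum_congr rfl (g := fun _ => (1 : ℂ))]
          · rw [Finset.sum_const, nsmul_eq_mul, mul_one]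
          · intro x hx
            rw [Finset.mem_filter] at hx
            rw [hb0 x hx.2, sg_zero]
        rw [h3]
        have hex : ∃ b' : Du E', b'.comp L = b := by
          have : b ∈ LinearMap.range L.dualMap := by
            rw [LinearMap.range_dualMap_eq_dualAnnihilator_ker, Submodule.mem_dualAnnihilator]
            intro w hw
            exact hb0 w hw
          obtain ⟨b', hb'⟩ := this
          exact ⟨b', hb'⟩
        by_cases hF : ∃ ω, Fx ω a b T
        · rw [if_pos ⟨hF, hex⟩]
          obtain ⟨b', rfl⟩ := hex
          have h5 := h _ _ _ (htr _ _ _ (om_spec hF)) (L x0)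
          rw [map_add]
          simp only [LinearMap.comp_apply] at h5 ⊢
          rw [← h5]
          ring
        · rw [if_neg (fun hh => hF hh.1)]
          have : om T a b = 0 := by unfold om; rw [dif_neg hF]
          rw [this, zero_mul, zero_mul]
    rw [Finset.sum_congr rfl (fun p _ => h1 p), ← Finset.sum_filter, Finset.sum_const,
      nsmul_eq_mul]
    ring
  refine ⟨l / (kc * n1), ?_⟩
  have hne : ((kc : ℂ) * n1) ≠ 0 := mul_ne_zero (by exact_mod_cast hkc) (by exact_mod_cast hn1)
  funext y
  by_cases hy : ∃ x0, L x0 = y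
  · obtain ⟨x0, rfl⟩ := hy
    have h1 := key x0
    rw [hl] at h1
    have h2 : Stab.push L (l • T) (L x0) = l * Stab.push L T (L x0) := by
      unfold Stab.push
      rw [Finset.mul_sum]
      rfl
    rw [h2] at h1
    simp only [Pi.smul_apply, smul_eq_mul]
    rw [div_mul_eq_mul_div, eq_div_iff hne]
    linear_combination -h1
  · rw [hsupp y hy]
    have : Stab.push L T y = 0 := by
      unfold Stab.push
      rw [Finset.filter_eq_empty_iff.2, Finset.sum_empty]
      intro x _ hx
      exact hy ⟨x, hx⟩
    simp [this]

end closure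

end Pool.Agent.H694R2.Stab
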