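import Mathlib
import Pool.Agent.H694R2.StabGood

set_option autoImplicit false

namespace Pool.Agent.H694R2.Stab

/-! ### zero-one vectors in a subspace -/

/-- the zero-one vector attached to a Boolean function -/
noncomputable def zo {ι : Type} (x : ι → Bool) : ι → ℂ := fun i => if x i then 1 else 0

theorem zo_inj {ι : Type} : Function.Injective (zo (ι := ι)) := by
  intro x y h
  funext i
  have := congrFun h i
  unfold zo at this
  cases hx : x i <;> cases hy : y i <;> simp [hx, hy] at this <;> rfl

open Classical in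
theorem zo_count {ι : Type} [Fintype ι] (r : ℕ) : ∀ (W : Submodule ℂ (ι → ℂ)) (u : ι → ℂ),
    Module.finrank ℂ W ≤ r →
    (Finset.univ.filter (fun x : ι → Bool => zo x - u ∈ W)).card ≤ 2 ^ r := by
  induction r with
  | zero =>
    intro W u hW
    have hW0 : W = ⊥ := by
      rw [← Submodule.finrank_eq_zero (R := ℂ)]
      omega
    rw [pow_zero, Finset.card_le_one]
    intro x hx y hy
    simp only [Finset.mem_filter, Finset.mem_univ, true_and, hW0, Submodule.mem_bot] at hx hy
    apply zo_inj
    rw [sub_eq_zero.1 hx, sub_eq_zero.1 hy]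
  | succ r ih =>
    intro W u hW
    by_cases hW0 : W = ⊥
    · have h1 : (Finset.univ.filter (fun x : ι → Bool => zo x - u ∈ W)).card ≤ 1 := by
        rw [Finset.card_le_one]
        intro x hx y hy
        simp only [Finset.mem_filter, Finset.mem_univ, true_and, hW0, Submodule.mem_bot] at hx hy
        apply zo_inj
        rw [sub_eq_zero.1 hx, sub_eq_zero.1 hy]
      exact h1.trans Nat.one_le_two_pow
    obtain ⟨w, hw, hw0⟩ := Submodule.exists_mem_ne_zero_of_ne_bot hW0
    obtain ⟨j, hj⟩ := Function.ne_iff.1 hw0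
    let W0 : Submodule ℂ (ι → ℂ) := W ⊓ LinearMap.ker (LinearMap.proj (R := ℂ) (φ := fun _ : ι => ℂ) j)
    have hlt : W0 < W := by
      refine lt_of_le_of_ne inf_le_left ?_
      intro h
      have : w ∈ W0 := by rw [h]; exact hw
      have h2 := this.2
      rw [SetLike.mem_coe, LinearMap.mem_ker] at h2
      exact hj h2
    have hfr : Module.finrank ℂ W0 ≤ r := by
      have := Submodule.finrank_lt_finrank_of_lt hlt
      omega
    have hA : ∀ c : Bool, (Finset.univ.filter
        (fun x : ι → Bool => zo x - u ∈ W ∧ x j = c)).card ≤ 2 ^ r := by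
      intro c
      by_cases hne : (Finset.univ.filter (fun x : ι → Bool => zo x - u ∈ W ∧ x j = c)).Nonempty
      · obtain ⟨x0, hx0⟩ := hne
        simp only [Finset.mem_filter, Finset.mem_univ, true_and] at hx0
        refine (Finset.card_le_card ?_).trans (ih W0 (zo x0) hfr)
        intro x hx
        simp only [Finset.mem_filter, Finset.mem_univ, true_and] at hx ⊢
        refine ⟨?_, ?_⟩
        · have := W.sub_mem hx.1 hx0.1
          have e : zo x - zo x0 = zo x - u - (zo x0 - u) := by abel
          rw [e]; exact this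
        · rw [SetLike.mem_coe, LinearMap.mem_ker, LinearMap.proj_apply, Pi.sub_apply]
          unfold zo
          rw [hx.2, hx0.2, sub_self]
      · rw [Finset.not_nonempty_iff_eq_empty.1 hne]
        simp
    have hsub : Finset.univ.filter (fun x : ι → Bool => zo x - u ∈ W) ⊆
        Finset.univ.filter (fun x : ι → Bool => zo x - u ∈ W ∧ x j = true) ∪
        Finset.univ.filter (fun x : ι → Bool => zo x - u ∈ W ∧ x j = false) := by
      intro x hx
      simp only [Finset.mem_union, Finset.mem_filter, Finset.mem_univ, true_and] at hx ⊢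
      cases h : x j
      · exact Or.inr ⟨hx, rfl⟩
      · exact Or.inl ⟨hx, rfl⟩
    calc _ ≤ _ := Finset.card_le_card hsub
      _ ≤ _ := Finset.card_union_le _ _
      _ ≤ 2 ^ r + 2 ^ r := Nat.add_le_add (hA true) (hA false)
      _ = 2 ^ (r + 1) := by ring

/-! ### encoding of good vectors -/

section

variable {E : Type} [AddCommGroup E] [Module F E]

abbrev Dat (E : Type) [AddCommGroup E] [Module F E] (D : ℕ) : Type := Fin D → (Fin 4 × (E × Du E))

/-- common fixed space -/
noncomputable def FixSp {D : ℕ} (h : Dat E D) : Submodule ℂ (E → ℂ) where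
  carrier := {T | ∀ i, Fx (Complex.I ^ (h i).1.val) (h i).2.1 (h i).2.2 T}
  zero_mem' := by intro i x; simp
  add_mem' := by
    intro T T' hT hT' i x
    have h1 := hT i x
    have h2 := hT' i x
    simp only [Pi.add_apply]
    rw [← h1, ← h2]; ring
  smul_mem' := by
    intro c T hT i x
    have h1 := hT i x
    simp only [Pi.smul_apply, smul_eq_mul]
    rw [← h1]; ring

theorem mem_FixSp {D : ℕ} (h : Dat E D) (T : E → ℂ) :
    T ∈ FixSp h ↔ ∀ i, Fx (Complex.I ^ (h i).1.val) (h i).2.1 (h i).2.2 T := Iff.rfl

/-- the subspace of symmetries -/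
def symm (T : E → ℂ) : Submodule F (E × Du E) where
  carrier := {p | ∃ ω, Fx ω p.1 p.2 T}
  zero_mem' := ⟨1, Fx.one T⟩
  add_mem' := by
    rintro p q ⟨ω, h⟩ ⟨ω', h'⟩
    exact ⟨_, h.comp h'⟩
  smul_mem' := by
    rintro c p ⟨ω, h⟩
    rcases F_cases c with rfl | rfl
    · rw [zero_smul]; exact ⟨1, Fx.one T⟩
    · rw [one_smul]; exact ⟨ω, h⟩

theorem exists_pow_I {ω : ℂ} (h : ω * ω * (ω * ω) = 1) : ∃ ε : Fin 4, ω = Complex.I ^ ε.val := by
  have h1 : (ω - 1) * ((ω + 1) * ((ω - Complex.I) * (ω + Complex.I))) = 0 := by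
    have hI : Complex.I * Complex.I = -1 := Complex.I_mul_I
    linear_combination h - (ω * ω - 1) * hI
  rcases mul_eq_zero.1 h1 with h2 | h2
  · exact ⟨0, by simp; linear_combination h2⟩
  rcases mul_eq_zero.1 h2 with h3 | h3
  · refine ⟨2, ?_⟩
    have : Complex.I ^ ((2 : Fin 4) : ℕ) = -1 := by
      change Complex.I ^ 2 = -1
      exact Complex.I_sq
    rw [this]; linear_combination h3
  rcases mul_eq_zero.1 h3 with h4 | h4
  · refine ⟨1, ?_⟩
    have : Complex.I ^ ((1 : Fin 4) : ℕ) = Complex.I := by
      change Complex.I ^ 1 = Complex.I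
      exact pow_one _
    rw [this]; linear_combination h4
  · refine ⟨3, ?_⟩
    have : Complex.I ^ ((3 : Fin 4) : ℕ) = -Complex.I := by
      change Complex.I ^ 3 = -Complex.I
      rw [pow_succ, Complex.I_sq]; ring
    rw [this]; linear_combination h4

variable [Fintype E]

theorem exists_dat {D : ℕ} (hD : Module.finrank F (E × Du E) ≤ D) {T : E → ℂ} (hT : T ≠ 0)
    (hG : Good T) : ∃ h : Dat E D, FixSp h = Submodule.span ℂ {T} := by
  classical
  haveI : Finite (E × Du E) := inferInstance
  haveI : Module.Finite F (E × Du E) := Module.Finite.of_finite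
  let S := symm T
  have hfS : Module.finrank F S ≤ D := (Submodule.finrank_le S).trans hD
  let bs := Module.finBasis F S
  let g : Fin D → S := fun i => if h : (i : ℕ) < Module.finrank F S then bs ⟨i, h⟩ else 0
  have hspan : Submodule.span F (Set.range g) = ⊤ := by
    rw [eq_top_iff, ← bs.span_eq]
    apply Submodule.span_mono
    rintro _ ⟨j, rfl⟩
    refine ⟨⟨j, j.2.trans_le hfS⟩, ?_⟩
    simp [g]
  -- phases
  have hph : ∀ p : S, ∃ ε : Fin 4, Fx (Complex.I ^ ε.val) (p : E × Du E).1 (p : E × Du E).2 T := by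
    intro p
    obtain ⟨ω, hω⟩ := p.2
    have h1 := hω.sq hT
    have h2 : ω * ω * (ω * ω) = 1 := by
      have h3 := sg_mul_self ((p : E × Du E).2 (p : E × Du E).1)
      have h4 : ω * ω = sg ((p : E × Du E).2 (p : E × Du E).1) := by
        calc ω * ω = ω * ω * (sg ((p : E × Du E).2 (p : E × Du E).1) *
              sg ((p : E × Du E).2 (p : E × Du E).1)) := by rw [h3, mul_one]
          _ = (ω * ω * sg ((p : E × Du E).2 (p : E × Du E).1)) *
              sg ((p : E × Du E).2 (p : E × Du E).1) := by ring
          _ = _ := by rw [h1, one_mul]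
      rw [h4, h3]
    obtain ⟨ε, rfl⟩ := exists_pow_I h2
    exact ⟨ε, hω⟩
  choose ε hε using hph
  refine ⟨fun i => (ε (g i), (g i : E × Du E)), ?_⟩
  apply le_antisymm
  · intro T' hT'
    rw [mem_FixSp] at hT'
    simp only at hT'
    have key : ∀ p : S, ∀ ω, Fx ω (p : E × Du E).1 (p : E × Du E).2 T →
        Fx ω (p : E × Du E).1 (p : E × Du E).2 T' := by
      intro p
      have hp : p ∈ Submodule.span F (Set.range g) := by rw [hspan]; trivial
      induction hp using Submodule.span_induction with
      | mem x hx =>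
        obtain ⟨i, rfl⟩ := hx
        intro ω hω
        have := hω.unique hT (hε (g i))
        rw [this]
        exact hT' i
      | zero =>
        intro ω hω
        have : ω = 1 := hω.unique hT (Fx.one T)
        rw [this]
        exact Fx.one T'
      | add x y _ _ hx hy =>
        intro ω hω
        obtain ⟨ω1, h1⟩ := x.2
        obtain ⟨ω2, h2⟩ := y.2
        have h3 := h1.comp h2
        have h4 := (hx ω1 h1).comp (hy ω2 h2)
        have : ω = _ := hω.unique hT h3
        rw [this]
        exact h4
      | smul c x _ hx =>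
        rcases F_cases c with rfl | rfl
        · intro ω hω
          have h0 : ((0 : F) • x : S) = 0 := zero_smul _ _
          rw [h0] at hω ⊢
          have : ω = 1 := hω.unique hT (Fx.one T)
          rw [this]
          exact Fx.one T'
        · have h0 : ((1 : F) • x : S) = x := one_smul _ _
          rw [h0]; exact hx
    obtain ⟨c, hc⟩ := hG T' (fun ω a b h => key ⟨(a, b), ω, h⟩ ω h)
    rw [Submodule.mem_span_singleton]
    exact ⟨c, hc.symm⟩
  · rw [Submodule.span_singleton_le_iff_mem, mem_FixSp]
    intro i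
    exact hε (g i)

open Classical in
/-- a representative of the fixed line -/
noncomputable def rep {D : ℕ} (h : Dat E D) : E → ℂ :=
  if hh : ∃ t, FixSp h = Submodule.span ℂ {t} then hh.choose else 0

theorem exists_rep {D : ℕ} (hD : Module.finrank F (E × Du E) ≤ D) {T : E → ℂ} (hG : Good T) :
    ∃ h : Dat E D, T ∈ Submodule.span ℂ {rep h} := by
  classical
  by_cases hT : T = 0
  · subst hT
    exact ⟨fun _ => (0, (0, 0)), Submodule.zero_mem _⟩
  · obtain ⟨h, hh⟩ := exists_dat hD hT hG
    refine ⟨h, ?_⟩
    have hex : ∃ t, FixSp h = Submodule.span ℂ {t} := ⟨T, hh⟩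
    unfold rep
    rw [dif_pos hex, ← hex.choose_spec, hh]
    exact Submodule.mem_span_singleton_self T

/-- `T` is a combination of `r` good vectors -/
def Rk (r : ℕ) (T : E → ℂ) : Prop :=
  ∃ (α : Fin r → ℂ) (S : Fin r → (E → ℂ)), (∀ i, Good (S i)) ∧ T = ∑ i, α i • S i

/-- The counting bound: a family of zero-one vectors of rank at most `r` is small. -/
theorem count_bound {D : ℕ} (hD : Module.finrank F (E × Du E) ≤ D) (r : ℕ) {Γ : Type} [Fintype Γ]
    (ψ : Γ → (E → Bool)) (hinj : Function.Injective ψ) (hψ : ∀ G, Rk r (zo (ψ G))) :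
    Fintype.card Γ ≤ Fintype.card (Dat E D) ^ r * 2 ^ r := by
  classical
  let W : (Fin r → Dat E D) → Submodule ℂ (E → ℂ) := fun H =>
    Submodule.span ℂ (Set.range fun i => rep (H i))
  have hW : ∀ H, Module.finrank ℂ (W H) ≤ r := by
    intro H
    have := finrank_range_le_card (R := ℂ) (fun i => rep (H i))
    simpa [Set.finrank] using this
  have hmem : ∀ G, ∃ H : Fin r → Dat E D, zo (ψ G) ∈ W H := by
    intro G
    obtain ⟨α, S, hS, hT⟩ := hψ G
    have : ∀ i, ∃ h : Dat E D, S i ∈ Submodule.span ℂ {rep h} := fun i => exists_rep hD (hS i)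
    choose H hH using this
    refine ⟨H, ?_⟩
    rw [hT]
    apply Submodule.sum_mem
    intro i _
    apply Submodule.smul_mem
    have hle : Submodule.span ℂ {rep (H i)} ≤ W H := by
      apply Submodule.span_mono
      rintro _ rfl
      exact ⟨i, rfl⟩
    exact hle (hH i)
  choose Hf hHf using hmem
  have hsub : (Finset.univ : Finset Γ).image ψ ⊆
      (Finset.univ : Finset (Fin r → Dat E D)).biUnion
        (fun H => Finset.univ.filter (fun x : E → Bool => zo x - 0 ∈ W H)) := by
    intro x hx
    rw [Finset.mem_image] at hx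
    obtain ⟨G, -, rfl⟩ := hx
    rw [Finset.mem_biUnion]
    refine ⟨Hf G, Finset.mem_univ _, ?_⟩
    simp only [Finset.mem_filter, Finset.mem_univ, true_and, sub_zero]
    exact hHf G
  calc Fintype.card Γ = ((Finset.univ : Finset Γ).image ψ).card := by
        rw [Finset.card_image_of_injective _ hinj, Finset.card_univ]
    _ ≤ _ := Finset.card_le_card hsub
    _ ≤ ∑ H : Fin r → Dat E D,
        (Finset.univ.filter (fun x : E → Bool => zo x - 0 ∈ W H)).card := Finset.card_biUnion_le
    _ ≤ ∑ _H : Fin r → Dat E D, 2 ^ r := Finset.sum_le_sum fun H _ => zo_count r (W H) 0 (hW H)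
    _ = Fintype.card (Dat E D) ^ r * 2 ^ r := by
        rw [Finset.sum_const, Finset.card_univ, Fintype.card_fun, Fintype.card_fin, smul_eq_mul]

end

end Pool.Agent.H694R2.Stab
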