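import Mathlib
import Pool.Agent.H694R2.StabCount

set_option autoImplicit false

namespace Pool.Agent.H694R2.Stab

/-! ### rank is monotone under the operations -/

section ops

variable {E E' : Type} [AddCommGroup E] [Module F E] [AddCommGroup E'] [Module F E'] [Fintype E]

theorem Rk.pull {r : ℕ} {T : E → ℂ} (h : Rk r T) (L : E' →ₗ[F] E) (c : E) :
    Rk r (fun y => T (L y + c)) := by
  obtain ⟨α, S, hS, rfl⟩ := h
  refine ⟨α, fun i y => S i (L y + c), fun i => (hS i).pull L c, ?_⟩
  funext y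
  simp [Finset.sum_apply]

omit [Fintype E] in
theorem Rk.char {r : ℕ} {T : E → ℂ} (h : Rk r T) (c : Du E) :
    Rk r (fun x => sg (c x) * T x) := by
  obtain ⟨α, S, hS, rfl⟩ := h
  refine ⟨α, fun i x => sg (c x) * S i x, fun i => (hS i).char c, ?_⟩
  funext y
  simp only [Finset.sum_apply, Pi.smul_apply, smul_eq_mul, Finset.mul_sum]
  apply Finset.sum_congr rfl
  intro i _
  ring

theorem Rk.push {r : ℕ} {T : E → ℂ} (h : Rk r T) (L : E →ₗ[F] E') : Rk r (push L T) := by
  obtain ⟨α, S, hS, rfl⟩ := h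
  refine ⟨α, fun i => Stab.push L (S i), fun i => (hS i).push L, ?_⟩
  funext y
  simp only [Stab.push, Finset.sum_apply, Pi.smul_apply, smul_eq_mul, Finset.mul_sum]
  rw [Finset.sum_comm]

omit [Fintype E] in
theorem Rk.smul {r : ℕ} {T : E → ℂ} (h : Rk r T) (c : ℂ) : Rk r (c • T) := by
  obtain ⟨α, S, hS, rfl⟩ := h
  refine ⟨fun i => c * α i, S, hS, ?_⟩
  rw [Finset.smul_sum]
  apply Finset.sum_congr rfl
  intro i _
  rw [smul_smul]

end ops

/-! ### the gadget -/

/-- the amplitudes of `v = e_0 + √2 e_1` -/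
noncomputable def vv (a : F) : ℂ := if a = 0 then 1 else (Real.sqrt 2 : ℂ)

theorem vv_zero : vv 0 = 1 := by simp [vv]
theorem vv_one : vv 1 = (Real.sqrt 2 : ℂ) := by simp [vv]

def cP : Fin 13 → F := ![1, 0, 0, 1, 1, 0, 1, 0, 0, 0, 0, 0, 0]
def cQ : Fin 13 → F := ![0, 1, 0, 1, 0, 1, 1, 0, 0, 0, 0, 0, 0]
def cH : Fin 13 → F := ![0, 0, 1, 0, 1, 1, 1, 1, 1, 0, 0, 1, 1]
def cR : Fin 13 → F := ![0, 0, 0, 0, 0, 0, 0, 0, 0, 1, 1, 1, 1]
def c0 : Fin 13 → F := ![0, 0, 0, 1, 1, 1, 0, 1, 1, 1, 1, 1, 1]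

/-- the constant of the gadget -/
noncomputable def kap : ℂ := 3 * (Real.sqrt 2 : ℂ) ^ 5

theorem sqrt2_sq : (Real.sqrt 2 : ℂ) ^ 2 = 2 := by
  rw [← Complex.ofReal_pow, Real.sq_sqrt (by norm_num)]
  norm_num

theorem sqrt2_ne : (Real.sqrt 2 : ℂ) ≠ 0 := by
  intro h
  have := sqrt2_sq
  rw [h] at this
  norm_num at this

theorem kap_ne : kap ≠ 0 := by
  unfold kap
  exact mul_ne_zero (by norm_num) (pow_ne_zero _ sqrt2_ne)

theorem vv_eq (a : F) : vv a = (Real.sqrt 2 : ℂ) ^ a.val := by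
  rcases F_cases a with rfl | rfl
  · rw [vv_zero]; simp
  · rw [vv_one]
    have : (1 : F).val = 1 := by decide
    rw [this, pow_one]

theorem ex_eq : ∀ p q h r : F, ∑ j : Fin 13, (cP j * p + cQ j * q + cH j * h + cR j * r + c0 j).val =
    5 + 4 * (p.val * q.val * h.val) + 4 * ((1 - h.val) * (1 - r.val)) := by decide +kernel

theorem gadget (p q r : F) :
    ∑ h : F, sg (h + r) * ∏ j : Fin 13, vv (cP j * p + cQ j * q + cH j * h + cR j * r + c0 j) =
      if r = p * q then kap else 0 := by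
  have e2 : (1 : F) + 1 = 0 := by decide
  have hs := sqrt2_sq
  have hsum : ∀ f : F → ℂ, ∑ h : F, f h = f 0 + f 1 := fun f => Fin.sum_univ_two f
  have w4 : (Real.sqrt 2 : ℂ) ^ 4 = 4 := by
    have : (Real.sqrt 2 : ℂ) ^ 4 = ((Real.sqrt 2 : ℂ) ^ 2) ^ 2 := by ring
    rw [this, hs]; norm_num
  simp only [vv_eq]
  simp only [Finset.prod_pow_eq_pow_sum, ex_eq]
  rw [hsum]
  simp only [pow_add, pow_mul, w4, kap]
  have v1 : (1 : F).val = 1 := by decide
  have v0 : (0 : F).val = 0 := by decide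
  rcases F_cases p with rfl | rfl <;> rcases F_cases q with rfl | rfl <;>
    rcases F_cases r with rfl | rfl <;>
    simp only [v0, v1, mul_zero, mul_one, Nat.sub_zero, Nat.sub_self, pow_zero, pow_one,
      zero_add, add_zero, e2, sg_zero, sg_one, if_true]
  all_goals first
    | (rw [if_neg (by decide)]; ring)
    | ring

/-! ### the circuit -/

section circuit

variable (k : ℕ)

abbrev Kk : Type := Fin k → F
abbrev Ga : Type := (Kk k × Fin k) ⊕ ((Kk k × Fin k) ⊕ Kk k)
/-- `(y, z, α, β, f)` -/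
abbrev Tt : Type := Kk k × (Kk k × ((Kk k → F) × ((Kk k → F) × (Kk k → F))))
abbrev Src : Type := Tt k × (Ga k → F)
abbrev Out5 : Type := Kk k × (Kk k × (F × (F × F)))
abbrev Out3 : Type := Kk k × (Kk k × F)

variable {k}

def yM : Tt k →ₗ[F] Kk k := LinearMap.fst F _ _
def zM : Tt k →ₗ[F] Kk k := (LinearMap.fst F _ _).comp (LinearMap.snd F _ _)
def aM : Tt k →ₗ[F] (Kk k → F) :=
  (LinearMap.fst F _ _).comp ((LinearMap.snd F _ _).comp (LinearMap.snd F _ _))
def bM : Tt k →ₗ[F] (Kk k → F) :=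
  (LinearMap.fst F _ _).comp ((LinearMap.snd F _ _).comp
    ((LinearMap.snd F _ _).comp (LinearMap.snd F _ _)))
def fM : Tt k →ₗ[F] (Kk k → F) :=
  (LinearMap.snd F _ _).comp ((LinearMap.snd F _ _).comp
    ((LinearMap.snd F _ _).comp (LinearMap.snd F _ _)))

theorem yM_apply (y z : Kk k) (α β f : Kk k → F) : yM (y, z, α, β, f) = y := rfl
theorem zM_apply (y z : Kk k) (α β f : Kk k → F) : zM (y, z, α, β, f) = z := rfl
theorem aM_apply (y z : Kk k) (α β f : Kk k → F) : aM (y, z, α, β, f) = α := rfl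
theorem bM_apply (y z : Kk k) (α β f : Kk k → F) : bM (y, z, α, β, f) = β := rfl
theorem fM_apply (y z : Kk k) (α β f : Kk k → F) : fM (y, z, α, β, f) = f := rfl

def pj {ι : Type} (i : ι) : (ι → F) →ₗ[F] F := LinearMap.proj i

theorem pj_apply {ι : Type} (i : ι) (x : ι → F) : pj i x = x i := rfl

/-- first inputs of the gates -/
def gp : Ga k → Du (Tt k)
  | Sum.inl p => (pj p.1).comp aM
  | Sum.inr (Sum.inl p) => (pj p.1).comp bM
  | Sum.inr (Sum.inr i) => (pj i).comp aM

/-- second inputs of the gates, linear part -/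
def gq (G : Kk k → Kk k → F) : Ga k → Du (Tt k)
  | Sum.inl p => (pj p.2).comp yM
  | Sum.inr (Sum.inl p) => (pj p.2).comp zM
  | Sum.inr (Sum.inr i) => ∑ j, G i j • (pj j).comp bM

/-- second inputs of the gates, constant part -/
def gc : Ga k → F
  | Sum.inl p => p.1 p.2
  | Sum.inr (Sum.inl p) => p.1 p.2
  | Sum.inr (Sum.inr _) => 0

/-- outputs of the gates -/
def gr : Ga k → Du (Tt k)
  | Sum.inl _ => 0
  | Sum.inr (Sum.inl _) => 0
  | Sum.inr (Sum.inr i) => (pj i).comp fM

def tP : Src k →ₗ[F] Tt k := LinearMap.fst F _ _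
def hP : Src k →ₗ[F] (Ga k → F) := LinearMap.snd F _ _

/-- the linear map feeding the resource state -/
def Lc (G : Kk k → Kk k → F) : Src k →ₗ[F] (Ga k × Fin 13 → F) :=
  LinearMap.pi fun p => cP p.2 • (gp p.1).comp tP + cQ p.2 • (gq G p.1).comp tP +
    cH p.2 • (pj p.1).comp hP + cR p.2 • (gr p.1).comp tP

def cc : Ga k × Fin 13 → F := fun p => cQ p.2 * gc p.1 + c0 p.2

def chi : Du (Src k) := ∑ γ : Ga k, ((pj γ).comp hP + (gr γ).comp tP)

def outT : Tt k →ₗ[F] Out5 k :=
  yM.prod (zM.prod ((∑ i, (pj i).comp fM).prod ((∑ i, (pj i).comp aM).prod (∑ i, (pj i).comp bM))))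

def outS : Src k →ₗ[F] Out5 k := outT.comp tP

def inc : Out3 k →ₗ[F] Out5 k :=
  (LinearMap.fst F _ _).prod (((LinearMap.fst F _ _).comp (LinearMap.snd F _ _)).prod
    (((LinearMap.snd F _ _).comp (LinearMap.snd F _ _)).prod 0))

def icst : Out5 k := (0, 0, 0, 1, 1)

/-- the resource state -/
noncomputable def RR : (Ga k × Fin 13 → F) → ℂ := fun w => ∏ p, vv (w p)

/-- the state produced by the circuit -/
noncomputable def TT (G : Kk k → Kk k → F) : Out3 k → ℂ :=
  fun o => push outS (fun s : Src k => sg (chi s) * RR (Lc G s + cc)) (inc o + icst)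

theorem Rk_TT {r : ℕ} (h : Rk r (RR (k := k))) (G : Kk k → Kk k → F) : Rk r (TT G) := by
  classical
  have h1 := h.pull (Lc G) cc
  have h2 := h1.char chi
  have h3 := h2.push outS
  exact h3.pull inc icst

theorem sg_sum {ι : Type} (s : Finset ι) (f : ι → F) : sg (∑ i ∈ s, f i) = ∏ i ∈ s, sg (f i) := by
  classical
  induction s using Finset.induction_on with
  | empty => simp [sg_zero]
  | insert a s ha ih => rw [Finset.sum_insert ha, Finset.prod_insert ha, sg_add, ih]

/-- all gates are satisfied -/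
def Sat (G : Kk k → Kk k → F) (t : Tt k) : Prop :=
  ∀ γ : Ga k, gr γ t = gp γ t * (gq G γ t + gc γ)

open Classical in
theorem sum_h (G : Kk k → Kk k → F) (t : Tt k) :
    ∑ h : Ga k → F, sg (chi (t, h)) * RR (Lc G (t, h) + cc) =
      if Sat G t then kap ^ Fintype.card (Ga k) else 0 := by
  have h1 : ∀ h : Ga k → F, sg (chi (t, h)) * RR (Lc G (t, h) + cc) =
      ∏ γ : Ga k, (sg (h γ + gr γ t) * ∏ j : Fin 13, vv (cP j * gp γ t +
        cQ j * (gq G γ t + gc γ) + cH j * h γ + cR j * gr γ t + c0 j)) := by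
    intro h
    rw [Finset.prod_mul_distrib]
    congr 1
    · rw [← sg_sum]
      congr 1
      simp only [chi, LinearMap.sum_apply, LinearMap.add_apply, LinearMap.comp_apply, pj_apply]
      rfl
    · unfold RR
      rw [Fintype.prod_prod_type]
      apply Finset.prod_congr rfl
      intro γ _
      apply Finset.prod_congr rfl
      intro j _
      congr 1
      simp only [Lc, cc, Pi.add_apply, LinearMap.pi_apply, LinearMap.add_apply,
        LinearMap.smul_apply, LinearMap.comp_apply, smul_eq_mul, pj_apply, tP, hP,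
        LinearMap.fst_apply, LinearMap.snd_apply]
      ring
  rw [Finset.sum_congr rfl (fun h _ => h1 h)]
  have h2 : ∑ h : Ga k → F, ∏ γ : Ga k, (sg (h γ + gr γ t) * ∏ j : Fin 13, vv (cP j * gp γ t +
        cQ j * (gq G γ t + gc γ) + cH j * h γ + cR j * gr γ t + c0 j)) =
      ∏ γ : Ga k, ∑ x : F, (sg (x + gr γ t) * ∏ j : Fin 13, vv (cP j * gp γ t +
        cQ j * (gq G γ t + gc γ) + cH j * x + cR j * gr γ t + c0 j)) := by
    rw [Finset.prod_univ_sum, Fintype.piFinset_univ]
  rw [h2]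
  simp only [gadget]
  split_ifs with hs
  · rw [Finset.prod_congr rfl (g := fun _ => kap)]
    · rw [Finset.prod_const, Finset.card_univ]
    · intro γ _
      rw [if_pos (hs γ)]
  · unfold Sat at hs
    push Not at hs
    obtain ⟨γ, hγ⟩ := hs
    apply Finset.prod_eq_zero (Finset.mem_univ γ)
    rw [if_neg hγ]

/-- one-hot vector -/
def oh (y : Kk k) : Kk k → F := Pi.single y 1

def t0 (G : Kk k → Kk k → F) (y z : Kk k) : Tt k := (y, z, oh y, oh z, G y z • oh y)

theorem onehot_of {y : Kk k} {α : Kk k → F} (h1 : ∑ i, α i = 1)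
    (h2 : ∀ (i : Kk k) (b : Fin k), 0 = α i * (y b + i b)) : α = oh y := by
  have h3 : ∀ i, i ≠ y → α i = 0 := by
    intro i hi
    obtain ⟨b, hb⟩ := Function.ne_iff.1 hi
    have h4 : y b + i b = 1 := by
      rcases F_cases (y b) with h5 | h5 <;> rcases F_cases (i b) with h6 | h6
      · exact absurd (h6.trans h5.symm) hb
      · rw [h5, h6]; decide
      · rw [h5, h6]; decide
      · exact absurd (h6.trans h5.symm) hb
    have h7 := h2 i b
    rw [h4, mul_one] at h7
    exact h7.symm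
  have h4 : ∑ i, α i = α y := Finset.sum_eq_single y (fun i _ hi => h3 i hi)
    (fun h => absurd (Finset.mem_univ _) h)
  funext i
  unfold oh
  by_cases hi : i = y
  · subst hi
    rw [Pi.single_eq_same, ← h4, h1]
  · rw [Pi.single_eq_of_ne hi, h3 i hi]

theorem sum_oh (y : Kk k) : ∑ i, oh y i = 1 := by
  unfold oh
  rw [Finset.sum_pi_single']
  simp

theorem gate3 (G : Kk k → Kk k → F) (i y z : Kk k) (α f : Kk k → F) :
    gq G (Sum.inr (Sum.inr i)) (y, z, α, oh z, f) = G i z := by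
  simp only [gq, LinearMap.sum_apply, LinearMap.smul_apply, LinearMap.comp_apply, pj_apply,
    bM_apply, smul_eq_mul]
  rw [Finset.sum_eq_single z]
  · simp [oh]
  · intro j _ hj
    simp [oh, Pi.single_eq_of_ne hj]
  · intro h; exact absurd (Finset.mem_univ _) h

theorem outT_apply (y z : Kk k) (α β f : Kk k → F) :
    outT (y, z, α, β, f) = (y, z, ∑ i, f i, ∑ i, α i, ∑ i, β i) := by
  have e1 : (∑ i, (pj i).comp (fM (k := k))) (y, z, α, β, f) = ∑ i, f i := by
    rw [LinearMap.sum_apply]; rfl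
  have e2 : (∑ i, (pj i).comp (aM (k := k))) (y, z, α, β, f) = ∑ i, α i := by
    rw [LinearMap.sum_apply]; rfl
  have e3 : (∑ i, (pj i).comp (bM (k := k))) (y, z, α, β, f) = ∑ i, β i := by
    rw [LinearMap.sum_apply]; rfl
  rw [← e1, ← e2, ← e3]
  rfl

theorem inc_icst (y z : Kk k) (s : F) : inc (y, z, s) + icst = (y, z, s, 1, 1) := by
  simp [inc, icst]

theorem uniq (G : Kk k → Kk k → F) (y z : Kk k) (s : F) (t : Tt k)
    (h1 : outT t = (y, z, s, 1, 1)) (h2 : Sat G t) : t = t0 G y z ∧ s = G y z := by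
  obtain ⟨y', z', α, β, f⟩ := t
  rw [outT_apply] at h1
  simp only [Prod.mk.injEq] at h1
  obtain ⟨rfl, rfl, hf, ha, hb⟩ := h1
  have hα : α = oh y' := onehot_of ha (fun i b => h2 (Sum.inl (i, b)))
  have hβ : β = oh z' := onehot_of hb (fun i b => h2 (Sum.inr (Sum.inl (i, b))))
  subst hα hβ
  have hff : f = G y' z' • oh y' := by
    funext i
    have h3 := h2 (Sum.inr (Sum.inr i))
    rw [gate3] at h3
    change f i = oh y' i * (G i z' + 0) at h3
    rw [h3, add_zero, Pi.smul_apply, smul_eq_mul]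
    unfold oh
    by_cases hi : i = y'
    · subst hi
      rw [Pi.single_eq_same]; ring
    · rw [Pi.single_eq_of_ne hi]; ring
  refine ⟨by rw [hff]; rfl, ?_⟩
  rw [← hf, hff]
  simp only [Pi.smul_apply, smul_eq_mul]
  rw [← Finset.mul_sum, sum_oh, mul_one]

theorem exist (G : Kk k → Kk k → F) (y z : Kk k) :
    outT (t0 G y z) = (y, z, G y z, 1, 1) ∧ Sat G (t0 G y z) := by
  refine ⟨?_, ?_⟩
  · unfold t0
    rw [outT_apply, sum_oh, sum_oh]
    simp only [Pi.smul_apply, smul_eq_mul]
    rw [← Finset.mul_sum, sum_oh, mul_one]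
  · have key : ∀ (y i : Kk k) (b : Fin k), 0 = oh y i * (y b + i b) := by
      intro y i b
      unfold oh
      by_cases hi : i = y
      · subst hi
        rw [add_self', mul_zero]
      · rw [Pi.single_eq_of_ne hi, zero_mul]
    intro γ
    match γ with
    | Sum.inl (i, b) => exact key y i b
    | Sum.inr (Sum.inl (i, b)) => exact key z i b
    | Sum.inr (Sum.inr i) =>
      unfold t0
      rw [gate3]
      change (G y z • oh y) i = oh y i * (G i z + 0)
      rw [add_zero, Pi.smul_apply, smul_eq_mul]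
      unfold oh
      by_cases hi : i = y
      · subst hi
        rw [Pi.single_eq_same]; ring
      · rw [Pi.single_eq_of_ne hi]; ring

/-- the Boolean function of the produced state -/
def bf (G : Kk k → Kk k → F) : Out3 k → Bool := fun o => decide (o.2.2 = G o.1 o.2.1)

theorem TT_eq (G : Kk k → Kk k → F) : TT G = kap ^ Fintype.card (Ga k) • zo (bf G) := by
  classical
  funext o
  obtain ⟨y, z, s⟩ := o
  unfold TT push
  rw [inc_icst, Finset.sum_filter, Fintype.sum_prod_type]
  have h1 : ∀ t : Tt k, (∑ h : Ga k → F, if outS ((t, h) : Src k) = (y, z, s, 1, 1) then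
      sg (chi (t, h)) * RR (Lc G (t, h) + cc) else 0) =
      if outT t = (y, z, s, 1, 1) ∧ Sat G t then kap ^ Fintype.card (Ga k) else 0 := by
    intro t
    have h2 : ∀ h : Ga k → F, outS ((t, h) : Src k) = outT t := fun h => rfl
    simp only [h2]
    by_cases h3 : outT t = (y, z, s, 1, 1)
    · simp only [h3, if_true, true_and]
      exact sum_h G t
    · simp [h3]
  have h5 : (kap ^ Fintype.card (Ga k) • zo (bf G)) (y, z, s) =
      ∑ t : Tt k, (if outT t = (y, z, s, 1, 1) ∧ Sat G t then kap ^ Fintype.card (Ga k) else 0) := ?_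
  · rw [h5]
    refine Finset.sum_congr rfl fun t _ => ?_
    rw [← h1 t]
    refine Finset.sum_congr rfl fun h _ => ?_
    congr
  symm
  rw [Finset.sum_eq_single (t0 G y z)]
  · simp only [Pi.smul_apply, smul_eq_mul, zo, bf]
    obtain ⟨e1, e2⟩ := exist G y z
    by_cases hs : s = G y z
    · rw [if_pos ⟨by rw [e1, hs], e2⟩]
      simp [hs]
    · rw [if_neg (fun hh => hs (uniq G y z s _ hh.1 hh.2).2)]
      simp [hs]
  · intro t _ ht
    rw [if_neg (fun hh => ht (uniq G y z s t hh.1 hh.2).1)]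
  · intro h; exact absurd (Finset.mem_univ _) h

theorem bf_inj : Function.Injective (bf (k := k)) := by
  intro G G' h
  funext y z
  have h1 := congrFun h (y, z, G y z)
  simp only [bf, decide_true] at h1
  exact of_decide_eq_true h1.symm

theorem finrank_out3 : Module.finrank F (Out3 k × Du (Out3 k)) ≤ 2 * (2 * k + 1) := by
  have h1 : Module.finrank F (Out3 k) = 2 * k + 1 := by
    rw [Module.finrank_prod, Module.finrank_prod, Module.finrank_fin_fun, Module.finrank_self]
    ring
  rw [Module.finrank_prod, Subspace.dual_finrank_eq, h1]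
  omega

/-- **Main bound**: if the resource state is a combination of `r` good vectors then
`4^k ≤ r ((2m)(2m+2) + 1)` with `m = 2k+1`. -/
theorem main_bound {r : ℕ} (h : Rk r (RR (k := k))) :
    4 ^ k ≤ r * ((4 * k + 2) * (4 * k + 4) + 1) := by
  classical
  have h1 : ∀ G : Kk k → Kk k → F, Rk r (zo (bf G)) := by
    intro G
    have h2 := (Rk_TT h G).smul (kap ^ Fintype.card (Ga k))⁻¹
    rw [TT_eq, smul_smul, inv_mul_cancel₀ (pow_ne_zero _ kap_ne), one_smul] at h2
    exact h2
  have h2 := count_bound finrank_out3 r bf bf_inj h1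
  -- cardinalities
  have c1 : Fintype.card (Kk k → Kk k → F) = 2 ^ (4 ^ k) := by
    rw [Fintype.card_fun, Fintype.card_fun, Fintype.card_fun, Fintype.card_fin, ZMod.card,
      ← pow_mul, ← mul_pow]
    norm_num
  have c2 : Fintype.card (Out3 k × Du (Out3 k)) = 2 ^ (2 * (2 * k + 1)) := by
    have e1 : Fintype.card (Out3 k) = 2 ^ (2 * k + 1) := by
      rw [Fintype.card_prod, Fintype.card_prod, Fintype.card_fun, Fintype.card_fin, ZMod.card]
      ring
    have e2 : Fintype.card (Du (Out3 k)) = 2 ^ (2 * k + 1) := by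
      have h3 : Module.finrank F (Du (Out3 k)) = 2 * k + 1 := by
        rw [Subspace.dual_finrank_eq, Module.finrank_prod, Module.finrank_prod,
          Module.finrank_fin_fun, Module.finrank_self]
        ring
      have h4 := Module.card_eq_pow_finrank (K := F) (V := Du (Out3 k))
      rw [h3, ZMod.card] at h4
      exact h4
    rw [Fintype.card_prod, e1, e2]
    ring
  have c3 : Fintype.card (Dat (Out3 k) (2 * (2 * k + 1))) = 2 ^ ((4 * k + 2) * (4 * k + 4)) := by
    rw [Fintype.card_fun, Fintype.card_prod, c2, Fintype.card_fin, Fintype.card_fin,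
      show (4 : ℕ) = 2 ^ 2 from rfl, ← pow_add, ← pow_mul]
    congr 1
    ring
  rw [c1, c3, ← pow_mul, ← pow_add] at h2
  have h3 := (Nat.pow_le_pow_iff_right (by norm_num : 1 < 2)).1 h2
  calc 4 ^ k ≤ _ := h3
    _ = _ := by ring

end circuit

end Pool.Agent.H694R2.Stab
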