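import Mathlib
import Pool.Agent.H694R2.StabCirc

set_option autoImplicit false

namespace Pool.Agent.H694R2.Stab

/-- the tensor power of `v` as a function on `F^d` -/
noncomputable def vF (d : ℕ) : (Fin d → F) → ℂ := fun x => ∏ i, vv (x i)

theorem Rk_RR_of {d k r : ℕ} (hd : Fintype.card (Ga k × Fin 13) ≤ d) (h : Rk r (vF d)) :
    Rk r (RR (k := k)) := by
  classical
  obtain ⟨e⟩ : Nonempty ((Ga k × Fin 13) ↪ Fin d) := by
    apply Function.Embedding.nonempty_of_card_le
    rwa [Fintype.card_fin]
  have h1 := h.pull (Function.ExtendByZero.linearMap F e) 0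
  convert h1 using 1
  funext w
  unfold RR vF
  refine Fintype.prod_of_injective e e.injective _ _ ?_ ?_
  · intro i hi
    rw [add_zero, Function.ExtendByZero.linearMap_apply, Function.extend_apply']
    · exact vv_zero
    · rintro ⟨p, hp⟩
      exact hi ⟨p, hp⟩
  · intro p
    rw [add_zero, Function.ExtendByZero.linearMap_apply, e.injective.extend_apply]

theorem card_gates (k : ℕ) : Fintype.card (Ga k × Fin 13) = 13 * ((2 * k + 1) * 2 ^ k) := by
  rw [Fintype.card_prod, Fintype.card_sum, Fintype.card_sum, Fintype.card_prod, Fintype.card_fun,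
    ZMod.card, Fintype.card_fin, Fintype.card_fin]
  ring

theorem bound_vF {d k r : ℕ} (hd : 13 * ((2 * k + 1) * 2 ^ k) ≤ d) (h : Rk r (vF d)) :
    4 ^ k ≤ r * (4 * k + 3) ^ 2 := by
  have h1 := main_bound (Rk_RR_of (k := k) (by rw [card_gates]; exact hd) h)
  calc 4 ^ k ≤ _ := h1
    _ = _ := by ring

end Pool.Agent.H694R2.Stab
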