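import Mathlib
import Pool.Agent.H522R2.SmallIndex

/-! Subgroups `H` of small index of a symmetric group `Sym(Ω)`: if `4 · index³ < (|Ω| choose k)` and
`3k ≤ |Ω|` then `H` contains all 3-cycles outside a set of fewer than `k` points. -/

namespace Pool.Agent.H694R2.SymIdx

open Equiv Pool.Agent.H522R2.SmallIndex

variable {Ω : Type*} [DecidableEq Ω] [Fintype Ω]

/-- a union of classes -/
def Closed (H : Subgroup (Perm Ω)) (A : Finset Ω) : Prop := ∀ x ∈ A, ∀ y, Cl H x y → y ∈ A

theorem choose_le_index_closed (H : Subgroup (Perm Ω)) (R A : Finset Ω) (hA : Closed H A)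
    (hR : ∀ c, ∃ d ∈ R, Cl H d c) :
    (Fintype.card Ω).choose A.card ≤ H.index * 2 ^ R.card := by
  classical
  let 𝒮 := (Finset.univ : Finset Ω).powersetCard A.card
  have h𝒮 : 𝒮.card = (Fintype.card Ω).choose A.card := by
    simp only [𝒮]
    rw [Finset.card_powersetCard, Finset.card_univ]
  have hcardS : ∀ S : 𝒮, S.1.card = A.card := fun S => (Finset.mem_powersetCard.1 S.2).2
  let e : ∀ S : 𝒮, {x // x ∈ A} ≃ {x // x ∈ S.1} := fun S =>
    Finset.equivOfCardEq (hcardS S).symm
  let π : 𝒮 → Perm Ω := fun S => (e S).extendSubtype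
  have hπ1 : ∀ S x, x ∈ A → π S x ∈ S.1 := by
    intro S x hx
    exact (e S).extendSubtype_mem x hx
  have hπ2 : ∀ S y, y ∈ S.1 → ∃ x ∈ A, π S x = y := by
    intro S y hy
    refine ⟨((e S).symm ⟨y, hy⟩).1, ((e S).symm ⟨y, hy⟩).2, ?_⟩
    simp only [π]
    rw [Equiv.extendSubtype_apply_of_mem _ _ ((e S).symm ⟨y, hy⟩).2]
    simp
  let ρ : (Perm Ω ⧸ H) → Perm Ω := Quotient.out
  have hρ : ∀ S : 𝒮, ∃ h ∈ H, π S = ρ ((π S : Perm Ω) : Perm Ω ⧸ H) * h := by
    intro S
    refine ⟨(ρ ((π S : Perm Ω) : Perm Ω ⧸ H))⁻¹ * π S, ?_, by simp⟩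
    apply QuotientGroup.eq.1
    exact Quotient.out_eq _
  -- the preimage of `S` under the representative is closed
  have hcl : ∀ (S : 𝒮) (x y : Ω), ρ ((π S : Perm Ω) : Perm Ω ⧸ H) x ∈ S.1 → Cl H x y →
      ρ ((π S : Perm Ω) : Perm Ω ⧸ H) y ∈ S.1 := by
    intro S x y hx hxy
    obtain ⟨h, hh, hπ⟩ := hρ S
    obtain ⟨a, ha, hax⟩ := hπ2 S _ hx
    have e1 : h a = x := by
      have hax' : ρ ((π S : Perm Ω) : Perm Ω ⧸ H) (h a) = ρ ((π S : Perm Ω) : Perm Ω ⧸ H) x := by
        rw [← hax, ← Perm.mul_apply, ← hπ]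
      exact (ρ _).injective hax'
    have e2 : Cl H (h⁻¹ x) (h⁻¹ y) := cl_conj hxy (H.inv_mem hh)
    have e3 : h⁻¹ x = a := by rw [← e1]; simp
    rw [e3] at e2
    have e4 := hπ1 S _ (hA a ha _ e2)
    rw [hπ] at e4
    simpa using e4
  let F : 𝒮 → (Perm Ω ⧸ H) × Finset {x // x ∈ R} := fun S =>
    (((π S : Perm Ω) : Perm Ω ⧸ H),
      Finset.univ.filter (fun r => ρ ((π S : Perm Ω) : Perm Ω ⧸ H) r.1 ∈ S.1))
  have hF : Function.Injective F := by
    have key : ∀ S S' : 𝒮, F S = F S' → S.1 ⊆ S'.1 := by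
      intro S S' h y hy
      have h1 : ((π S : Perm Ω) : Perm Ω ⧸ H) = ((π S' : Perm Ω) : Perm Ω ⧸ H) :=
        congrArg Prod.fst h
      have h2 := congrArg Prod.snd h
      simp only [F] at h2
      set τ := ρ ((π S : Perm Ω) : Perm Ω ⧸ H) with hτ
      obtain ⟨r, hr, hrx⟩ := hR (τ⁻¹ y)
      have e1 : τ r ∈ S.1 := by
        apply hcl S (τ⁻¹ y) r _ (cl_symm hrx)
        rw [← hτ]; simpa using hy
      have e2 : (⟨r, hr⟩ : {x // x ∈ R}) ∈
          Finset.univ.filter (fun r : {x // x ∈ R} =>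
            ρ ((π S' : Perm Ω) : Perm Ω ⧸ H) r.1 ∈ S'.1) := by
        rw [← h2]
        simp only [Finset.mem_filter, Finset.mem_univ, true_and]
        exact e1
      simp only [Finset.mem_filter, Finset.mem_univ, true_and] at e2
      have e3 := hcl S' r (τ⁻¹ y) e2 hrx
      rw [← h1, ← hτ] at e3
      simpa using e3
    intro S S' h
    exact Subtype.ext (Finset.Subset.antisymm (key S S' h) (key S' S h.symm))
  have h1 := Nat.card_le_card_of_injective _ hF
  rw [Nat.card_eq_fintype_card, Fintype.card_coe, h𝒮, Nat.card_prod] at h1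
  rw [Nat.card_eq_fintype_card (α := Finset {x // x ∈ R}), Fintype.card_finset,
    Fintype.card_coe] at h1
  exact h1

theorem two_pow_le (t : ℕ) : 2 ^ t ≤ 2 * t.factorial := by
  induction t with
  | zero => simp
  | succ t ih =>
    rcases Nat.eq_zero_or_pos t with rfl | ht
    · simp
    · rw [pow_succ, Nat.factorial_succ]
      have : t.factorial * 2 ≤ t.factorial * (t + 1) := Nat.mul_le_mul_left _ (by omega)
      nlinarith

theorem choose_mono {m a b : ℕ} (hab : a ≤ b) (hb : b ≤ m / 2) : m.choose a ≤ m.choose b := by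
  induction b, hab using Nat.le_induction with
  | base => exact le_rfl
  | succ b _ ih =>
    exact (ih (by omega)).trans (Nat.choose_le_succ_of_lt_half_left (by omega))

/-- some class contains all but fewer than `k` points -/
theorem big_class (H : Subgroup (Perm Ω)) (k : ℕ) (hk : 1 ≤ k) (h3 : 3 * k ≤ Fintype.card Ω)
    (hidx : 4 * H.index ^ 3 < (Fintype.card Ω).choose k) :
    ∃ d, Fintype.card Ω < (ClF H d).card + k := by
  classical
  obtain ⟨Δ, E, hΔ, hE, hcov⟩ := exists_cover H
  set m := Fintype.card Ω with hm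
  have hR : ∀ c, ∃ d ∈ Δ ∪ E, Cl H d c := by
    intro c
    by_cases h1 : c ∈ Δ
    · exact ⟨c, Finset.mem_union_left _ h1, Or.inl rfl⟩
    by_cases h2 : c ∈ E
    · exact ⟨c, Finset.mem_union_right _ h2, Or.inl rfl⟩
    obtain ⟨d, hd, hdc⟩ := hcov c h1 h2
    exact ⟨d, Finset.mem_union_left _ hd, hdc⟩
  -- a closed set of maximal size at most `m - k`
  obtain ⟨A, hA, hmax⟩ := Finset.exists_max_image
    (Finset.univ.filter (fun A : Finset Ω => Closed H A ∧ A.card + k ≤ m)) Finset.card
    ⟨∅, by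
      simp only [Finset.mem_filter, Finset.mem_univ, true_and]
      exact ⟨fun x hx => by simp at hx, by simp; omega⟩⟩
  simp only [Finset.mem_filter, Finset.mem_univ, true_and] at hA hmax
  by_cases hAk : k ≤ A.card
  · exfalso
    have e1 := choose_le_index_closed H (Δ ∪ E) A hA.1 hR
    have e2 : 2 ^ (Δ ∪ E).card ≤ 4 * H.index ^ 2 := by
      calc 2 ^ (Δ ∪ E).card ≤ 2 ^ (Δ.card + E.card) :=
            Nat.pow_le_pow_right (by norm_num) (Finset.card_union_le _ _)
        _ = 2 ^ Δ.card * 2 ^ E.card := pow_add _ _ _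
        _ ≤ (2 * Δ.card.factorial) * (2 * E.card.factorial) :=
            Nat.mul_le_mul (two_pow_le _) (two_pow_le _)
        _ ≤ (2 * H.index) * (2 * H.index) :=
            Nat.mul_le_mul (Nat.mul_le_mul_left _ hΔ) (Nat.mul_le_mul_left _ hE)
        _ = _ := by ring
    have e3 : m.choose k ≤ m.choose A.card := by
      rcases Nat.lt_or_ge (m / 2) A.card with h | h; swap
      · exact choose_mono hAk h
      · have h4 : m.choose A.card = m.choose (m - A.card) := (Nat.choose_symm (by omega)).symm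
        rw [h4]
        exact choose_mono (by omega) (by omega)
    have e4 : m.choose k ≤ H.index * (4 * H.index ^ 2) :=
      e3.trans (e1.trans (Nat.mul_le_mul_left _ e2))
    have e5 : H.index * (4 * H.index ^ 2) = 4 * H.index ^ 3 := by ring
    omega
  · push Not at hAk
    -- a point outside `A`
    obtain ⟨x, hx⟩ : ∃ x, x ∉ A := by
      by_contra hcon
      push Not at hcon
      have : A = Finset.univ := Finset.eq_univ_iff_forall.2 hcon
      rw [this, Finset.card_univ] at hAk
      omega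
    refine ⟨x, ?_⟩
    by_contra hcon
    push Not at hcon
    have hcl : Closed H (ClF H x) := by
      intro y hy z hz
      rw [mem_ClF] at hy ⊢
      exact cl_trans hy hz
    have hle := hmax (ClF H x) ⟨hcl, hcon⟩
    have hcl2 : Closed H (A ∪ ClF H x) := by
      intro y hy z hz
      rcases Finset.mem_union.1 hy with hy | hy
      · exact Finset.mem_union_left _ (hA.1 y hy z hz)
      · exact Finset.mem_union_right _ (hcl y hy z hz)
    have hlt : A.card < (A ∪ ClF H x).card := by
      apply Finset.card_lt_card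
      rw [Finset.ssubset_iff_of_subset Finset.subset_union_left]
      exact ⟨x, Finset.mem_union_right _ (by rw [mem_ClF]; exact Or.inl rfl), hx⟩
    have hu := Finset.card_union_le A (ClF H x)
    have := hmax (A ∪ ClF H x) ⟨hcl2, by omega⟩
    omega

end Pool.Agent.H694R2.SymIdx
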