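import Mathlib
import Pool.Agent.H694R2.SymIdx

/-! # Symmetric refutations over circuits with `MOD_p` gates: general near-model theorem -/

namespace Pool.Agent.H694R2.SymMod

open Equiv Pool.Agent.H522R2.SmallIndex

/-- Nodes of a circuit: variables and gates. -/
abbrev Node (V 𝒢 : Type) := V ⊕ 𝒢

/-- The kinds of gates: negation, disjunction, and `MOD_(p,a)` (true iff the number of true inputs
is congruent to `a` modulo `p`). -/
inductive Kind (p : ℕ)
  | neg
  | disj
  | mod (a : ZMod p)

/-- Circuits (acyclic, gates may be shared, unbounded fan-in) with negation gates, disjunction gates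
and `MOD_(p,a)` gates; `mult g c` says how often the node `c` is an input of the gate `g`. -/
structure Circuit (p : ℕ) (V 𝒢 : Type) where
  kind : 𝒢 → Kind p
  mult : 𝒢 → Node V 𝒢 → ℕ
  neg_one : ∀ g, kind g = Kind.neg → ∃ c, ∀ d, mult g d ≠ 0 ↔ d = c
  rank : 𝒢 → ℕ
  rank_lt : ∀ g c, mult g (Sum.inr c) ≠ 0 → rank c < rank g

variable {p : ℕ} {A V 𝒢 : Type}

/-- The circuit is invariant under the permutations of `A` (which act on variables and gates). -/
def Circuit.Symmetric (A : Type) [MulAction (Perm A) V] [MulAction (Perm A) 𝒢]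
    (C : Circuit p V 𝒢) : Prop :=
  ∀ (σ : Perm A) (g : 𝒢), C.kind (σ • g) = C.kind g ∧
    ∀ c : Node V 𝒢, C.mult (σ • g) (σ • c) = C.mult g c

/-- A sequent: a finite set of signed nodes, read as their disjunction. -/
abbrev Sequent (V 𝒢 : Type) := Finset (Node V 𝒢 × Bool)

/-- One inference of the sequent calculus; `𝒜` is the set of clauses to be refuted. -/
inductive Step [NeZero p] [Fintype V] [Fintype 𝒢] [DecidableEq V] [DecidableEq 𝒢]
    (C : Circuit p V 𝒢) (𝒜 : Set (Set (V × Bool)))
    (S : Set (Sequent V 𝒢)) : Sequent V 𝒢 → Prop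
  | id (c) : Step C 𝒜 S {(c, true), (c, false)}
  /-- a clause of `𝒜`, used as a rule -/
  | ax (Γ) (α) : α ∈ 𝒜 → (∀ l ∈ α, insert (Sum.inl l.1, !l.2) Γ ∈ S) → Step C 𝒜 S Γ
  | weak (Γ Δ) : Γ ∈ S → Γ ⊆ Δ → Step C 𝒜 S Δ
  | cut (Γ) (c) : insert (c, true) Γ ∈ S → insert (c, false) Γ ∈ S → Step C 𝒜 S Γ
  | negR (Γ) (g) (c) : C.kind g = Kind.neg → C.mult g c ≠ 0 → insert (c, false) Γ ∈ S →
      Step C 𝒜 S (insert (Sum.inr g, true) Γ)
  | negL (Γ) (g) (c) : C.kind g = Kind.neg → C.mult g c ≠ 0 → insert (c, true) Γ ∈ S →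
      Step C 𝒜 S (insert (Sum.inr g, false) Γ)
  | disjR (Γ) (g) (c) : C.kind g = Kind.disj → C.mult g c ≠ 0 → insert (c, true) Γ ∈ S →
      Step C 𝒜 S (insert (Sum.inr g, true) Γ)
  /-- one premise for every input -/
  | disjL (Γ) (g) : C.kind g = Kind.disj → (∀ c, C.mult g c ≠ 0 → insert (c, false) Γ ∈ S) →
      Step C 𝒜 S (insert (Sum.inr g, false) Γ)
  /-- a sum has at most one value -/
  | modOne (g g' : 𝒢) (a a' : ZMod p) : C.kind g = Kind.mod a → C.kind g' = Kind.mod a' →
      (∀ d, (C.mult g d : ZMod p) = C.mult g' d) → a ≠ a' →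
      Step C 𝒜 S {(Sum.inr g, false), (Sum.inr g', false)}
  /-- a sum has at least one value -/
  | modAll (G : ZMod p → 𝒢) : (∀ a, C.kind (G a) = Kind.mod a) →
      (∀ a d, (C.mult (G a) d : ZMod p) = C.mult (G 0) d) →
      Step C 𝒜 S (Finset.univ.image (fun a => (Sum.inr (G a), true)))
  /-- the empty sum is zero -/
  | modNil (g : 𝒢) : C.kind g = Kind.mod 0 → (∀ d, (C.mult g d : ZMod p) = 0) →
      Step C 𝒜 S {(Sum.inr g, true)}
  /-- adding the input `c` (`r` times) to a sum; `β` is the value of `c`, `β'` the direction -/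
  | modAdd (g g' : 𝒢) (c : Node V 𝒢) (r : ℕ) (a a' : ZMod p) (β β' : Bool) :
      C.kind g = Kind.mod a → C.kind g' = Kind.mod a' →
      (∀ d, (C.mult g d : ZMod p) = C.mult g' d + if d = c then (r : ZMod p) else 0) →
      a = a' + (if β = true then (r : ZMod p) else 0) →
      Step C 𝒜 S {(c, !β), (Sum.inr g, !β'), (Sum.inr g', β')}
  /-- replacing simultaneously equivalent inputs of a sum (the pair `(c, c')` is used `M c c'`
  times) -/
  | modCong (Γ) (g g' : 𝒢) (a : ZMod p) (M : Node V 𝒢 → Node V 𝒢 → ℕ) :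
      C.kind g = Kind.mod a → C.kind g' = Kind.mod a →
      (∀ c, (C.mult g c : ZMod p) = ∑ c', (M c c' : ZMod p)) →
      (∀ c', (C.mult g' c' : ZMod p) = ∑ c, (M c c' : ZMod p)) →
      (∀ c c', M c c' ≠ 0 → insert (c, false) (insert (c', true) Γ) ∈ S ∧
        insert (c, true) (insert (c', false) Γ) ∈ S) →
      Step C 𝒜 S (insert (Sum.inr g, false) (insert (Sum.inr g', true) Γ))
  /-- a sum of sums: `g` adds up all inputs of the `M τ` copies of the sums with possible values
  `τ i` (`i ∈ ZMod p`), `g'` adds up the values of these sums; `β` is the direction -/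
  | modSum (g g' : 𝒢) (a : ZMod p) (M : (ZMod p → 𝒢) → ℕ) (β : Bool) :
      C.kind g = Kind.mod a → C.kind g' = Kind.mod a →
      (∀ τ, M τ ≠ 0 → ∀ i, C.kind (τ i) = Kind.mod i ∧
        ∀ c, (C.mult (τ i) c : ZMod p) = C.mult (τ 0) c) →
      (∀ c, (C.mult g c : ZMod p) = ∑ τ, (M τ : ZMod p) * C.mult (τ 0) c) →
      (∀ c, (C.mult g' c : ZMod p) =
        ∑ τ, (M τ : ZMod p) * ∑ i : ZMod p, if c = Sum.inr (τ i) then i else 0) →
      Step C 𝒜 S {(Sum.inr g, !β), (Sum.inr g', β)}

/-- The sequents derivable with sequents of at most `b` nodes. -/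
inductive Der [NeZero p] [Fintype V] [Fintype 𝒢] [DecidableEq V] [DecidableEq 𝒢]
    (C : Circuit p V 𝒢) (𝒜 : Set (Set (V × Bool))) (b : ℕ) : Sequent V 𝒢 → Prop
  | step (S : Set (Sequent V 𝒢)) (Γ) : (∀ Δ ∈ S, Der C 𝒜 b Δ) → Step C 𝒜 S Γ → Γ.card ≤ b →
      Der C 𝒜 b Γ

/-! ### The truth definition -/

open Classical in
/-- relativised evaluation: inputs outside `U` are ignored -/
noncomputable def T [Fintype V] [Fintype 𝒢] (C : Circuit p V 𝒢) (U : Node V 𝒢 → Prop)
    (a : V → Prop) : Node V 𝒢 → Prop
  | Sum.inl v => a v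
  | Sum.inr g =>
    match C.kind g with
    | Kind.neg => ¬ ∃ c, ∃ _ : C.mult g c ≠ 0, U c ∧ T C U a c
    | Kind.disj => ∃ c, ∃ _ : C.mult g c ≠ 0, U c ∧ T C U a c
    | Kind.mod r => (∑ c : Node V 𝒢, if _ : C.mult g c ≠ 0 then
        (if U c ∧ T C U a c then (C.mult g c : ZMod p) else 0) else 0) = r
termination_by n => match n with
  | Sum.inl _ => 0
  | Sum.inr g => C.rank g + 1
decreasing_by
  all_goals
    rename_i hc
    rcases c with v | c
    · simp
    · simpa using C.rank_lt g c hc

section basic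

variable [Fintype V] [Fintype 𝒢]

theorem T_inl (C : Circuit p V 𝒢) (U : Node V 𝒢 → Prop) (a : V → Prop) (v) :
    T C U a (Sum.inl v) ↔ a v := by
  rw [T]

theorem T_neg (C : Circuit p V 𝒢) (U : Node V 𝒢 → Prop) (a : V → Prop) (g)
    (hg : C.kind g = Kind.neg) :
    T C U a (Sum.inr g) ↔ ¬ ∃ c, C.mult g c ≠ 0 ∧ U c ∧ T C U a c := by
  rw [T, hg]
  simp only [exists_prop]

theorem T_disj (C : Circuit p V 𝒢) (U : Node V 𝒢 → Prop) (a : V → Prop) (g)
    (hg : C.kind g = Kind.disj) :
    T C U a (Sum.inr g) ↔ ∃ c, C.mult g c ≠ 0 ∧ U c ∧ T C U a c := by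
  rw [T, hg]
  simp only [exists_prop]

open Classical in
/-- the relativised sum -/
noncomputable def cntU (C : Circuit p V 𝒢) (U : Node V 𝒢 → Prop) (a : V → Prop) (g : 𝒢) : ZMod p :=
  ∑ c : Node V 𝒢, if U c ∧ T C U a c then (C.mult g c : ZMod p) else 0

theorem T_mod (C : Circuit p V 𝒢) (U : Node V 𝒢 → Prop) (a : V → Prop) (g) (r : ZMod p)
    (hg : C.kind g = Kind.mod r) :
    T C U a (Sum.inr g) ↔ cntU C U a g = r := by
  classical
  rw [T, hg]
  simp only [cntU]
  have : ∀ c : Node V 𝒢, (if _ : C.mult g c ≠ 0 then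
        (if U c ∧ T C U a c then (C.mult g c : ZMod p) else 0) else 0) =
      if U c ∧ T C U a c then (C.mult g c : ZMod p) else 0 := by
    intro c
    by_cases h : C.mult g c ≠ 0
    · rw [dif_pos h]
    · rw [dif_neg h]
      push Not at h
      rw [h]; simp
  simp only [this]

end basic

/-! ### Renaming -/

section ren

variable [Fintype V] [Fintype 𝒢] [MulAction (Perm A) V] [MulAction (Perm A) 𝒢]

theorem T_ren {C : Circuit p V 𝒢} (hC : C.Symmetric A) (σ : Perm A)
    {U U' : Node V 𝒢 → Prop} {a a' : V → Prop}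
    (hU : ∀ n : Node V 𝒢, U' (σ • n) ↔ U n) (ha : ∀ v, a' (σ • v) ↔ a v) :
    ∀ n : Node V 𝒢, T C U' a' (σ • n) ↔ T C U a n := by
  have main : ∀ N : ℕ, ∀ n : Node V 𝒢, (∀ g, n = Sum.inr g → C.rank g < N) →
      (T C U' a' (σ • n) ↔ T C U a n) := by
    intro N
    induction N with
    | zero =>
      intro n hn
      rcases n with v | g
      · show T C U' a' (Sum.inl (σ • v)) ↔ _
        rw [T_inl, T_inl, ha]
      · exact absurd (hn g rfl) (by omega)
    | succ N ih =>
      intro n hn
      rcases n with v | g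
      · show T C U' a' (Sum.inl (σ • v)) ↔ _
        rw [T_inl, T_inl, ha]
      have ih' : ∀ c, C.mult g c ≠ 0 → (T C U' a' (σ • c) ↔ T C U a c) := by
        intro c hc
        apply ih
        intro h hch
        subst hch
        have := C.rank_lt g h hc
        have := hn g rfl
        omega
      have hkey : (∃ c, C.mult (σ • g) c ≠ 0 ∧ U' c ∧ T C U' a' c) ↔
          ∃ c, C.mult g c ≠ 0 ∧ U c ∧ T C U a c := by
        constructor
        · rintro ⟨c, hc, hUc, hTc⟩
          have hc' : C.mult g (σ⁻¹ • c) ≠ 0 := by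
            rw [← (hC σ g).2, smul_inv_smul]; exact hc
          refine ⟨σ⁻¹ • c, hc', ?_, ?_⟩
          · rw [← hU, smul_inv_smul]; exact hUc
          · rw [← ih' _ hc', smul_inv_smul]; exact hTc
        · rintro ⟨c, hc, hUc, hTc⟩
          exact ⟨σ • c, by rw [(hC σ g).2]; exact hc, (hU c).2 hUc, (ih' c hc).2 hTc⟩
      have hsum : cntU C U' a' (σ • g) = cntU C U a g := by
        classical
        unfold cntU
        symm
        apply Fintype.sum_equiv (MulAction.toPerm σ)
        intro c
        simp only [MulAction.toPerm_apply]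
        by_cases hc : C.mult g c = 0
        · have : C.mult (σ • g) (σ • c) = 0 := by rw [(hC σ g).2, hc]
          rw [this, hc]; simp
        · rw [(hC σ g).2]
          by_cases h : U c ∧ T C U a c
          · rw [if_pos h, if_pos ⟨(hU c).2 h.1, (ih' c hc).2 h.2⟩]
          · rw [if_neg h, if_neg]
            rintro ⟨h1, h2⟩
            exact h ⟨(hU c).1 h1, (ih' c hc).1 h2⟩
      have hk := (hC σ g).1
      show T C U' a' (Sum.inr (σ • g)) ↔ _
      cases hkind : C.kind g with
      | neg =>
        rw [T_neg C U' a' _ (hk.trans hkind), T_neg C U a _ hkind, hkey]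
      | disj =>
        rw [T_disj C U' a' _ (hk.trans hkind), T_disj C U a _ hkind, hkey]
      | mod r =>
        rw [T_mod C U' a' _ r (hk.trans hkind), T_mod C U a _ r hkind, hsum]
  intro n
  rcases n with v | g
  · exact main 0 _ (fun g h => by simp at h)
  · apply main (C.rank g + 1)
    intro h hh
    simp only [Sum.inr.injEq] at hh
    subst hh; omega

end ren

section sup

variable [DecidableEq A] {Z : Type} [MulAction (Perm A) Z]

/-- `S` supports `n` -/
def Sup (S : Finset A) (n : Z) : Prop :=
  ∀ x y z, x ∉ S → y ∉ S → z ∉ S → x ≠ y → x ≠ z → y ≠ z → cyc x y z • n = n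

theorem Sup.mono {S W : Finset A} {n : Z} (h : Sup S n) (hSW : S ⊆ W) : Sup W n :=
  fun x y z hx hy hz => h x y z (fun h => hx (hSW h)) (fun h => hy (hSW h)) (fun h => hz (hSW h))

theorem Sup.ren {S : Finset A} {n : Z} (h : Sup S n) (σ : Perm A) :
    Sup (S.image σ) (σ • n) := by
  intro x y z hx hy hz h1 h2 h3
  have e : ∀ w, w ∉ S.image σ → σ⁻¹ w ∉ S := by
    intro w hw hw'
    exact hw (Finset.mem_image.2 ⟨_, hw', by simp⟩)
  have hc : cyc x y z * σ = σ * cyc (σ⁻¹ x) (σ⁻¹ y) (σ⁻¹ z) := by
    have := cyc_conj σ (σ⁻¹ x) (σ⁻¹ y) (σ⁻¹ z)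
    rw [papply_inv, papply_inv, papply_inv] at this
    rw [← this]; simp
  rw [← mul_smul, hc, mul_smul, h _ _ _ (e x hx) (e y hy) (e z hz)
    (fun h => h1 (σ⁻¹.injective h)) (fun h => h2 (σ⁻¹.injective h))
    (fun h => h3 (σ⁻¹.injective h))]

/-- the node is supported by few points outside `X` -/
def Unt (k : ℕ) (X : Finset A) (n : Z) : Prop :=
  ∃ S : Finset A, S.card < k ∧ Disjoint S X ∧ Sup S n

theorem unt_mv' (k : ℕ) (X : Finset A) (σ : Perm A) (n : Z)
    (h : Unt k X n) : Unt k (X.image σ) (σ • n) := by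
  obtain ⟨S, h1, h2, h3⟩ := h
  refine ⟨S.image σ, ?_, ?_, h3.ren σ⟩
  · rwa [Finset.card_image_of_injective _ σ.injective]
  · exact (Finset.disjoint_image σ.injective).2 h2

theorem image_inv_image (X : Finset A) (σ : Perm A) : (X.image σ).image (σ⁻¹ : Perm A) = X := by
  rw [Finset.image_image]
  conv_rhs => rw [← Finset.image_id (s := X)]
  apply Finset.image_congr
  intro x _
  simp

theorem unt_mv (k : ℕ) (X : Finset A) (σ : Perm A) (n : Z) :
    Unt k (X.image σ) (σ • n) ↔ Unt k X n := by
  constructor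
  · intro h
    have := unt_mv' k _ σ⁻¹ _ h
    rwa [image_inv_image, inv_smul_smul] at this
  · exact unt_mv' k X σ n

/-- even permutations fixing a support pointwise fix the node -/
theorem Sup.fix [Fintype A] {S : Finset A} {n : Z} (h : Sup S n) (g : Perm A)
    (hg : Perm.sign g = 1) (hgS : ∀ y ∈ S, g y = y) : g • n = n := by
  classical
  let H : Subgroup (Perm A) := MulAction.stabilizer (Perm A) n
  let K : Subgroup (Perm {y // y ∉ S}) := H.comap (Perm.ofSubtype : Perm {y // y ∉ S} →* Perm A)
  have hK : (alternatingGroup {y // y ∉ S}) ≤ K := by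
    rw [← Equiv.Perm.closure_three_cycles_eq_alternating, Subgroup.closure_le]
    intro τ hτ
    have hτ3 : τ.IsThreeCycle := hτ
    obtain ⟨u, hu⟩ : τ.support.Nonempty := by
      rw [← Finset.card_pos, hτ3.card_support]; norm_num
    have h1 := hτ3.eq_swap_mul_swap_iff_mem_support.2 hu
    have h2 := hτ3.nodup_iff_mem_support.2 hu
    simp only [List.nodup_cons, List.mem_cons, List.not_mem_nil, or_false, not_or,
      List.nodup_nil, not_false_eq_true, and_true] at h2
    show (Perm.ofSubtype τ) ∈ H
    rw [h1, map_mul, Perm.ofSubtype_swap_eq, Perm.ofSubtype_swap_eq]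
    have h3 := h u.1 (τ u).1 (τ (τ u)).1 u.2 (τ u).2 (τ (τ u)).2
      (fun h => h2.1.1 (Subtype.ext h)) (fun h => h2.1.2 (Subtype.ext h))
      (fun h => h2.2 (Subtype.ext h))
    rw [MulAction.mem_stabilizer_iff]
    exact h3
  have hiff : ∀ x, (x ∉ S) ↔ (g x ∉ S) := by
    intro x
    constructor
    · intro hx hgx
      have h1 := hgS _ hgx
      exact hx (by rwa [g.injective h1] at hgx)
    · intro hx hxS
      rw [hgS x hxS] at hx
      exact hx hxS
  have hmem : (g.subtypePerm (p := fun x => x ∉ S) (fun x => (hiff x).symm)) ∈ K := by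
    apply hK
    rw [Perm.mem_alternatingGroup, Perm.sign_subtypePerm]
    · exact hg
    · intro x hx hxS
      exact hx (hgS x hxS)
  have h5 : Perm.ofSubtype (g.subtypePerm (p := fun x => x ∉ S) (fun x => (hiff x).symm)) ∈ H := hmem
  rw [Perm.ofSubtype_subtypePerm] at h5
  · exact h5
  · intro x hx hxS
    exact hx (hgS x hxS)

/-- a node fixed by a permutation of `X` all of whose invariant sets are large does not depend on
`X` -/
theorem Sup.unt_of_fix [Fintype A] {S : Finset A} {n : Z} {k : ℕ} (h : Sup S n) (hS : S.card < k)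
    (h2k : 2 * k + 2 ≤ Fintype.card A) (g : Perm A) (hg : g • n = n) {X : Finset A}
    (hgX : ∀ y, y ∉ X → g y = y)
    (horb : ∀ D ⊆ X, (∀ y ∈ D, g y ∈ D) → D.Nonempty → k ≤ D.card) : Unt k X n := by
  classical
  set H : Subgroup (Perm A) := MulAction.stabilizer (Perm A) n with hH
  have hgH : g ∈ H := hg
  obtain ⟨d, hd⟩ : ∃ d, d ∉ S := by
    by_contra hcon
    push Not at hcon
    have := Finset.card_le_card (fun x (_ : x ∈ (Finset.univ : Finset A)) => hcon x)
    rw [Finset.card_univ] at this
    omega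
  have hsub : ∀ y, y ∉ S → Cl H d y := by
    intro y hy
    by_cases hyd : y = d
    · exact Or.inl hyd
    obtain ⟨z, hz⟩ : ∃ z, z ∉ insert d (insert y S) := by
      by_contra hcon
      push Not at hcon
      have h1 : (insert d (insert y S)) = Finset.univ := Finset.eq_univ_iff_forall.2 hcon
      have h2 := Finset.card_insert_le d (insert y S)
      have h3 := Finset.card_insert_le y S
      rw [h1, Finset.card_univ] at h2
      omega
    simp only [Finset.mem_insert, not_or] at hz
    exact Or.inr ⟨z, Ne.symm hyd, Ne.symm hz.1, Ne.symm hz.2.1,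
      h d y z hd hy hz.2.2 (Ne.symm hyd) (Ne.symm hz.1) (Ne.symm hz.2.1)⟩
  -- the complement of the class
  set D := (ClF H d)ᶜ with hD
  have hDS : D ⊆ S := by
    intro y hy
    by_contra hyS
    rw [hD, Finset.mem_compl, mem_ClF] at hy
    exact hy (hsub y hyS)
  have hDcard : D.card < k := lt_of_le_of_lt (Finset.card_le_card hDS) hS
  -- the class is invariant
  have hinv : ∀ y, Cl H d y → Cl H d (g y) := by
    obtain ⟨w, hw1, hw2⟩ : ∃ w, w ∉ D ∧ g w ∉ D := by
      by_contra hcon
      push Not at hcon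
      have h1 : (Finset.univ : Finset A) ⊆ D ∪ D.image (g⁻¹ : Perm A) := by
        intro w _
        by_cases hw : w ∈ D
        · exact Finset.mem_union_left _ hw
        · exact Finset.mem_union_right _ (Finset.mem_image.2 ⟨g w, hcon w hw, by simp⟩)
      have h2 := Finset.card_le_card h1
      have h3 := Finset.card_union_le D (D.image (g⁻¹ : Perm A))
      rw [Finset.card_image_of_injective _ (g⁻¹ : Perm A).injective] at h3
      rw [Finset.card_univ] at h2
      omega
    simp only [hD, Finset.mem_compl, mem_ClF, not_not] at hw1 hw2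
    intro y hy
    have h1 : Cl H w y := cl_trans (cl_symm hw1) hy
    exact cl_trans hw2 (cl_conj h1 hgH)
  have hinv' : ∀ y, y ∈ D → g y ∈ D := by
    -- `g` maps the finite class into, hence onto, itself
    have himg : (ClF H d).image g = ClF H d := by
      apply Finset.eq_of_subset_of_card_le
      · intro y hy
        obtain ⟨z, hz, rfl⟩ := Finset.mem_image.1 hy
        rw [mem_ClF] at hz ⊢
        exact hinv z hz
      · rw [Finset.card_image_of_injective _ g.injective]
    intro y hy
    rw [hD, Finset.mem_compl] at hy ⊢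
    intro hgy
    rw [← himg] at hgy
    obtain ⟨z, hz, hzy⟩ := Finset.mem_image.1 hgy
    rw [g.injective hzy] at hz
    exact hy hz
  have hXinv : ∀ y, y ∈ X → g y ∈ X := by
    intro y hy
    by_contra hgy
    have := hgX _ hgy
    rw [g.injective this] at hgy
    exact hgy hy
  refine ⟨D, hDcard, ?_, ?_⟩
  · rw [Finset.disjoint_iff_inter_eq_empty]
    by_contra hne
    have h1 := horb (D ∩ X) Finset.inter_subset_right
      (fun y hy => Finset.mem_inter.2 ⟨hinv' y (Finset.mem_inter.1 hy).1,
        hXinv y (Finset.mem_inter.1 hy).2⟩) (Finset.nonempty_iff_ne_empty.2 hne)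
    have h2 := Finset.card_le_card (Finset.inter_subset_left : D ∩ X ⊆ D)
    omega
  · intro x y z hx hy hz h1 h2 h3
    simp only [hD, Finset.mem_compl, not_not, mem_ClF] at hx hy hz
    exact (good_of_cl hx hy hz h1 h2 h3).2.2.2

end sup

/-! ### Near-models -/

/-- The class `𝒮` of pairs `(X, a)` (a set of atoms and an assignment) is a class of near-models of
the clauses `𝒜`: deleting `X`, all clauses with small support outside `X` hold. -/
structure Near (A : Type) [DecidableEq A] [Fintype A] [MulAction (Perm A) V]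
    (𝒜 : Set (Set (V × Bool))) (p k x : ℕ) (𝒮 : Finset A → (V → Prop) → Prop) : Prop where
  card : ∀ X a, 𝒮 X a → X.card ≤ x
  move : ∀ X a, 𝒮 X a → ∀ σ : Perm A, 𝒮 (X.image σ) (fun v => a (σ⁻¹ • v))
  var : ∀ v : V, ∃ S : Finset A, S.card < k ∧ Sup S v
  ax : ∀ α ∈ 𝒜, ∃ D : Finset A, D.card < k ∧ ∀ X a, 𝒮 X a → Disjoint D X →
    ∃ l ∈ α, Unt k X l.1 ∧ (a l.1 ↔ l.2 = true)
  shift : ∀ X a, 𝒮 X a → ∃ (g : Perm A) (e : ℕ), Perm.sign g = 1 ∧ (∀ y, y ∉ X → g y = y) ∧
    (∀ v, a (g • v) ↔ a v) ∧ g ^ (p ^ e) = 1 ∧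
    ∀ D ⊆ X, (∀ y ∈ D, g y ∈ D) → D.Nonempty → k ≤ D.card
  ne : ∃ X a, 𝒮 X a

section move

variable [DecidableEq A] [Fintype A] [Fintype V] [Fintype 𝒢] [MulAction (Perm A) V]
  [MulAction (Perm A) 𝒢]

def TT (C : Circuit p V 𝒢) (k : ℕ) (X : Finset A) (a : V → Prop) (n : Node V 𝒢) : Prop :=
  T C (Unt k X) a n

theorem TT_mv {C : Circuit p V 𝒢} (hC : C.Symmetric A) (k : ℕ) (X : Finset A) (a : V → Prop)
    (σ : Perm A) (n : Node V 𝒢) :
    TT C k (X.image σ) (fun v => a (σ⁻¹ • v)) (σ • n) ↔ TT C k X a n := by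
  apply T_ren hC σ (unt_mv k X σ)
  intro v
  simp

/-- moving `X` away from a small set -/
theorem move_perm (W S X : Finset A) (hWX : Disjoint W X)
    (h1 : W.card + S.card + X.card < Fintype.card A) (h2 : W.card + 2 < Fintype.card A) :
    ∃ τ : Perm A, Perm.sign τ = 1 ∧ (∀ w ∈ W, τ w = w) ∧ Disjoint W (X.image τ) ∧
      Disjoint S (X.image τ) := by
  obtain ⟨N, hN⟩ : ∃ N, (S.filter (fun w => w ∈ X)).card ≤ N := ⟨_, le_rfl⟩
  induction N generalizing X with
  | zero =>
    have himg : X.image (1 : Perm A) = X := by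
      ext w; simp
    refine ⟨1, Perm.sign_one, fun w _ => rfl, by rw [himg]; exact hWX, ?_⟩
    rw [himg, Finset.disjoint_left]
    intro w hw hwn
    have : w ∈ S.filter (fun w => w ∈ X) := Finset.mem_filter.2 ⟨hw, hwn⟩
    rw [Finset.card_eq_zero.1 (Nat.le_zero.1 hN)] at this
    simp at this
  | succ N ih =>
    by_cases hex : ∃ u ∈ S, u ∈ X
    swap
    · push Not at hex
      have himg : X.image (1 : Perm A) = X := by
        ext w; simp
      exact ⟨1, Perm.sign_one, fun w _ => rfl, by rw [himg]; exact hWX, by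
        rw [himg]; exact Finset.disjoint_left.2 hex⟩
    obtain ⟨u, huS, hu⟩ := hex
    have hWX' : ∀ w ∈ W, w ∉ X := fun w hw hwX => (Finset.disjoint_left.1 hWX) hw hwX
    obtain ⟨y, hy⟩ : ∃ y, y ∉ (W ∪ S) ∪ X := by
      by_contra hcon
      push Not at hcon
      have g1 := Finset.card_le_card (fun y (_ : y ∈ (Finset.univ : Finset A)) => hcon y)
      have g2 := Finset.card_union_le W S
      have g3 := Finset.card_union_le (W ∪ S) X
      rw [Finset.card_univ] at g1
      omega
    simp only [Finset.mem_union, not_or] at hy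
    obtain ⟨⟨hyW, hyS⟩, hyX⟩ := hy
    have huW : u ∉ W := fun h => hWX' u h hu
    have huy : u ≠ y := fun h => hyS (h ▸ huS)
    obtain ⟨z, hz⟩ : ∃ z, z ∉ insert u (insert y W) := by
      by_contra hcon
      push Not at hcon
      have g1 : (insert u (insert y W)) = Finset.univ := Finset.eq_univ_iff_forall.2 hcon
      have g2 := Finset.card_insert_le u (insert y W)
      have g3 := Finset.card_insert_le y W
      rw [g1, Finset.card_univ] at g2
      omega
    simp only [Finset.mem_insert, not_or] at hz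
    obtain ⟨hzu, hzy, hzW⟩ := hz
    have hmem : ∀ (σ : Perm A) (w : A), w ∈ X.image σ ↔ σ⁻¹ w ∈ X := by
      intro σ w
      rw [Finset.mem_image]
      constructor
      · rintro ⟨v, hv, rfl⟩; simpa using hv
      · intro h; exact ⟨_, h, by simp⟩
    have inv_of_ne : ∀ {σ : Perm A} {u : A}, σ u = u → σ⁻¹ u = u := by
      intro σ u h
      rw [Perm.inv_eq_iff_eq]; exact h.symm
    -- one step
    obtain ⟨σ, s1, s2, s3⟩ : ∃ σ : Perm A, Perm.sign σ = 1 ∧ (∀ w ∈ W, σ w = w) ∧
        ∀ w ∈ S, w ∈ X.image σ → w ∈ X ∧ w ≠ u := by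
      by_cases hzX : z ∈ X
      · -- `y → u → z → y`
        have e1 : (cyc y u z)⁻¹ u = y := by
          rw [Perm.inv_eq_iff_eq]; exact (cyc_apply_fst huy.symm (Ne.symm hzy)).symm
        have e3 : ∀ w, w ≠ u → w ≠ y → w ≠ z → (cyc y u z)⁻¹ w = w := fun w h1 h2 h3 =>
          inv_of_ne (cyc_apply_of_ne h2 h1 h3)
        refine ⟨cyc y u z, ?_, ?_, ?_⟩
        · simp only [cyc, map_mul, Perm.sign_swap huy.symm, Perm.sign_swap (Ne.symm hzu)]
          decide
        · intro w hw
          apply cyc_apply_of_ne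
          · rintro rfl; exact hyW hw
          · rintro rfl; exact huW hw
          · rintro rfl; exact hzW hw
        · intro w hw hwX
          rw [hmem] at hwX
          have g2 : w ≠ y := fun h => hyS (h ▸ hw)
          by_cases g1 : w = u
          · rw [g1, e1] at hwX; exact absurd hwX hyX
          by_cases g3 : w = z
          · rw [g3]; exact ⟨hzX, hzu⟩
          · rw [e3 w g1 g2 g3] at hwX; exact ⟨hwX, g1⟩
      · -- `u → y → z → u`
        have e1 : (cyc u y z)⁻¹ u = z := by
          rw [Perm.inv_eq_iff_eq]; exact cyc_apply_trd.symm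
        have e2 : (cyc u y z)⁻¹ z = y := by
          rw [Perm.inv_eq_iff_eq]; exact (cyc_apply_snd (Ne.symm hzu) (Ne.symm hzy)).symm
        have e3 : ∀ w, w ≠ u → w ≠ y → w ≠ z → (cyc u y z)⁻¹ w = w := fun w h1 h2 h3 =>
          inv_of_ne (cyc_apply_of_ne h1 h2 h3)
        refine ⟨cyc u y z, ?_, ?_, ?_⟩
        · simp only [cyc, map_mul, Perm.sign_swap huy, Perm.sign_swap (Ne.symm hzy)]
          decide
        · intro w hw
          apply cyc_apply_of_ne
          · rintro rfl; exact huW hw
          · rintro rfl; exact hyW hw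
          · rintro rfl; exact hzW hw
        · intro w hw hwX
          rw [hmem] at hwX
          have g2 : w ≠ y := fun h => hyS (h ▸ hw)
          by_cases g1 : w = u
          · rw [g1, e1] at hwX; exact absurd hwX hzX
          by_cases g3 : w = z
          · rw [g3, e2] at hwX; exact absurd hwX hyX
          · rw [e3 w g1 g2 g3] at hwX; exact ⟨hwX, g1⟩
    have hWX2 : Disjoint W (X.image σ) := by
      rw [Finset.disjoint_left]
      intro w hw hwX
      rw [hmem, inv_of_ne (s2 w hw)] at hwX
      exact hWX' w hw hwX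
    obtain ⟨τ, t1, t2, t3, t4⟩ := ih (X.image σ) hWX2
      (by rw [Finset.card_image_of_injective _ σ.injective]; exact h1) (by
        have hsub : S.filter (fun w => w ∈ X.image σ) ⊆ (S.filter (fun w => w ∈ X)).erase u := by
          intro w hw
          obtain ⟨hw1, hw2⟩ := Finset.mem_filter.1 hw
          obtain ⟨h5, h6⟩ := s3 w hw1 hw2
          exact Finset.mem_erase.2 ⟨h6, Finset.mem_filter.2 ⟨hw1, h5⟩⟩
        have h5 := Finset.card_le_card hsub
        have h6 : ((S.filter (fun w => w ∈ X)).erase u).card =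
            (S.filter (fun w => w ∈ X)).card - 1 :=
          Finset.card_erase_of_mem (Finset.mem_filter.2 ⟨huS, hu⟩)
        rw [h6] at h5
        omega)
    have himg : X.image (τ * σ) = (X.image σ).image τ := by
      rw [Finset.image_image]; rfl
    refine ⟨τ * σ, by rw [map_mul, t1, s1, mul_one], ?_, by rw [himg]; exact t3,
      by rw [himg]; exact t4⟩
    intro w hw
    rw [Perm.mul_apply, s2 w hw, t2 w hw]

variable {𝒜 : Set (Set (V × Bool))} {k x b : ℕ} {𝒮 : Finset A → (V → Prop) → Prop}

theorem joint_support {X : Finset A} (Γ : Sequent V 𝒢)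
    (hΓ : ∀ l ∈ Γ, Unt k X l.1) :
    ∃ W : Finset A, W.card ≤ Γ.card * (k - 1) ∧ Disjoint W X ∧
      ∀ l ∈ Γ, ∃ S ⊆ W, S.card < k ∧ Sup S l.1 := by
  classical
  induction Γ using Finset.induction_on with
  | empty => exact ⟨∅, by simp, by simp, by simp⟩
  | insert l Γ hl ih =>
    obtain ⟨W, h1, h2, h3⟩ := ih (fun l' hl' => hΓ l' (Finset.mem_insert_of_mem hl'))
    obtain ⟨S, g1, g2, g3⟩ := hΓ l (Finset.mem_insert_self _ _)
    refine ⟨S ∪ W, ?_, ?_, ?_⟩
    · have h4 := Finset.card_union_le S W
      rw [Finset.card_insert_of_notMem hl, add_mul]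
      omega
    · exact Finset.disjoint_union_left.2 ⟨g2, h2⟩
    · intro l' hl'
      rcases Finset.mem_insert.1 hl' with rfl | hl'
      · exact ⟨S, Finset.subset_union_left, g1, g3⟩
      · obtain ⟨S', e1, e2, e3⟩ := h3 l' hl'
        exact ⟨S', e1.trans Finset.subset_union_right, e2, e3⟩

end move

section sound

variable [DecidableEq A] [Fintype A] [Fintype V] [Fintype 𝒢] [DecidableEq V] [DecidableEq 𝒢]
  [MulAction (Perm A) V] [MulAction (Perm A) 𝒢]
  {𝒜 : Set (Set (V × Bool))} {k x b : ℕ} {𝒮 : Finset A → (V → Prop) → Prop}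

open Classical in
/-- the value of a node (0 if it is ignored) -/
noncomputable def ind (C : Circuit p V 𝒢) (k : ℕ) (X : Finset A) (a : V → Prop) (c : Node V 𝒢) :
    ZMod p := if Unt k X c ∧ TT C k X a c then 1 else 0

theorem TT_mod {C : Circuit p V 𝒢} {X : Finset A} {a : V → Prop} {g : 𝒢} {r : ZMod p}
    (hg : C.kind g = Kind.mod r) :
    TT C k X a (Sum.inr g) ↔ ∑ c, ind C k X a c * C.mult g c = r := by
  classical
  rw [TT, T_mod C _ _ g r hg, cntU]
  have : ∀ c : Node V 𝒢, (if Unt k X c ∧ T C (Unt k X) a c then (C.mult g c : ZMod p) else 0) =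
      ind C k X a c * C.mult g c := by
    intro c
    unfold ind
    by_cases h : Unt k X c ∧ T C (Unt k X) a c
    · rw [if_pos h, if_pos (by exact h)]; simp
    · rw [if_neg h, if_neg (by exact h)]; simp
  simp only [this]

end sound

/-- sums invariant under a permutation of `p`-power order only depend on the fixed points -/
theorem sum_eq_zero_of_perm {ι : Type} [Fintype ι] [hp : Fact p.Prime] {e : ℕ} (f : Perm ι)
    (hf : f ^ (p ^ e) = 1) (F : ι → ZMod p) (hF : ∀ i, F (f i) = F i)
    (h0 : ∀ i, f i = i → F i = 0) : ∑ i, F i = 0 := by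
  classical
  rw [← Finset.sum_fiberwise Finset.univ F F]
  apply Finset.sum_eq_zero
  intro v _
  rw [Finset.sum_congr rfl (fun i hi => (Finset.mem_filter.1 hi).2), Finset.sum_const]
  by_cases hv : v = 0
  · rw [hv]; simp
  -- the fibre has no fixed points
  have hiff : ∀ i, F (f i) = v ↔ F i = v := by
    intro i; rw [hF]
  let τ : Perm {i // F i = v} := f.subtypePerm hiff
  have hτ : τ ^ (p ^ e) = 1 := by
    ext i
    have h1 : ∀ m : ℕ, ∀ i : {i // F i = v}, ((τ ^ m) i).1 = (f ^ m) i.1 := by
      intro m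
      induction m with
      | zero => intro i; rfl
      | succ m ih => intro i; rw [pow_succ, pow_succ, Perm.mul_apply, Perm.mul_apply, ih]; rfl
    rw [h1, hf]; rfl
  have h2 := Equiv.Perm.card_compl_support_modEq hτ
  have h3 : τ.supportᶜ = ∅ := by
    rw [Finset.eq_empty_iff_forall_notMem]
    intro i hi
    rw [Finset.mem_compl, Perm.notMem_support] at hi
    have h4 : f i.1 = i.1 := congrArg Subtype.val hi
    exact hv (i.2.symm.trans (h0 _ h4))
  rw [h3, Finset.card_empty, Fintype.card_subtype] at h2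
  have h5 : ((Finset.univ.filter (fun i => F i = v)).card : ZMod p) = 0 := by
    rw [ZMod.natCast_eq_zero_iff]
    exact (Nat.modEq_zero_iff_dvd.1 h2.symm)
  rw [nsmul_eq_mul, h5, zero_mul]

section sound

variable [DecidableEq A] [Fintype A] [Fintype V] [Fintype 𝒢] [DecidableEq V] [DecidableEq 𝒢]
  [MulAction (Perm A) V] [MulAction (Perm A) 𝒢]
  {𝒜 : Set (Set (V × Bool))} {k x b : ℕ} {𝒮 : Finset A → (V → Prop) → Prop}

theorem ind_eq {C : Circuit p V 𝒢} {X : Finset A} {a : V → Prop} {c : Node V 𝒢}
    (hc : Unt k X c) [Decidable (TT C k X a c)] :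
    ind (p := p) C k X a c = if TT C k X a c then 1 else 0 := by
  classical
  unfold ind
  by_cases h : TT C k X a c
  · rw [if_pos ⟨hc, h⟩, if_pos h]
  · rw [if_neg (fun h' => h h'.2), if_neg h]

theorem sound [Fact p.Prime] {C : Circuit p V 𝒢} (hC : C.Symmetric A) (hN : Near A 𝒜 p k x 𝒮)
    (hcard : x + (b + 3) * k ≤ Fintype.card A) (hk : 2 ≤ k) (hb : 2 ≤ b)
    (hsm : ∀ q : Node V 𝒢, ∃ S : Finset A, S.card < k ∧ Sup S q)
    (Γ : Sequent V 𝒢) (hΓ : Der C 𝒜 b Γ) :
    ∀ X a, 𝒮 X a → (∀ l ∈ Γ, Unt k X l.1) → ∃ l ∈ Γ, (TT C k X a l.1 ↔ l.2 = true) := by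
  classical
  induction hΓ with
  | step S Γ _ hstep hΓb ih =>
    intro X a hs hU
    have hroom : (b + 3) * k = b * (k - 1) + b + 3 * k := by
      obtain ⟨k', rfl⟩ : ∃ k', k = k' + 1 := ⟨k - 1, by omega⟩
      simp only [Nat.add_sub_cancel]; ring
    have hXc := hN.card X a hs
    obtain ⟨W, hWc, hWX, hWs⟩ := joint_support (k := k) Γ hU
    have hWb : W.card ≤ b * (k - 1) := hWc.trans (Nat.mul_le_mul_right _ hΓb)
    have hfixΓ : ∀ τ : Perm A, Perm.sign τ = 1 → (∀ w ∈ W, τ w = w) →
        ∀ l ∈ Γ, τ • l.1 = l.1 := by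
      intro τ h1 h2 l hl
      obtain ⟨S', e1, _, e3⟩ := hWs l hl
      exact e3.fix τ h1 (fun y hy => h2 y (e1 hy))
    have hTτ : ∀ τ : Perm A, Perm.sign τ = 1 → (∀ w ∈ W, τ w = w) →
        ∀ l ∈ Γ, (TT C k (X.image τ) (fun v => a (τ⁻¹ • v)) l.1 ↔ TT C k X a l.1) := by
      intro τ h1 h2 l hl
      have := TT_mv hC k X a τ l.1
      rwa [hfixΓ τ h1 h2 l hl] at this
    have hUτ : ∀ τ : Perm A, Perm.sign τ = 1 → (∀ w ∈ W, τ w = w) →
        ∀ l ∈ Γ, Unt k (X.image τ) l.1 := by
      intro τ h1 h2 l hl
      have := (unt_mv k X τ l.1).2 (hU l hl)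
      rwa [hfixΓ τ h1 h2 l hl] at this
    -- moving to a state in which a small set is untouched
    have hmove' : ∀ S' : Finset A, S'.card < k → ∃ X' a', 𝒮 X' a' ∧
        (∀ l ∈ Γ, Unt k X' l.1) ∧ Disjoint S' X' ∧
        ((∃ l ∈ Γ, (TT C k X' a' l.1 ↔ l.2 = true)) → ∃ l ∈ Γ, (TT C k X a l.1 ↔ l.2 = true)) := by
      intro S' hS'
      obtain ⟨τ, t1, t2, t3, t4⟩ := move_perm W S' X hWX (by omega) (by omega)
      refine ⟨_, _, hN.move X a hs τ, hUτ τ t1 t2, t4, ?_⟩
      rintro ⟨l, hl, hl'⟩
      exact ⟨l, hl, (hTτ τ t1 t2 l hl).symm.trans hl'⟩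
    have hmove : ∀ q : Node V 𝒢, ∃ X' a', 𝒮 X' a' ∧
        (∀ l ∈ Γ, Unt k X' l.1) ∧ Unt k X' q ∧
        ((∃ l ∈ Γ, (TT C k X' a' l.1 ↔ l.2 = true)) → ∃ l ∈ Γ, (TT C k X a l.1 ↔ l.2 = true)) := by
      intro q
      obtain ⟨S', hS', hSq⟩ := hsm q
      obtain ⟨X', a', h1, h2, h3, h4⟩ := hmove' S' hS'
      exact ⟨X', a', h1, h2, ⟨S', hS', h3, hSq⟩, h4⟩
    -- the shift
    obtain ⟨g₀, e, hsign, hout, hainv, hpow, horb⟩ := hN.shift X a hs
    have h2k : 2 * k + 2 ≤ Fintype.card A := by omega
    have hfixU : ∀ n : Node V 𝒢, Unt k X n → g₀ • n = n := by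
      rintro n ⟨S', _, h2, h3⟩
      exact h3.fix g₀ hsign (fun y hy => hout y (Finset.disjoint_left.1 h2 hy))
    have hUfix : ∀ n : Node V 𝒢, g₀ • n = n → Unt k X n := by
      intro n hn
      obtain ⟨S', hS', hSn⟩ := hsm n
      exact hSn.unt_of_fix hS' h2k g₀ hn hout horb
    have himg : X.image g₀ = X := by
      apply Finset.eq_of_subset_of_card_le
      · intro y hy
        obtain ⟨z, hz, rfl⟩ := Finset.mem_image.1 hy
        by_contra hgz
        have := hout _ hgz
        rw [g₀.injective this] at hgz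
        exact hgz hz
      · rw [Finset.card_image_of_injective _ g₀.injective]
    have hainv' : (fun v => a (g₀⁻¹ • v)) = a := by
      funext v
      apply propext
      rw [← hainv, smul_inv_smul]
    have hTTinv : ∀ c : Node V 𝒢, TT C k X a (g₀ • c) ↔ TT C k X a c := by
      intro c
      have := TT_mv hC k X a g₀ c
      rwa [himg, hainv'] at this
    have hUinv : ∀ c : Node V 𝒢, Unt k X (g₀ • c) ↔ Unt k X c := by
      intro c
      have := unt_mv k X g₀ c
      rwa [himg] at this
    have hind : ∀ c : Node V 𝒢, ind (p := p) C k X a (g₀ • c) = ind C k X a c := by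
      intro c
      unfold ind
      simp only [hUinv c, hTTinv c]
    have hmultinv : ∀ g : 𝒢, g₀ • g = g → ∀ c : Node V 𝒢, C.mult g (g₀ • c) = C.mult g c := by
      intro g hg c
      have := (hC g₀ g).2 c
      rwa [hg] at this
    have hpowperm : ∀ {Z : Type} [MulAction (Perm A) Z], (MulAction.toPerm g₀ : Perm Z) ^ (p ^ e) = 1 := by
      intro Z _
      rw [← MulAction.toPermHom_apply, ← map_pow, hpow, map_one]
    cases hstep with
    | id c =>
      by_cases h : TT C k X a c
      · exact ⟨(c, true), by simp, by simp [h]⟩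
      · exact ⟨(c, false), by simp, by simp [h]⟩
    | ax _ α hα hax =>
      obtain ⟨D, hD, hDα⟩ := hN.ax α hα
      obtain ⟨X', a', h1, h2, h3, h4⟩ := hmove' D hD
      apply h4
      obtain ⟨l, hl, hlU, hla⟩ := hDα X' a' h1 h3
      obtain ⟨m, hm, hm'⟩ := ih _ (hax l hl) X' a' h1 (by
        intro m hm
        rcases Finset.mem_insert.1 hm with rfl | hm
        · obtain ⟨S', e1, e2, e3⟩ := hlU
          refine ⟨S', e1, e2, ?_⟩
          intro y z w hy hz hw g1 g2 g3
          show Sum.inl (cyc y z w • l.1) = _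
          rw [e3 y z w hy hz hw g1 g2 g3]
        · exact h2 m hm)
      rcases Finset.mem_insert.1 hm with rfl | hm
      · exfalso
        have hm'' : a' l.1 ↔ (!l.2) = true := by
          rw [← hm']
          show _ ↔ T C _ _ (Sum.inl l.1)
          rw [T_inl]
        rw [hla] at hm''
        cases h : l.2 <;> simp [h] at hm''
      · exact ⟨m, hm, hm'⟩
    | weak Δ _ hΔ hsub =>
      obtain ⟨l, hl, hl'⟩ := ih _ hΔ X a hs (fun l hl => hU l (hsub hl))
      exact ⟨l, hsub hl, hl'⟩
    | cut _ c h1 h2 =>
      obtain ⟨X', a', g1, g2, g3, g4⟩ := hmove c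
      apply g4
      by_cases hc : TT C k X' a' c
      · obtain ⟨l, hl, hl'⟩ := ih _ h2 X' a' g1 (by
          intro l hl
          rcases Finset.mem_insert.1 hl with rfl | hl
          · exact g3
          · exact g2 l hl)
        rcases Finset.mem_insert.1 hl with rfl | hl
        · simp [hc] at hl'
        · exact ⟨l, hl, hl'⟩
      · obtain ⟨l, hl, hl'⟩ := ih _ h1 X' a' g1 (by
          intro l hl
          rcases Finset.mem_insert.1 hl with rfl | hl
          · exact g3
          · exact g2 l hl)
        rcases Finset.mem_insert.1 hl with rfl | hl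
        · simp [hc] at hl'
        · exact ⟨l, hl, hl'⟩
    | negR Δ g c hg hc h =>
      by_cases hT : TT C k X a (Sum.inr g)
      · exact ⟨_, Finset.mem_insert_self _ _, by simp [hT]⟩
      · have hT' := hT
        rw [TT, T_neg C _ _ g hg, not_not] at hT'
        obtain ⟨c', hc', hUc, hTc⟩ := hT'
        obtain ⟨c'', hch⟩ := C.neg_one g hg
        rw [hch] at hc hc'
        have : c' = c := hc'.trans hc.symm
        subst this
        obtain ⟨l, hl, hl'⟩ := ih _ h X a hs (by
          intro l hl
          rcases Finset.mem_insert.1 hl with rfl | hl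
          · exact hUc
          · exact hU l (Finset.mem_insert_of_mem hl))
        rcases Finset.mem_insert.1 hl with rfl | hl
        · simp only [Bool.false_eq_true, iff_false] at hl'
          exact absurd hTc hl'
        · exact ⟨l, Finset.mem_insert_of_mem hl, hl'⟩
    | negL Δ g c hg hc h =>
      by_cases hT : TT C k X a (Sum.inr g)
      · have hT' := hT
        rw [TT, T_neg C _ _ g hg] at hT'
        obtain ⟨c'', hch⟩ := C.neg_one g hg
        have hUc : Unt k X c := by
          obtain ⟨S', e1, e2, e3⟩ := hU _ (Finset.mem_insert_self _ _)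
          refine ⟨S', e1, e2, ?_⟩
          intro x y z hx hy hz h1 h2 h3
          have h4 := e3 x y z hx hy hz h1 h2 h3
          have h5 : (cyc x y z) • g = g := by
            have : (Sum.inr ((cyc x y z) • g) : Node V 𝒢) = Sum.inr g := h4
            exact Sum.inr.inj this
          have h6 : C.mult g (cyc x y z • c) ≠ 0 := by
            have h7 := (hC (cyc x y z) g).2 c
            rw [h5] at h7
            rwa [h7]
          rw [hch] at h6 hc
          rw [h6, hc]
        have hTc : ¬ TT C k X a c := fun h => hT' ⟨c, hc, hUc, h⟩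
        obtain ⟨l, hl, hl'⟩ := ih _ h X a hs (by
          intro l hl
          rcases Finset.mem_insert.1 hl with rfl | hl
          · exact hUc
          · exact hU l (Finset.mem_insert_of_mem hl))
        rcases Finset.mem_insert.1 hl with rfl | hl
        · simp only [iff_true] at hl'
          exact absurd hl' hTc
        · exact ⟨l, Finset.mem_insert_of_mem hl, hl'⟩
      · exact ⟨_, Finset.mem_insert_self _ _, by simp [hT]⟩
    | disjR Δ g c hg hc h =>
      obtain ⟨X', a', g1, g2, g3, g4⟩ := hmove c
      apply g4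
      obtain ⟨l, hl, hl'⟩ := ih _ h X' a' g1 (by
        intro l hl
        rcases Finset.mem_insert.1 hl with rfl | hl
        · exact g3
        · exact g2 l (Finset.mem_insert_of_mem hl))
      rcases Finset.mem_insert.1 hl with rfl | hl
      · refine ⟨_, Finset.mem_insert_self _ _, ?_⟩
        simp only [iff_true] at hl' ⊢
        rw [TT, T_disj C _ _ g hg]
        exact ⟨c, hc, g3, hl'⟩
      · exact ⟨l, Finset.mem_insert_of_mem hl, hl'⟩
    | disjL Δ g hg h =>
      by_cases hT : TT C k X a (Sum.inr g)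
      · have hT' := hT
        rw [TT, T_disj C _ _ g hg] at hT'
        obtain ⟨c, hc, hUc, hTc⟩ := hT'
        obtain ⟨l, hl, hl'⟩ := ih _ (h c hc) X a hs (by
          intro l hl
          rcases Finset.mem_insert.1 hl with rfl | hl
          · exact hUc
          · exact hU l (Finset.mem_insert_of_mem hl))
        rcases Finset.mem_insert.1 hl with rfl | hl
        · simp only [Bool.false_eq_true, iff_false] at hl'
          exact absurd hTc hl'
        · exact ⟨l, Finset.mem_insert_of_mem hl, hl'⟩
      · exact ⟨_, Finset.mem_insert_self _ _, by simp [hT]⟩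
    | modOne g g' r r' hg hg' hmult hne =>
      by_cases h : TT C k X a (Sum.inr g)
      · refine ⟨(Sum.inr g', false), by simp, ?_⟩
        simp only [Bool.false_eq_true, iff_false]
        intro h'
        rw [TT_mod hg] at h
        rw [TT_mod hg'] at h'
        simp only [hmult] at h
        exact hne (h.symm.trans h')
      · exact ⟨(Sum.inr g, false), by simp, by simp [h]⟩
    | modAll G hG hmult =>
      refine ⟨(Sum.inr (G (∑ c, ind C k X a c * C.mult (G 0) c)), true), ?_, ?_⟩
      · exact Finset.mem_image.2 ⟨_, Finset.mem_univ _, rfl⟩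
      · simp only [iff_true]
        rw [TT_mod (hG _)]
        simp only [hmult]
    | modNil g hg hmult =>
      refine ⟨(Sum.inr g, true), by simp, ?_⟩
      simp only [iff_true]
      rw [TT_mod hg]
      simp [hmult]
    | modAdd g g' c r s s' β β' hg hg' hmult hs' =>
      have hUc : Unt k X c := hU (c, !β) (by simp)
      have hsum : ∑ d, ind (p := p) C k X a d * C.mult g d =
          (∑ d, ind (p := p) C k X a d * C.mult g' d) + ind C k X a c * r := by
        simp only [hmult, mul_add, Finset.sum_add_distrib, mul_ite, mul_zero,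
          Finset.sum_ite_eq', Finset.mem_univ, if_true]
      by_contra hcon
      push Not at hcon
      have h1 := hcon (c, !β) (by simp)
      have h2 := hcon (Sum.inr g, !β') (by simp)
      have h3 := hcon (Sum.inr g', β') (by simp)
      have h4 : ind (p := p) C k X a c * r = if β = true then (r : ZMod p) else 0 := by
        rw [ind_eq hUc]
        cases β
        · have : ¬ TT C k X a c := by simpa using h1
          simp [this]
        · have : TT C k X a c := by simpa using h1
          simp [this]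
      have h5 : TT C k X a (Sum.inr g) ↔ TT C k X a (Sum.inr g') := by
        rw [TT_mod hg, TT_mod hg', hsum, h4, hs']
        exact add_left_inj _
      cases β' <;> simp only [Bool.not_false, Bool.not_true, Bool.false_eq_true, iff_false,
        iff_true, ne_eq, not_not] at h2 h3 <;> tauto
    | modCong Δ g g' r M hg hg' hM hM' hprem =>
      by_contra hcon
      have hcon0 := hcon
      push Not at hcon
      have h2 := hcon (Sum.inr g, false) (by simp)
      have h3 := hcon (Sum.inr g', true) (by simp)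
      simp only [Bool.false_eq_true] at h2
      have h2' : TT C k X a (Sum.inr g) := by tauto
      have h3' : ¬ TT C k X a (Sum.inr g') := by tauto
      rw [TT_mod hg] at h2'
      rw [TT_mod hg'] at h3'
      apply h3'
      rw [← h2']
      let Γ₁ : Sequent V 𝒢 := insert (Sum.inr g, false) (insert (Sum.inr g', true) Δ)
      have hΔΓ : ∀ l ∈ Δ, l ∈ Γ₁ :=
        fun l hl => Finset.mem_insert_of_mem (Finset.mem_insert_of_mem hl)
      -- forced truth
      let 𝒟 : Node V 𝒢 → Prop := fun c => ∃ E : Finset A, E.card < k ∧ Disjoint E X ∧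
        ∀ σ : Perm A, Perm.sign σ = 1 → (∀ w ∈ W, σ w = w) → (∀ w ∈ E, σ w = w) →
          Unt k (X.image σ) c → TT C k (X.image σ) (fun v => a (σ⁻¹ • v)) c
      have hD3 : ∀ c, Unt k X c → (𝒟 c ↔ TT C k X a c) := by
        intro c hc
        constructor
        · rintro ⟨E, _, _, h⟩
          have e1 : X.image (1 : Perm A) = X := by ext w; simp
          have h5 := h 1 Perm.sign_one (fun _ _ => rfl) (fun _ _ => rfl) (by rw [e1]; exact hc)
          rw [e1] at h5
          simpa using h5
        · intro hT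
          obtain ⟨S', e1, e2, e3⟩ := hc
          refine ⟨S', e1, e2, ?_⟩
          intro σ s1 s2 s3 _
          have h5 := TT_mv hC k X a σ c
          rw [e3.fix σ s1 s3] at h5
          exact h5.2 hT
      have hD1' : ∀ g₁ : Perm A, Perm.sign g₁ = 1 → (∀ y, y ∉ X → g₁ y = y) →
          X.image g₁ = X → (fun v => a (g₁⁻¹ • v)) = a → ∀ c, 𝒟 c → 𝒟 (g₁ • c) := by
        intro g₁ k1 k2 k3 k4 c ⟨E, e1, e2, h⟩
        refine ⟨E, e1, e2, ?_⟩
        intro σ s1 s2 s3 hUσ
        have hfixE : ∀ w, w ∈ W ∨ w ∈ E → g₁ w = w := by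
          rintro w (hw | hw)
          · exact k2 w (Finset.disjoint_left.1 hWX hw)
          · exact k2 w (Finset.disjoint_left.1 e2 hw)
        have hρ : ∀ w, w ∈ W ∨ w ∈ E → (g₁⁻¹ * σ * g₁) w = w := by
          intro w hw
          rw [Perm.mul_apply, Perm.mul_apply, hfixE w hw]
          have : σ w = w := by
            rcases hw with hw | hw
            · exact s2 w hw
            · exact s3 w hw
          rw [this, Perm.inv_eq_iff_eq]
          exact (hfixE w hw).symm
        have himρ : X.image (g₁⁻¹ * σ * g₁ : Perm A) = (X.image σ).image (g₁⁻¹ : Perm A) := by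
          conv_rhs => rw [← k3]
          rw [Finset.image_image, Finset.image_image]
          rfl
        have hUρ : Unt k (X.image (g₁⁻¹ * σ * g₁ : Perm A)) c := by
          rw [himρ]
          have := (unt_mv k (X.image σ) g₁⁻¹ (g₁ • c)).2 hUσ
          rwa [inv_smul_smul] at this
        have h5 := h (g₁⁻¹ * σ * g₁) (by simp [k1, s1]) (fun w hw => hρ w (Or.inl hw))
          (fun w hw => hρ w (Or.inr hw)) hUρ
        have h6 := (TT_mv hC k (X.image (g₁⁻¹ * σ * g₁ : Perm A))
          (fun v => a ((g₁⁻¹ * σ * g₁)⁻¹ • v)) g₁ c).2 h5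
        have e4 : (X.image (g₁⁻¹ * σ * g₁ : Perm A)).image g₁ = X.image σ := by
          rw [himρ]
          have := image_inv_image (X.image σ) g₁⁻¹
          rwa [inv_inv] at this
        have e5 : (fun v => a ((g₁⁻¹ * σ * g₁)⁻¹ • g₁⁻¹ • v)) = fun v => a (σ⁻¹ • v) := by
          funext v
          rw [← mul_smul]
          have : (g₁⁻¹ * σ * g₁)⁻¹ * g₁⁻¹ = g₁⁻¹ * σ⁻¹ := by group
          rw [this, mul_smul]
          exact congrFun k4 (σ⁻¹ • v)
        rw [e4, e5] at h6
        exact h6
      have hD1 : ∀ c, 𝒟 (g₀ • c) ↔ 𝒟 c := by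
        intro c
        constructor
        · intro h
          have h5 := hD1' g₀⁻¹ (by simp [hsign])
            (fun y hy => by rw [Perm.inv_eq_iff_eq]; exact (hout y hy).symm)
            (by
              conv_lhs => rw [← himg]
              exact image_inv_image X g₀)
            (by funext v; rw [inv_inv]; exact propext (hainv v)) (g₀ • c) h
          rwa [inv_smul_smul] at h5
        · exact hD1' g₀ hsign hout himg hainv' c
      have hD2 : ∀ c d : Node V 𝒢, (∀ X' a', 𝒮 X' a' → (∀ l ∈ Γ₁, Unt k X' l.1) →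
          (¬ ∃ l ∈ Γ₁, (TT C k X' a' l.1 ↔ l.2 = true)) → Unt k X' c → Unt k X' d →
          TT C k X' a' c → TT C k X' a' d) → 𝒟 c → 𝒟 d := by
        intro c d himp ⟨E, e1, e2, h⟩
        refine ⟨E, e1, e2, ?_⟩
        rintro σ s1 s2 s3 ⟨Sd, d1, d2, d3⟩
        obtain ⟨Sc, c1, c2⟩ := hsm c
        have hWσ : Disjoint W (X.image σ) := by
          rw [Finset.disjoint_left]
          intro w hw hwX
          obtain ⟨y, hy, hyw⟩ := Finset.mem_image.1 hwX
          rw [← s2 w hw] at hyw
          rw [σ.injective hyw] at hy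
          exact Finset.disjoint_left.1 hWX hw hy
        have hEσ : Disjoint E (X.image σ) := by
          rw [Finset.disjoint_left]
          intro w hw hwX
          obtain ⟨y, hy, hyw⟩ := Finset.mem_image.1 hwX
          rw [← s3 w hw] at hyw
          rw [σ.injective hyw] at hy
          exact Finset.disjoint_left.1 e2 hw hy
        have hcard1 := Finset.card_union_le W E
        have hcard2 := Finset.card_union_le (W ∪ E) Sd
        have hXσ : (X.image σ).card = X.card := Finset.card_image_of_injective _ σ.injective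
        obtain ⟨τ, t1, t2, t3, t4⟩ := move_perm (W ∪ E ∪ Sd) Sc (X.image σ)
          (Finset.disjoint_union_left.2 ⟨Finset.disjoint_union_left.2 ⟨hWσ, hEσ⟩, d2⟩)
          (by omega) (by omega)
        have himτ : X.image (τ * σ) = (X.image σ).image τ := by
          rw [Finset.image_image]; rfl
        have haτ : (fun v => a ((τ * σ)⁻¹ • v)) = fun v => a (σ⁻¹ • τ⁻¹ • v) := by
          funext v
          rw [← mul_smul, mul_inv_rev]
        have hfW : ∀ w ∈ W, (τ * σ) w = w := by
          intro w hw
          rw [Perm.mul_apply, s2 w hw, t2 w (by simp [hw])]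
        have hsignτσ : Perm.sign (τ * σ) = 1 := by rw [map_mul, t1, s1, mul_one]
        have hUc : Unt k (X.image (τ * σ)) c := ⟨Sc, c1, by rw [himτ]; exact t4, c2⟩
        have hUd : Unt k (X.image (τ * σ)) d := ⟨Sd, d1, by
          rw [himτ]; exact (Finset.disjoint_union_left.1 t3).2, d3⟩
        have hTc := h (τ * σ) hsignτσ hfW (by
          intro w hw
          rw [Perm.mul_apply, s3 w hw, t2 w (by simp [hw])]) hUc
        have hTd := himp _ _ (hN.move X a hs (τ * σ)) (hUτ _ hsignτσ hfW) (by
          rintro ⟨l, hl, hl'⟩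
          exact hcon0 ⟨l, hl, (hTτ _ hsignτσ hfW l hl).symm.trans hl'⟩) hUc hUd hTc
        have h7 := TT_mv hC k (X.image σ) (fun v => a (σ⁻¹ • v)) τ d
        rw [d3.fix τ t1 (fun y hy => t2 y (by simp [hy]))] at h7
        rw [himτ, haτ] at hTd
        exact h7.1 hTd
      -- equivalent nodes are forced simultaneously
      have hDM : ∀ c c', M c c' ≠ 0 → (𝒟 c ↔ 𝒟 c') := by
        intro c c' hM0
        obtain ⟨p1, p2⟩ := hprem c c' hM0
        constructor
        · apply hD2 c c'
          intro X' a' hs' hU' hno hUc hUc' hTc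
          obtain ⟨l, hl, hl'⟩ := ih _ p1 X' a' hs' (by
            intro l hl
            rcases Finset.mem_insert.1 hl with rfl | hl
            · exact hUc
            rcases Finset.mem_insert.1 hl with rfl | hl
            · exact hUc'
            · exact hU' l (hΔΓ l hl))
          rcases Finset.mem_insert.1 hl with rfl | hl
          · simp [hTc] at hl'
          rcases Finset.mem_insert.1 hl with rfl | hl
          · simpa using hl'
          · exact absurd ⟨l, hΔΓ l hl, hl'⟩ hno
        · apply hD2 c' c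
          intro X' a' hs' hU' hno hUc' hUc hTc'
          obtain ⟨l, hl, hl'⟩ := ih _ p2 X' a' hs' (by
            intro l hl
            rcases Finset.mem_insert.1 hl with rfl | hl
            · exact hUc
            rcases Finset.mem_insert.1 hl with rfl | hl
            · exact hUc'
            · exact hU' l (hΔΓ l hl))
          rcases Finset.mem_insert.1 hl with rfl | hl
          · simpa using hl'
          rcases Finset.mem_insert.1 hl with rfl | hl
          · simp [hTc'] at hl'
          · exact absurd ⟨l, hΔΓ l hl, hl'⟩ hno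
      -- replacing the value by forced truth does not change an invariant sum
      have hrep : ∀ h : 𝒢, g₀ • h = h →
          ∑ c, ind (p := p) C k X a c * C.mult h c =
            ∑ c, (if 𝒟 c then (1 : ZMod p) else 0) * C.mult h c := by
        intro h hh
        rw [← sub_eq_zero, ← Finset.sum_sub_distrib]
        apply sum_eq_zero_of_perm (e := e) (MulAction.toPerm g₀ : Perm (Node V 𝒢)) hpowperm
        · intro c
          simp only [MulAction.toPerm_apply, hind, hmultinv h hh, hD1]
        · intro c hfix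
          have hUc := hUfix c hfix
          rw [ind_eq hUc]
          simp only [hD3 c hUc, sub_self]
      have hfg : g₀ • g = g := by
        have := hfixU _ (hU (Sum.inr g, false) (by simp))
        exact Sum.inr.inj (this : (Sum.inr (g₀ • g) : Node V 𝒢) = Sum.inr g)
      have hfg' : g₀ • g' = g' := by
        have := hfixU _ (hU (Sum.inr g', true) (by simp))
        exact Sum.inr.inj (this : (Sum.inr (g₀ • g') : Node V 𝒢) = Sum.inr g')
      rw [hrep g hfg, hrep g' hfg']
      simp only [hM, hM', Finset.mul_sum]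
      rw [Finset.sum_comm]
      apply Finset.sum_congr rfl
      intro c _
      apply Finset.sum_congr rfl
      intro c' _
      by_cases hM0 : M c c' = 0
      · simp [hM0]
      · simp only [hDM c c' hM0]
    | modSum g g' r M β hg hg' hτ hM hM' =>
      have hsum : ∑ c, ind (p := p) C k X a c * C.mult g c =
          ∑ c, ind (p := p) C k X a c * C.mult g' c := by
        have hfg' : g₀ • g' = g' := by
          have := hfixU _ (hU (Sum.inr g', β) (by simp))
          exact Sum.inr.inj (this : (Sum.inr (g₀ • g') : Node V 𝒢) = Sum.inr g')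
        -- the value of a sum gate, also if it is touched
        let Vl : 𝒢 → ZMod p := fun h => ∑ c, ind (p := p) C k X a c * C.mult h c
        let dN : Node V 𝒢 → ZMod p := fun n => match n with
          | Sum.inl v => ind (p := p) C k X a (Sum.inl v)
          | Sum.inr h => match C.kind h with
            | Kind.mod i => if Vl h = i then 1 else 0
            | _ => ind (p := p) C k X a (Sum.inr h)
        have hVinv : ∀ h, Vl (g₀ • h) = Vl h := by
          intro h
          symm
          apply Fintype.sum_equiv (MulAction.toPerm g₀)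
          intro c
          simp only [MulAction.toPerm_apply, hind, (hC g₀ h).2]
        have hdinv : ∀ n, dN (g₀ • n) = dN n := by
          intro n
          rcases n with v | h
          · exact hind (Sum.inl v)
          · show (match C.kind (g₀ • h) with
              | Kind.mod i => if Vl (g₀ • h) = i then (1 : ZMod p) else 0
              | _ => ind (p := p) C k X a (Sum.inr (g₀ • h))) = match C.kind h with
              | Kind.mod i => if Vl h = i then (1 : ZMod p) else 0
              | _ => ind (p := p) C k X a (Sum.inr h)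
            rw [(hC g₀ h).1, hVinv]
            cases C.kind h with
            | neg => exact hind (Sum.inr h)
            | disj => exact hind (Sum.inr h)
            | mod i => rfl
        have hdfix : ∀ n, Unt k X n → dN n = ind (p := p) C k X a n := by
          intro n hn
          rcases n with v | h
          · rfl
          · cases hkind : C.kind h with
            | neg => simp only [dN, hkind]
            | disj => simp only [dN, hkind]
            | mod i =>
              simp only [dN, hkind]
              rw [ind_eq hn]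
              have := TT_mod (C := C) (k := k) (X := X) (a := a) hkind
              simp only [this]
              rfl
        have e1 : ∑ c, ind (p := p) C k X a c * C.mult g' c = ∑ c, dN c * C.mult g' c := by
          rw [← sub_eq_zero, ← Finset.sum_sub_distrib]
          apply sum_eq_zero_of_perm (e := e) (MulAction.toPerm g₀ : Perm (Node V 𝒢)) hpowperm
          · intro c
            simp only [MulAction.toPerm_apply, hind, hmultinv g' hfg', hdinv]
          · intro c hfix
            rw [hdfix c (hUfix c hfix), sub_self]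
        rw [e1]
        simp only [hM, hM', Finset.mul_sum]
        rw [Finset.sum_comm]
        conv_rhs => rw [Finset.sum_comm]
        apply Finset.sum_congr rfl
        intro τ _
        by_cases hM0 : M τ = 0
        · simp [hM0]
        have hτ0 := hτ τ hM0
        have hlhs : (∑ c, ind (p := p) C k X a c *
            ((M τ : ZMod p) * (C.mult (τ 0) c : ZMod p))) = (M τ : ZMod p) * Vl (τ 0) := by
          simp only [Vl]
          rw [Finset.mul_sum]
          apply Finset.sum_congr rfl
          intro c _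
          ring
        have hrhs : (∑ c, ∑ i : ZMod p, dN c *
            ((M τ : ZMod p) * if c = Sum.inr (τ i) then i else 0)) =
            (M τ : ZMod p) * ∑ i : ZMod p, dN (Sum.inr (τ i)) * i := by
          rw [Finset.sum_comm, Finset.mul_sum]
          apply Finset.sum_congr rfl
          intro i _
          simp only [mul_ite, mul_zero, Finset.sum_ite_eq', Finset.mem_univ, if_true]
          ring
        rw [hlhs, hrhs]
        have e2 : ∀ i, dN (Sum.inr (τ i)) = if Vl (τ 0) = i then 1 else 0 := by
          intro i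
          have e3 : Vl (τ i) = Vl (τ 0) := by
            simp only [Vl, (hτ0 i).2]
          simp only [dN, (hτ0 i).1, e3]
        simp only [e2, ite_mul, one_mul, zero_mul, Finset.sum_ite_eq, Finset.mem_univ, if_true]
      by_cases h : TT C k X a (Sum.inr g)
      · have h' : TT C k X a (Sum.inr g') := by
          rw [TT_mod hg] at h
          rw [TT_mod hg', ← hsum, h]
        cases β
        · exact ⟨(Sum.inr g, !false), by simp, by simp [h]⟩
        · exact ⟨(Sum.inr g', true), by simp, by simp [h']⟩
      · have h' : ¬ TT C k X a (Sum.inr g') := by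
          rw [TT_mod hg] at h
          rw [TT_mod hg', ← hsum]; exact h
        cases β
        · exact ⟨(Sum.inr g', false), by simp, by simp [h']⟩
        · exact ⟨(Sum.inr g, !true), by simp, by simp [h]⟩

/-- **General theorem.** -/
theorem lower_bound [Fact p.Prime] {C : Circuit p V 𝒢} (hC : C.Symmetric A)
    (hN : Near A 𝒜 p k x 𝒮)
    (hcard : x + (b + 3) * k ≤ Fintype.card A) (hk : 2 ≤ k) (hb : 2 ≤ b)
    (hD : Der C 𝒜 b ∅) : (Fintype.card A).choose k ≤ 4 * (Fintype.card 𝒢) ^ 3 := by
  by_contra hcon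
  push Not at hcon
  have h3k : 3 * k ≤ Fintype.card A := by
    have : 3 * k ≤ (b + 3) * k := Nat.mul_le_mul_right _ (by omega)
    omega
  have hsm : ∀ q : Node V 𝒢, ∃ S : Finset A, S.card < k ∧ Sup S q := by
    intro q
    rcases q with v | g
    · obtain ⟨S, h1, h2⟩ := hN.var v
      refine ⟨S, h1, ?_⟩
      intro y z w hy hz hw g1 g2 g3
      show Sum.inl (cyc y z w • v) = _
      rw [h2 y z w hy hz hw g1 g2 g3]
    · have hidx : (MulAction.stabilizer (Perm A) g).index ≤ Fintype.card 𝒢 := by
        rw [MulAction.index_stabilizer, ← Nat.card_coe_set_eq, ← Nat.card_eq_fintype_card]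
        exact Nat.card_le_card_of_injective _ Subtype.val_injective
      obtain ⟨d, hd⟩ := SymIdx.big_class (MulAction.stabilizer (Perm A) g) k (by omega) h3k
        (lt_of_le_of_lt (Nat.mul_le_mul_left _ (Nat.pow_le_pow_left hidx 3)) hcon)
      refine ⟨(ClF (MulAction.stabilizer (Perm A) g) d)ᶜ, ?_, ?_⟩
      · rw [Finset.card_compl]; omega
      · intro x y z hx hy hz h1 h2 h3
        simp only [Finset.mem_compl, not_not, mem_ClF] at hx hy hz
        have h4 := (good_of_cl hx hy hz h1 h2 h3).2.2.2
        rw [MulAction.mem_stabilizer_iff] at h4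
        show Sum.inr ((cyc x y z) • g) = _
        rw [h4]
  obtain ⟨X, a, hs⟩ := hN.ne
  obtain ⟨l, hl, _⟩ := sound hC hN hcard hk hb hsm ∅ hD X a hs (by simp)
  simp at hl

end sound

end Pool.Agent.H694R2.SymMod
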