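import Mathlib
import Pool.Agent.H694R2.SymMod

/-! # Near-models of the counting principle -/

namespace Pool.Agent.H694R2.SymCount

open Equiv Pool.Agent.H522R2.SmallIndex Pool.Agent.H694R2.SymMod
open scoped Pointwise

variable {A : Type} [DecidableEq A] [Fintype A]

/-- an even permutation of `X` of `p`-power order all of whose invariant sets are large -/
theorem exists_shift (X : Finset A) {p t e k : ℕ} (hpe : 0 < p ^ e) (hX : X.card = t * p ^ e)
    (hk : 2 * k ≤ p ^ e) :
    ∃ g : Perm A, Perm.sign g = 1 ∧ (∀ y, y ∉ X → g y = y) ∧ g ^ (p ^ e) = 1 ∧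
      ∀ D ⊆ X, (∀ y ∈ D, g y ∈ D) → D.Nonempty → k ≤ D.card := by
  classical
  set N := p ^ e with hN
  haveI : NeZero N := ⟨by omega⟩
  let φ : {x // x ∈ X} ≃ Fin t × ZMod N := Fintype.equivOfCardEq (by
    rw [Fintype.card_coe, Fintype.card_prod, Fintype.card_fin, ZMod.card, hX])
  let h1 : Perm (Fin t × ZMod N) := (Equiv.refl _).prodCongr (Equiv.addRight 1)
  let g1' : Perm {x // x ∈ X} := (φ.trans h1).trans φ.symm
  let g1 : Perm A := Perm.ofSubtype g1'
  have hg1 : ∀ y (hy : y ∈ X), g1 y = (φ.symm ((φ ⟨y, hy⟩).1, (φ ⟨y, hy⟩).2 + 1)).1 := by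
    intro y hy
    simp only [g1]
    rw [Perm.ofSubtype_apply_of_mem _ hy]
    rfl
  have hg1' : ∀ y, y ∉ X → g1 y = y := fun y hy => Perm.ofSubtype_apply_of_not_mem _ hy
  have hpow : ∀ m : ℕ, ∀ y (hy : y ∈ X), (g1 ^ m) y =
      (φ.symm ((φ ⟨y, hy⟩).1, (φ ⟨y, hy⟩).2 + (m : ZMod N))).1 := by
    intro m
    induction m with
    | zero => intro y hy; simp
    | succ m ih =>
      intro y hy
      rw [pow_succ', Perm.mul_apply, ih y hy]
      rw [hg1 _ (φ.symm ((φ ⟨y, hy⟩).1, (φ ⟨y, hy⟩).2 + (m : ZMod N))).2]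
      simp only [Subtype.coe_eta, Equiv.apply_symm_apply, Nat.cast_succ, add_assoc]
  have hpow' : ∀ m : ℕ, ∀ y, y ∉ X → (g1 ^ m) y = y := by
    intro m
    induction m with
    | zero => intro y _; rfl
    | succ m ih => intro y hy; rw [pow_succ', Perm.mul_apply, ih y hy, hg1' y hy]
  refine ⟨g1 ^ 2, ?_, hpow' 2, ?_, ?_⟩
  · rw [map_pow]
    exact Int.units_sq _
  · rw [← pow_mul]
    ext y
    by_cases hy : y ∈ X
    · rw [hpow _ y hy]
      push_cast
      rw [ZMod.natCast_self]
      simp
    · rw [hpow' _ y hy]; rfl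
  · intro D hDX hD ⟨y, hy⟩
    have hyX := hDX hy
    have hmem : ∀ m : ℕ, (g1 ^ (2 * m)) y ∈ D := by
      intro m
      induction m with
      | zero => simpa using hy
      | succ m ih =>
        have : g1 ^ (2 * (m + 1)) = g1 ^ 2 * g1 ^ (2 * m) := by
          rw [← pow_add]; congr 1; ring
        rw [this, Perm.mul_apply]
        exact hD _ ih
    have hinj : Function.Injective (fun m : Fin k => (⟨(g1 ^ (2 * m.1)) y, hmem m.1⟩ : D)) := by
      intro m m' h
      have h1 : (g1 ^ (2 * m.1)) y = (g1 ^ (2 * m'.1)) y := congrArg Subtype.val h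
      rw [hpow _ y hyX, hpow _ y hyX] at h1
      have h2 := φ.symm.injective (Subtype.ext h1)
      have h3 := (Prod.mk.injEq _ _ _ _).mp h2
      have h4 := add_left_cancel h3.2
      rw [ZMod.natCast_eq_natCast_iff'] at h4
      rw [Nat.mod_eq_of_lt (by have := m.2; omega), Nat.mod_eq_of_lt (by have := m'.2; omega)] at h4
      exact Fin.ext (by omega)
    have := Fintype.card_le_of_injective _ hinj
    rw [Fintype.card_fin, Fintype.card_coe] at this
    exact this

/-- The clauses of the counting principle `Count_q` on the set `A`: every point lies in a block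
(a `q`-element subset), distinct blocks are disjoint. -/
def countClauses (A : Type) [DecidableEq A] (q : ℕ) :
    Set (Set (Set.powersetCard A q × Bool)) :=
  {α | (∃ i : A, α = {l | i ∈ (l.1 : Finset A) ∧ l.2 = true}) ∨
    ∃ e f : Set.powersetCard A q, e ≠ f ∧ ¬ Disjoint (e : Finset A) (f : Finset A) ∧
      α = {(e, false), (f, false)}}

/-- partitions of the complement of a set of size `x` -/
structure St (q x : ℕ) (X : Finset A) (a : Set.powersetCard A q → Prop) : Prop where
  card : X.card = x
  dis : ∀ e, a e → Disjoint (e : Finset A) X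
  cov : ∀ i, i ∉ X → ∃ e, a e ∧ i ∈ (e : Finset A)
  sep : ∀ e f, a e → a f → e ≠ f → Disjoint (e : Finset A) (f : Finset A)

theorem mem_smul {q : ℕ} (σ : Perm A) (e : Set.powersetCard A q) (i : A) :
    i ∈ ((σ • e : Set.powersetCard A q) : Finset A) ↔ σ⁻¹ i ∈ (e : Finset A) := by
  rw [Set.powersetCard.coe_smul, ← Finset.inv_smul_mem_iff]
  rfl

/-- a permutation fixing every point of a block fixes the block -/
theorem smul_eq_of_fix {q : ℕ} (g : Perm A) (e : Set.powersetCard A q)
    (h : ∀ i ∈ (e : Finset A), g i = i) : g • e = e := by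
  apply Subtype.ext
  ext i
  have : i ∈ ((g • e : Set.powersetCard A q) : Finset A) ↔ i ∈ (e : Finset A) := by
    rw [mem_smul]
    constructor
    · intro hi
      have h1 := h _ hi
      rw [papply_inv] at h1
      rwa [← h1] at hi
    · intro hi
      have h1 : g⁻¹ i = i := by rw [Perm.inv_eq_iff_eq]; exact (h i hi).symm
      rwa [h1]
  exact this

theorem sup_block {q : ℕ} (e : Set.powersetCard A q) {S : Finset A} (hS : (e : Finset A) ⊆ S) :
    Sup S e := by
  intro u v w hu hv hw _ _ _
  apply smul_eq_of_fix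
  intro i hi
  have hi' := hS hi
  apply cyc_apply_of_ne
  · rintro rfl; exact hu hi'
  · rintro rfl; exact hv hi'
  · rintro rfl; exact hw hi'

theorem card_block {q : ℕ} (e : Set.powersetCard A q) : (e : Finset A).card = q := e.2

theorem near_count {q x k p t e : ℕ} (hq : 2 * q ≤ k) (hk : 2 ≤ k) (hpe : 0 < p ^ e)
    (hkp : 2 * k ≤ p ^ e) (hx : x = t * p ^ e) (hxA : x ≤ Fintype.card A)
    (hdvd : q ∣ Fintype.card A - x) (hq0 : 1 ≤ q) :
    Near A (countClauses A q) p k x (St (A := A) q x) where
  card := fun X a h => h.card.le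
  move := by
    intro X a h σ
    refine ⟨?_, ?_, ?_, ?_⟩
    · rw [Finset.card_image_of_injective _ σ.injective, h.card]
    · intro e he
      rw [Finset.disjoint_left]
      intro i hi hiX
      obtain ⟨j, hj, rfl⟩ := Finset.mem_image.1 hiX
      have h1 := h.dis _ he
      rw [Finset.disjoint_left] at h1
      apply h1 _ hj
      rw [mem_smul]
      simpa using hi
    · intro i hi
      have hi' : σ⁻¹ i ∉ X := by
        intro h'
        exact hi (Finset.mem_image.2 ⟨_, h', by simp⟩)
      obtain ⟨e, he, hie⟩ := h.cov _ hi'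
      refine ⟨σ • e, by rw [inv_smul_smul]; exact he, ?_⟩
      rw [mem_smul]; exact hie
    · intro e f he hf hef
      have h1 := h.sep _ _ he hf (fun h' => hef (by
        have := congrArg (fun v => σ • v) h'
        simpa using this))
      rw [Finset.disjoint_left] at h1 ⊢
      intro i hi hif
      apply h1 (a := σ⁻¹ i)
      · rw [mem_smul]; simpa using hi
      · rw [mem_smul]; simpa using hif
  var := by
    intro e
    exact ⟨(e : Finset A), by rw [card_block]; omega, sup_block e subset_rfl⟩
  ax := by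
    rintro α (⟨i, rfl⟩ | ⟨e, f, hef, hnd, rfl⟩)
    · refine ⟨{i}, by simp; omega, ?_⟩
      intro X a h hd
      have hi : i ∉ X := by simpa using hd
      obtain ⟨e, he, hie⟩ := h.cov i hi
      exact ⟨(e, true), ⟨hie, rfl⟩, ⟨(e : Finset A), by rw [card_block]; omega, h.dis e he,
        sup_block e subset_rfl⟩, by simp [he]⟩
    · refine ⟨(e : Finset A) ∪ (f : Finset A), ?_, ?_⟩
      · have h1 := Finset.card_union_add_card_inter (e : Finset A) (f : Finset A)
        have h2 : 1 ≤ ((e : Finset A) ∩ (f : Finset A)).card := by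
          rw [Nat.one_le_iff_ne_zero]
          intro h0
          exact hnd (Finset.disjoint_iff_inter_eq_empty.2 (Finset.card_eq_zero.1 h0))
        rw [card_block, card_block] at h1
        omega
      · intro X a h hd
        obtain ⟨hd1, hd2⟩ := Finset.disjoint_union_left.1 hd
        by_cases he : a e
        · refine ⟨(f, false), by simp, ⟨(f : Finset A), by rw [card_block]; omega, hd2,
            sup_block f subset_rfl⟩, ?_⟩
          simp only [Bool.false_eq_true, iff_false]
          intro hf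
          exact hnd (h.sep e f he hf hef)
        · exact ⟨(e, false), by simp, ⟨(e : Finset A), by rw [card_block]; omega, hd1,
            sup_block e subset_rfl⟩, by simp [he]⟩
  shift := by
    intro X a h
    obtain ⟨g, h1, h2, h3, h4⟩ := exists_shift X hpe (h.card.trans hx) hkp
    refine ⟨g, e, h1, h2, ?_, h3, h4⟩
    intro v
    by_cases hv : Disjoint (v : Finset A) X
    · rw [smul_eq_of_fix g v (fun i hi => h2 i (Finset.disjoint_left.1 hv hi))]
    · have e1 : ¬ a v := fun h' => hv (h.dis v h')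
      have e2 : ¬ a (g • v) := by
        intro h'
        apply hv
        have h5 := h.dis _ h'
        rw [Finset.disjoint_left] at h5 ⊢
        intro i hi hiX
        apply h5 (a := g i)
        · rw [mem_smul]; simpa using hi
        · by_contra hgi
          have := h2 _ hgi
          rw [g.injective this] at hgi
          exact hgi hiX
      simp [e1, e2]
  ne := by
    classical
    obtain ⟨X, hXc⟩ : ∃ X : Finset A, X.card = x := by
      obtain ⟨X, _, hX⟩ := Finset.exists_subset_card_eq (s := (Finset.univ : Finset A)) (n := x)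
        (by rw [Finset.card_univ]; exact hxA)
      exact ⟨X, hX⟩
    obtain ⟨r, hr⟩ := hdvd
    let ψ : {y // y ∉ X} ≃ Fin r × Fin q := Fintype.equivOfCardEq (by
      rw [Fintype.card_subtype_compl, Fintype.card_coe, hXc, hr, Fintype.card_prod,
        Fintype.card_fin, Fintype.card_fin, mul_comm])
    let blk : Fin r → Finset A := fun j =>
      (Finset.univ : Finset (Fin q)).image (fun i => (ψ.symm (j, i)).1)
    have hblk : ∀ j, (blk j).card = q := by
      intro j
      rw [Finset.card_image_of_injective, Finset.card_univ, Fintype.card_fin]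
      intro i i' h
      have := ψ.symm.injective (Subtype.ext h)
      exact (Prod.mk.injEq _ _ _ _).mp this |>.2
    have hmemblk : ∀ j (y : A), y ∈ blk j ↔ ∃ h : y ∉ X, (ψ ⟨y, h⟩).1 = j := by
      intro j y
      simp only [blk, Finset.mem_image, Finset.mem_univ, true_and]
      constructor
      · rintro ⟨i, rfl⟩
        exact ⟨(ψ.symm (j, i)).2, by simp⟩
      · rintro ⟨h, h'⟩
        refine ⟨(ψ ⟨y, h⟩).2, ?_⟩
        rw [← h']
        simp
    refine ⟨X, fun e => ∃ j, (e : Finset A) = blk j, ⟨hXc, ?_, ?_, ?_⟩⟩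
    · rintro e ⟨j, hj⟩
      rw [hj, Finset.disjoint_left]
      intro i hi
      exact ((hmemblk j i).1 hi).1
    · intro i hi
      refine ⟨⟨blk (ψ ⟨i, hi⟩).1, hblk _⟩, ⟨_, rfl⟩, ?_⟩
      show i ∈ blk (ψ ⟨i, hi⟩).1
      rw [hmemblk]
      exact ⟨hi, rfl⟩
    · rintro e f ⟨j, hj⟩ ⟨j', hj'⟩ hef
      rw [hj, hj', Finset.disjoint_left]
      intro i hi hi'
      obtain ⟨h1, h2⟩ := (hmemblk j i).1 hi
      obtain ⟨h3, h4⟩ := (hmemblk j' i).1 hi'
      apply hef
      apply Subtype.ext
      have : (e : Finset A) = (f : Finset A) := by rw [hj, hj', ← h2, ← h4]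
      exact this

/-- arithmetic: a multiple of a large power of `p` in the right residue class modulo `q` -/
theorem exists_amount {p q k n : ℕ} (hp : p.Prime) (hpq : Nat.Coprime p q) (hk : 1 ≤ k)
    (hq : 1 ≤ q) (hn : 2 * p * q * k ≤ n) :
    ∃ x t e, 2 * k ≤ p ^ e ∧ x = t * p ^ e ∧ x ≤ 2 * p * q * k - 2 * p * k ∧ q ∣ n - x := by
  set e := Nat.clog p (2 * k) with he
  have h1 : 2 * k ≤ p ^ e := Nat.le_pow_clog hp.one_lt _
  have h2 : p ^ e < p * (2 * k) := by
    have h3 := Nat.pow_pred_clog_lt_self hp.one_lt (x := 2 * k) (by omega)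
    rw [← he] at h3
    have h4 : e ≠ 0 := by
      rw [he]
      exact (Nat.clog_pos hp.one_lt (by omega)).ne'
    have h5 : p ^ e = p * p ^ e.pred := by
      conv_lhs => rw [← Nat.succ_pred h4]
      rw [pow_succ]; ring
    rw [h5]
    exact Nat.mul_lt_mul_of_pos_left h3 hp.pos
  have hco : q.Coprime (p ^ e) := (Nat.Coprime.pow_left e hpq).symm
  have hpe : p ^ e ≠ 0 := by omega
  obtain ⟨m1, m2⟩ := (Nat.chineseRemainder hco n 0).2
  have m3 := Nat.chineseRemainder_lt_mul hco n 0 (by omega) hpe
  set x : ℕ := (Nat.chineseRemainder hco n 0 : ℕ) with hx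
  obtain ⟨t, ht⟩ := (Nat.modEq_zero_iff_dvd.1 m2)
  have htq : t < q := by
    rw [ht, mul_comm] at m3
    exact Nat.lt_of_mul_lt_mul_right m3
  have hle : x ≤ 2 * p * q * k - 2 * p * k := by
    have h6 : p ^ e * t ≤ (2 * p * k) * (q - 1) := by
      apply Nat.mul_le_mul
      · have : p * (2 * k) = 2 * p * k := by ring
        omega
      · omega
    have h7 : (2 * p * k) * (q - 1) = 2 * p * q * k - 2 * p * k := by
      rw [Nat.mul_sub, mul_one]
      congr 1; ring
    rw [ht]; omega
  refine ⟨x, t, e, h1, by rw [ht, mul_comm], hle, ?_⟩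
  exact (Nat.modEq_iff_dvd' (by omega)).1 m1

/-- symmetric refutations of the counting principle over circuits with `MOD_p` gates -/
theorem count_lower_bound {p q b k : ℕ} [Fact p.Prime] (hpq : Nat.Coprime p q) (hq : 1 ≤ q)
    (hb : 2 ≤ b) (hk : 2 ≤ k) (hqk : 2 * q ≤ k)
    (hn : (2 * p * q + b) * k ≤ Fintype.card A)
    {𝒢 : Type} [Fintype 𝒢] [DecidableEq 𝒢] [MulAction (Perm A) 𝒢]
    [DecidableEq (Set.powersetCard A q)] [Fintype (Set.powersetCard A q)]
    (C : Circuit p (Set.powersetCard A q) 𝒢) (hC : C.Symmetric A)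
    (hD : Der C (countClauses A q) b ∅) :
    (Fintype.card A).choose k ≤ 4 * (Fintype.card 𝒢) ^ 3 := by
  have hp : p.Prime := Fact.out
  have hp2 := hp.two_le
  have e1 : (2 * p * q + b) * k = 2 * p * q * k + b * k := by ring
  obtain ⟨x, t, e, h1, h2, h3, h4⟩ := exists_amount (n := Fintype.card A) hp hpq
    (by omega : 1 ≤ k) hq (by omega)
  have e2 : k ≤ 2 * p * k := Nat.le_mul_of_pos_left k (by omega)
  have e3 : 2 * p * k ≤ 2 * p * q * k := by
    rw [mul_assoc, mul_assoc (2 * p)]
    calc 2 * (p * k) = 2 * p * k := by ring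
      _ ≤ 2 * p * (q * k) := Nat.mul_le_mul_left _ (Nat.le_mul_of_pos_left k (by omega))
  have e4 : (b + 3) * k = b * k + 3 * k := by ring
  have e5 : 4 * k ≤ 2 * p * k := Nat.mul_le_mul_right _ (by omega)
  have hN := near_count (A := A) (q := q) (x := x) (k := k) (p := p) (t := t) (e := e) hqk hk
    (by omega) h1 h2 (by omega) h4 hq
  exact lower_bound hC hN (by omega) hk hb hD

end Pool.Agent.H694R2.SymCount
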