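import Mathlib
import Pool.Agent.H694R2.SymMod

/-! # A gap theorem for symmetric Frege systems -/

namespace Pool.Agent.H694R2.SymGap

open Equiv Pool.Agent.H522R2.SmallIndex
open Pool.Agent.H694R2.SymMod (Sup)

/-! ### Definitions -/

/-- Nodes of a circuit: variables and gates. -/
abbrev Node (V 𝒢 : Type) := V ⊕ 𝒢

/-- The kinds of gates. -/
inductive Kind
  | neg
  | disj

/-- Circuits (acyclic, gates may be shared) with negation gates and with disjunction gates of
unbounded fan-in. -/
structure Circuit (V 𝒢 : Type) where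
  kind : 𝒢 → Kind
  ch : 𝒢 → Set (Node V 𝒢)
  neg_one : ∀ g, kind g = Kind.neg → ∃ c, ch g = {c}
  rank : 𝒢 → ℕ
  rank_lt : ∀ g c, Sum.inr c ∈ ch g → rank c < rank g

/-- The circuit is invariant under the permutations of `A` (which act on variables and gates). -/
def Circuit.Symmetric {V 𝒢 : Type} (A : Type) [MulAction (Perm A) V] [MulAction (Perm A) 𝒢]
    (C : Circuit V 𝒢) : Prop :=
  ∀ (σ : Perm A) (g : 𝒢), C.kind (σ • g) = C.kind g ∧
    ∀ c : Node V 𝒢, σ • c ∈ C.ch (σ • g) ↔ c ∈ C.ch g

/-- A sequent: a finite set of signed nodes, read as their disjunction. -/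
abbrev Sequent (V 𝒢 : Type) := Finset (Node V 𝒢 × Bool)

/-- One inference of the sequent calculus; `𝒜` is the set of clauses to be refuted. -/
inductive Step {V 𝒢 : Type} [DecidableEq V] [DecidableEq 𝒢] (C : Circuit V 𝒢)
    (𝒜 : Set (Set (V × Bool))) (S : Set (Sequent V 𝒢)) : Sequent V 𝒢 → Prop
  | id (c) : Step C 𝒜 S {(c, true), (c, false)}
  /-- a clause of `𝒜`, used as a rule -/
  | ax (Γ) (α) : α ∈ 𝒜 → (∀ l ∈ α, insert (Sum.inl l.1, !l.2) Γ ∈ S) → Step C 𝒜 S Γ
  | weak (Γ Δ) : Γ ∈ S → Γ ⊆ Δ → Step C 𝒜 S Δ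
  | cut (Γ) (c) : insert (c, true) Γ ∈ S → insert (c, false) Γ ∈ S → Step C 𝒜 S Γ
  | negR (Γ) (g) (c) : C.kind g = Kind.neg → c ∈ C.ch g → insert (c, false) Γ ∈ S →
      Step C 𝒜 S (insert (Sum.inr g, true) Γ)
  | negL (Γ) (g) (c) : C.kind g = Kind.neg → c ∈ C.ch g → insert (c, true) Γ ∈ S →
      Step C 𝒜 S (insert (Sum.inr g, false) Γ)
  | disjR (Γ) (g) (c) : C.kind g = Kind.disj → c ∈ C.ch g → insert (c, true) Γ ∈ S →
      Step C 𝒜 S (insert (Sum.inr g, true) Γ)
  /-- one premise for every input -/
  | disjL (Γ) (g) : C.kind g = Kind.disj → (∀ c ∈ C.ch g, insert (c, false) Γ ∈ S) →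
      Step C 𝒜 S (insert (Sum.inr g, false) Γ)

/-- The sequents derivable with sequents of at most `b` nodes. -/
inductive Der {V 𝒢 : Type} [DecidableEq V] [DecidableEq 𝒢] (C : Circuit V 𝒢)
    (𝒜 : Set (Set (V × Bool))) (b : ℕ) : Sequent V 𝒢 → Prop
  | step (S : Set (Sequent V 𝒢)) (Γ) : (∀ Δ ∈ S, Der C 𝒜 b Δ) → Step C 𝒜 S Γ → Γ.card ≤ b →
      Der C 𝒜 b Γ

/-- Atoms `R_r (a_1, …, a_m)` over the set `A` for the relation symbols `R` with arities `ar`. -/
abbrev Atom {R : Type} (ar : R → ℕ) (A : Type) := Σ r : R, (Fin (ar r) → A)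

/-- Renaming the elements of `A` in an atom. -/
def Atom.map {R : Type} {ar : R → ℕ} {A B : Type} (f : A → B) (v : Atom ar A) : Atom ar B :=
  ⟨v.1, f ∘ v.2⟩

/-- A first-order axiom: for all distinct `x_1, …, x_m` one of the literals `fixed` holds or there
are distinct `y_1, …, y_e`, distinct from the `x_i`, such that one of the literals `wide` holds. -/
structure Schema {R : Type} (ar : R → ℕ) where
  m : ℕ
  e : ℕ
  fixed : Set (Atom ar (Fin m) × Bool)
  wide : Set (Atom ar (Fin m ⊕ Fin e) × Bool)

/-- The clause over `A` expressing the axiom for the elements `h 0, …, h (m - 1)` of `A`. -/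
def Schema.clause {R : Type} {ar : R → ℕ} (θ : Schema ar) {A : Type} (h : Fin θ.m ↪ A) :
    Set (Atom ar A × Bool) :=
  {l | (∃ l' ∈ θ.fixed, l = (l'.1.map h, l'.2)) ∨
    ∃ l' ∈ θ.wide, ∃ h' : Fin θ.m ⊕ Fin θ.e ↪ A, (∀ i, h' (Sum.inl i) = h i) ∧
      l = (l'.1.map h', l'.2)}

/-- The clauses expressing the axioms `Φ` over `A`. -/
def clauses {R : Type} {ar : R → ℕ} (Φ : Set (Schema ar)) (A : Type) :
    Set (Set (Atom ar A × Bool)) :=
  {α | ∃ θ ∈ Φ, ∃ h : Fin θ.m ↪ A, α = θ.clause h}

/-- The structure on `M` in which exactly the atoms in `I` hold satisfies the axioms `Φ`. -/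
def Models {R : Type} {ar : R → ℕ} {M : Type} (I : Atom ar M → Prop) (Φ : Set (Schema ar)) :
    Prop :=
  ∀ α ∈ clauses Φ M, ∃ l ∈ α, (I l.1 ↔ l.2 = true)

/-! ### Canonical supports -/

section cs

variable {A : Type} [DecidableEq A] [Fintype A] {Z : Type} [MulAction (Perm A) Z]

/-- the points outside the majority class -/
noncomputable def cs (q : Z) : Finset A := by
  classical
  exact Finset.univ.filter
    (fun x : A => 2 * (ClF (MulAction.stabilizer (Perm A) q) x).card ≤ Fintype.card A)

theorem mem_cs (q : Z) (x : A) : x ∈ cs (A := A) q ↔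
    2 * (ClF (MulAction.stabilizer (Perm A) q) x).card ≤ Fintype.card A := by
  classical
  simp [cs]

theorem good_smul (σ : Perm A) (q : Z) (x y z : A) :
    Good (MulAction.stabilizer (Perm A) (σ • q)) (σ x) (σ y) (σ z) ↔
      Good (MulAction.stabilizer (Perm A) q) x y z := by
  unfold Good
  rw [σ.injective.ne_iff, σ.injective.ne_iff, σ.injective.ne_iff, ← cyc_conj,
    MulAction.mem_stabilizer_iff, MulAction.mem_stabilizer_iff]
  have : (σ * cyc x y z * σ⁻¹) • σ • q = σ • q ↔ cyc x y z • q = q := by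
    rw [mul_smul, mul_smul, inv_smul_smul]
    exact (MulAction.injective σ).eq_iff
  rw [this]

theorem cl_smul (σ : Perm A) (q : Z) (x y : A) :
    Cl (MulAction.stabilizer (Perm A) (σ • q)) (σ x) (σ y) ↔
      Cl (MulAction.stabilizer (Perm A) q) x y := by
  unfold Cl Nb
  rw [σ.injective.eq_iff]
  constructor
  · rintro (h | ⟨z, h⟩)
    · exact Or.inl h
    · right
      refine ⟨σ⁻¹ z, ?_⟩
      rw [← good_smul σ, papply_inv]
      exact h
  · rintro (h | ⟨z, h⟩)
    · exact Or.inl h
    · exact Or.inr ⟨σ z, (good_smul σ q x y z).2 h⟩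

theorem card_ClF_smul (σ : Perm A) (q : Z) (x : A) :
    (ClF (MulAction.stabilizer (Perm A) (σ • q)) (σ x)).card =
      (ClF (MulAction.stabilizer (Perm A) q) x).card := by
  have : ClF (MulAction.stabilizer (Perm A) (σ • q)) (σ x) =
      (ClF (MulAction.stabilizer (Perm A) q) x).image σ := by
    ext y
    rw [Finset.mem_image, mem_ClF]
    constructor
    · intro h
      refine ⟨σ⁻¹ y, ?_, papply_inv σ y⟩
      rw [mem_ClF, ← cl_smul σ, papply_inv]
      exact h
    · rintro ⟨z, hz, rfl⟩
      rw [mem_ClF] at hz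
      exact (cl_smul σ q x z).2 hz
  rw [this, Finset.card_image_of_injective _ σ.injective]

theorem cs_smul (σ : Perm A) (q : Z) : cs (A := A) (σ • q) = (cs q).image σ := by
  ext y
  rw [Finset.mem_image, mem_cs]
  constructor
  · intro h
    refine ⟨σ⁻¹ y, ?_, papply_inv σ y⟩
    rw [mem_cs, ← card_ClF_smul σ, papply_inv]
    exact h
  · rintro ⟨z, hz, rfl⟩
    rw [mem_cs] at hz
    rw [card_ClF_smul]
    exact hz

theorem cs_spec {q : Z} {k : ℕ} (h2k : 2 * k ≤ Fintype.card A)
    (h : ∃ d, Fintype.card A < (ClF (MulAction.stabilizer (Perm A) q) d).card + k) :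
    (cs (A := A) q).card < k ∧ Sup (cs (A := A) q) q := by
  obtain ⟨d, hd⟩ := h
  have heq : ∀ x, Cl (MulAction.stabilizer (Perm A) q) d x →
      ClF (MulAction.stabilizer (Perm A) q) x = ClF (MulAction.stabilizer (Perm A) q) d := by
    intro x hx
    ext y
    rw [mem_ClF, mem_ClF]
    exact ⟨fun h => cl_trans hx h, fun h => cl_trans (cl_symm hx) h⟩
  have hsub : cs (A := A) q ⊆ (ClF (MulAction.stabilizer (Perm A) q) d)ᶜ := by
    intro x hx
    rw [mem_cs] at hx
    rw [Finset.mem_compl, mem_ClF]
    intro hc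
    rw [heq x hc] at hx
    omega
  have hsub' : (ClF (MulAction.stabilizer (Perm A) q) d)ᶜ ⊆ cs (A := A) q := by
    intro x hx
    rw [mem_cs]
    have h1 : ClF (MulAction.stabilizer (Perm A) q) x ⊆
        (ClF (MulAction.stabilizer (Perm A) q) d)ᶜ := by
      intro y hy
      rw [Finset.mem_compl, mem_ClF] at hx ⊢
      rw [mem_ClF] at hy
      intro hdy
      exact hx (cl_trans hdy (cl_symm hy))
    have h2 := Finset.card_le_card h1
    rw [Finset.card_compl] at h2
    omega
  refine ⟨?_, ?_⟩
  · have h1 := Finset.card_le_card hsub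
    have h2 : (ClF (MulAction.stabilizer (Perm A) q) d).card ≤ Fintype.card A :=
      Finset.card_le_univ _
    rw [Finset.card_compl] at h1
    omega
  · intro x y z hx hy hz h1 h2 h3
    have e : ∀ w, w ∉ cs (A := A) q → Cl (MulAction.stabilizer (Perm A) q) d w := by
      intro w hw
      have : w ∉ (ClF (MulAction.stabilizer (Perm A) q) d)ᶜ := fun h => hw (hsub' h)
      rwa [Finset.mem_compl, not_not, mem_ClF] at this
    exact (good_of_cl (e x hx) (e y hy) (e z hz) h1 h2 h3).2.2.2

theorem cs_mono {Z' : Type} [MulAction (Perm A) Z'] {q : Z} {q' : Z'}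
    (h : ∀ σ : Perm A, σ • q = q → σ • q' = q') : cs (A := A) q' ⊆ cs q := by
  intro x hx
  rw [mem_cs] at hx ⊢
  refine le_trans ?_ hx
  apply Nat.mul_le_mul_left
  apply Finset.card_le_card
  intro y hy
  rw [mem_ClF] at hy ⊢
  rcases hy with hy | ⟨z, h1, h2, h3, h4⟩
  · exact Or.inl hy
  · exact Or.inr ⟨z, h1, h2, h3, h _ h4⟩

end cs

/-! ### Aligning two embeddings -/

section align

variable {A M : Type} [DecidableEq A] [Fintype A] [Infinite M]

/-- a partial injection extends to an embedding into an infinite set -/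
theorem exists_extend (T : Finset A) (f : A → M) (hf : Set.InjOn f T) :
    ∃ r : A ↪ M, ∀ x ∈ T, r x = f x := by
  classical
  have hinf : Infinite {m : M // m ∉ T.image f} := by
    apply Set.Infinite.to_subtype
    exact (T.image f).finite_toSet.infinite_compl
  let e : {a : A // a ∉ T} ↪ {m : M // m ∉ T.image f} :=
    (Fintype.equivFin _).toEmbedding.trans
      ((Fin.valEmbedding).trans (Infinite.natEmbedding _))
  refine ⟨⟨fun x => if h : x ∈ T then f x else (e ⟨x, h⟩).1, ?_⟩, ?_⟩
  · intro x y hxy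
    simp only at hxy
    by_cases hx : x ∈ T <;> by_cases hy : y ∈ T
    · rw [dif_pos hx, dif_pos hy] at hxy
      exact hf hx hy hxy
    · rw [dif_pos hx, dif_neg hy] at hxy
      exact absurd (Finset.mem_image.2 ⟨x, hx, hxy⟩) (e ⟨y, hy⟩).2
    · rw [dif_neg hx, dif_pos hy] at hxy
      exact absurd (Finset.mem_image.2 ⟨y, hy, hxy.symm⟩) (e ⟨x, hx⟩).2
    · rw [dif_neg hx, dif_neg hy] at hxy
      have := e.injective (Subtype.ext hxy)
      exact congrArg Subtype.val this
  · intro x hx
    show (if h : x ∈ T then f x else (e ⟨x, h⟩).1) = f x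
    rw [dif_pos hx]

/-- a partial injection extends to an even permutation -/
theorem exists_even (T : Finset A) (f : A → A) (hf : Set.InjOn f T)
    (hT : T.card + 2 ≤ Fintype.card A) :
    ∃ σ : Perm A, Perm.sign σ = 1 ∧ ∀ x ∈ T, σ x = f x := by
  classical
  let g : {x // x ∈ T} ≃ {x // x ∈ T.image f} :=
    Equiv.ofBijective (fun x => ⟨f x.1, Finset.mem_image.2 ⟨x.1, x.2, rfl⟩⟩) (by
      constructor
      · intro x y hxy
        exact Subtype.ext (hf x.2 y.2 (congrArg Subtype.val hxy))
      · rintro ⟨y, hy⟩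
        obtain ⟨x, hx, rfl⟩ := Finset.mem_image.1 hy
        exact ⟨⟨x, hx⟩, rfl⟩)
  let τ : Perm A := g.extendSubtype
  have hτ : ∀ x ∈ T, τ x = f x := by
    intro x hx
    exact Equiv.extendSubtype_apply_of_mem g x hx
  obtain ⟨u, hu⟩ : ∃ u, u ∉ T := by
    by_contra hcon
    push Not at hcon
    have h1 : T = Finset.univ := Finset.eq_univ_iff_forall.2 hcon
    rw [h1, Finset.card_univ] at hT
    omega
  obtain ⟨v, hv⟩ : ∃ v, v ∉ insert u T := by
    by_contra hcon
    push Not at hcon
    have h1 : insert u T = Finset.univ := Finset.eq_univ_iff_forall.2 hcon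
    have h2 := Finset.card_insert_le u T
    rw [h1, Finset.card_univ] at h2
    omega
  simp only [Finset.mem_insert, not_or] at hv
  rcases Int.units_eq_one_or (Perm.sign τ) with h | h
  · exact ⟨τ, h, hτ⟩
  · refine ⟨τ * swap u v, ?_, ?_⟩
    · rw [map_mul, h, Perm.sign_swap (Ne.symm hv.1)]; rfl
    · intro x hx
      rw [Perm.mul_apply, swap_apply_of_ne_of_ne, hτ x hx]
      · rintro rfl; exact hu hx
      · rintro rfl; exact hv.2 hx

/-- `r'` can be moved by an even permutation fixing `D` so that its values on `S` are compatible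
with `r` on `W` -/
theorem align (r r' : A ↪ M) (W D S : Finset A) (hD : ∀ x ∈ D, r' x = r x)
    (hcard : W.card + D.card + 2 * S.card + 2 ≤ Fintype.card A) :
    ∃ (σ : Perm A) (r'' : A ↪ M), Perm.sign σ = 1 ∧ (∀ x ∈ D, σ x = x) ∧
      (∀ x ∈ W, r'' x = r x) ∧ ∀ x ∈ S, r'' (σ x) = r' x := by
  classical
  -- fresh points
  obtain ⟨F, hF, hFc⟩ : ∃ F : Finset A, F ⊆ (W ∪ D ∪ S)ᶜ ∧ F.card = S.card := by
    apply Finset.exists_subset_card_eq
    rw [Finset.card_compl]
    have h1 := Finset.card_union_le W D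
    have h2 := Finset.card_union_le (W ∪ D) S
    omega
  let φ : {x // x ∈ S} ≃ {x // x ∈ F} := Finset.equivOfCardEq hFc.symm
  let f : A → A := fun u =>
    if u ∈ D then u
    else if h : ∃ w ∈ W, r w = r' u then Classical.choose h
    else if hu : u ∈ S then (φ ⟨u, hu⟩).1 else u
  have fD : ∀ u ∈ D, f u = u := fun u hu => by simp only [f]; rw [if_pos hu]
  have fW : ∀ u, u ∉ D → (h : ∃ w ∈ W, r w = r' u) → f u ∈ W ∧ r (f u) = r' u := by
    intro u hu h
    simp only [f]
    rw [if_neg hu, dif_pos h]
    exact Classical.choose_spec h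
  have fF : ∀ u (hu : u ∈ S), u ∉ D → (¬ ∃ w ∈ W, r w = r' u) → f u = (φ ⟨u, hu⟩).1 := by
    intro u hu huD h
    simp only [f]
    rw [if_neg huD, dif_neg h, dif_pos hu]
  have hFW : ∀ y ∈ F, y ∉ W ∧ y ∉ D := by
    intro y hy
    have := hF hy
    simp only [Finset.mem_compl, Finset.mem_union, not_or] at this
    exact ⟨this.1.1, this.1.2⟩
  -- the values of `f`
  have hinj : Set.InjOn f ↑(D ∪ S) := by
    -- `r'` of a point is determined by its image
    have key : ∀ u ∈ D ∪ S, ∀ v ∈ D ∪ S, f u = f v → u = v := by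
      intro u hu v hv huv
      by_cases huD : u ∈ D
      · by_cases hvD : v ∈ D
        · rwa [fD u huD, fD v hvD] at huv
        · have hvS : v ∈ S := by
            rcases Finset.mem_union.1 hv with h | h
            · exact absurd h hvD
            · exact h
          rw [fD u huD] at huv
          by_cases h : ∃ w ∈ W, r w = r' v
          · have h1 := fW v hvD h
            rw [← huv] at h1
            apply r'.injective
            rw [hD u huD, h1.2]
          · rw [fF v hvS hvD h] at huv
            exact absurd huD (huv ▸ (hFW _ (φ ⟨v, hvS⟩).2).2)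
      · have huS : u ∈ S := by
          rcases Finset.mem_union.1 hu with h | h
          · exact absurd h huD
          · exact h
        by_cases hvD : v ∈ D
        · rw [fD v hvD] at huv
          by_cases h : ∃ w ∈ W, r w = r' u
          · have h1 := fW u huD h
            rw [huv] at h1
            apply r'.injective
            rw [hD v hvD, h1.2]
          · rw [fF u huS huD h] at huv
            exact absurd hvD (huv ▸ (hFW _ (φ ⟨u, huS⟩).2).2)
        · have hvS : v ∈ S := by
            rcases Finset.mem_union.1 hv with h | h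
            · exact absurd h hvD
            · exact h
          by_cases h : ∃ w ∈ W, r w = r' u
          · have h1 := fW u huD h
            by_cases h' : ∃ w ∈ W, r w = r' v
            · have h2 := fW v hvD h'
              apply r'.injective
              rw [← h1.2, ← h2.2, huv]
            · rw [fF v hvS hvD h'] at huv
              exact absurd h1.1 (huv ▸ (hFW _ (φ ⟨v, hvS⟩).2).1)
          · by_cases h' : ∃ w ∈ W, r w = r' v
            · have h2 := fW v hvD h'
              rw [fF u huS huD h] at huv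
              exact absurd h2.1 (huv ▸ (hFW _ (φ ⟨u, huS⟩).2).1)
            · rw [fF u huS huD h, fF v hvS hvD h'] at huv
              have := φ.injective (Subtype.ext huv)
              exact congrArg Subtype.val this
    intro u hu v hv huv
    exact key u hu v hv huv
  have hDS := Finset.card_union_le D S
  obtain ⟨σ, h1, h2⟩ := exists_even (D ∪ S) f hinj (by omega)
  have hσD : ∀ x ∈ D, σ x = x := fun x hx => by
    rw [h2 x (Finset.mem_union_left _ hx), fD x hx]
  -- the new embedding
  let g : A → M := fun y => if y ∈ W then r y else r' (σ⁻¹ y)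
  have gW : ∀ y ∈ W, g y = r y := fun y hy => by simp only [g]; rw [if_pos hy]
  have gS : ∀ x ∈ D ∪ S, g (σ x) = r' x := by
    intro x hx
    by_cases hσx : σ x ∈ W
    · rw [gW _ hσx]
      by_cases hxD : x ∈ D
      · rw [hσD x hxD, hD x hxD]
      · have hxS : x ∈ S := by
          rcases Finset.mem_union.1 hx with h | h
          · exact absurd h hxD
          · exact h
        rw [h2 x hx] at hσx ⊢
        by_cases h : ∃ w ∈ W, r w = r' x
        · exact (fW x hxD h).2
        · rw [fF x hxS hxD h] at hσx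
          exact absurd hσx (hFW _ (φ ⟨x, hxS⟩).2).1
    · simp only [g]
      rw [if_neg hσx]
      simp
  obtain ⟨r'', hr''⟩ := exists_extend (W ∪ (D ∪ S).image σ) g (by
    have key : ∀ u ∈ W ∪ (D ∪ S).image σ, ∀ v ∈ W ∪ (D ∪ S).image σ, u ∉ W → g u = g v →
        u = v := by
      intro u hu v hv huW huv
      obtain ⟨x, hx, rfl⟩ : ∃ x ∈ D ∪ S, σ x = u := by
        rcases Finset.mem_union.1 hu with h | h
        · exact absurd h huW
        · exact Finset.mem_image.1 h
      rw [gS x hx] at huv
      by_cases hvW : v ∈ W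
      · rw [gW v hvW] at huv
        exfalso
        apply huW
        by_cases hxD : x ∈ D
        · rw [hσD x hxD]
          rw [hD x hxD] at huv
          rwa [r.injective huv]
        · rw [h2 x hx]
          exact (fW x hxD ⟨v, hvW, huv.symm⟩).1
      · obtain ⟨y, hy, rfl⟩ : ∃ y ∈ D ∪ S, σ y = v := by
          rcases Finset.mem_union.1 hv with h | h
          · exact absurd h hvW
          · exact Finset.mem_image.1 h
        rw [gS y hy] at huv
        rw [r'.injective huv]
    intro u hu v hv huv
    by_cases huW : u ∈ W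
    · by_cases hvW : v ∈ W
      · rw [gW u huW, gW v hvW] at huv
        exact r.injective huv
      · exact (key v hv u hu hvW huv.symm).symm
    · exact key u hu v hv huW huv)
  refine ⟨σ, r'', h1, hσD, ?_, ?_⟩
  · intro x hx
    rw [hr'' x (Finset.mem_union_left _ hx), gW x hx]
  · intro x hx
    have hx' : x ∈ D ∪ S := Finset.mem_union_right _ hx
    rw [hr'' (σ x) (Finset.mem_union_right _ (Finset.mem_image.2 ⟨x, hx', rfl⟩)), gS x hx']

end align

/-! ### Truth -/

section truth

variable {A M V 𝒢 : Type} [DecidableEq A] [Fintype A] [MulAction (Perm A) V]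
  [MulAction (Perm A) 𝒢]

/-- precomposition with a permutation -/
def pre (σ : Perm A) (r : A ↪ M) : A ↪ M := (σ⁻¹ : Perm A).toEmbedding.trans r

theorem pre_apply (σ : Perm A) (r : A ↪ M) (x : A) : pre σ r x = r (σ⁻¹ x) := rfl

/-- the truth value of a node under an embedding into the infinite structure -/
def T (C : Circuit V 𝒢) (val : (A ↪ M) → V → Prop) : Node V 𝒢 → (A ↪ M) → Prop
  | Sum.inl v, r => val r v
  | Sum.inr g, r =>
    match C.kind g with
    | Kind.neg => ¬ ∃ c, ∃ _ : c ∈ C.ch g, T C val c r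
    | Kind.disj => ∃ c, ∃ _ : c ∈ C.ch g, ∃ r' : A ↪ M,
        (∀ x ∈ cs (A := A) (Sum.inr g : Node V 𝒢), r' x = r x) ∧ T C val c r'
termination_by n _ => match n with
  | Sum.inl _ => 0
  | Sum.inr g => C.rank g + 1
decreasing_by
  all_goals
    rename_i hc
    rcases c with v | c
    · simp
    · simpa using C.rank_lt g c hc

variable {C : Circuit V 𝒢} {val : (A ↪ M) → V → Prop}

theorem T_inl (v : V) (r : A ↪ M) : T C val (Sum.inl v) r ↔ val r v := by
  rw [T]

theorem T_neg {g : 𝒢} (hg : C.kind g = Kind.neg) (r : A ↪ M) :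
    T C val (Sum.inr g) r ↔ ¬ ∃ c ∈ C.ch g, T C val c r := by
  rw [T, hg]
  simp only [exists_prop]

theorem T_disj {g : 𝒢} (hg : C.kind g = Kind.disj) (r : A ↪ M) :
    T C val (Sum.inr g) r ↔ ∃ c ∈ C.ch g, ∃ r' : A ↪ M,
      (∀ x ∈ cs (A := A) (Sum.inr g : Node V 𝒢), r' x = r x) ∧ T C val c r' := by
  rw [T, hg]
  simp only [exists_prop]

theorem T_pre (hC : C.Symmetric A) (hval : ∀ σ r v, val (pre σ r) (σ • v) ↔ val r v)
    (σ : Perm A) : ∀ (n : Node V 𝒢) (r : A ↪ M), T C val (σ • n) (pre σ r) ↔ T C val n r := by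
  have main : ∀ N : ℕ, ∀ n : Node V 𝒢, (∀ g, n = Sum.inr g → C.rank g < N) →
      ∀ r : A ↪ M, (T C val (σ • n) (pre σ r) ↔ T C val n r) := by
    intro N
    induction N with
    | zero =>
      intro n hn r
      rcases n with v | g
      · show T C val (Sum.inl (σ • v)) _ ↔ _
        rw [T_inl, T_inl, hval]
      · exact absurd (hn g rfl) (by omega)
    | succ N ih =>
      intro n hn r
      rcases n with v | g
      · show T C val (Sum.inl (σ • v)) _ ↔ _
        rw [T_inl, T_inl, hval]
      have ih' : ∀ c ∈ C.ch g, ∀ r, (T C val (σ • c) (pre σ r) ↔ T C val c r) := by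
        intro c hc
        apply ih
        intro h hch
        subst hch
        have := C.rank_lt g h hc
        have := hn g rfl
        omega
      have hk := (hC σ g).1
      have hcs : cs (A := A) (Sum.inr (σ • g) : Node V 𝒢) =
          (cs (A := A) (Sum.inr g : Node V 𝒢)).image σ := cs_smul σ (Sum.inr g : Node V 𝒢)
      show T C val (Sum.inr (σ • g)) _ ↔ _
      cases hkind : C.kind g with
      | neg =>
        rw [T_neg (hk.trans hkind), T_neg hkind, not_iff_not]
        constructor
        · rintro ⟨c, hc, hT⟩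
          have hc' : σ⁻¹ • c ∈ C.ch g := by
            rw [← (hC σ g).2, smul_inv_smul]; exact hc
          refine ⟨σ⁻¹ • c, hc', ?_⟩
          rw [← ih' _ hc', smul_inv_smul]; exact hT
        · rintro ⟨c, hc, hT⟩
          exact ⟨σ • c, ((hC σ g).2 c).2 hc, (ih' c hc r).2 hT⟩
      | disj =>
        rw [T_disj (hk.trans hkind), T_disj hkind]
        constructor
        · rintro ⟨c, hc, r', hr', hT⟩
          have hc' : σ⁻¹ • c ∈ C.ch g := by
            rw [← (hC σ g).2, smul_inv_smul]; exact hc
          refine ⟨σ⁻¹ • c, hc', pre σ⁻¹ r', ?_, ?_⟩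
          · intro x hx
            rw [pre_apply, inv_inv, hr' (σ x) (by
              rw [hcs]; exact Finset.mem_image.2 ⟨x, hx, rfl⟩), pre_apply]
            simp
          · rw [← ih' _ hc', smul_inv_smul]
            have : pre σ (pre σ⁻¹ r') = r' := by
              ext x; simp [pre_apply]
            rw [this]; exact hT
        · rintro ⟨c, hc, r', hr', hT⟩
          refine ⟨σ • c, ((hC σ g).2 c).2 hc, pre σ r', ?_, (ih' c hc r').2 hT⟩
          intro x hx
          rw [hcs] at hx
          obtain ⟨y, hy, rfl⟩ := Finset.mem_image.1 hx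
          rw [pre_apply, pre_apply]
          simpa using hr' y hy
  intro n
  rcases n with v | g
  · exact main 0 _ (fun g h => by simp at h)
  · apply main (C.rank g + 1)
    intro h hh
    simp only [Sum.inr.injEq] at hh
    subst hh; omega

theorem T_loc (hC : C.Symmetric A)
    (hloc : ∀ v r r', (∀ x ∈ cs (A := A) v, r x = r' x) → val r v → val r' v) :
    ∀ (n : Node V 𝒢) (r r' : A ↪ M), (∀ x ∈ cs (A := A) n, r x = r' x) →
      (T C val n r ↔ T C val n r') := by
  have main : ∀ N : ℕ, ∀ n : Node V 𝒢, (∀ g, n = Sum.inr g → C.rank g < N) →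
      ∀ r r' : A ↪ M, (∀ x ∈ cs (A := A) n, r x = r' x) → (T C val n r ↔ T C val n r') := by
    have hvar : ∀ v : V, ∀ r r' : A ↪ M, (∀ x ∈ cs (A := A) (Sum.inl v : Node V 𝒢), r x = r' x) →
        (T C val (Sum.inl v) r ↔ T C val (Sum.inl v) r') := by
      intro v r r' h
      have hsub : cs (A := A) v ⊆ cs (A := A) (Sum.inl v : Node V 𝒢) :=
        cs_mono (fun σ h => Sum.inl.inj (h : (Sum.inl (σ • v) : Node V 𝒢) = Sum.inl v))
      rw [T_inl, T_inl]
      exact ⟨hloc v r r' (fun x hx => h x (hsub hx)),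
        hloc v r' r (fun x hx => (h x (hsub hx)).symm)⟩
    intro N
    induction N with
    | zero =>
      intro n hn r r' h
      rcases n with v | g
      · exact hvar v r r' h
      · exact absurd (hn g rfl) (by omega)
    | succ N ih =>
      intro n hn r r' h
      rcases n with v | g
      · exact hvar v r r' h
      cases hkind : C.kind g with
      | neg =>
        rw [T_neg hkind, T_neg hkind, not_iff_not]
        obtain ⟨c₀, hc₀⟩ := C.neg_one g hkind
        have hrank : ∀ h, c₀ = Sum.inr h → C.rank h < N := by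
          intro h hch
          have h1 : Sum.inr h ∈ C.ch g := by rw [hc₀, hch]; rfl
          have := C.rank_lt g h h1
          have := hn g rfl
          omega
        have hsub : cs (A := A) c₀ ⊆ cs (A := A) (Sum.inr g : Node V 𝒢) := by
          apply cs_mono
          intro σ hσ
          have h1 : σ • g = g := Sum.inr.inj (hσ : (Sum.inr (σ • g) : Node V 𝒢) = Sum.inr g)
          have h2 := ((hC σ g).2 c₀).2 (by rw [hc₀]; rfl)
          rw [h1, hc₀] at h2
          exact h2
        have h3 := ih c₀ hrank r r' (fun x hx => h x (hsub hx))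
        rw [hc₀]
        simp only [Set.mem_singleton_iff, exists_eq_left]
        exact h3
      | disj =>
        rw [T_disj hkind, T_disj hkind]
        constructor
        · rintro ⟨c, hc, r₁, hr₁, hT⟩
          exact ⟨c, hc, r₁, fun x hx => (hr₁ x hx).trans (h x hx), hT⟩
        · rintro ⟨c, hc, r₁, hr₁, hT⟩
          exact ⟨c, hc, r₁, fun x hx => (hr₁ x hx).trans (h x hx).symm, hT⟩
  intro n
  rcases n with v | g
  · exact main 0 _ (fun g h => by simp at h)
  · apply main (C.rank g + 1)
    intro h hh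
    simp only [Sum.inr.injEq] at hh
    subst hh; omega

theorem joint_cs [DecidableEq V] [DecidableEq 𝒢] {k : ℕ}
    (hsm : ∀ q : Node V 𝒢, (cs (A := A) q).card < k) (Γ : Sequent V 𝒢) :
    ∃ W : Finset A, W.card ≤ Γ.card * (k - 1) ∧ ∀ l ∈ Γ, cs (A := A) l.1 ⊆ W := by
  induction Γ using Finset.induction_on with
  | empty => exact ⟨∅, by simp, by simp⟩
  | insert l Γ hl ih =>
    obtain ⟨W, h1, h2⟩ := ih
    have h3 := hsm l.1
    refine ⟨cs (A := A) l.1 ∪ W, ?_, ?_⟩
    · have h4 := Finset.card_union_le (cs (A := A) l.1) W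
      rw [Finset.card_insert_of_notMem hl, add_mul]
      omega
    · intro l' hl'
      rcases Finset.mem_insert.1 hl' with rfl | hl'
      · exact Finset.subset_union_left
      · exact (h2 l' hl').trans Finset.subset_union_right

variable [Infinite M] [DecidableEq V] [DecidableEq 𝒢] {𝒜 : Set (Set (V × Bool))} {k b : ℕ}

theorem sound (hC : C.Symmetric A) (hval : ∀ σ r v, val (pre σ r) (σ • v) ↔ val r v)
    (hloc : ∀ v r r', (∀ x ∈ cs (A := A) v, r x = r' x) → val r v → val r' v)
    (hax : ∀ α ∈ 𝒜, ∃ D : Finset A, D.card < k ∧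
      (∀ σ : Perm A, Perm.sign σ = 1 → (∀ x ∈ D, σ x = x) → ∀ l ∈ α, (σ • l.1, l.2) ∈ α) ∧
      ∀ r : A ↪ M, ∃ r' : A ↪ M, (∀ x ∈ D, r' x = r x) ∧ ∃ l ∈ α, (val r' l.1 ↔ l.2 = true))
    (hk : 1 ≤ k) (hcard : (b + 3) * k ≤ Fintype.card A)
    (hsm : ∀ q : Node V 𝒢, (cs (A := A) q).card < k ∧ Sup (cs (A := A) q) q)
    (Γ : Sequent V 𝒢) (hΓ : Der C 𝒜 b Γ) :
    ∀ r : A ↪ M, ∃ l ∈ Γ, (T C val l.1 r ↔ l.2 = true) := by
  classical
  have hroom : (b + 3) * k = b * (k - 1) + b + 3 * k := by
    obtain ⟨k', rfl⟩ : ∃ k', k = k' + 1 := ⟨k - 1, by omega⟩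
    simp only [Nat.add_sub_cancel]; ring
  induction hΓ with
  | step S Γ _ hstep hΓb ih =>
    intro r
    -- the joint support
    obtain ⟨W, hWc, hW⟩ : ∃ W : Finset A, W.card ≤ b * (k - 1) ∧
        ∀ l ∈ Γ, cs (A := A) l.1 ⊆ W := by
      obtain ⟨W, h1, h2⟩ := joint_cs (A := A) (k := k) (fun q => (hsm q).1) Γ
      exact ⟨W, h1.trans (Nat.mul_le_mul_right _ hΓb), h2⟩
    have hback : ∀ r'' : A ↪ M, (∀ x ∈ W, r'' x = r x) →
        (∃ l ∈ Γ, (T C val l.1 r'' ↔ l.2 = true)) → ∃ l ∈ Γ, (T C val l.1 r ↔ l.2 = true) := by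
      rintro r'' h ⟨l, hl, hl'⟩
      exact ⟨l, hl, (T_loc hC hloc l.1 r r'' (fun x hx => (h x (hW l hl hx)).symm)).trans hl'⟩
    -- transporting the truth of a node along an alignment
    have htrans : ∀ (c : Node V 𝒢) (r' r'' : A ↪ M) (σ : Perm A),
        (∀ x ∈ cs (A := A) c, r'' (σ x) = r' x) → (T C val (σ • c) r'' ↔ T C val c r') := by
      intro c r' r'' σ h
      have h1 : pre σ (pre σ⁻¹ r'') = r'' := by ext x; simp [pre_apply]
      rw [← h1, T_pre hC hval σ c]
      apply T_loc hC hloc
      intro x hx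
      rw [pre_apply, inv_inv]
      exact h x hx
    cases hstep with
    | id c =>
      by_cases h : T C val c r
      · exact ⟨(c, true), by simp, by simp [h]⟩
      · exact ⟨(c, false), by simp, by simp [h]⟩
    | ax _ α hα hprem =>
      obtain ⟨D, hD, hDcl, hDr⟩ := hax α hα
      obtain ⟨r', hr', l, hl, hlv⟩ := hDr r
      have hcl := (hsm (Sum.inl l.1)).1
      obtain ⟨σ, r'', h1, h2, h3, h4⟩ := align r r' W D (cs (A := A) (Sum.inl l.1 : Node V 𝒢)) hr'
        (by omega)
      apply hback r'' h3
      obtain ⟨m, hm, hm'⟩ := ih _ (hprem _ (hDcl σ h1 h2 l hl)) r''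
      rcases Finset.mem_insert.1 hm with rfl | hm
      · exfalso
        have h5 := htrans (Sum.inl l.1) r' r'' σ h4
        have h6 : T C val (Sum.inl (σ • l.1)) r'' ↔ l.2 = true := by
          rw [show (Sum.inl (σ • l.1) : Node V 𝒢) = σ • (Sum.inl l.1 : Node V 𝒢) from rfl, h5,
            T_inl, hlv]
        rw [h6] at hm'
        cases h : l.2 <;> simp [h] at hm'
      · exact ⟨m, hm, hm'⟩
    | weak Δ _ hΔ hsub =>
      obtain ⟨l, hl, hl'⟩ := ih _ hΔ r
      exact ⟨l, hsub hl, hl'⟩
    | cut _ c h1 h2 =>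
      by_cases hc : T C val c r
      · obtain ⟨l, hl, hl'⟩ := ih _ h2 r
        rcases Finset.mem_insert.1 hl with rfl | hl
        · simp [hc] at hl'
        · exact ⟨l, hl, hl'⟩
      · obtain ⟨l, hl, hl'⟩ := ih _ h1 r
        rcases Finset.mem_insert.1 hl with rfl | hl
        · simp [hc] at hl'
        · exact ⟨l, hl, hl'⟩
    | negR Δ g c hg hc h =>
      by_cases hT : T C val (Sum.inr g) r
      · exact ⟨_, Finset.mem_insert_self _ _, by simp [hT]⟩
      · have hT' := hT
        rw [T_neg hg, not_not] at hT'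
        obtain ⟨c', hc', hTc⟩ := hT'
        obtain ⟨c'', hch⟩ := C.neg_one g hg
        rw [hch] at hc hc'
        have : c' = c := hc'.trans hc.symm
        subst this
        obtain ⟨l, hl, hl'⟩ := ih _ h r
        rcases Finset.mem_insert.1 hl with rfl | hl
        · simp only [Bool.false_eq_true, iff_false] at hl'
          exact absurd hTc hl'
        · exact ⟨l, Finset.mem_insert_of_mem hl, hl'⟩
    | negL Δ g c hg hc h =>
      by_cases hT : T C val (Sum.inr g) r
      · have hT' := hT
        rw [T_neg hg] at hT'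
        have hTc : ¬ T C val c r := fun h => hT' ⟨c, hc, h⟩
        obtain ⟨l, hl, hl'⟩ := ih _ h r
        rcases Finset.mem_insert.1 hl with rfl | hl
        · simp only [iff_true] at hl'
          exact absurd hl' hTc
        · exact ⟨l, Finset.mem_insert_of_mem hl, hl'⟩
      · exact ⟨_, Finset.mem_insert_self _ _, by simp [hT]⟩
    | disjR Δ g c hg hc h =>
      obtain ⟨l, hl, hl'⟩ := ih _ h r
      rcases Finset.mem_insert.1 hl with rfl | hl
      · refine ⟨_, Finset.mem_insert_self _ _, ?_⟩
        simp only [iff_true] at hl' ⊢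
        rw [T_disj hg]
        exact ⟨c, hc, r, fun _ _ => rfl, hl'⟩
      · exact ⟨l, Finset.mem_insert_of_mem hl, hl'⟩
    | disjL Δ g hg h =>
      by_cases hT : T C val (Sum.inr g) r
      · have hT' := hT
        rw [T_disj hg] at hT'
        obtain ⟨c, hc, r', hr', hTc⟩ := hT'
        have hcg := (hsm (Sum.inr g : Node V 𝒢)).1
        have hcc := (hsm c).1
        obtain ⟨σ, r'', h1, h2, h3, h4⟩ := align r r' W (cs (A := A) (Sum.inr g : Node V 𝒢))
          (cs (A := A) c) hr' (by omega)
        apply hback r'' h3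
        have hσg : σ • g = g := by
          have := (hsm (Sum.inr g : Node V 𝒢)).2.fix σ h1 h2
          exact Sum.inr.inj (this : (Sum.inr (σ • g) : Node V 𝒢) = Sum.inr g)
        have hσc : σ • c ∈ C.ch g := by
          have := ((hC σ g).2 c).2 hc
          rwa [hσg] at this
        obtain ⟨l, hl, hl'⟩ := ih _ (h _ hσc) r''
        rcases Finset.mem_insert.1 hl with rfl | hl
        · simp only [Bool.false_eq_true, iff_false] at hl'
          exact absurd ((htrans c r' r'' σ h4).2 hTc) hl'
        · exact ⟨l, Finset.mem_insert_of_mem hl, hl'⟩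
      · exact ⟨_, Finset.mem_insert_self _ _, by simp [hT]⟩

end truth

/-! ### First-order principles -/

section fo

variable {A : Type} [DecidableEq A] [Fintype A]

theorem big_of_sup {Z : Type} [MulAction (Perm A) Z] {q : Z} {S : Finset A} {k : ℕ}
    (h : Sup S q) (hS : S.card < k) (hk : k + 2 ≤ Fintype.card A) :
    ∃ d, Fintype.card A < (ClF (MulAction.stabilizer (Perm A) q) d).card + k := by
  obtain ⟨d, hd⟩ : ∃ d, d ∉ S := by
    by_contra hcon
    push Not at hcon
    have := Finset.card_le_card (fun x (_ : x ∈ (Finset.univ : Finset A)) => hcon x)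
    rw [Finset.card_univ] at this
    omega
  refine ⟨d, ?_⟩
  have hsub : Sᶜ ⊆ ClF (MulAction.stabilizer (Perm A) q) d := by
    intro y hy
    rw [Finset.mem_compl] at hy
    rw [mem_ClF]
    by_cases hyd : y = d
    · exact Or.inl hyd
    obtain ⟨z, hz⟩ : ∃ z, z ∉ insert d (insert y S) := by
      by_contra hcon
      push Not at hcon
      have h1 : (insert d (insert y S)) = Finset.univ := Finset.eq_univ_iff_forall.2 hcon
      have h2 := Finset.card_insert_le d (insert y S)
      have h3 := Finset.card_insert_le y S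
      rw [h1, Finset.card_univ] at h2
      omega
    simp only [Finset.mem_insert, not_or] at hz
    exact Or.inr ⟨z, Ne.symm hyd, Ne.symm hz.1, Ne.symm hz.2.1,
      h d y z hd hy hz.2.2 (Ne.symm hyd) (Ne.symm hz.1) (Ne.symm hz.2.1)⟩
  have h1 := Finset.card_le_card hsub
  rw [Finset.card_compl] at h1
  omega

variable {R : Type} {ar : R → ℕ}

theorem smul_atom (σ : Perm A) (v : Atom ar A) : σ • v = v.map σ := rfl

theorem map_map {B C : Type} (f : A → B) (g : B → C) (v : Atom ar A) :
    (v.map f).map g = v.map (g ∘ f) := rfl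

theorem point_mem_cs (h2 : 2 ≤ Fintype.card A) (v : Atom ar A) (i : Fin (ar v.1)) :
    v.2 i ∈ cs (A := A) v := by
  rw [mem_cs]
  have : ClF (MulAction.stabilizer (Perm A) v) (v.2 i) ⊆ {v.2 i} := by
    intro y hy
    rw [mem_ClF] at hy
    rw [Finset.mem_singleton]
    rcases hy with hy | ⟨z, h1, h3, h4, h5⟩
    · exact hy
    · exfalso
      rw [MulAction.mem_stabilizer_iff] at h5
      have h6 : (cyc (v.2 i) y z • v) = v := h5
      obtain ⟨s, w⟩ := v
      have h7 : (⟨s, fun j => cyc (w i) y z (w j)⟩ : Atom ar A) = ⟨s, w⟩ := h6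
      have h8 := eq_of_heq (Sigma.mk.inj_iff.1 h7).2
      have h9 := congrFun h8 i
      simp only at h9 h1 h3
      rw [cyc_apply_fst h1 h3] at h9
      exact h1 h9.symm
  have := Finset.card_le_card this
  rw [Finset.card_singleton] at this
  omega

theorem gap_theorem [DecidableEq R] {M : Type} [Infinite M] (Φ : Set (Schema ar)) (c : ℕ)
    (hΦ : ∀ θ ∈ Φ, θ.m + θ.e ≤ c) (har : ∀ s, ar s ≤ c)
    (I : Atom ar M → Prop) (hI : Models I Φ)
    {𝒢 : Type} [Fintype 𝒢] [DecidableEq 𝒢] [MulAction (Perm A) 𝒢]
    (C : Circuit (Atom ar A) 𝒢) (hC : C.Symmetric A) (b k : ℕ) (hk : c < k)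
    (hn : (b + 3) * k ≤ Fintype.card A) (hD : Der C (clauses Φ A) b ∅) :
    (Fintype.card A).choose k ≤ 4 * (Fintype.card 𝒢) ^ 3 := by
  by_contra hcon
  push Not at hcon
  have h3k : 3 * k ≤ Fintype.card A := by
    have : 3 * k ≤ (b + 3) * k := Nat.mul_le_mul_right _ (by omega)
    omega
  have hsm : ∀ q : Node (Atom ar A) 𝒢, (cs (A := A) q).card < k ∧ Sup (cs (A := A) q) q := by
    intro q
    apply cs_spec (by omega)
    rcases q with v | g
    · have hsup : Sup (Finset.univ.image v.2) (Sum.inl v : Node (Atom ar A) 𝒢) := by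
        intro x y z hx hy hz _ _ _
        show Sum.inl (cyc x y z • v) = _
        congr 1
        rw [smul_atom]
        have : (cyc x y z) ∘ v.2 = v.2 := by
          funext i
          have hi : v.2 i ∈ Finset.univ.image v.2 := Finset.mem_image.2 ⟨i, Finset.mem_univ _, rfl⟩
          rw [Function.comp_apply]
          apply cyc_apply_of_ne
          · intro h; rw [h] at hi; exact hx hi
          · intro h; rw [h] at hi; exact hy hi
          · intro h; rw [h] at hi; exact hz hi
        show (⟨v.1, (cyc x y z) ∘ v.2⟩ : Atom ar A) = v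
        rw [this]
      apply big_of_sup hsup _ (by omega)
      have h1 := Finset.card_image_le (s := (Finset.univ : Finset (Fin (ar v.1)))) (f := v.2)
      rw [Finset.card_univ, Fintype.card_fin] at h1
      have := har v.1
      omega
    · have hstab : MulAction.stabilizer (Perm A) (Sum.inr g : Node (Atom ar A) 𝒢) =
          MulAction.stabilizer (Perm A) g := by
        ext σ
        rw [MulAction.mem_stabilizer_iff, MulAction.mem_stabilizer_iff]
        exact ⟨fun h => Sum.inr.inj (h : (Sum.inr (σ • g) : Node (Atom ar A) 𝒢) = Sum.inr g),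
          fun h => congrArg Sum.inr h⟩
      rw [hstab]
      have hidx : (MulAction.stabilizer (Perm A) g).index ≤ Fintype.card 𝒢 := by
        rw [MulAction.index_stabilizer, ← Nat.card_coe_set_eq, ← Nat.card_eq_fintype_card]
        exact Nat.card_le_card_of_injective _ Subtype.val_injective
      exact SymIdx.big_class (MulAction.stabilizer (Perm A) g) k (by omega) h3k
        (lt_of_le_of_lt (Nat.mul_le_mul_left _ (Nat.pow_le_pow_left hidx 3)) hcon)
  obtain ⟨r⟩ : Nonempty (A ↪ M) := by
    obtain ⟨r, _⟩ := exists_extend (∅ : Finset A)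
      (fun _ => (Infinite.natEmbedding M) 0) (by simp)
    exact ⟨r⟩
  obtain ⟨l, hl, _⟩ := sound (C := C) (val := fun (r : A ↪ M) (v : Atom ar A) => I (v.map r))
    (𝒜 := clauses Φ A) (k := k) (b := b) hC
    (by
      intro σ r v
      rw [smul_atom, map_map]
      have : (pre σ r : A → M) ∘ σ = r := by
        funext x
        simp [pre_apply]
      rw [this])
    (by
      intro v r r' h hv
      have : v.map r' = v.map r := by
        show (⟨v.1, r' ∘ v.2⟩ : Atom ar M) = ⟨v.1, r ∘ v.2⟩
        congr 1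
        funext i
        exact (h _ (point_mem_cs (by omega) v i)).symm
      rw [this]; exact hv)
    (by
      rintro α ⟨θ, hθ, h, rfl⟩
      have hme := hΦ θ hθ
      refine ⟨Finset.univ.image h, ?_, ?_, ?_⟩
      · have h1 := Finset.card_image_le (s := (Finset.univ : Finset (Fin θ.m))) (f := h)
        rw [Finset.card_univ, Fintype.card_fin] at h1
        omega
      · intro σ _ hσ l hl
        have hσh : (σ : A → A) ∘ h = h := by
          funext i
          exact hσ (h i) (Finset.mem_image.2 ⟨i, Finset.mem_univ _, rfl⟩)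
        rcases hl with ⟨l', hl', rfl⟩ | ⟨l', hl', h', hh', rfl⟩
        · left
          refine ⟨l', hl', ?_⟩
          show (σ • l'.1.map h, l'.2) = _
          rw [smul_atom, map_map, hσh]
        · right
          refine ⟨l', hl', h'.trans σ.toEmbedding, ?_, ?_⟩
          · intro i
            show σ (h' (Sum.inl i)) = h i
            rw [hh' i]
            exact congrFun hσh i
          · show (σ • l'.1.map h', l'.2) = _
            rw [smul_atom, map_map]
            rfl
      · intro r
        obtain ⟨lM, hlM, hval⟩ := hI _ ⟨θ, hθ, h.trans r, rfl⟩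
        rcases hlM with ⟨l', hl', rfl⟩ | ⟨l', hl', hM, hhM, rfl⟩
        · exact ⟨r, fun _ _ => rfl, (l'.1.map h, l'.2), Or.inl ⟨l', hl', rfl⟩, hval⟩
        · -- a copy of the witnesses inside `A`
          obtain ⟨h₀, hh₀⟩ : ∃ h₀ : Fin θ.m ⊕ Fin θ.e ↪ A, ∀ i, h₀ (Sum.inl i) = h i := by
            obtain ⟨e⟩ : Nonempty (Fin θ.e ↪ {a : A // a ∉ Set.range h}) := by
              apply Function.Embedding.nonempty_of_card_le
              rw [Fintype.card_fin, Fintype.card_subtype_compl,
                show Fintype.card {x // x ∈ Set.range h} = Fintype.card (Fin θ.m) from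
                  Set.card_range_of_injective h.injective, Fintype.card_fin]
              omega
            refine ⟨⟨Sum.elim h (fun j => (e j).1), ?_⟩, fun i => rfl⟩
            rintro (i | i) (j | j) hij
            · exact congrArg Sum.inl (h.injective hij)
            · exact absurd ⟨i, hij⟩ (e j).2
            · exact absurd ⟨j, hij.symm⟩ (e i).2
            · exact congrArg Sum.inr (e.injective (Subtype.ext hij))
          obtain ⟨r', hr'⟩ := exists_extend (Finset.univ.image h₀)
            (Function.extend h₀ hM r) (by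
              intro x hx y hy hxy
              obtain ⟨u, _, rfl⟩ := Finset.mem_image.1 hx
              obtain ⟨w, _, rfl⟩ := Finset.mem_image.1 hy
              rw [h₀.injective.extend_apply, h₀.injective.extend_apply] at hxy
              rw [hM.injective hxy])
          have hr'' : ∀ w, r' (h₀ w) = hM w := by
            intro w
            rw [hr' _ (Finset.mem_image.2 ⟨w, Finset.mem_univ _, rfl⟩),
              h₀.injective.extend_apply]
          refine ⟨r', ?_, (l'.1.map h₀, l'.2), Or.inr ⟨l', hl', h₀, hh₀, rfl⟩, ?_⟩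
          · intro x hx
            obtain ⟨i, _, rfl⟩ := Finset.mem_image.1 hx
            rw [← hh₀ i, hr'', hhM i, hh₀ i]
            rfl
          · simp only
            rw [map_map]
            have : (r' : A → M) ∘ h₀ = hM := funext hr''
            rw [this]
            exact hval)
    (by omega) hn hsm ∅ hD r
  simp at hl

end fo

end Pool.Agent.H694R2.SymGap
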