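import Mathlib
import Pool.Agent.H694R2.SymGap

/-! # The easy side of the gap: no infinite model gives refutations of bounded width without gates -/

namespace Pool.Agent.H694R2.SymGap

open Filter

/-- the circuit without gates -/
def emptyCircuit (V : Type) : Circuit V Empty where
  kind := fun g => g.elim
  ch := fun g => g.elim
  neg_one := fun g => g.elim
  rank := fun g => g.elim
  rank_lt := fun g => g.elim

section easy

variable {V : Type} [DecidableEq V] {𝒜 : Set (Set (V × Bool))} {b : ℕ}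

theorem not_der_of_subset {Γ Δ : Sequent V Empty} (hΔ : ¬ Der (emptyCircuit V) 𝒜 b Δ)
    (hΔb : Δ.card ≤ b) (h : Γ ⊆ Δ) : ¬ Der (emptyCircuit V) 𝒜 b Γ := by
  intro hΓ
  apply hΔ
  exact Der.step {Γ} Δ (by rintro _ rfl; exact hΓ) (Step.weak Γ Δ rfl h) hΔb

theorem not_both {Γ : Sequent V Empty} (hΓ : ¬ Der (emptyCircuit V) 𝒜 b Γ) (hΓb : Γ.card ≤ b)
    (v : V) : ¬ ((Sum.inl v, true) ∈ Γ ∧ (Sum.inl v, false) ∈ Γ) := by
  rintro ⟨h1, h2⟩
  apply hΓ
  have hsub : ({(Sum.inl v, true), (Sum.inl v, false)} : Sequent V Empty) ⊆ Γ := by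
    intro l hl
    rcases Finset.mem_insert.1 hl with rfl | hl
    · exact h1
    · rw [Finset.mem_singleton.1 hl]; exact h2
  have hid : Der (emptyCircuit V) 𝒜 b {(Sum.inl v, true), (Sum.inl v, false)} :=
    Der.step ∅ _ (by simp) (Step.id _) ((Finset.card_le_card hsub).trans hΓb)
  exact Der.step {_} Γ (by rintro _ rfl; exact hid) (Step.weak _ Γ rfl hsub) hΓb

theorem complete (W : Finset V) : ∀ Γ : Sequent V Empty, ¬ Der (emptyCircuit V) 𝒜 b Γ →
    Γ.card + W.card ≤ b → ∃ f : V → Bool,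
      ¬ Der (emptyCircuit V) 𝒜 b (Γ ∪ W.image (fun v => (Sum.inl v, !(f v)))) := by
  induction W using Finset.induction_on with
  | empty =>
    intro Γ hΓ _
    exact ⟨fun _ => true, by simpa using hΓ⟩
  | insert v W hv ih =>
    intro Γ hΓ hcard
    rw [Finset.card_insert_of_notMem hv] at hcard
    have hcut : ∃ s : Bool, ¬ Der (emptyCircuit V) 𝒜 b (insert (Sum.inl v, s) Γ) := by
      by_contra hcon
      push Not at hcon
      apply hΓ
      exact Der.step {insert (Sum.inl v, true) Γ, insert (Sum.inl v, false) Γ} Γ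
        (by rintro _ (rfl | rfl); exacts [hcon true, hcon false])
        (Step.cut Γ (Sum.inl v) (by simp) (by simp)) (by omega)
    obtain ⟨s, hs⟩ := hcut
    obtain ⟨f, hf⟩ := ih _ hs (by
      have := Finset.card_insert_le (Sum.inl v, s) Γ
      omega)
    refine ⟨Function.update f v (!s), ?_⟩
    have heq : Γ ∪ (insert v W).image (fun w => ((Sum.inl w : Node V Empty),
        !(Function.update f v (!s) w))) =
        insert (Sum.inl v, s) Γ ∪ W.image (fun w => (Sum.inl w, !(f w))) := by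
      rw [Finset.image_insert, Function.update_self, Bool.not_not]
      have : W.image (fun w => ((Sum.inl w : Node V Empty), !(Function.update f v (!s) w))) =
          W.image (fun w => (Sum.inl w, !(f w))) := by
        apply Finset.image_congr
        intro w hw
        have hwv : w ≠ v := by rintro rfl; exact hv hw
        simp only [Function.update_of_ne hwv]
      rw [this]
      ext l
      simp only [Finset.mem_union, Finset.mem_insert]
      tauto
    rw [heq]
    exact hf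

end easy

section model

variable {R : Type} [DecidableEq R] [Fintype R] {ar : R → ℕ} {Φ : Set (Schema ar)} {c : ℕ}

/-- the negated diagram of a structure -/
def seq {j n : ℕ} (ι : Fin j ↪ Fin n) (I : Atom ar (Fin j) → Bool) :
    Sequent (Atom ar (Fin n)) Empty :=
  Finset.univ.image (fun v : Atom ar (Fin j) => (Sum.inl (v.map ι), !(I v)))

theorem card_seq {j n : ℕ} (ι : Fin j ↪ Fin n) (I : Atom ar (Fin j) → Bool) :
    (seq ι I).card ≤ Fintype.card (Atom ar (Fin j)) := by
  unfold seq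
  exact Finset.card_image_le.trans (by rw [Finset.card_univ])

/-- extending an embedding -/
theorem extend_emb {j n e c : ℕ} (ι : Fin j ↪ Fin n) (T : Finset (Fin n)) (hT : T.card ≤ e)
    (hc : e ≤ c) (hn : j + (c + 1) ≤ n) :
    ∃ ι' : Fin (j + (c + 1)) ↪ Fin n, (∀ i, ι' (Fin.castAdd (c + 1) i) = ι i) ∧
      ∀ y ∈ T, ∃ x, ι' x = y := by
  obtain ⟨T', h1, h2⟩ : ∃ T' : Finset (Fin n), (Finset.univ.image ι) ∪ T ⊆ T' ∧
      T'.card = j + (c + 1) := by
    apply Finset.exists_superset_card_eq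
    · have h3 := Finset.card_union_le (Finset.univ.image ι) T
      rw [Finset.card_image_of_injective _ ι.injective, Finset.card_univ, Fintype.card_fin] at h3
      omega
    · rw [Fintype.card_fin]; exact hn
  have hsub : Finset.univ.image ι ⊆ T' := (Finset.subset_union_left).trans h1
  have hcard : (T' \ Finset.univ.image ι).card = c + 1 := by
    rw [Finset.card_sdiff_of_subset hsub, h2, Finset.card_image_of_injective _ ι.injective,
      Finset.card_univ, Fintype.card_fin]
    omega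
  let e' : Fin (c + 1) ≃ {x // x ∈ T' \ Finset.univ.image ι} :=
    (Finset.equivFinOfCardEq hcard).symm
  let g : Fin (j + (c + 1)) → Fin n :=
    Fin.addCases (motive := fun _ => Fin n) (fun i => ι i) (fun i => (e' i).1)
  have gl : ∀ i, g (Fin.castAdd (c + 1) i) = ι i := fun i => by simp only [g, Fin.addCases_left]
  have gr : ∀ i, g (Fin.natAdd j i) = (e' i).1 := fun i => by simp only [g, Fin.addCases_right]
  refine ⟨⟨g, ?_⟩, gl, ?_⟩
  · intro x y
    refine Fin.addCases (fun i => ?_) (fun i => ?_) x <;>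
      refine Fin.addCases (fun i' => ?_) (fun i' => ?_) y
    · rw [gl, gl]
      intro h; rw [ι.injective h]
    · rw [gl, gr]
      intro h
      have := (Finset.mem_sdiff.1 (e' i').2).2
      exact absurd (Finset.mem_image.2 ⟨i, Finset.mem_univ _, h⟩) this
    · rw [gl, gr]
      intro h
      have := (Finset.mem_sdiff.1 (e' i).2).2
      exact absurd (Finset.mem_image.2 ⟨i', Finset.mem_univ _, h.symm⟩) this
    · rw [gr, gr]
      intro h
      rw [e'.injective (Subtype.ext h)]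
  · intro y hy
    have hy' : y ∈ T' := h1 (Finset.mem_union_right _ hy)
    by_cases hyι : y ∈ Finset.univ.image ι
    · obtain ⟨i, _, rfl⟩ := Finset.mem_image.1 hyι
      exact ⟨Fin.castAdd (c + 1) i, gl i⟩
    · refine ⟨Fin.natAdd j (e'.symm ⟨y, Finset.mem_sdiff.2 ⟨hy', hyι⟩⟩), ?_⟩
      show g (Fin.natAdd j _) = _
      rw [gr]
      simp

theorem complete_diag {j n b : ℕ} (ι : Fin j ↪ Fin n) (Γ : Sequent (Atom ar (Fin n)) Empty)
    (hΓ : ¬ Der (emptyCircuit (Atom ar (Fin n))) (clauses Φ (Fin n)) b Γ)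
    (hcard : Γ.card + Fintype.card (Atom ar (Fin j)) ≤ b) :
    ∃ I : Atom ar (Fin j) → Bool,
      ¬ Der (emptyCircuit (Atom ar (Fin n))) (clauses Φ (Fin n)) b (seq ι I) ∧
      ∀ (v : Atom ar (Fin j)) (s : Bool), ((Sum.inl (v.map ι) : Node (Atom ar (Fin n)) Empty), s) ∈ Γ →
        I v = !s := by
  let W : Finset (Atom ar (Fin n)) := Finset.univ.image (fun v : Atom ar (Fin j) => v.map ι)
  have hW : W.card ≤ Fintype.card (Atom ar (Fin j)) :=
    Finset.card_image_le.trans (by rw [Finset.card_univ])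
  obtain ⟨f, hf⟩ := complete W Γ hΓ (by omega)
  have hcardU : (Γ ∪ W.image (fun v => ((Sum.inl v : Node (Atom ar (Fin n)) Empty),
      !(f v)))).card ≤ b := by
    have h1 := Finset.card_union_le Γ (W.image (fun v =>
      ((Sum.inl v : Node (Atom ar (Fin n)) Empty), !(f v))))
    have h2 := Finset.card_image_le (s := W) (f := fun v =>
      ((Sum.inl v : Node (Atom ar (Fin n)) Empty), !(f v)))
    omega
  refine ⟨fun v => f (v.map ι), ?_, ?_⟩
  · apply not_der_of_subset hf hcardU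
    intro l hl
    obtain ⟨v, _, rfl⟩ := Finset.mem_image.1 hl
    apply Finset.mem_union_right
    exact Finset.mem_image.2 ⟨v.map ι, Finset.mem_image.2 ⟨v, Finset.mem_univ _, rfl⟩, rfl⟩
  · intro v s hs
    by_contra hne
    have hmem : ((Sum.inl (v.map ι) : Node (Atom ar (Fin n)) Empty), !(f (v.map ι))) ∈
        Γ ∪ W.image (fun v => (Sum.inl v, !(f v))) := by
      apply Finset.mem_union_right
      exact Finset.mem_image.2 ⟨v.map ι, Finset.mem_image.2 ⟨v, Finset.mem_univ _, rfl⟩, rfl⟩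
    have hmem' : ((Sum.inl (v.map ι) : Node (Atom ar (Fin n)) Empty), s) ∈
        Γ ∪ W.image (fun v => (Sum.inl v, !(f v))) := Finset.mem_union_left _ hs
    apply not_both hf hcardU (v.map ι)
    cases s <;> cases h : f (v.map ι) <;> simp_all

/-- one step of the construction of a model, over a finite set -/
theorem step_fin {j n b : ℕ} (hΦ : ∀ θ ∈ Φ, θ.m + θ.e ≤ c) (ι : Fin j ↪ Fin n)
    (I : Atom ar (Fin j) → Bool)
    (hnd : ¬ Der (emptyCircuit (Atom ar (Fin n))) (clauses Φ (Fin n)) b (seq ι I))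
    (hn : j + (c + 1) ≤ n)
    (hb : Fintype.card (Atom ar (Fin j)) + 1 + Fintype.card (Atom ar (Fin (j + (c + 1)))) ≤ b)
    (q : Option (Σ θ : {θ // θ ∈ Φ}, Fin θ.1.m ↪ Fin j)) :
    ∃ I' : Atom ar (Fin (j + (c + 1))) → Bool,
      ((∀ v : Atom ar (Fin j), I' (v.map (Fin.castAdd (c + 1))) = I v) ∧
      ∀ (θ : {θ // θ ∈ Φ}) (h : Fin θ.1.m ↪ Fin j), q = some ⟨θ, h⟩ →
        ∃ l ∈ θ.1.clause (h.trans (Fin.castAddEmb (c + 1))), I' l.1 = l.2) ∧
      ∃ ι' : Fin (j + (c + 1)) ↪ Fin n,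
        ¬ Der (emptyCircuit (Atom ar (Fin n))) (clauses Φ (Fin n)) b (seq ι' I') := by
  have hcs := card_seq ι I
  rcases q with _ | ⟨⟨θ, hθ⟩, h⟩
  · obtain ⟨ι', h1, _⟩ := extend_emb (c := c) (e := 0) ι ∅ (by simp) (by omega) hn
    obtain ⟨I', h2, h3⟩ := complete_diag ι' (seq ι I) hnd (by omega)
    refine ⟨I', ⟨?_, by simp⟩, ι', h2⟩
    intro v
    rw [h3 _ (!(I v)), Bool.not_not]
    have : (v.map (Fin.castAdd (c + 1))).map ι' = v.map ι := by
      rw [map_map]
      congr 1
      funext i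
      exact h1 i
    rw [this]
    exact Finset.mem_image.2 ⟨v, Finset.mem_univ _, rfl⟩
  · -- a true literal of the clause
    have hα : ∃ l ∈ θ.clause (h.trans ι), ¬ Der (emptyCircuit (Atom ar (Fin n)))
        (clauses Φ (Fin n)) b (insert (Sum.inl l.1, !l.2) (seq ι I)) := by
      by_contra hcon
      push Not at hcon
      apply hnd
      exact Der.step {Δ | Der (emptyCircuit (Atom ar (Fin n))) (clauses Φ (Fin n)) b Δ}
        (seq ι I) (fun _ h => h) (Step.ax _ _ ⟨θ, hθ, h.trans ι, rfl⟩ (fun l hl => hcon l hl))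
        (by omega)
    obtain ⟨l, hl, hlnd⟩ := hα
    have hme := hΦ θ hθ
    -- an extension of the embedding containing the witnesses, and the literal over it
    obtain ⟨ι', h1, l₀, hl₀, hll₀⟩ : ∃ ι' : Fin (j + (c + 1)) ↪ Fin n,
        (∀ i, ι' (Fin.castAdd (c + 1) i) = ι i) ∧
        ∃ l₀ ∈ θ.clause (h.trans (Fin.castAddEmb (c + 1))), l = (l₀.1.map ι', l₀.2) := by
      rcases hl with ⟨l', hl', rfl⟩ | ⟨l', hl', h', hh', rfl⟩
      · obtain ⟨ι', h1, _⟩ := extend_emb (c := c) (e := 0) ι ∅ (by simp) (by omega) hn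
        refine ⟨ι', h1, (l'.1.map (h.trans (Fin.castAddEmb (c + 1))), l'.2),
          Or.inl ⟨l', hl', rfl⟩, ?_⟩
        rw [map_map]
        have : (ι' : Fin (j + (c + 1)) → Fin n) ∘ (h.trans (Fin.castAddEmb (c + 1))) =
            h.trans ι := by
          funext i
          exact h1 (h i)
        rw [this]
      · obtain ⟨ι', h1, h2⟩ := extend_emb (c := c) (e := θ.e) ι
          (Finset.univ.image (fun i : Fin θ.e => h' (Sum.inr i)))
          (Finset.card_image_le.trans (by rw [Finset.card_univ, Fintype.card_fin]))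
          (by omega) hn
        have h3 : ∀ w : Fin θ.m ⊕ Fin θ.e, ∃ x, ι' x = h' w := by
          rintro (i | i)
          · exact ⟨Fin.castAdd (c + 1) (h i), by rw [h1, hh' i]; rfl⟩
          · exact h2 _ (Finset.mem_image.2 ⟨i, Finset.mem_univ _, rfl⟩)
        choose g hg using h3
        let h₀ : Fin θ.m ⊕ Fin θ.e ↪ Fin (j + (c + 1)) := ⟨g, by
          intro w w' hww
          apply h'.injective
          rw [← hg, ← hg, hww]⟩
        refine ⟨ι', h1, (l'.1.map h₀, l'.2), Or.inr ⟨l', hl', h₀, ?_, rfl⟩, ?_⟩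
        · intro i
          apply ι'.injective
          show ι' (g (Sum.inl i)) = ι' (Fin.castAdd (c + 1) (h i))
          rw [hg, hh' i, h1]
          rfl
        · rw [map_map]
          have : (ι' : Fin (j + (c + 1)) → Fin n) ∘ h₀ = h' := by
            funext w
            exact hg w
          rw [this]
    obtain ⟨I', h2, h3⟩ := complete_diag ι' _ hlnd (by
      have := Finset.card_insert_le ((Sum.inl l.1 : Node (Atom ar (Fin n)) Empty), !l.2) (seq ι I)
      omega)
    refine ⟨I', ⟨?_, ?_⟩, ι', h2⟩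
    · intro v
      rw [h3 _ (!(I v)), Bool.not_not]
      have : (v.map (Fin.castAdd (c + 1))).map ι' = v.map ι := by
        rw [map_map]
        congr 1
        funext i
        exact h1 i
      rw [this]
      exact Finset.mem_insert_of_mem (Finset.mem_image.2 ⟨v, Finset.mem_univ _, rfl⟩)
    · intro θ' h'' heq
      simp only [Option.some.injEq, Sigma.mk.injEq] at heq
      obtain ⟨h5, h6⟩ := heq
      subst h5
      have h7 := eq_of_heq h6
      subst h7
      refine ⟨l₀, hl₀, ?_⟩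
      rw [h3 l₀.1 (!l₀.2), Bool.not_not]
      have : (l₀.1.map ι', l₀.2) = l := hll₀.symm
      rw [← this]
      exact Finset.mem_insert_self _ _

/-- the number of elements after `t` steps -/
def J (c : ℕ) : ℕ → ℕ
  | 0 => 0
  | t + 1 => J c t + (c + 1)

theorem le_J (c t : ℕ) : t ≤ J c t := by
  induction t with
  | zero => exact Nat.zero_le _
  | succ t ih => simp only [J]; omega

theorem J_mono {c s t : ℕ} (h : s ≤ t) : J c s ≤ J c t := by
  induction t, h using Nat.le_induction with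
  | base => exact le_rfl
  | succ t _ ih => simp only [J]; omega

theorem map_injective {A B : Type} {f : A → B} (hf : Function.Injective f) :
    Function.Injective (fun v : Atom ar A => v.map f) := by
  rintro ⟨r, w⟩ ⟨r', w'⟩ h
  have h1 : (⟨r, f ∘ w⟩ : Atom ar B) = ⟨r', f ∘ w'⟩ := h
  obtain ⟨h2, h3⟩ := Sigma.mk.inj_iff.1 h1
  subst h2
  have h4 := eq_of_heq h3
  have : w = w' := by
    funext i
    exact hf (congrFun h4 i)
  rw [this]

theorem clause_map {θ : Schema ar} {A B : Type} (g : Fin θ.m ↪ A) (f : A ↪ B)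
    {l : Atom ar A × Bool} (hl : l ∈ θ.clause g) : (l.1.map f, l.2) ∈ θ.clause (g.trans f) := by
  rcases hl with ⟨l', hl', rfl⟩ | ⟨l', hl', h', hh', rfl⟩
  · exact Or.inl ⟨l', hl', rfl⟩
  · refine Or.inr ⟨l', hl', h'.trans f, ?_, rfl⟩
    intro i
    show f (h' (Sum.inl i)) = f (g i)
    rw [hh']

instance : Countable (Schema ar) := by
  let F : Schema ar → Σ (m : ℕ) (e : ℕ), Set (Atom ar (Fin m) × Bool) ×
      Set (Atom ar (Fin m ⊕ Fin e) × Bool) := fun θ => ⟨θ.m, θ.e, θ.fixed, θ.wide⟩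
  apply Function.Injective.countable (f := F)
  rintro ⟨m, e, f, w⟩ ⟨m', e', f', w'⟩ h
  simp only [F, Sigma.mk.injEq] at h
  obtain ⟨h1, h2⟩ := h
  subst h1
  have h3 := eq_of_heq h2
  simp only [Sigma.mk.injEq] at h3
  obtain ⟨h4, h5⟩ := h3
  subst h4
  have h6 := eq_of_heq h5
  simp only [Prod.mk.injEq] at h6
  rw [h6.1, h6.2]

theorem easy_side (hΦ : ∀ θ ∈ Φ, θ.m + θ.e ≤ c)
    (H : ∀ b N, ∃ n, N ≤ n ∧
      ¬ Der (emptyCircuit (Atom ar (Fin n))) (clauses Φ (Fin n)) b ∅) :
    ∃ I : Atom ar ℕ → Prop, Models I Φ := by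
  classical
  choose nn hnn hnd using fun b => H b b
  let 𝒰 : Ultrafilter ℕ := Filter.hyperfilter ℕ
  have h𝒰 : ∀ K : ℕ, ∀ᶠ b in (𝒰 : Filter ℕ), K ≤ b := fun K =>
    Nat.hyperfilter_le_atTop (Filter.eventually_ge_atTop K)
  let good : ∀ {j : ℕ}, (Atom ar (Fin j) → Bool) → Prop := fun {j} I =>
    ∀ᶠ b in (𝒰 : Filter ℕ), ∃ ι : Fin j ↪ Fin (nn b),
      ¬ Der (emptyCircuit (Atom ar (Fin (nn b)))) (clauses Φ (Fin (nn b))) b (seq ι I)
  have hinit : ∃ I : Atom ar (Fin 0) → Bool, good I := by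
    apply (Ultrafilter.eventually_exists_iff (f := 𝒰)).1
    filter_upwards [h𝒰 (Fintype.card (Atom ar (Fin 0)))] with b hb
    obtain ⟨I, h1, _⟩ := complete_diag (Function.Embedding.ofIsEmpty : Fin 0 ↪ Fin (nn b)) ∅
      (hnd b) (by simpa using hb)
    exact ⟨I, _, h1⟩
  have hstep : ∀ (j : ℕ) (I : Atom ar (Fin j) → Bool), good I →
      ∀ q : Option (Σ θ : {θ // θ ∈ Φ}, Fin θ.1.m ↪ Fin j),
      ∃ I' : Atom ar (Fin (j + (c + 1))) → Bool, good I' ∧
        (∀ v : Atom ar (Fin j), I' (v.map (Fin.castAdd (c + 1))) = I v) ∧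
        ∀ (θ : {θ // θ ∈ Φ}) (h : Fin θ.1.m ↪ Fin j), q = some ⟨θ, h⟩ →
          ∃ l ∈ θ.1.clause (h.trans (Fin.castAddEmb (c + 1))), I' l.1 = l.2 := by
    intro j I hI q
    have h1 : ∀ᶠ b in (𝒰 : Filter ℕ), ∃ I' : Atom ar (Fin (j + (c + 1))) → Bool,
        ((∀ v : Atom ar (Fin j), I' (v.map (Fin.castAdd (c + 1))) = I v) ∧
        ∀ (θ : {θ // θ ∈ Φ}) (h : Fin θ.1.m ↪ Fin j), q = some ⟨θ, h⟩ →
          ∃ l ∈ θ.1.clause (h.trans (Fin.castAddEmb (c + 1))), I' l.1 = l.2) ∧
        ∃ ι' : Fin (j + (c + 1)) ↪ Fin (nn b),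
          ¬ Der (emptyCircuit (Atom ar (Fin (nn b)))) (clauses Φ (Fin (nn b))) b (seq ι' I') := by
      filter_upwards [hI, h𝒰 (j + (c + 1)), h𝒰 (Fintype.card (Atom ar (Fin j)) + 1 +
        Fintype.card (Atom ar (Fin (j + (c + 1)))))] with b hb1 hb2 hb3
      obtain ⟨ι, hι⟩ := hb1
      exact step_fin hΦ ι I hι (hb2.trans (hnn b)) hb3 q
    obtain ⟨I', hI'⟩ := (Ultrafilter.eventually_exists_iff (f := 𝒰)).1 h1
    obtain ⟨b, hb⟩ := hI'.exists
    exact ⟨I', hI'.mono (fun b hb => hb.2), hb.1.1, hb.1.2⟩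
  -- the enumeration of the requests
  have hcount : ∀ m : ℕ, Countable (Fin m ↪ ℕ) := fun m =>
    (DFunLike.coe_injective (F := Fin m ↪ ℕ)).countable
  obtain ⟨e, he⟩ := exists_injective_nat (Σ θ : {θ // θ ∈ Φ}, Fin θ.1.m ↪ ℕ)
  let req : ℕ → Option (Σ θ : {θ // θ ∈ Φ}, Fin θ.1.m ↪ ℕ) := fun t =>
    if h : ∃ x, e x = t.unpair.1 then some (Classical.choose h) else none
  have hreq : ∀ x s, req (Nat.pair (e x) s) = some x := by
    intro x s
    have h : ∃ y, e y = (Nat.pair (e x) s).unpair.1 := ⟨x, by rw [Nat.unpair_pair]⟩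
    simp only [req]
    rw [dif_pos h]
    congr 1
    apply he
    rw [Classical.choose_spec h, Nat.unpair_pair]
  let q : ∀ t : ℕ, Option (Σ θ : {θ // θ ∈ Φ}, Fin θ.1.m ↪ Fin (J c t)) := fun t =>
    match req t with
    | none => none
    | some x => if hlt : ∀ i, x.2 i < J c t then
        some ⟨x.1, ⟨fun i => ⟨x.2 i, hlt i⟩, fun i i' hii => x.2.injective (by
          simpa using hii)⟩⟩ else none
  choose f hf1 hf2 hf3 using hstep
  obtain ⟨I₀, hI₀⟩ := hinit
  let st : ∀ t : ℕ, {I : Atom ar (Fin (J c t)) → Bool // good I} := fun t =>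
    Nat.rec (motive := fun t => {I : Atom ar (Fin (J c t)) → Bool // good I}) ⟨I₀, hI₀⟩
      (fun t x => ⟨f (J c t) x.1 x.2 (q t), hf1 (J c t) x.1 x.2 (q t)⟩) t
  have hst1 : ∀ t (v : Atom ar (Fin (J c t))),
      (st (t + 1)).1 (v.map (Fin.castAdd (c + 1))) = (st t).1 v := fun t v =>
    hf2 (J c t) (st t).1 (st t).2 (q t) v
  have hst2 : ∀ t (θ : {θ // θ ∈ Φ}) (h : Fin θ.1.m ↪ Fin (J c t)), q t = some ⟨θ, h⟩ →
      ∃ l ∈ θ.1.clause (h.trans (Fin.castAddEmb (c + 1))), (st (t + 1)).1 l.1 = l.2 := fun t =>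
    hf3 (J c t) (st t).1 (st t).2 (q t)
  have hcoh : ∀ s t (hst : s ≤ t) (v : Atom ar (Fin (J c s))),
      (st t).1 (v.map (Fin.castLE (J_mono hst))) = (st s).1 v := by
    intro s t hst
    induction t, hst using Nat.le_induction with
    | base => intro v; rfl
    | succ t hst ih =>
      intro v
      rw [← ih v, ← hst1 t]
      rfl
  let I : Atom ar ℕ → Prop := fun v => ∃ t, ∃ w : Atom ar (Fin (J c t)),
    w.map Fin.val = v ∧ (st t).1 w = true
  have hIt : ∀ t (w : Atom ar (Fin (J c t))), I (w.map Fin.val) ↔ (st t).1 w = true := by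
    intro t w
    constructor
    · rintro ⟨s, w', hw', hs⟩
      have h1 : w'.map (Fin.castLE (J_mono (c := c) (le_max_left s t))) =
          w.map (Fin.castLE (J_mono (c := c) (le_max_right s t))) := by
        apply map_injective (f := (Fin.val : Fin (J c (max s t)) → ℕ)) Fin.val_injective
        exact hw'
      rw [← hcoh s (max s t) (le_max_left s t) w', h1, hcoh t (max s t) (le_max_right s t) w] at hs
      exact hs
    · intro h
      exact ⟨t, w, rfl, h⟩
  refine ⟨I, ?_⟩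
  rintro α ⟨θ, hθ, h, rfl⟩
  -- a time at which the request is treated
  let x : Σ θ : {θ // θ ∈ Φ}, Fin θ.1.m ↪ ℕ := ⟨⟨θ, hθ⟩, h⟩
  let s : ℕ := ∑ i, h i + 1
  let t : ℕ := Nat.pair (e x) s
  have hts : s ≤ t := Nat.right_le_pair _ _
  have hlt : ∀ i, x.2 i < J c t := by
    intro i
    have h1 : h i ≤ ∑ i, h i := Finset.single_le_sum (f := fun i => h i)
      (fun _ _ => Nat.zero_le _) (Finset.mem_univ i)
    have h2 := le_J c t
    show h i < J c t
    omega
  have hq : q t = some ⟨⟨θ, hθ⟩, ⟨fun i => ⟨h i, hlt i⟩, fun i i' hii => h.injective (by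
      simpa using hii)⟩⟩ := by
    have h1 : req t = some x := hreq x s
    simp only [q]
    rw [h1]
    simp only
    rw [dif_pos hlt]
  obtain ⟨l, hl, hlt'⟩ := hst2 t _ _ hq
  refine ⟨(l.1.map Fin.val, l.2), ?_, ?_⟩
  · have := clause_map _ (Fin.valEmbedding : Fin (J c (t + 1)) ↪ ℕ) hl
    exact this
  · have h5 := hIt (t + 1) l.1
    rw [hlt'] at h5
    exact h5

end model

end Pool.Agent.H694R2.SymGap
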