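import Mathlib
import Pool.Agent.H694R2.SymIdx

/-! # Symmetric circuit-Frege refutations of the pigeonhole principle -/

namespace Pool.Agent.H694R2.SymLK

open Equiv Pool.Agent.H522R2.SmallIndex

/-- Nodes of a circuit over the variables `x_(i,j)` (`i` a pigeon, `j` a hole): the variables and
the gates.  The set of pigeons is `A ⊕ B`; the pigeons in `A` may be renamed. -/
abbrev Node (A B H 𝒢 : Type) := ((A ⊕ B) × H) ⊕ 𝒢

/-- The two kinds of gates. -/
inductive Kind
  | neg
  | disj

/-- Circuits (acyclic, gates may be shared) with negation gates and with disjunction gates of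
unbounded fan-in. -/
structure Circuit (A B H 𝒢 : Type) where
  kind : 𝒢 → Kind
  ch : 𝒢 → Set (Node A B H 𝒢)
  neg_one : ∀ g, kind g = Kind.neg → ∃ c, ch g = {c}
  rank : 𝒢 → ℕ
  rank_lt : ∀ g c, Sum.inr c ∈ ch g → rank c < rank g

variable {A B H 𝒢 : Type}

/-- Renaming the pigeons in `A`. -/
def ren [MulAction (Perm A) 𝒢] (σ : Perm A) : Node A B H 𝒢 → Node A B H 𝒢
  | Sum.inl (Sum.inl x, j) => Sum.inl (Sum.inl (σ x), j)
  | Sum.inl (Sum.inr y, j) => Sum.inl (Sum.inr y, j)
  | Sum.inr g => Sum.inr (σ • g)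

/-- The circuit is invariant under renaming the pigeons in `A`. -/
def Circuit.Symmetric [MulAction (Perm A) 𝒢] (C : Circuit A B H 𝒢) : Prop :=
  ∀ (σ : Perm A) (g : 𝒢), C.kind (σ • g) = C.kind g ∧ ∀ c, ren σ c ∈ C.ch (σ • g) ↔ c ∈ C.ch g

/-- A sequent: a finite set of signed nodes, read as their disjunction. -/
abbrev Sequent (A B H 𝒢 : Type) := Finset (Node A B H 𝒢 × Bool)

/-- One inference of the sequent calculus. -/
inductive Step [DecidableEq (Node A B H 𝒢)] (C : Circuit A B H 𝒢)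
    (S : Set (Sequent A B H 𝒢)) : Sequent A B H 𝒢 → Prop
  | id (c) : Step C S {(c, true), (c, false)}
  | fn (i : A ⊕ B) (j j' : H) : j ≠ j' →
      Step C S {(Sum.inl (i, j), false), (Sum.inl (i, j'), false)}
  | inj (i i' : A ⊕ B) (j : H) : i ≠ i' →
      Step C S {(Sum.inl (i, j), false), (Sum.inl (i', j), false)}
  | row (Γ) (i : A ⊕ B) : (∀ j : H, insert (Sum.inl (i, j), false) Γ ∈ S) → Step C S Γ
  | col (Γ) (j : H) : (∀ i : A ⊕ B, insert (Sum.inl (i, j), false) Γ ∈ S) → Step C S Γ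
  | weak (Γ Δ) : Γ ∈ S → Γ ⊆ Δ → Step C S Δ
  | cut (Γ) (c) : insert (c, true) Γ ∈ S → insert (c, false) Γ ∈ S → Step C S Γ
  | negR (Γ) (g) (c) : C.kind g = Kind.neg → c ∈ C.ch g → insert (c, false) Γ ∈ S →
      Step C S (insert (Sum.inr g, true) Γ)
  | negL (Γ) (g) (c) : C.kind g = Kind.neg → c ∈ C.ch g → insert (c, true) Γ ∈ S →
      Step C S (insert (Sum.inr g, false) Γ)
  | disjR (Γ) (g) (c) : C.kind g = Kind.disj → c ∈ C.ch g → insert (c, true) Γ ∈ S →
      Step C S (insert (Sum.inr g, true) Γ)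
  | disjL (Γ) (g) : C.kind g = Kind.disj → (∀ c ∈ C.ch g, insert (c, false) Γ ∈ S) →
      Step C S (insert (Sum.inr g, false) Γ)

/-- The sequents derivable with sequents of at most `b` nodes. -/
inductive Der [DecidableEq (Node A B H 𝒢)] (C : Circuit A B H 𝒢) (b : ℕ) :
    Sequent A B H 𝒢 → Prop
  | step (S : Set (Sequent A B H 𝒢)) (Γ) : (∀ Δ ∈ S, Der C b Δ) → Step C S Γ → Γ.card ≤ b →
      Der C b Γ

/-! ### The truth definition -/

/-- relativised evaluation: inputs outside `U` are ignored -/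
def T (C : Circuit A B H 𝒢) (U : Node A B H 𝒢 → Prop) (a : (A ⊕ B) × H → Prop) :
    Node A B H 𝒢 → Prop
  | Sum.inl v => a v
  | Sum.inr g =>
    match C.kind g with
    | Kind.neg => ¬ ∃ c, ∃ _ : c ∈ C.ch g, U c ∧ T C U a c
    | Kind.disj => ∃ c, ∃ _ : c ∈ C.ch g, U c ∧ T C U a c
termination_by n => match n with
  | Sum.inl _ => 0
  | Sum.inr g => C.rank g + 1
decreasing_by
  all_goals
    rename_i hc
    rcases c with v | c
    · simp
    · simpa using C.rank_lt g c hc

theorem T_inl (C : Circuit A B H 𝒢) (U : Node A B H 𝒢 → Prop) (a : (A ⊕ B) × H → Prop) (v) :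
    T C U a (Sum.inl v) ↔ a v := by
  rw [T]

theorem T_neg (C : Circuit A B H 𝒢) (U : Node A B H 𝒢 → Prop) (a : (A ⊕ B) × H → Prop) (g)
    (hg : C.kind g = Kind.neg) :
    T C U a (Sum.inr g) ↔ ¬ ∃ c ∈ C.ch g, U c ∧ T C U a c := by
  rw [T, hg]
  simp only [exists_prop]

theorem T_disj (C : Circuit A B H 𝒢) (U : Node A B H 𝒢 → Prop) (a : (A ⊕ B) × H → Prop) (g)
    (hg : C.kind g = Kind.disj) :
    T C U a (Sum.inr g) ↔ ∃ c ∈ C.ch g, U c ∧ T C U a c := by
  rw [T, hg]
  simp only [exists_prop]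

/-! ### Renaming -/

section ren

variable [MulAction (Perm A) 𝒢]

theorem ren_mul (σ τ : Perm A) (n : Node A B H 𝒢) : ren (σ * τ) n = ren σ (ren τ n) := by
  rcases n with ⟨x | y, j⟩ | g
  · rfl
  · rfl
  · simp [ren, mul_smul]

theorem ren_one (n : Node A B H 𝒢) : ren 1 n = n := by
  rcases n with ⟨x | y, j⟩ | g
  · rfl
  · rfl
  · simp [ren]

theorem ren_inv_ren (σ : Perm A) (n : Node A B H 𝒢) : ren σ⁻¹ (ren σ n) = n := by
  rw [← ren_mul, inv_mul_cancel, ren_one]

theorem ren_ren_inv (σ : Perm A) (n : Node A B H 𝒢) : ren σ (ren σ⁻¹ n) = n := by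
  rw [← ren_mul, mul_inv_cancel, ren_one]

theorem T_ren {C : Circuit A B H 𝒢} (hC : C.Symmetric) (σ : Perm A)
    {U U' : Node A B H 𝒢 → Prop} {a a' : (A ⊕ B) × H → Prop}
    (hU : ∀ n, U' (ren σ n) ↔ U n) (ha : ∀ v, T C U' a' (ren σ (Sum.inl v)) ↔ a v) :
    ∀ n, T C U' a' (ren σ n) ↔ T C U a n := by
  have main : ∀ N : ℕ, ∀ n : Node A B H 𝒢, (∀ g, n = Sum.inr g → C.rank g < N) →
      (T C U' a' (ren σ n) ↔ T C U a n) := by
    intro N
    induction N with
    | zero =>
      intro n hn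
      rcases n with v | g
      · rw [ha, T_inl]
      · exact absurd (hn g rfl) (by omega)
    | succ N ih =>
      intro n hn
      rcases n with v | g
      · rw [ha, T_inl]
      have hkey : (∃ c ∈ C.ch (σ • g), U' c ∧ T C U' a' c) ↔ ∃ c ∈ C.ch g, U c ∧ T C U a c := by
        have ih' : ∀ c ∈ C.ch g, (T C U' a' (ren σ c) ↔ T C U a c) := by
          intro c hc
          apply ih
          intro h hch
          subst hch
          have := C.rank_lt g h hc
          have := hn g rfl
          omega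
        constructor
        · rintro ⟨c, hc, hUc, hTc⟩
          have hc' : ren σ⁻¹ c ∈ C.ch g := by
            rw [← (hC σ g).2, ren_ren_inv]; exact hc
          refine ⟨ren σ⁻¹ c, hc', ?_, ?_⟩
          · rw [← hU, ren_ren_inv]; exact hUc
          · rw [← ih' _ hc', ren_ren_inv]; exact hTc
        · rintro ⟨c, hc, hUc, hTc⟩
          exact ⟨ren σ c, ((hC σ g).2 c).2 hc, (hU c).2 hUc, (ih' c hc).2 hTc⟩
      have hk := (hC σ g).1
      show T C U' a' (Sum.inr (σ • g)) ↔ _
      cases hkind : C.kind g with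
      | neg =>
        rw [T_neg C U' a' _ (hk.trans hkind), T_neg C U a _ hkind, hkey]
      | disj =>
        rw [T_disj C U' a' _ (hk.trans hkind), T_disj C U a _ hkind, hkey]
  intro n
  rcases n with v | g
  · exact main 0 _ (fun g h => by simp at h)
  · apply main (C.rank g + 1)
    intro h hh
    simp only [Sum.inr.injEq] at hh
    subst hh; omega

/-- `S` supports the node `n` -/
def Sup [DecidableEq A] (S : Finset A) (n : Node A B H 𝒢) : Prop :=
  ∀ x y z, x ∉ S → y ∉ S → z ∉ S → x ≠ y → x ≠ z → y ≠ z → ren (cyc x y z) n = n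

variable [DecidableEq A]

theorem Sup.mono {S W : Finset A} {n : Node A B H 𝒢} (h : Sup S n) (hSW : S ⊆ W) : Sup W n :=
  fun x y z hx hy hz => h x y z (fun h => hx (hSW h)) (fun h => hy (hSW h)) (fun h => hz (hSW h))

theorem Sup.ren {S : Finset A} {n : Node A B H 𝒢} (h : Sup S n) (σ : Perm A) :
    Sup (S.image σ) (ren σ n) := by
  intro x y z hx hy hz h1 h2 h3
  have e : ∀ w, w ∉ S.image σ → σ⁻¹ w ∉ S := by
    intro w hw hw'
    exact hw (Finset.mem_image.2 ⟨_, hw', by simp⟩)
  have hc : cyc x y z * σ = σ * cyc (σ⁻¹ x) (σ⁻¹ y) (σ⁻¹ z) := by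
    have := cyc_conj σ (σ⁻¹ x) (σ⁻¹ y) (σ⁻¹ z)
    rw [papply_inv, papply_inv, papply_inv] at this
    rw [← this]; simp
  rw [← ren_mul, hc, ren_mul, h _ _ _ (e x hx) (e y hy) (e z hz)
    (fun h => h1 (σ⁻¹.injective h)) (fun h => h2 (σ⁻¹.injective h))
    (fun h => h3 (σ⁻¹.injective h))]

theorem sup_var (v : (A ⊕ B) × H) (k : ℕ) (hk : 2 ≤ k) :
    ∃ S : Finset A, S.card < k ∧ Sup S (Sum.inl v : Node A B H 𝒢) := by
  rcases v with ⟨x | y, j⟩
  · refine ⟨{x}, by simp; omega, ?_⟩
    intro u v w hu hv hw _ _ _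
    simp only [Finset.mem_singleton] at hu hv hw
    show Sum.inl (Sum.inl (cyc u v w x), j) = _
    rw [cyc_apply_of_ne (Ne.symm hu) (Ne.symm hv) (Ne.symm hw)]
  · refine ⟨∅, by simp; omega, ?_⟩
    intro u v w _ _ _ _ _ _
    rfl

/-! ### States -/

/-- A matching of all holes and all pigeons of `B`. -/
structure IsState (s : A ⊕ B → Option H) : Prop where
  ex : ∀ j, ∃ i, s i = some j
  uniq : ∀ i i' j, s i = some j → s i' = some j → i = i'
  fixed : ∀ y, s (Sum.inr y) ≠ none

/-- the node is supported by few matched pigeons -/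
def Unt (k : ℕ) (s : A ⊕ B → Option H) (n : Node A B H 𝒢) : Prop :=
  ∃ S : Finset A, S.card < k ∧ (∀ x ∈ S, s (Sum.inl x) ≠ none) ∧ Sup S n

def val (s : A ⊕ B → Option H) (v : (A ⊕ B) × H) : Prop := s v.1 = some v.2

def TT (C : Circuit A B H 𝒢) (k : ℕ) (s : A ⊕ B → Option H) (n : Node A B H 𝒢) : Prop :=
  T C (Unt k s) (val s) n

def mv (σ : Perm A) (s : A ⊕ B → Option H) : A ⊕ B → Option H
  | Sum.inl x => s (Sum.inl (σ⁻¹ x))
  | Sum.inr y => s (Sum.inr y)

theorem unt_mv' (k : ℕ) (s : A ⊕ B → Option H) (σ : Perm A) (n : Node A B H 𝒢)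
    (h : Unt k s n) : Unt k (mv σ s) (ren σ n) := by
  obtain ⟨S, h1, h2, h3⟩ := h
  refine ⟨S.image σ, ?_, ?_, h3.ren σ⟩
  · rwa [Finset.card_image_of_injective _ σ.injective]
  · intro x hx
    obtain ⟨y, hy, rfl⟩ := Finset.mem_image.1 hx
    simpa [mv] using h2 y hy

theorem mv_mv (σ : Perm A) (s : A ⊕ B → Option H) : mv σ⁻¹ (mv σ s) = s := by
  funext i
  rcases i with x | y
  · simp [mv]
  · rfl

theorem unt_mv (k : ℕ) (s : A ⊕ B → Option H) (σ : Perm A) (n : Node A B H 𝒢) :
    Unt k (mv σ s) (ren σ n) ↔ Unt k s n := by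
  constructor
  · intro h
    have := unt_mv' k _ σ⁻¹ _ h
    rwa [mv_mv, ren_inv_ren] at this
  · exact unt_mv' k s σ n

theorem TT_mv {C : Circuit A B H 𝒢} (hC : C.Symmetric) (k : ℕ) (s : A ⊕ B → Option H)
    (σ : Perm A) (n : Node A B H 𝒢) : TT C k (mv σ s) (ren σ n) ↔ TT C k s n := by
  apply T_ren hC σ (unt_mv k s σ)
  rintro ⟨x | y, j⟩
  · show T C _ _ (Sum.inl _) ↔ _
    rw [T_inl]; simp [val, mv]
  · show T C _ _ (Sum.inl _) ↔ _
    rw [T_inl]; simp [val, mv]

theorem IsState.mv {s : A ⊕ B → Option H} (hs : IsState s) (σ : Perm A) : IsState (mv σ s) := by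
  refine ⟨?_, ?_, ?_⟩
  · intro j
    obtain ⟨i, hi⟩ := hs.ex j
    rcases i with x | y
    · exact ⟨Sum.inl (σ x), by simpa [SymLK.mv] using hi⟩
    · exact ⟨Sum.inr y, hi⟩
  · intro i i' j h h'
    rcases i with x | y <;> rcases i' with x' | y'
    · have := hs.uniq _ _ _ h h'
      simpa using this
    · have := hs.uniq _ _ _ h h'
      simp at this
    · have := hs.uniq _ _ _ h h'
      simp at this
    · exact hs.uniq _ _ _ h h'
  · exact hs.fixed

/-! ### Moving the unmatched pigeons -/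

section move

variable [Fintype A] [Fintype B] [Fintype H]

theorem card_matched {s : A ⊕ B → Option H} (hs : IsState s) :
    Fintype.card H ≤
      (Finset.univ.filter (fun x : A => s (Sum.inl x) ≠ none)).card + Fintype.card B := by
  classical
  choose f hf using hs.ex
  have hinj : Function.Injective f := by
    intro j j' h
    have h1 := hf j
    rw [h, hf j'] at h1
    exact (Option.some.inj h1).symm
  have h1 : (Finset.univ.image f) ⊆
      (Finset.univ.filter (fun x : A => s (Sum.inl x) ≠ none)).disjSum (Finset.univ : Finset B) := by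
    intro i hi
    obtain ⟨j, _, rfl⟩ := Finset.mem_image.1 hi
    have hj := hf j
    rcases hfj : f j with x | y
    · rw [hfj] at hj
      simp [hj]
    · simp
  have h2 := Finset.card_le_card h1
  rw [Finset.card_image_of_injective _ hinj, Finset.card_univ, Finset.card_disjSum,
    Finset.card_univ] at h2
  exact h2

variable {k b : ℕ}

/-- one step of moving -/
theorem move_step {C : Circuit A B H 𝒢} (hC : C.Symmetric)
    (hcard : Fintype.card B + (b + 1) * k ≤ Fintype.card H)
    (hlt : Fintype.card H < Fintype.card A + Fintype.card B)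
    (hk : 2 ≤ k) (hb : 1 ≤ b)
    {s : A ⊕ B → Option H} (hs : IsState s) {W S : Finset A} (hW : W.card ≤ b * (k - 1))
    (hS : S.card < k) (hWs : ∀ x ∈ W, s (Sum.inl x) ≠ none) {x : A} (hxS : x ∈ S)
    (hx : s (Sum.inl x) = none) :
    ∃ s' : A ⊕ B → Option H, IsState s' ∧ (∀ w ∈ W, s' (Sum.inl w) ≠ none) ∧
      (∀ w ∈ S, s' (Sum.inl w) = none → s (Sum.inl w) = none ∧ w ≠ x) ∧
      ∀ r : Node A B H 𝒢, Sup W r → (TT C k s' r ↔ TT C k s r) := by
  have hbk : (b + 1) * k = b * (k - 1) + b + k := by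
    obtain ⟨k', rfl⟩ : ∃ k', k = k' + 1 := ⟨k - 1, by omega⟩
    simp only [Nat.add_sub_cancel]; ring
  obtain ⟨y, hy, hyWS⟩ : ∃ y ∈ Finset.univ.filter (fun x : A => s (Sum.inl x) ≠ none),
      y ∉ W ∪ S := by
    by_contra hcon
    push Not at hcon
    have h1 := Finset.card_le_card (fun y hy => hcon y hy)
    have h2 := Finset.card_union_le W S
    have h3 := card_matched hs
    omega
  simp only [Finset.mem_filter, Finset.mem_univ, true_and] at hy
  have hyW : y ∉ W := fun h => hyWS (Finset.mem_union_left _ h)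
  have hyS : y ∉ S := fun h => hyWS (Finset.mem_union_right _ h)
  have hxW : x ∉ W := fun h => hWs x h hx
  have hxy : x ≠ y := fun h => hyS (h ▸ hxS)
  obtain ⟨z, hz⟩ : ∃ z, z ∉ insert x (insert y W) := by
    by_contra hcon
    push Not at hcon
    have h1 : (insert x (insert y W)) = Finset.univ := Finset.eq_univ_iff_forall.2 hcon
    have h2 := Finset.card_insert_le x (insert y W)
    have h3 := Finset.card_insert_le y W
    rw [h1, Finset.card_univ] at h2
    omega
  simp only [Finset.mem_insert, not_or] at hz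
  obtain ⟨hzx, hzy, hzW⟩ := hz
  have inv_of_ne : ∀ {σ : Perm A} {u : A}, σ u = u → σ⁻¹ u = u := by
    intro σ u h
    rw [Perm.inv_eq_iff_eq]; exact h.symm
  by_cases hsz : s (Sum.inl z) = none
  · -- `y → x → z → y`
    let σ : Perm A := cyc y x z
    have e1 : σ⁻¹ x = y := by
      rw [Perm.inv_eq_iff_eq]; exact (cyc_apply_fst hxy.symm (Ne.symm hzy)).symm
    have e2 : σ⁻¹ z = x := by
      rw [Perm.inv_eq_iff_eq]; exact (cyc_apply_snd (Ne.symm hzy) (Ne.symm hzx)).symm
    have e3 : ∀ w, w ≠ x → w ≠ y → w ≠ z → σ⁻¹ w = w := fun w h1 h2 h3 =>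
      inv_of_ne (cyc_apply_of_ne h2 h1 h3)
    refine ⟨mv σ s, hs.mv σ, ?_, ?_, ?_⟩
    · intro w hw
      have h1 : w ≠ x := fun h => hxW (h ▸ hw)
      have h2 : w ≠ y := fun h => hyW (h ▸ hw)
      have h3 : w ≠ z := fun h => hzW (h ▸ hw)
      simp only [mv, e3 w h1 h2 h3]
      exact hWs w hw
    · intro w hw hwn
      simp only [mv] at hwn
      have h2 : w ≠ y := fun h => hyS (h ▸ hw)
      by_cases h1 : w = x
      · rw [h1, e1] at hwn; exact absurd hwn hy
      by_cases h3 : w = z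
      · rw [h3]; exact ⟨hsz, hzx⟩
      · rw [e3 w h1 h2 h3] at hwn; exact ⟨hwn, h1⟩
    · intro r hr
      have h1 := hr y x z hyW hxW hzW hxy.symm (Ne.symm hzy) (Ne.symm hzx)
      have h2 := TT_mv hC k s σ r
      rwa [show ren σ r = r from h1] at h2
  · -- `x → y → z → x`
    let σ : Perm A := cyc x y z
    have e1 : σ⁻¹ x = z := by
      rw [Perm.inv_eq_iff_eq]; exact cyc_apply_trd.symm
    have e2 : σ⁻¹ z = y := by
      rw [Perm.inv_eq_iff_eq]; exact (cyc_apply_snd (Ne.symm hzx) (Ne.symm hzy)).symm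
    have e3 : ∀ w, w ≠ x → w ≠ y → w ≠ z → σ⁻¹ w = w := fun w h1 h2 h3 =>
      inv_of_ne (cyc_apply_of_ne h1 h2 h3)
    refine ⟨mv σ s, hs.mv σ, ?_, ?_, ?_⟩
    · intro w hw
      have h1 : w ≠ x := fun h => hxW (h ▸ hw)
      have h2 : w ≠ y := fun h => hyW (h ▸ hw)
      have h3 : w ≠ z := fun h => hzW (h ▸ hw)
      simp only [mv, e3 w h1 h2 h3]
      exact hWs w hw
    · intro w hw hwn
      simp only [mv] at hwn
      have h2 : w ≠ y := fun h => hyS (h ▸ hw)
      by_cases h1 : w = x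
      · rw [h1, e1] at hwn; exact absurd hwn hsz
      by_cases h3 : w = z
      · rw [h3, e2] at hwn; exact absurd hwn hy
      · rw [e3 w h1 h2 h3] at hwn; exact ⟨hwn, h1⟩
    · intro r hr
      have h1 := hr x y z hxW hyW hzW hxy (Ne.symm hzx) (Ne.symm hzy)
      have h2 := TT_mv hC k s σ r
      rwa [show ren σ r = r from h1] at h2

theorem move {C : Circuit A B H 𝒢} (hC : C.Symmetric)
    (hcard : Fintype.card B + (b + 1) * k ≤ Fintype.card H)
    (hlt : Fintype.card H < Fintype.card A + Fintype.card B)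
    (hk : 2 ≤ k) (hb : 1 ≤ b) {W S : Finset A} (hW : W.card ≤ b * (k - 1))
    (hS : S.card < k) :
    ∀ (N : ℕ) (s : A ⊕ B → Option H), IsState s → (∀ x ∈ W, s (Sum.inl x) ≠ none) →
    (S.filter (fun x => s (Sum.inl x) = none)).card ≤ N →
    ∃ s' : A ⊕ B → Option H, IsState s' ∧ (∀ w ∈ W, s' (Sum.inl w) ≠ none) ∧
      (∀ w ∈ S, s' (Sum.inl w) ≠ none) ∧
      ∀ r : Node A B H 𝒢, Sup W r → (TT C k s' r ↔ TT C k s r) := by
  intro N
  induction N with
  | zero =>
    intro s hs hWs hN
    refine ⟨s, hs, hWs, ?_, fun _ _ => Iff.rfl⟩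
    intro w hw hwn
    have : w ∈ S.filter (fun x => s (Sum.inl x) = none) := Finset.mem_filter.2 ⟨hw, hwn⟩
    rw [Finset.card_eq_zero.1 (Nat.le_zero.1 hN)] at this
    simp at this
  | succ N ih =>
    intro s hs hWs hN
    by_cases hex : ∃ x ∈ S, s (Sum.inl x) = none
    · obtain ⟨x, hxS, hx⟩ := hex
      obtain ⟨s', h1, h2, h3, h4⟩ := move_step hC hcard hlt hk hb hs hW hS hWs hxS hx
      obtain ⟨s'', g1, g2, g3, g4⟩ := ih s' h1 h2 (by
        have hsub : S.filter (fun w => s' (Sum.inl w) = none) ⊆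
            (S.filter (fun w => s (Sum.inl w) = none)).erase x := by
          intro w hw
          obtain ⟨hw1, hw2⟩ := Finset.mem_filter.1 hw
          obtain ⟨h5, h6⟩ := h3 w hw1 hw2
          exact Finset.mem_erase.2 ⟨h6, Finset.mem_filter.2 ⟨hw1, h5⟩⟩
        have h5 := Finset.card_le_card hsub
        rw [Finset.card_erase_of_mem (Finset.mem_filter.2 ⟨hxS, hx⟩)] at h5
        omega)
      exact ⟨s'', g1, g2, g3, fun r hr => (g4 r hr).trans (h4 r hr)⟩
    · push Not at hex
      exact ⟨s, hs, hWs, hex, fun _ _ => Iff.rfl⟩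

theorem joint_support {s : A ⊕ B → Option H} (Γ : Sequent A B H 𝒢)
    (hΓ : ∀ l ∈ Γ, Unt k s l.1) :
    ∃ W : Finset A, W.card ≤ Γ.card * (k - 1) ∧ (∀ x ∈ W, s (Sum.inl x) ≠ none) ∧
      ∀ l ∈ Γ, ∃ S ⊆ W, S.card < k ∧ Sup S l.1 := by
  classical
  induction Γ using Finset.induction_on with
  | empty => exact ⟨∅, by simp, by simp, by simp⟩
  | insert l Γ hl ih =>
    obtain ⟨W, h1, h2, h3⟩ := ih (fun l' hl' => hΓ l' (Finset.mem_insert_of_mem hl'))
    obtain ⟨S, g1, g2, g3⟩ := hΓ l (Finset.mem_insert_self _ _)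
    refine ⟨S ∪ W, ?_, ?_, ?_⟩
    · have h4 := Finset.card_union_le S W
      rw [Finset.card_insert_of_notMem hl, add_mul]
      omega
    · intro x hx
      rcases Finset.mem_union.1 hx with hx | hx
      · exact g2 x hx
      · exact h2 x hx
    · intro l' hl'
      rcases Finset.mem_insert.1 hl' with rfl | hl'
      · exact ⟨S, Finset.subset_union_left, g1, g3⟩
      · obtain ⟨S', e1, e2, e3⟩ := h3 l' hl'
        exact ⟨S', e1.trans Finset.subset_union_right, e2, e3⟩

theorem move_unt {C : Circuit A B H 𝒢} (hC : C.Symmetric)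
    (hcard : Fintype.card B + (b + 1) * k ≤ Fintype.card H)
    (hlt : Fintype.card H < Fintype.card A + Fintype.card B)
    (hk : 2 ≤ k) (hb : 1 ≤ b) {s : A ⊕ B → Option H} (hs : IsState s)
    (Γ : Sequent A B H 𝒢) (hΓb : Γ.card ≤ b) (hΓ : ∀ l ∈ Γ, Unt k s l.1)
    (S : Finset A) (hS : S.card < k) :
    ∃ s' : A ⊕ B → Option H, IsState s' ∧ (∀ l ∈ Γ, Unt k s' l.1) ∧
      (∀ w ∈ S, s' (Sum.inl w) ≠ none) ∧
      ∀ l ∈ Γ, (TT C k s' l.1 ↔ TT C k s l.1) := by
  obtain ⟨W, h1, h2, h3⟩ := joint_support Γ hΓ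
  have hW : W.card ≤ b * (k - 1) := h1.trans (Nat.mul_le_mul_right _ hΓb)
  obtain ⟨s', g1, g2, g3, g4⟩ := move hC hcard hlt hk hb hW hS _ s hs h2 le_rfl
  refine ⟨s', g1, ?_, g3, ?_⟩
  · intro l hl
    obtain ⟨S', e1, e2, e3⟩ := h3 l hl
    exact ⟨S', e2, fun x hx => g2 x (e1 hx), e3⟩
  · intro l hl
    obtain ⟨S', e1, e2, e3⟩ := h3 l hl
    exact g4 l.1 (e3.mono e1)

end move

/-! ### Soundness -/

theorem unt_var {k : ℕ} (hk : 2 ≤ k) {s : A ⊕ B → Option H} {i : A ⊕ B} (hi : s i ≠ none)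
    (j : H) : Unt k s (Sum.inl (i, j) : Node A B H 𝒢) := by
  rcases i with x | y
  · refine ⟨{x}, by simp; omega, by simpa using hi, ?_⟩
    intro u v w hu hv hw _ _ _
    simp only [Finset.mem_singleton] at hu hv hw
    show Sum.inl (Sum.inl (cyc u v w x), j) = _
    rw [cyc_apply_of_ne (Ne.symm hu) (Ne.symm hv) (Ne.symm hw)]
  · refine ⟨∅, by simp; omega, by simp, ?_⟩
    intro u v w _ _ _ _ _ _
    rfl

theorem TT_var {C : Circuit A B H 𝒢} {k : ℕ} {s : A ⊕ B → Option H} (i : A ⊕ B) (j : H) :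
    TT C k s (Sum.inl (i, j)) ↔ s i = some j := by
  rw [TT, T_inl]; rfl

section sound

variable [Fintype A] [Fintype B] [Fintype H] [DecidableEq (Node A B H 𝒢)] {k b : ℕ}

theorem sound {C : Circuit A B H 𝒢} (hC : C.Symmetric)
    (hcard : Fintype.card B + (b + 1) * k ≤ Fintype.card H)
    (hlt : Fintype.card H < Fintype.card A + Fintype.card B)
    (hk : 2 ≤ k) (hb : 1 ≤ b)
    (hsm : ∀ q : Node A B H 𝒢, ∃ S : Finset A, S.card < k ∧ Sup S q)
    (Γ : Sequent A B H 𝒢) (hΓ : Der C b Γ) :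
    ∀ s, IsState s → (∀ l ∈ Γ, Unt k s l.1) → ∃ l ∈ Γ, (TT C k s l.1 ↔ l.2 = true) := by
  induction hΓ with
  | step S Γ _ hstep hΓb ih =>
    intro s hs hU
    -- moving to a state in which a further node is untouched
    have hmove : ∀ q : Node A B H 𝒢, ∃ s' : A ⊕ B → Option H, IsState s' ∧
        (∀ l ∈ Γ, Unt k s' l.1) ∧ Unt k s' q ∧
        ((∃ l ∈ Γ, (TT C k s' l.1 ↔ l.2 = true)) → ∃ l ∈ Γ, (TT C k s l.1 ↔ l.2 = true)) ∧
        ∀ l ∈ Γ, (TT C k s' l.1 ↔ TT C k s l.1) := by
      intro q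
      obtain ⟨S', hS', hSq⟩ := hsm q
      obtain ⟨s', h1, h2, h3, h4⟩ := move_unt hC hcard hlt hk hb hs Γ hΓb hU S' hS'
      refine ⟨s', h1, h2, ⟨S', hS', h3, hSq⟩, ?_, h4⟩
      rintro ⟨l, hl, hl'⟩
      exact ⟨l, hl, (h4 l hl).symm.trans hl'⟩
    cases hstep with
    | id c =>
      by_cases h : TT C k s c
      · exact ⟨(c, true), by simp, by simp [h]⟩
      · exact ⟨(c, false), by simp, by simp [h]⟩
    | fn i j j' hj =>
      by_cases h : s i = some j
      · refine ⟨(Sum.inl (i, j'), false), by simp, ?_⟩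
        simp only [TT_var, h, Option.some.injEq, Bool.false_eq_true, iff_false]
        exact hj
      · refine ⟨(Sum.inl (i, j), false), by simp, ?_⟩
        simp only [TT_var, h, Bool.false_eq_true]
    | inj i i' j hi =>
      by_cases h : s i = some j
      · refine ⟨(Sum.inl (i', j), false), by simp, ?_⟩
        simp only [TT_var, Bool.false_eq_true, iff_false]
        intro h'
        exact hi (hs.uniq _ _ _ h h')
      · refine ⟨(Sum.inl (i, j), false), by simp, ?_⟩
        simp only [TT_var, h, Bool.false_eq_true]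
    | row _ i hrow =>
      -- a state in which `i` is matched
      obtain ⟨s', h1, h2, h3, h4⟩ : ∃ s' : A ⊕ B → Option H, IsState s' ∧
          (∀ l ∈ Γ, Unt k s' l.1) ∧ s' i ≠ none ∧
          ((∃ l ∈ Γ, (TT C k s' l.1 ↔ l.2 = true)) →
            ∃ l ∈ Γ, (TT C k s l.1 ↔ l.2 = true)) := by
        rcases i with x | y
        · obtain ⟨s', h1, h2, h3, h4⟩ := move_unt hC hcard hlt hk hb hs Γ hΓb hU {x}
            (by simp; omega)
          refine ⟨s', h1, h2, h3 x (by simp), ?_⟩
          rintro ⟨l, hl, hl'⟩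
          exact ⟨l, hl, (h4 l hl).symm.trans hl'⟩
        · exact ⟨s, hs, hU, hs.fixed y, fun h => h⟩
      apply h4
      obtain ⟨j, hj⟩ := Option.ne_none_iff_exists'.1 h3
      obtain ⟨l, hl, hl'⟩ := ih _ (hrow j) s' h1 (by
        intro l hl
        rcases Finset.mem_insert.1 hl with rfl | hl
        · exact unt_var hk h3 j
        · exact h2 l hl)
      rcases Finset.mem_insert.1 hl with rfl | hl
      · simp [TT_var, hj] at hl'
      · exact ⟨l, hl, hl'⟩
    | col _ j hcol =>
      obtain ⟨i, hi⟩ := hs.ex j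
      obtain ⟨l, hl, hl'⟩ := ih _ (hcol i) s hs (by
        intro l hl
        rcases Finset.mem_insert.1 hl with rfl | hl
        · exact unt_var hk (by rw [hi]; simp) j
        · exact hU l hl)
      rcases Finset.mem_insert.1 hl with rfl | hl
      · simp [TT_var, hi] at hl'
      · exact ⟨l, hl, hl'⟩
    | weak Δ _ hΔ hsub =>
      obtain ⟨l, hl, hl'⟩ := ih _ hΔ s hs (fun l hl => hU l (hsub hl))
      exact ⟨l, hsub hl, hl'⟩
    | cut _ c h1 h2 =>
      obtain ⟨s', g1, g2, g3, g4, _⟩ := hmove c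
      apply g4
      by_cases hc : TT C k s' c
      · obtain ⟨l, hl, hl'⟩ := ih _ h2 s' g1 (by
          intro l hl
          rcases Finset.mem_insert.1 hl with rfl | hl
          · exact g3
          · exact g2 l hl)
        rcases Finset.mem_insert.1 hl with rfl | hl
        · simp [hc] at hl'
        · exact ⟨l, hl, hl'⟩
      · obtain ⟨l, hl, hl'⟩ := ih _ h1 s' g1 (by
          intro l hl
          rcases Finset.mem_insert.1 hl with rfl | hl
          · exact g3
          · exact g2 l hl)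
        rcases Finset.mem_insert.1 hl with rfl | hl
        · simp [hc] at hl'
        · exact ⟨l, hl, hl'⟩
    | negR Δ g c hg hc h =>
      by_cases hT : TT C k s (Sum.inr g)
      · exact ⟨_, Finset.mem_insert_self _ _, by simp [hT]⟩
      · have hT' := hT
        rw [TT, T_neg C _ _ g hg, not_not] at hT'
        obtain ⟨c', hc', hUc, hTc⟩ := hT'
        obtain ⟨c'', hch⟩ := C.neg_one g hg
        rw [hch] at hc hc'
        have : c' = c := hc'.trans hc.symm
        subst this
        obtain ⟨l, hl, hl'⟩ := ih _ h s hs (by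
          intro l hl
          rcases Finset.mem_insert.1 hl with rfl | hl
          · exact hUc
          · exact hU l (Finset.mem_insert_of_mem hl))
        rcases Finset.mem_insert.1 hl with rfl | hl
        · simp only [Bool.false_eq_true, iff_false] at hl'
          exact absurd hTc hl'
        · exact ⟨l, Finset.mem_insert_of_mem hl, hl'⟩
    | negL Δ g c hg hc h =>
      by_cases hT : TT C k s (Sum.inr g)
      · have hT' := hT
        rw [TT, T_neg C _ _ g hg] at hT'
        obtain ⟨c'', hch⟩ := C.neg_one g hg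
        have hUc : Unt k s c := by
          obtain ⟨S', e1, e2, e3⟩ := hU _ (Finset.mem_insert_self _ _)
          refine ⟨S', e1, e2, ?_⟩
          intro x y z hx hy hz h1 h2 h3
          have h4 := e3 x y z hx hy hz h1 h2 h3
          have h5 : (cyc x y z) • g = g := by
            have : (Sum.inr ((cyc x y z) • g) : Node A B H 𝒢) = Sum.inr g := h4
            exact Sum.inr.inj this
          have h6 := ((hC (cyc x y z) g).2 c).2 hc
          rw [h5, hch] at h6
          rw [hch] at hc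
          exact (Set.mem_singleton_iff.1 h6).trans (Set.mem_singleton_iff.1 hc).symm
        have hTc : ¬ TT C k s c := fun h => hT' ⟨c, hc, hUc, h⟩
        obtain ⟨l, hl, hl'⟩ := ih _ h s hs (by
          intro l hl
          rcases Finset.mem_insert.1 hl with rfl | hl
          · exact hUc
          · exact hU l (Finset.mem_insert_of_mem hl))
        rcases Finset.mem_insert.1 hl with rfl | hl
        · simp only [iff_true] at hl'
          exact absurd hl' hTc
        · exact ⟨l, Finset.mem_insert_of_mem hl, hl'⟩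
      · exact ⟨_, Finset.mem_insert_self _ _, by simp [hT]⟩
    | disjR Δ g c hg hc h =>
      obtain ⟨s', g1, g2, g3, g4, g5⟩ := hmove c
      apply g4
      obtain ⟨l, hl, hl'⟩ := ih _ h s' g1 (by
        intro l hl
        rcases Finset.mem_insert.1 hl with rfl | hl
        · exact g3
        · exact g2 l (Finset.mem_insert_of_mem hl))
      rcases Finset.mem_insert.1 hl with rfl | hl
      · refine ⟨_, Finset.mem_insert_self _ _, ?_⟩
        simp only [iff_true] at hl' ⊢
        rw [TT, T_disj C _ _ g hg]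
        exact ⟨c, hc, g3, hl'⟩
      · exact ⟨l, Finset.mem_insert_of_mem hl, hl'⟩
    | disjL Δ g hg h =>
      by_cases hT : TT C k s (Sum.inr g)
      · have hT' := hT
        rw [TT, T_disj C _ _ g hg] at hT'
        obtain ⟨c, hc, hUc, hTc⟩ := hT'
        obtain ⟨l, hl, hl'⟩ := ih _ (h c hc) s hs (by
          intro l hl
          rcases Finset.mem_insert.1 hl with rfl | hl
          · exact hUc
          · exact hU l (Finset.mem_insert_of_mem hl))
        rcases Finset.mem_insert.1 hl with rfl | hl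
        · simp only [Bool.false_eq_true, iff_false] at hl'
          exact absurd hTc hl'
        · exact ⟨l, Finset.mem_insert_of_mem hl, hl'⟩
      · exact ⟨_, Finset.mem_insert_self _ _, by simp [hT]⟩

end sound

end ren

/-- there is a state -/
theorem exists_state [Fintype A] [Fintype B] [Fintype H]
    (hle : Fintype.card B ≤ Fintype.card H)
    (hlt : Fintype.card H ≤ Fintype.card A + Fintype.card B) :
    ∃ s : A ⊕ B → Option H, IsState s := by
  classical
  obtain ⟨f⟩ : Nonempty (B ↪ H) := Function.Embedding.nonempty_of_card_le hle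
  obtain ⟨e⟩ : Nonempty ({j : H // j ∉ Set.range f} ↪ A) := by
    apply Function.Embedding.nonempty_of_card_le
    have h1 : Fintype.card {j : H // j ∉ Set.range f} = Fintype.card H - Fintype.card B := by
      rw [Fintype.card_subtype_compl, show Fintype.card {x // x ∈ Set.range f} = Fintype.card B from
        Set.card_range_of_injective f.injective]
    omega
  let s : A ⊕ B → Option H := fun i => match i with
    | Sum.inl x => if h : ∃ j, e j = x then some (Classical.choose h).1 else none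
    | Sum.inr y => some (f y)
  have hsA : ∀ j : {j : H // j ∉ Set.range f}, s (Sum.inl (e j)) = some j.1 := by
    intro j
    have h : ∃ j', e j' = e j := ⟨j, rfl⟩
    simp only [s]
    rw [dif_pos h]
    rw [e.injective (Classical.choose_spec h)]
  have hsA' : ∀ x j, s (Sum.inl x) = some j → ∃ h : j ∉ Set.range f, e ⟨j, h⟩ = x := by
    intro x j h
    simp only [s] at h
    split_ifs at h with h'
    have h1 := Classical.choose_spec h'
    have h2 := Option.some.inj h
    subst h2
    exact ⟨(Classical.choose h').2, h1⟩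
  refine ⟨s, ?_, ?_, ?_⟩
  · intro j
    by_cases hj : j ∈ Set.range f
    · obtain ⟨y, rfl⟩ := hj
      exact ⟨Sum.inr y, rfl⟩
    · exact ⟨Sum.inl (e ⟨j, hj⟩), hsA ⟨j, hj⟩⟩
  · intro i i' j h h'
    rcases i with x | y <;> rcases i' with x' | y'
    · obtain ⟨h1, h2⟩ := hsA' _ _ h
      obtain ⟨h3, h4⟩ := hsA' _ _ h'
      rw [← h2, ← h4]
    · obtain ⟨h1, _⟩ := hsA' _ _ h
      exact absurd ⟨y', Option.some.inj h'⟩ h1
    · obtain ⟨h1, _⟩ := hsA' _ _ h'
      exact absurd ⟨y, Option.some.inj h⟩ h1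
    · have h1 := Option.some.inj h
      have h2 := Option.some.inj h'
      rw [f.injective (h1.trans h2.symm)]
  · intro y; simp [s]

theorem lower_bound [Fintype A] [Fintype B] [Fintype H] [Fintype 𝒢]
    [DecidableEq A] [DecidableEq (Node A B H 𝒢)] [MulAction (Perm A) 𝒢] {C : Circuit A B H 𝒢}
    (hC : C.Symmetric) {k b : ℕ} (hb : 2 ≤ b) (hk : 2 ≤ k)
    (hcard : Fintype.card B + (b + 1) * k ≤ Fintype.card H)
    (hlt : Fintype.card H < Fintype.card A + Fintype.card B)
    (hD : Der C b ∅) : (Fintype.card A).choose k ≤ 4 * (Fintype.card 𝒢) ^ 3 := by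
  by_contra hcon
  push Not at hcon
  have h3k : 3 * k ≤ Fintype.card A := by
    have : 3 * k ≤ (b + 1) * k := Nat.mul_le_mul_right _ (by omega)
    omega
  have hsm : ∀ q : Node A B H 𝒢, ∃ S : Finset A, S.card < k ∧ Sup S q := by
    intro q
    rcases q with v | g
    · exact sup_var v k hk
    · have hidx : (MulAction.stabilizer (Perm A) g).index ≤ Fintype.card 𝒢 := by
        rw [MulAction.index_stabilizer, ← Nat.card_coe_set_eq, ← Nat.card_eq_fintype_card]
        exact Nat.card_le_card_of_injective _ Subtype.val_injective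
      obtain ⟨d, hd⟩ := SymIdx.big_class (MulAction.stabilizer (Perm A) g) k (by omega) h3k
        (lt_of_le_of_lt (Nat.mul_le_mul_left _ (Nat.pow_le_pow_left hidx 3)) hcon)
      refine ⟨(ClF (MulAction.stabilizer (Perm A) g) d)ᶜ, ?_, ?_⟩
      · rw [Finset.card_compl]; omega
      · intro x y z hx hy hz h1 h2 h3
        simp only [Finset.mem_compl, not_not, mem_ClF] at hx hy hz
        have h4 := (good_of_cl hx hy hz h1 h2 h3).2.2.2
        rw [MulAction.mem_stabilizer_iff] at h4
        show Sum.inr ((cyc x y z) • g) = _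
        rw [h4]
  obtain ⟨s, hs⟩ := exists_state (A := A) (B := B) (H := H) (by omega) (by omega)
  obtain ⟨l, hl, _⟩ := sound hC hcard hlt hk (by omega) hsm ∅ hD s hs (by simp)
  simp at hl

end Pool.Agent.H694R2.SymLK
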