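import Mathlib
import Pool.Agent.H694R2.SymLK
import Pool.Agent.H694R2.SymCount

/-! # Near-models of the onto functional pigeonhole principle -/

namespace Pool.Agent.H694R2.SymPhp

open Equiv Pool.Agent.H522R2.SmallIndex Pool.Agent.H694R2.SymMod

/-- The variable `x_(i,j)`: pigeon `i` sits in hole `j`. The set of pigeons is `A ⊕ B`. -/
@[ext]
structure PVar (A B H : Type) where
  pigeon : A ⊕ B
  hole : H
  deriving DecidableEq, Fintype

variable {A B H : Type}

/-- Renaming the pigeons in `A`. -/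
instance : MulAction (Perm A) (PVar A B H) where
  smul σ v := ⟨Sum.map σ id v.pigeon, v.hole⟩
  one_smul := by
    rintro ⟨x | y, j⟩ <;> rfl
  mul_smul := by
    rintro σ τ ⟨x | y, j⟩ <;> rfl

/-- The clauses of the onto functional pigeonhole principle with pigeons `A ⊕ B` and holes `H`. -/
def phpClauses (A B H : Type) : Set (Set (PVar A B H × Bool)) :=
  {α | (∃ i, α = {l | l.1.pigeon = i ∧ l.2 = true}) ∨
    (∃ j, α = {l | l.1.hole = j ∧ l.2 = true}) ∨
    (∃ i j j', j ≠ j' ∧ α = {(⟨i, j⟩, false), (⟨i, j'⟩, false)}) ∨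
    ∃ i i' j, i ≠ i' ∧ α = {(⟨i, j⟩, false), (⟨i', j⟩, false)}}

theorem smul_inl (σ : Perm A) (x : A) (j : H) :
    σ • (⟨Sum.inl x, j⟩ : PVar A B H) = ⟨Sum.inl (σ x), j⟩ := rfl

theorem smul_inr (σ : Perm A) (y : B) (j : H) :
    σ • (⟨Sum.inr y, j⟩ : PVar A B H) = ⟨Sum.inr y, j⟩ := rfl

variable [DecidableEq A] [Fintype A] [Fintype B] [Fintype H]

/-- matchings of all holes with all pigeons outside `X` -/
def St (A B H : Type) [DecidableEq A] [Fintype A] (X : Finset A) (a : PVar A B H → Prop) : Prop :=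
  ∃ s : A ⊕ B → Option H, SymLK.IsState s ∧ (∀ x, x ∈ X ↔ s (Sum.inl x) = none) ∧
    ∀ v, a v ↔ s v.pigeon = some v.hole

theorem card_St {X : Finset A} {a : PVar A B H → Prop} (h : St A B H X a) :
    X.card + Fintype.card H = Fintype.card A + Fintype.card B := by
  classical
  obtain ⟨s, hs, hX, _⟩ := h
  -- the matched pigeons are in bijection with the holes
  choose f hf using hs.ex
  have hinj : Function.Injective f := by
    intro j j' h
    have h1 := hf j
    rw [h, hf j'] at h1
    exact (Option.some.inj h1).symm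
  have h1 : (Finset.univ.image f) = Xᶜ.disjSum (Finset.univ : Finset B) := by
    ext i
    rcases i with x | y
    · simp only [Finset.mem_image, Finset.mem_univ, true_and, Finset.inl_mem_disjSum,
        Finset.mem_compl, hX]
      constructor
      · rintro ⟨j, hj⟩ hn
        have := hf j
        rw [hj, hn] at this
        simp at this
      · intro hne
        obtain ⟨j, hj⟩ := Option.ne_none_iff_exists'.1 hne
        exact ⟨j, hs.uniq _ _ _ (hf j) hj⟩
    · simp only [Finset.mem_image, Finset.mem_univ, true_and, Finset.inr_mem_disjSum, iff_true]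
      obtain ⟨j, hj⟩ := Option.ne_none_iff_exists'.1 (hs.fixed y)
      exact ⟨j, hs.uniq _ _ _ (hf j) hj⟩
  have h2 := congrArg Finset.card h1
  rw [Finset.card_image_of_injective _ hinj, Finset.card_univ, Finset.card_disjSum,
    Finset.card_univ, Finset.card_compl] at h2
  have h3 : X.card ≤ Fintype.card A := Finset.card_le_univ X
  omega

theorem sup_pigeon {X : Finset A} {i : A ⊕ B} (hi : ∀ x, i = Sum.inl x → x ∉ X) (j : H) (k : ℕ)
    (hk : 2 ≤ k) : Unt k X (⟨i, j⟩ : PVar A B H) := by
  rcases i with x | y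
  · refine ⟨{x}, by simp; omega, by simpa using hi x rfl, ?_⟩
    intro u v w hu hv hw _ _ _
    simp only [Finset.mem_singleton] at hu hv hw
    rw [smul_inl, cyc_apply_of_ne (Ne.symm hu) (Ne.symm hv) (Ne.symm hw)]
  · refine ⟨∅, by simp; omega, by simp, ?_⟩
    intro u v w _ _ _ _ _ _
    rfl

theorem near_php {x k p t e : ℕ} (hk : 3 ≤ k) (hpe : 0 < p ^ e)
    (hkp : 2 * k ≤ p ^ e) (hx : x = t * p ^ e)
    (hxc : x + Fintype.card H = Fintype.card A + Fintype.card B)
    (hBH : Fintype.card B ≤ Fintype.card H) :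
    Near A (phpClauses A B H) p k x (St A B H) where
  card := fun X a h => by have := card_St h; omega
  move := by
    rintro X a ⟨s, hs, hX, ha⟩ σ
    refine ⟨SymLK.mv σ s, hs.mv σ, ?_, ?_⟩
    · intro y
      rw [Finset.mem_image]
      constructor
      · rintro ⟨z, hz, rfl⟩
        simpa [SymLK.mv] using (hX z).1 hz
      · intro h
        exact ⟨σ⁻¹ y, (hX _).2 h, by simp⟩
    · rintro ⟨x | y, j⟩
      · show a (σ⁻¹ • (⟨Sum.inl x, j⟩ : PVar A B H)) ↔ _
        rw [smul_inl, ha]; rfl
      · show a (σ⁻¹ • (⟨Sum.inr y, j⟩ : PVar A B H)) ↔ _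
        rw [smul_inr, ha]; rfl
  var := by
    rintro ⟨i, j⟩
    obtain ⟨S, h1, _, h3⟩ := sup_pigeon (X := (∅ : Finset A)) (i := i) (by simp) j k (by omega)
    exact ⟨S, h1, h3⟩
  ax := by
    rintro α (⟨i, rfl⟩ | ⟨j, rfl⟩ | ⟨i, j, j', hjj, rfl⟩ | ⟨i, i', j, hii, rfl⟩)
    · -- pigeon `i` sits in some hole
      obtain ⟨D, hD, hDi⟩ : ∃ D : Finset A, D.card < k ∧ ∀ x, i = Sum.inl x → x ∈ D := by
        rcases i with x | y
        · exact ⟨{x}, by simp; omega, by simp⟩
        · exact ⟨∅, by simp; omega, by simp⟩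
      refine ⟨D, hD, ?_⟩
      rintro X a ⟨s, hs, hX, ha⟩ hdis
      have hiX : ∀ x, i = Sum.inl x → x ∉ X := fun x hx =>
        Finset.disjoint_left.1 hdis (hDi x hx)
      have hne : s i ≠ none := by
        rcases i with x | y
        · intro h0
          exact hiX x rfl ((hX x).2 h0)
        · exact hs.fixed y
      obtain ⟨j, hj⟩ := Option.ne_none_iff_exists'.1 hne
      exact ⟨(⟨i, j⟩, true), ⟨rfl, rfl⟩, sup_pigeon hiX j k (by omega), by simp [ha, hj]⟩
    · -- hole `j` is used
      refine ⟨∅, by simp; omega, ?_⟩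
      rintro X a ⟨s, hs, hX, ha⟩ _
      obtain ⟨i, hi⟩ := hs.ex j
      refine ⟨(⟨i, j⟩, true), ⟨rfl, rfl⟩, sup_pigeon ?_ j k (by omega), by simp [ha, hi]⟩
      rintro x rfl hx
      rw [(hX x).1 hx] at hi
      simp at hi
    · -- functionality
      obtain ⟨D, hD, hDi⟩ : ∃ D : Finset A, D.card < k ∧ ∀ x, i = Sum.inl x → x ∈ D := by
        rcases i with x | y
        · exact ⟨{x}, by simp; omega, by simp⟩
        · exact ⟨∅, by simp; omega, by simp⟩
      refine ⟨D, hD, ?_⟩
      rintro X a ⟨s, hs, hX, ha⟩ hdis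
      have hiX : ∀ x, i = Sum.inl x → x ∉ X := fun x hx =>
        Finset.disjoint_left.1 hdis (hDi x hx)
      by_cases h : a ⟨i, j⟩
      · refine ⟨(⟨i, j'⟩, false), by simp, sup_pigeon hiX j' k (by omega), ?_⟩
        simp only [Bool.false_eq_true, iff_false]
        intro h'
        rw [ha] at h h'
        simp only at h h'
        rw [h] at h'
        exact hjj (Option.some.inj h')
      · exact ⟨(⟨i, j⟩, false), by simp, sup_pigeon hiX j k (by omega), by simp [h]⟩
    · -- injectivity
      obtain ⟨D, hD, hDi⟩ : ∃ D : Finset A, D.card < k ∧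
          (∀ x, i = Sum.inl x → x ∈ D) ∧ ∀ x, i' = Sum.inl x → x ∈ D := by
        rcases i with x | y <;> rcases i' with x' | y'
        · refine ⟨{x, x'}, ?_, by simp, by simp⟩
          have := Finset.card_le_two (a := x) (b := x')
          omega
        · exact ⟨{x}, by simp; omega, by simp, by simp⟩
        · exact ⟨{x'}, by simp; omega, by simp, by simp⟩
        · exact ⟨∅, by simp; omega, by simp, by simp⟩
      refine ⟨D, hD, ?_⟩
      rintro X a ⟨s, hs, hX, ha⟩ hdis
      have hiX : ∀ x, i = Sum.inl x → x ∉ X := fun x hx =>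
        Finset.disjoint_left.1 hdis (hDi.1 x hx)
      have hiX' : ∀ x, i' = Sum.inl x → x ∉ X := fun x hx =>
        Finset.disjoint_left.1 hdis (hDi.2 x hx)
      by_cases h : a ⟨i, j⟩
      · refine ⟨(⟨i', j⟩, false), by simp, sup_pigeon hiX' j k (by omega), ?_⟩
        simp only [Bool.false_eq_true, iff_false]
        intro h'
        rw [ha] at h h'
        exact hii (hs.uniq _ _ _ h h')
      · exact ⟨(⟨i, j⟩, false), by simp, sup_pigeon hiX j k (by omega), by simp [h]⟩
  shift := by
    intro X a h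
    have hXc := card_St h
    obtain ⟨s, hs, hX, ha⟩ := h
    obtain ⟨g, h1, h2, h3, h4⟩ := SymCount.exists_shift X hpe
      (show X.card = t * p ^ e by omega) hkp
    refine ⟨g, e, h1, h2, ?_, h3, h4⟩
    rintro ⟨y | y, j⟩
    · rw [smul_inl]
      by_cases hy : y ∈ X
      · have hgy : g y ∈ X := by
          by_contra hgy
          have := h2 _ hgy
          rw [g.injective this] at hgy
          exact hgy hy
        rw [ha, ha]
        simp only [(hX _).1 hy, (hX _).1 hgy]
      · rw [h2 y hy]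
    · rw [smul_inr]
  ne := by
    obtain ⟨s, hs⟩ := SymLK.exists_state (A := A) (B := B) (H := H) hBH (by omega)
    exact ⟨Finset.univ.filter (fun x => s (Sum.inl x) = none), fun v => s v.pigeon = some v.hole,
      s, hs, by simp, by simp⟩

theorem php_lower_bound {p e t b k : ℕ} [Fact p.Prime] (hb : 2 ≤ b) (hk : 3 ≤ k)
    (hcard : Fintype.card A + Fintype.card B = Fintype.card H + t * p ^ e)
    (hkp : 2 * k ≤ p ^ e) (hroom : Fintype.card B + (b + 3) * k ≤ Fintype.card H)
    {𝒢 : Type} [Fintype 𝒢] [DecidableEq 𝒢] [MulAction (Perm A) 𝒢]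
    [DecidableEq (PVar A B H)] [Fintype (PVar A B H)]
    (C : Circuit p (PVar A B H) 𝒢) (hC : C.Symmetric A)
    (hD : Der C (phpClauses A B H) b ∅) :
    (Fintype.card A).choose k ≤ 4 * (Fintype.card 𝒢) ^ 3 := by
  have hN := near_php (A := A) (B := B) (H := H) (x := t * p ^ e) (k := k) (p := p) (t := t)
    (e := e) hk (by omega) hkp rfl (by omega) (by omega)
  exact lower_bound hC hN (by omega) (by omega) hb hD

end Pool.Agent.H694R2.SymPhp
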