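import Mathlib

set_option autoImplicit false

/-! Ideals given by inverse systems of quadratic forms, and trinomials in them. -/

namespace Pool.Agent.H694R2.Tri

open MvPolynomial

variable {ι : Type}

/-- functional attached to a function of exponents -/
noncomputable def Lf (P : (ι →₀ ℕ) → ℚ) : MvPolynomial ι ℚ →ₗ[ℚ] ℚ :=
  (MvPolynomial.basisMonomials ι ℚ).constr ℚ P

theorem Lf_monomial (P : (ι →₀ ℕ) → ℚ) (e : ι →₀ ℕ) (c : ℚ) : Lf P (monomial e c) = c * P e := by
  have : monomial e c = c • (MvPolynomial.basisMonomials ι ℚ) e := by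
    simp [MvPolynomial.coe_basisMonomials, smul_monomial]
  rw [this, map_smul, Lf, Module.Basis.constr_basis, smul_eq_mul]

theorem Lf_eq_sum (P : (ι →₀ ℕ) → ℚ) (f : MvPolynomial ι ℚ) :
    Lf P f = ∑ e ∈ f.support, coeff e f * P e := by
  conv_lhs => rw [f.as_sum]
  rw [map_sum]
  simp [Lf_monomial]

theorem Lf_mul_monomial (P : (ι →₀ ℕ) → ℚ) (a : ι →₀ ℕ) (c : ℚ) (f : MvPolynomial ι ℚ) :
    Lf P (monomial a c * f) = c * Lf (fun e => P (a + e)) f := by
  conv_lhs => rw [f.as_sum]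
  rw [Finset.mul_sum, map_sum, Lf_eq_sum, Finset.mul_sum]
  apply Finset.sum_congr rfl
  intro e _
  rw [monomial_mul, Lf_monomial]
  ring

theorem Lf_mul (P : (ι →₀ ℕ) → ℚ) (h f : MvPolynomial ι ℚ) :
    Lf P (h * f) = ∑ a ∈ h.support, coeff a h * Lf (fun e => P (a + e)) f := by
  conv_lhs => rw [h.as_sum]
  rw [Finset.sum_mul, map_sum]
  apply Finset.sum_congr rfl
  intro a _
  rw [Lf_mul_monomial]

theorem Lf_add (P P' : (ι →₀ ℕ) → ℚ) (f : MvPolynomial ι ℚ) :
    Lf (fun e => P e + P' e) f = Lf P f + Lf P' f := by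
  simp only [Lf_eq_sum, mul_add, Finset.sum_add_distrib]

theorem Lf_smul (c : ℚ) (P : (ι →₀ ℕ) → ℚ) (f : MvPolynomial ι ℚ) :
    Lf (fun e => c * P e) f = c * Lf P f := by
  simp only [Lf_eq_sum, Finset.mul_sum]
  apply Finset.sum_congr rfl
  intro e _
  ring

theorem Lf_sum {κ : Type} (s : Finset κ) (P : κ → (ι →₀ ℕ) → ℚ) (f : MvPolynomial ι ℚ) :
    Lf (fun e => ∑ k ∈ s, P k e) f = ∑ k ∈ s, Lf (P k) f := by
  simp only [Lf_eq_sum, Finset.mul_sum]
  rw [Finset.sum_comm]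

variable [Fintype ι]

/-- value of a quadratic form -/
def qf (Q : ι → ι → ℚ) (x : ι → ℚ) : ℚ := ∑ i, ∑ j, Q i j * (x i * x j)

/-- the ideal of the polynomials `f` with `f(1) = 0`, all first derivatives zero at `1`, and
annihilated by all the quadratic operators `Q(θ)` at `1` -/
noncomputable def I1 (QL : Set (ι → ι → ℚ)) : Ideal (MvPolynomial ι ℚ) where
  carrier := {f | Lf (fun _ => 1) f = 0 ∧ (∀ i, Lf (fun e => (e i : ℚ)) f = 0) ∧
    ∀ Q ∈ QL, Lf (fun e => qf Q (fun i => (e i : ℚ))) f = 0}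
  zero_mem' := by simp
  add_mem' := by
    rintro f g ⟨h1, h2, h3⟩ ⟨k1, k2, k3⟩
    refine ⟨by rw [map_add, h1, k1, add_zero], fun i => by rw [map_add, h2, k2, add_zero],
      fun Q hQ => by rw [map_add, h3 Q hQ, k3 Q hQ, add_zero]⟩
  smul_mem' := by
    rintro h f ⟨h1, h2, h3⟩
    rw [smul_eq_mul]
    refine ⟨?_, fun i => ?_, fun Q hQ => ?_⟩
    · rw [Lf_mul]
      apply Finset.sum_eq_zero
      intro a _
      rw [h1, mul_zero]
    · rw [Lf_mul]
      apply Finset.sum_eq_zero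
      intro a _
      have : Lf (fun e => (((a + e) i : ℕ) : ℚ)) f = 0 := by
        have e1 : (fun e : ι →₀ ℕ => (((a + e) i : ℕ) : ℚ)) =
            fun e => ((a i : ℚ) * 1 + (e i : ℚ)) := by
          funext e
          simp
        rw [e1, Lf_add (fun _ => (a i : ℚ) * 1) (fun e => (e i : ℚ)), Lf_smul (a i : ℚ) (fun _ => 1),
          h1, h2, mul_zero, add_zero]
      rw [this, mul_zero]
    · rw [Lf_mul]
      apply Finset.sum_eq_zero
      intro a _
      have : Lf (fun e => qf Q (fun i => (((a + e) i : ℕ) : ℚ))) f = 0 := by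
        have e1 : (fun e : ι →₀ ℕ => qf Q (fun i => (((a + e) i : ℕ) : ℚ))) =
            fun e => ((qf Q (fun i => (a i : ℚ)) * 1 +
              ∑ i, ∑ j, (Q i j * a i) * (e j : ℚ)) + ∑ i, ∑ j, (Q i j * a j) * (e i : ℚ)) +
              qf Q (fun i => (e i : ℚ)) := by
          funext e
          simp only [qf, Finsupp.add_apply, Nat.cast_add, mul_one, ← Finset.sum_add_distrib]
          apply Finset.sum_congr rfl
          intro i _
          apply Finset.sum_congr rfl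
          intro j _
          ring
        rw [e1]
        rw [Lf_add (fun e => ((qf Q (fun i => (a i : ℚ)) * 1 +
              ∑ i, ∑ j, (Q i j * a i) * (e j : ℚ)) + ∑ i, ∑ j, (Q i j * a j) * (e i : ℚ)))
              (fun e => qf Q (fun i => (e i : ℚ)))]
        rw [h3 Q hQ, add_zero]
        rw [Lf_add (fun e => (qf Q (fun i => (a i : ℚ)) * 1 +
              ∑ i, ∑ j, (Q i j * a i) * (e j : ℚ))) (fun e => ∑ i, ∑ j, (Q i j * a j) * (e i : ℚ))]
        rw [Lf_add (fun e => qf Q (fun i => (a i : ℚ)) * 1)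
              (fun e => ∑ i, ∑ j, (Q i j * a i) * (e j : ℚ))]
        rw [Lf_smul (qf Q (fun i => (a i : ℚ))) (fun _ => 1), h1, mul_zero, zero_add]
        have e2 : Lf (fun e => ∑ i, ∑ j, (Q i j * a i) * (e j : ℚ)) f = 0 := by
          rw [Lf_sum Finset.univ (fun i e => ∑ j, (Q i j * a i) * (e j : ℚ))]
          apply Finset.sum_eq_zero
          intro i _
          rw [Lf_sum Finset.univ (fun j e => (Q i j * a i) * (e j : ℚ))]
          apply Finset.sum_eq_zero
          intro j _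
          rw [Lf_smul (Q i j * a i) (fun e => (e j : ℚ)), h2, mul_zero]
        have e3 : Lf (fun e => ∑ i, ∑ j, (Q i j * a j) * (e i : ℚ)) f = 0 := by
          rw [Lf_sum Finset.univ (fun i e => ∑ j, (Q i j * a j) * (e i : ℚ))]
          apply Finset.sum_eq_zero
          intro i _
          rw [Lf_sum Finset.univ (fun j e => (Q i j * a j) * (e i : ℚ))]
          apply Finset.sum_eq_zero
          intro j _
          rw [Lf_smul (Q i j * a j) (fun e => (e i : ℚ)), h2, mul_zero]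
        rw [e2, e3, add_zero]
      rw [this, mul_zero]

theorem mem_I1 (QL : Set (ι → ι → ℚ)) (f : MvPolynomial ι ℚ) : f ∈ I1 QL ↔
    Lf (fun _ => 1) f = 0 ∧ (∀ i, Lf (fun e => (e i : ℚ)) f = 0) ∧
    ∀ Q ∈ QL, Lf (fun e => qf Q (fun i => (e i : ℚ))) f = 0 := Iff.rfl

/-- evaluation as a functional -/
theorem eval_eq_sum' (q : ι → ℚ) (f : MvPolynomial ι ℚ) :
    eval q f = ∑ e ∈ f.support, coeff e f * ∏ i, q i ^ e i := by
  rw [MvPolynomial.eval_eq']

/-! ### arithmetic of the trinomial -/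

theorem tri_arith (A B : ℕ) (hA : 0 < A) (hAB : A < B)
    (h : (A : ℚ) * (-2) ^ B - (B : ℚ) * (-2) ^ A + ((B : ℚ) - A) = 0) : A = 1 ∧ B = 3 := by
  obtain ⟨δ, rfl⟩ : ∃ δ, B = A + δ := ⟨B - A, by omega⟩
  have hδ : 0 < δ := by omega
  have hpow : ∀ m : ℕ, m + 1 ≤ 2 ^ m := by
    intro m
    exact Nat.lt_two_pow_self
  have h2δ : ((δ : ℚ) + 1) ≤ 2 ^ δ := by exact_mod_cast hpow δ
  have h2A : ((A : ℚ) + 1) ≤ 2 ^ A := by exact_mod_cast hpow A
  have hA1 : (1 : ℚ) ≤ A := by exact_mod_cast hA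
  have hδ1 : (1 : ℚ) ≤ δ := by exact_mod_cast hδ
  have key1 : (A : ℚ) * 2 ^ δ ≥ A + δ := by nlinarith
  have hp : (0 : ℚ) < 2 ^ A := by positivity
  rcases Nat.even_or_odd A with hAe | hAo <;> rcases Nat.even_or_odd (A + δ) with hBe | hBo
  · -- both even
    exfalso
    rw [hAe.neg_pow, hBe.neg_pow, pow_add] at h
    push_cast at h
    nlinarith
  · -- A even, B odd
    exfalso
    rw [hAe.neg_pow, hBo.neg_pow, pow_add] at h
    push_cast at h
    nlinarith
  · -- A odd, B even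
    exfalso
    rw [hAo.neg_pow, hBe.neg_pow, pow_add] at h
    push_cast at h
    nlinarith [mul_pos (by linarith : (0 : ℚ) < A) hp]
  · rw [hAo.neg_pow, hBo.neg_pow, pow_add] at h
    push_cast at h
    -- `A * 2^A * (2^δ - 1) = δ * (2^A + 1)`
    have h' : (A : ℚ) * 2 ^ A * (2 ^ δ - 1) = δ * (2 ^ A + 1) := by linarith
    have h2 : (2 : ℚ) ≤ 2 ^ A := by linarith
    have h3 : 2 * (A : ℚ) * (2 ^ δ - 1) ≤ 3 * δ := by
      have : (A : ℚ) * 2 ^ A * (2 ^ δ - 1) * 2 ≤ δ * (3 * 2 ^ A) := by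
        rw [h']; nlinarith
      have h4 : 2 ^ A * (2 * (A : ℚ) * (2 ^ δ - 1)) ≤ 2 ^ A * (3 * δ) := by linarith
      exact le_of_mul_le_mul_left h4 hp
    have hδ2 : Even δ := by
      have := Nat.even_add.1 (show Even (A + δ + A) from hBo.add_odd hAo)
      rcases hBo with ⟨k, hk⟩
      rcases hAo with ⟨l, hl⟩
      exact ⟨k - l, by omega⟩
    have hδ3 : δ = 2 := by
      by_contra hne
      have h4 : 4 ≤ δ := by
        rcases hδ2 with ⟨k, hk⟩
        omega
      have h5 : 2 * δ + 2 ≤ 2 ^ δ := by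
        obtain ⟨m, rfl⟩ : ∃ m, δ = m + 1 := ⟨δ - 1, by omega⟩
        have := hpow m
        have h6 : 2 ^ (m + 1) = 2 * 2 ^ m := by ring
        have h7 : m + 2 ≤ 2 ^ m := by
          obtain ⟨l, rfl⟩ : ∃ l, m = l + 1 := ⟨m - 1, by omega⟩
          have := hpow l
          have h8 : 2 ^ (l + 1) = 2 * 2 ^ l := by ring
          omega
        omega
      have h6 : (2 * (δ : ℚ) + 2) ≤ 2 ^ δ := by exact_mod_cast h5
      nlinarith
    subst hδ3
    have h7 : (A : ℚ) ≤ 1 := by push_cast at h3; linarith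
    have h8 : A ≤ 1 := by exact_mod_cast h7
    omega

end Pool.Agent.H694R2.Tri
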