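import Mathlib
import Pool.Agent.H694R2.TriIdeal

set_option autoImplicit false

namespace Pool.Agent.H694R2.Tri

open MvPolynomial

variable {ι : Type} [Fintype ι]

/-- collinear triples: the quadratic form vanishes on the difference -/
theorem triple_Q (Q : ι → ι → ℚ) (c1 c2 c3 : ℚ) (x y z : ι → ℚ)
    (h1 : c1 ≠ 0) (h2 : c2 ≠ 0) (h3 : c3 ≠ 0) (hs : c1 + c2 + c3 = 0)
    (hl : ∀ i, c1 * x i + c2 * y i + c3 * z i = 0)
    (hq : c1 * qf Q x + c2 * qf Q y + c3 * qf Q z = 0) : qf Q (fun i => x i - z i) = 0 := by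
  have key : c2 * (c1 * qf Q x + c2 * qf Q y + c3 * qf Q z) =
      -(c1 * c3) * qf Q (fun i => x i - z i) := by
    simp only [qf, Finset.mul_sum, ← Finset.sum_add_distrib]
    apply Finset.sum_congr rfl
    intro i _
    apply Finset.sum_congr rfl
    intro j _
    have hi := hl i
    have hj := hl j
    have hc3 : c3 = -(c1 + c2) := by linarith
    subst hc3
    -- `c2 (y - z) = - c1 (x - z)`
    have hi' : c2 * (y i - z i) = -(c1 * (x i - z i)) := by linarith
    have hj' : c2 * (y j - z j) = -(c1 * (x j - z j)) := by linarith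
    have e1 : c2 * y i = c2 * z i - c1 * (x i - z i) := by linarith
    have e2 : c2 * y j = c2 * z j - c1 * (x j - z j) := by linarith
    have e3 : c2 * (c2 * (y i * y j)) = (c2 * y i) * (c2 * y j) := by ring
    have : c2 * (c2 * (Q i j * (y i * y j))) = Q i j * ((c2 * y i) * (c2 * y j)) := by ring
    calc c2 * (c1 * (Q i j * (x i * x j)) + c2 * (Q i j * (y i * y j)) +
          -(c1 + c2) * (Q i j * (z i * z j)))
        = c1 * c2 * (Q i j * (x i * x j)) + c2 * (c2 * (Q i j * (y i * y j))) -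
          c2 * (c1 + c2) * (Q i j * (z i * z j)) := by ring
      _ = c1 * c2 * (Q i j * (x i * x j)) + Q i j * ((c2 * y i) * (c2 * y j)) -
          c2 * (c1 + c2) * (Q i j * (z i * z j)) := by rw [this]
      _ = -(c1 * -(c1 + c2)) * (Q i j * ((x i - z i) * (x j - z j))) := by
          rw [e1, e2]; ring
  rw [hq, mul_zero] at key
  have h4 : -(c1 * c3) ≠ 0 := neg_ne_zero.2 (mul_ne_zero h1 h3)
  exact (mul_eq_zero.1 key.symm).resolve_left h4

/-- the weight of an exponent at the point `q` -/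
noncomputable def wt (q : ι → ℚ) (e : ι → ℕ) : ℚ := ∏ i, q i ^ e i

/-- the point `(-2, 1, …, 1)` -/
noncomputable def ptP [DecidableEq ι] (o : ι) : ι → ℚ := fun i => if i = o then -2 else 1

/-- the point with coordinate `2^(4n-1)` at `o` and `2` at `s` -/
noncomputable def ptQ [DecidableEq ι] (o s : ι) (n : ℕ) : ι → ℚ :=
  fun i => if i = o then 2 ^ (4 * n) / 2 else if i = s then 2 else 1

theorem wt_ptP [DecidableEq ι] (o : ι) (e : ι → ℕ) : wt (ptP o) e = (-2) ^ e o := by
  unfold wt ptP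
  rw [Finset.prod_eq_single o]
  · simp
  · intro b _ hb; simp [hb]
  · intro h; exact absurd (Finset.mem_univ _) h

theorem wt_ptQ [DecidableEq ι] (o s : ι) (hos : s ≠ o) (n : ℕ) (e : ι → ℕ) :
    wt (ptQ o s n) e * 2 ^ e o = 2 ^ (4 * n * e o + e s) := by
  unfold wt ptQ
  have h1 : ∏ i, (if i = o then (2 : ℚ) ^ (4 * n) / 2 else if i = s then 2 else 1) ^ e i =
      ∏ i ∈ ({o, s} : Finset ι),
        (if i = o then (2 : ℚ) ^ (4 * n) / 2 else if i = s then 2 else 1) ^ e i := by
    symm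
    apply Finset.prod_subset (Finset.subset_univ _)
    intro x _ hx
    simp only [Finset.mem_insert, Finset.mem_singleton, not_or] at hx
    simp [hx.1, hx.2]
  rw [h1, Finset.prod_pair (Ne.symm hos)]
  simp only [if_true, hos, if_false]
  rw [div_pow, ← pow_mul, pow_add]
  have : (2 : ℚ) ^ e o ≠ 0 := by positivity
  field_simp

theorem wt_ptQ_pos [DecidableEq ι] (o s : ι) (n : ℕ) (e : ι → ℕ) : 0 < wt (ptQ o s n) e := by
  unfold wt ptQ
  apply Finset.prod_pos
  intro i _
  apply pow_pos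
  split_ifs <;> positivity

theorem cube_eq (a b c : ℚ) (ha : 0 < a) (hb : 0 < b) (h1 : 2 * a - 3 * b + c = 0)
    (h2 : c * a ^ 2 = b ^ 3) : a = b := by
  have hc : c = 3 * b - 2 * a := by linarith
  subst hc
  have h3 : (a - b) ^ 2 * (2 * a + b) = 0 := by nlinarith
  rcases mul_eq_zero.1 h3 with h | h
  · have := pow_eq_zero_iff (two_ne_zero) |>.1 h
    linarith
  · linarith

variable [DecidableEq ι]

/-- the sorted case of the soundness lemma -/
theorem sorted_sound (QL : Set (ι → ι → ℚ)) (o s : ι) (hos : s ≠ o) (n : ℕ)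
    (c1 c2 c3 : ℚ) (x y z : ι → ℕ)
    (h1 : c1 ≠ 0) (h2 : c2 ≠ 0) (h3 : c3 ≠ 0) (hs : c1 + c2 + c3 = 0)
    (hl : ∀ i, c1 * x i + c2 * y i + c3 * z i = 0)
    (hq : ∀ Q ∈ QL, c1 * qf Q (fun i => (x i : ℚ)) + c2 * qf Q (fun i => (y i : ℚ)) +
      c3 * qf Q (fun i => (z i : ℚ)) = 0)
    (hp : c1 * wt (ptP o) x + c2 * wt (ptP o) y + c3 * wt (ptP o) z = 0)
    (hqq : c1 * wt (ptQ o s n) x + c2 * wt (ptQ o s n) y + c3 * wt (ptQ o s n) z = 0)
    (hxy : x o < y o) (hyz : y o < z o) :
    ∃ v : ι → ℤ, v o = 1 ∧ v s = 1 - 4 * n ∧ ∀ Q ∈ QL, qf Q (fun i => (v i : ℚ)) = 0 := by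
  rw [wt_ptP, wt_ptP, wt_ptP] at hp
  obtain ⟨A, hA⟩ : ∃ A, y o = x o + A := ⟨y o - x o, by omega⟩
  obtain ⟨B, hB⟩ : ∃ B, z o = x o + B := ⟨z o - x o, by omega⟩
  have hA0 : 0 < A := by omega
  have hAB : A < B := by omega
  have hlo := hl o
  rw [hA, hB] at hlo hp
  push_cast at hlo
  have hlo' : c2 * A + c3 * B = 0 := by
    have : (c1 + c2 + c3) * (x o : ℚ) + (c2 * A + c3 * B) = 0 := by linarith
    rw [hs] at this
    linarith
  rw [pow_add, pow_add] at hp
  have hp' : c1 + c2 * (-2) ^ A + c3 * (-2) ^ B = 0 := by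
    have h4 : ((-2 : ℚ)) ^ x o ≠ 0 := by positivity
    have : (-2 : ℚ) ^ x o * (c1 + c2 * (-2) ^ A + c3 * (-2) ^ B) = 0 := by linarith
    exact (mul_eq_zero.1 this).resolve_left h4
  have hA' : (A : ℚ) ≠ 0 := by exact_mod_cast hA0.ne'
  have hB' : (B : ℚ) ≠ 0 := by exact_mod_cast (by omega : B ≠ 0)
  -- c3 = κ A, c2 = - κ B, c1 = κ (B - A)
  set κ : ℚ := c3 / A with hκ
  have hc3 : c3 = κ * A := by rw [hκ]; field_simp
  have hc2 : c2 = -(κ * B) := by
    have : c2 * A = -(κ * B) * A := by rw [hc3] at hlo'; linarith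
    exact mul_right_cancel₀ hA' this
  have hc1 : c1 = κ * (B - A) := by linarith
  have hκ0 : κ ≠ 0 := by
    intro h
    rw [h, zero_mul] at hc3
    exact h3 hc3
  have hari : (A : ℚ) * (-2) ^ B - (B : ℚ) * (-2) ^ A + ((B : ℚ) - A) = 0 := by
    have : κ * ((A : ℚ) * (-2) ^ B - (B : ℚ) * (-2) ^ A + ((B : ℚ) - A)) = 0 := by
      rw [hc1, hc2, hc3] at hp'
      linarith
    exact (mul_eq_zero.1 this).resolve_left hκ0
  obtain ⟨rfl, rfl⟩ := tri_arith A B hA0 hAB hari
  push_cast at hc1 hc2 hc3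
  -- now c1 = 2κ, c2 = -3κ, c3 = κ
  have hz : ∀ i, (z i : ℚ) = 3 * y i - 2 * x i := by
    intro i
    have := hl i
    have h5 : κ * (2 * (x i : ℚ) - 3 * y i + z i) = 0 := by
      rw [hc1, hc2, hc3] at this
      linarith
    have := (mul_eq_zero.1 h5).resolve_left hκ0
    linarith
  refine ⟨fun i => (y i : ℤ) - x i, ?_, ?_, ?_⟩
  · simp only [hA]; push_cast; ring
  · -- the point ptQ
    have ha := wt_ptQ_pos o s n x
    have hb := wt_ptQ_pos o s n y
    have hc := wt_ptQ_pos o s n z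
    have e1 : 2 * wt (ptQ o s n) x - 3 * wt (ptQ o s n) y + wt (ptQ o s n) z = 0 := by
      have : κ * (2 * wt (ptQ o s n) x - 3 * wt (ptQ o s n) y + wt (ptQ o s n) z) = 0 := by
        rw [hc1, hc2, hc3] at hqq
        linarith
      exact (mul_eq_zero.1 this).resolve_left hκ0
    have e2 : wt (ptQ o s n) z * wt (ptQ o s n) x ^ 2 = wt (ptQ o s n) y ^ 3 := by
      unfold wt
      rw [← Finset.prod_pow, ← Finset.prod_mul_distrib, ← Finset.prod_pow]
      apply Finset.prod_congr rfl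
      intro i _
      rw [← pow_mul, ← pow_mul, ← pow_add]
      congr 1
      have := hz i
      have h6 : (z i : ℚ) + x i * 2 = y i * 3 := by linarith
      exact_mod_cast h6
    have e3 := cube_eq _ _ _ ha hb e1 e2
    have f1 := wt_ptQ o s hos n x
    have f2 := wt_ptQ o s hos n y
    rw [← e3] at f2
    have f3 : (2 : ℚ) ^ (4 * n * x o + x s) * 2 ^ y o = 2 ^ (4 * n * y o + y s) * 2 ^ x o := by
      rw [← f1, ← f2]; ring
    rw [← pow_add, ← pow_add] at f3
    have f4 : 4 * n * x o + x s + y o = 4 * n * y o + y s + x o := by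
      have f3' : (2 : ℕ) ^ (4 * n * x o + x s + y o) = 2 ^ (4 * n * y o + y s + x o) := by
        exact_mod_cast f3
      exact Nat.pow_right_injective (le_refl 2) f3'
    rw [hA] at f4
    have f5 : 4 * (n : ℤ) * x o + x s + (x o + 1) = 4 * n * (x o + 1) + y s + x o := by
      exact_mod_cast f4
    simp only
    linarith
  · intro Q hQ
    have := triple_Q Q c2 c3 c1 (fun i => (y i : ℚ)) (fun i => (z i : ℚ)) (fun i => (x i : ℚ))
      h2 h3 h1 (by linarith) (fun i => by have := hl i; linarith) (by have := hq Q hQ; linarith)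
    push_cast
    exact this

/-- soundness: short polynomials in the ideal give solutions -/
theorem sound (QL : Set (ι → ι → ℚ)) (o s : ι) (hos : s ≠ o) (n : ℕ)
    (hinf : ∀ a : ι → ℤ, a o = 0 → (∀ Q ∈ QL, qf Q (fun i => (a i : ℚ)) = 0) → a = 0)
    (f : MvPolynomial ι ℚ) (hf0 : f ≠ 0) (hcard : f.support.card ≤ 3) (hf1 : f ∈ I1 QL)
    (hfp : eval (ptP o) f = 0) (hfq : eval (ptQ o s n) f = 0) :
    ∃ v : ι → ℤ, v o = 1 ∧ v s = 1 - 4 * n ∧ ∀ Q ∈ QL, qf Q (fun i => (v i : ℚ)) = 0 := by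
  classical
  obtain ⟨g1, g2, g3⟩ := (mem_I1 QL f).1 hf1
  rw [Lf_eq_sum] at g1
  simp only [Lf_eq_sum] at g2 g3
  rw [eval_eq_sum'] at hfp hfq
  have hne : f.support.Nonempty := by
    rw [Finset.nonempty_iff_ne_empty, Ne, support_eq_empty]
    exact hf0
  have hpos := hne.card_pos
  have hcases : f.support.card = 1 ∨ f.support.card = 2 ∨ f.support.card = 3 := by omega
  rcases hcases with h | h | h
  · obtain ⟨e, he⟩ := Finset.card_eq_one.1 h
    rw [he, Finset.sum_singleton, mul_one] at g1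
    have : e ∈ f.support := by rw [he]; exact Finset.mem_singleton_self _
    exact absurd g1 (mem_support_iff.1 this)
  · obtain ⟨e1, e2, hne12, he⟩ := Finset.card_eq_two.1 h
    have m1 : coeff e1 f ≠ 0 := mem_support_iff.1 (by rw [he]; simp)
    rw [he, Finset.sum_pair hne12, mul_one, mul_one] at g1
    exfalso
    apply hne12
    ext i
    have := g2 i
    rw [he, Finset.sum_pair hne12] at this
    have h5 : coeff e1 f * ((e1 i : ℚ) - e2 i) = 0 := by
      have h6 : coeff e2 f = - coeff e1 f := by linarith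
      rw [h6] at this
      linarith
    have h7 := (mul_eq_zero.1 h5).resolve_left m1
    have h8 : (e1 i : ℚ) = e2 i := by linarith
    exact_mod_cast h8
  · obtain ⟨e1, e2, e3, hne12, hne13, hne23, he⟩ := Finset.card_eq_three.1 h
    have m1 : coeff e1 f ≠ 0 := mem_support_iff.1 (by rw [he]; simp)
    have m2 : coeff e2 f ≠ 0 := mem_support_iff.1 (by rw [he]; simp)
    have m3 : coeff e3 f ≠ 0 := mem_support_iff.1 (by rw [he]; simp)
    have hsum : ∀ P : (ι →₀ ℕ) → ℚ, ∑ e ∈ f.support, coeff e f * P e =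
        coeff e1 f * P e1 + coeff e2 f * P e2 + coeff e3 f * P e3 := by
      intro P
      rw [he, Finset.sum_insert (by simp [hne12, hne13]), Finset.sum_pair hne23]
      ring
    rw [hsum] at g1
    simp only [hsum] at g2 g3
    have hfp' : coeff e1 f * wt (ptP o) e1 + coeff e2 f * wt (ptP o) e2 +
        coeff e3 f * wt (ptP o) e3 = 0 := by
      rw [← hfp]
      exact (hsum (fun e => ∏ i, ptP o i ^ e i)).symm
    have hfq' : coeff e1 f * wt (ptQ o s n) e1 + coeff e2 f * wt (ptQ o s n) e2 +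
        coeff e3 f * wt (ptQ o s n) e3 = 0 := by
      rw [← hfq]
      exact (hsum (fun e => ∏ i, ptQ o s n i ^ e i)).symm
    simp only [mul_one] at g1
    -- distinct coordinates
    have hd : ∀ (c1 c2 c3 : ℚ) (x y z : ι →₀ ℕ), c1 ≠ 0 → c2 ≠ 0 → c3 ≠ 0 → c1 + c2 + c3 = 0 →
        (∀ i, c1 * (x i : ℚ) + c2 * y i + c3 * z i = 0) →
        (∀ Q ∈ QL, c1 * qf Q (fun i => (x i : ℚ)) + c2 * qf Q (fun i => (y i : ℚ)) +
          c3 * qf Q (fun i => (z i : ℚ)) = 0) → x ≠ z → x o ≠ z o := by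
      intro c1 c2 c3 x y z k1 k2 k3 ks kl kq hxz ho
      apply hxz
      have := hinf (fun i => (x i : ℤ) - z i) (by simp [ho]) (fun Q hQ => by
        have := triple_Q Q c1 c2 c3 _ _ _ k1 k2 k3 ks kl (kq Q hQ)
        push_cast
        exact this)
      ext i
      have h9 := congrFun this i
      simp only [Pi.zero_apply] at h9
      have : (x i : ℤ) = z i := by linarith
      exact_mod_cast this
    have d13 := hd _ _ _ e1 e2 e3 m1 m2 m3 g1 g2 g3 hne13
    have d12 := hd _ _ _ e1 e3 e2 m1 m3 m2 (by linarith) (fun i => by have := g2 i; linarith)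
      (fun Q hQ => by have := g3 Q hQ; linarith) hne12
    have d23 := hd _ _ _ e2 e1 e3 m2 m1 m3 (by linarith) (fun i => by have := g2 i; linarith)
      (fun Q hQ => by have := g3 Q hQ; linarith) hne23
    rcases lt_or_gt_of_ne d12 with l12 | l12 <;> rcases lt_or_gt_of_ne d23 with l23 | l23 <;>
      rcases lt_or_gt_of_ne d13 with l13 | l13
    · exact sorted_sound QL o s hos n _ _ _ e1 e2 e3 m1 m2 m3 g1 g2 g3 hfp' hfq' l12 l23
    · omega
    · exact sorted_sound QL o s hos n _ _ _ e1 e3 e2 m1 m3 m2 (by linarith)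
        (fun i => by have := g2 i; linarith) (fun Q hQ => by have := g3 Q hQ; linarith)
        (by linarith) (by linarith) l13 l23
    · exact sorted_sound QL o s hos n _ _ _ e3 e1 e2 m3 m1 m2 (by linarith)
        (fun i => by have := g2 i; linarith) (fun Q hQ => by have := g3 Q hQ; linarith)
        (by linarith) (by linarith) l13 l12
    · exact sorted_sound QL o s hos n _ _ _ e2 e1 e3 m2 m1 m3 (by linarith)
        (fun i => by have := g2 i; linarith) (fun Q hQ => by have := g3 Q hQ; linarith)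
        (by linarith) (by linarith) l12 l13
    · exact sorted_sound QL o s hos n _ _ _ e2 e3 e1 m2 m3 m1 (by linarith)
        (fun i => by have := g2 i; linarith) (fun Q hQ => by have := g3 Q hQ; linarith)
        (by linarith) (by linarith) l23 l13
    · omega
    · exact sorted_sound QL o s hos n _ _ _ e3 e2 e1 m3 m2 m1 (by linarith)
        (fun i => by have := g2 i; linarith) (fun Q hQ => by have := g3 Q hQ; linarith)
        (by linarith) (by linarith) l23 l12

end Pool.Agent.H694R2.Tri
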