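import Mathlib
import Pool.Agent.H694R2.TriSound

set_option autoImplicit false

namespace Pool.Agent.H694R2.Tri

open MvPolynomial

variable {ι : Type} [Fintype ι]

theorem qf_add_smul (Q : ι → ι → ℚ) (w v : ι → ℚ) (t : ℚ) :
    qf Q (fun i => w i + t * v i) = qf Q w + t * (∑ i, ∑ j, Q i j * (w i * v j + v i * w j)) +
      t ^ 2 * qf Q v := by
  simp only [qf, Finset.mul_sum, ← Finset.sum_add_distrib]
  apply Finset.sum_congr rfl
  intro i _
  apply Finset.sum_congr rfl
  intro j _
  ring

variable [DecidableEq ι]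

/-- completeness: solutions give short polynomials in the ideal -/
theorem complete (QL : Set (ι → ι → ℚ)) (o s : ι) (hos : s ≠ o) (n : ℕ) (v : ι → ℤ)
    (hvo : v o = 1) (hvs : v s = 1 - 4 * n) (hvQ : ∀ Q ∈ QL, qf Q (fun i => (v i : ℚ)) = 0) :
    ∃ f : MvPolynomial ι ℚ, f ≠ 0 ∧ f.support.card ≤ 3 ∧ f ∈ I1 QL ∧ eval (ptP o) f = 0 ∧
      eval (ptQ o s n) f = 0 := by
  classical
  -- exponents
  let w : ι → ℕ := fun i => 3 * (v i).natAbs
  let ex : ℕ → (ι →₀ ℕ) := fun t => Finsupp.equivFunOnFinite.symm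
    (fun i => ((w i : ℤ) + t * v i).toNat)
  have hex : ∀ t : ℕ, t ≤ 3 → ∀ i, ((ex t i : ℕ) : ℤ) = (w i : ℤ) + t * v i := by
    intro t ht i
    simp only [ex, Finsupp.equivFunOnFinite_symm_apply_apply]
    apply Int.toNat_of_nonneg
    simp only [w]
    push_cast
    have h1 : |v i| ≥ -v i := neg_le_abs _
    have h2 : (0 : ℤ) ≤ |v i| := abs_nonneg _
    have h3 : (t : ℤ) ≤ 3 := by exact_mod_cast ht
    have h4 : (0 : ℤ) ≤ t := by positivity
    nlinarith [mul_nonneg h4 (by linarith : 0 ≤ |v i| + v i), mul_nonneg (by linarith : 0 ≤ 3 - (t:ℤ)) h2]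
  have hexQ : ∀ t : ℕ, t ≤ 3 → ∀ i, ((ex t i : ℕ) : ℚ) = (w i : ℚ) + t * v i := by
    intro t ht i
    have := hex t ht i
    exact_mod_cast this
  have e01 : ex 0 ≠ ex 1 := by
    intro h
    have h1 := hex 0 (by norm_num) o
    have h2 := hex 1 (by norm_num) o
    rw [← h, h1, hvo] at h2
    push_cast at h2
    linarith
  have e03 : ex 0 ≠ ex 3 := by
    intro h
    have h1 := hex 0 (by norm_num) o
    have h2 := hex 3 (by norm_num) o
    rw [← h, h1, hvo] at h2
    push_cast at h2
    linarith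
  let f : MvPolynomial ι ℚ := monomial (ex 0) 2 + monomial (ex 1) (-3) + monomial (ex 3) 1
  have hLf : ∀ P : (ι →₀ ℕ) → ℚ, Lf P f = 2 * P (ex 0) - 3 * P (ex 1) + P (ex 3) := by
    intro P
    simp only [f, map_add, Lf_monomial]
    ring
  have hev : ∀ q : ι → ℚ, eval q f = 2 * wt q (ex 0) - 3 * wt q (ex 1) + wt q (ex 3) := by
    intro q
    simp only [f, map_add, eval_monomial, wt]
    rw [Finsupp.prod_fintype _ _ (by intro i; simp), Finsupp.prod_fintype _ _ (by intro i; simp),
      Finsupp.prod_fintype _ _ (by intro i; simp)]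
    ring
  refine ⟨f, ?_, ?_, ?_, ?_, ?_⟩
  · intro h
    have : coeff (ex 0) f = 2 := by
      simp only [f, coeff_add, coeff_monomial]
      rw [if_neg e01.symm, if_neg e03.symm]
      norm_num
    rw [h, coeff_zero] at this
    norm_num at this
  · have hsub : f.support ⊆ {ex 0, ex 1, ex 3} := by
      intro e he
      rw [mem_support_iff] at he
      by_contra hcon
      simp only [Finset.mem_insert, Finset.mem_singleton, not_or] at hcon
      apply he
      simp only [f, coeff_add, coeff_monomial]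
      rw [if_neg (Ne.symm hcon.1), if_neg (Ne.symm hcon.2.1), if_neg (Ne.symm hcon.2.2)]
      norm_num
    exact (Finset.card_le_card hsub).trans Finset.card_le_three
  · rw [mem_I1]
    refine ⟨?_, fun i => ?_, fun Q hQ => ?_⟩
    · rw [hLf]; norm_num
    · rw [hLf, hexQ 0 (by norm_num), hexQ 1 (by norm_num), hexQ 3 (by norm_num)]
      push_cast
      ring
    · rw [hLf]
      have h0 : (fun i => ((ex 0 i : ℕ) : ℚ)) = fun i => (w i : ℚ) + 0 * (v i : ℚ) := by
        funext i; rw [hexQ 0 (by norm_num)]; push_cast; ring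
      have h1 : (fun i => ((ex 1 i : ℕ) : ℚ)) = fun i => (w i : ℚ) + 1 * (v i : ℚ) := by
        funext i; rw [hexQ 1 (by norm_num)]; push_cast; ring
      have h3 : (fun i => ((ex 3 i : ℕ) : ℚ)) = fun i => (w i : ℚ) + 3 * (v i : ℚ) := by
        funext i; rw [hexQ 3 (by norm_num)]; push_cast; ring
      rw [h0, h1, h3, qf_add_smul, qf_add_smul, qf_add_smul, hvQ Q hQ]
      ring
  · rw [hev, wt_ptP, wt_ptP, wt_ptP]
    have h0 := hex 0 (by norm_num) o
    have h1 := hex 1 (by norm_num) o
    have h3 := hex 3 (by norm_num) o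
    rw [hvo] at h0 h1 h3
    have h1' : ex 1 o = ex 0 o + 1 := by
      push_cast at h0 h1
      have : (ex 1 o : ℤ) = ex 0 o + 1 := by linarith
      exact_mod_cast this
    have h3' : ex 3 o = ex 0 o + 3 := by
      push_cast at h0 h3
      have : (ex 3 o : ℤ) = ex 0 o + 3 := by linarith
      exact_mod_cast this
    rw [h1', h3', pow_add, pow_add]
    norm_num
    ring
  · rw [hev]
    -- weights at the second point all agree
    have key : ∀ t : ℕ, t ≤ 3 → wt (ptQ o s n) (ex t) = wt (ptQ o s n) (ex 0) := by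
      intro t ht
      have f1 := wt_ptQ o s hos n (ex t)
      have f2 := wt_ptQ o s hos n (ex 0)
      have a1 := hex t ht o
      have a2 := hex t ht s
      have b1 := hex 0 (by norm_num) o
      have b2 := hex 0 (by norm_num) s
      rw [hvo] at a1 b1
      rw [hvs] at a2 b2
      have c1 : ex t o = ex 0 o + t := by
        have : (ex t o : ℤ) = ex 0 o + t := by push_cast at b1; linarith
        exact_mod_cast this
      have c2 : 4 * n * ex t o + ex t s = 4 * n * ex 0 o + ex 0 s + t := by
        have : (4 * n * ex t o + ex t s : ℤ) = 4 * n * ex 0 o + ex 0 s + t := by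
          rw [a1, a2, b1, b2]; push_cast; ring
        exact_mod_cast this
      rw [c1, ← c1, c2, c1] at f1
      rw [pow_add, pow_add _ _ t, ← f2] at f1
      have h2t : (2 : ℚ) ^ t ≠ 0 := by positivity
      have h2o : (2 : ℚ) ^ (ex 0 o) ≠ 0 := by positivity
      have : wt (ptQ o s n) (ex t) * ((2 : ℚ) ^ (ex 0 o) * 2 ^ t) =
          wt (ptQ o s n) (ex 0) * ((2 : ℚ) ^ (ex 0 o) * 2 ^ t) := by
        rw [f1]; ring
      exact mul_right_cancel₀ (mul_ne_zero h2o h2t) this
    rw [key 1 (by norm_num), key 3 (by norm_num)]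
    ring

omit [Fintype ι] [DecidableEq ι] in
/-- the ideal of a point with coordinates `b i / a i` -/
theorem mem_span_of_eval (a b : ι → ℚ) (ha : ∀ i, a i ≠ 0) (f : MvPolynomial ι ℚ)
    (hf : eval (fun i => b i / a i) f = 0) :
    f ∈ Ideal.span (Set.range fun i : ι => (C (a i) * X i - C (b i) : MvPolynomial ι ℚ)) := by
  set K := Ideal.span (Set.range fun i : ι => (C (a i) * X i - C (b i) : MvPolynomial ι ℚ))
  have key : ∀ g : MvPolynomial ι ℚ, g - C (eval (fun i => b i / a i) g) ∈ K := by
    intro g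
    induction g using MvPolynomial.induction_on with
    | C c => simp
    | add g h ihg ihh =>
      have : g + h - C (eval (fun i => b i / a i) (g + h)) =
          (g - C (eval (fun i => b i / a i) g)) + (h - C (eval (fun i => b i / a i) h)) := by
        rw [map_add, map_add]; ring
      rw [this]
      exact K.add_mem ihg ihh
    | mul_X g i ih =>
      have h1 : (C (a i) * X i - C (b i) : MvPolynomial ι ℚ) ∈ K :=
        Ideal.subset_span ⟨i, rfl⟩
      have h2 : (X i - C (b i / a i) : MvPolynomial ι ℚ) ∈ K := by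
        have : (X i - C (b i / a i) : MvPolynomial ι ℚ) =
            C (a i)⁻¹ * (C (a i) * X i - C (b i)) := by
          rw [mul_sub, ← mul_assoc, ← C_mul, ← C_mul, inv_mul_cancel₀ (ha i), C_1, one_mul,
            div_eq_inv_mul]
        rw [this]
        exact K.mul_mem_left _ h1
      have : g * X i - C (eval (fun i => b i / a i) (g * X i)) =
          (g - C (eval (fun i => b i / a i) g)) * X i +
            C (eval (fun i => b i / a i) g) * (X i - C (b i / a i)) := by
        rw [map_mul, eval_X, C_mul]; ring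
      rw [this]
      exact K.add_mem (K.mul_mem_right _ ih) (K.mul_mem_left _ h2)
  have := key f
  rwa [hf, C_0, sub_zero] at this

/-- the cube of `X s - 1` times anything is in `I1` -/
theorem cube_mem (QL : Set (ι → ι → ℚ)) (s : ι) (g : MvPolynomial ι ℚ) :
    g * (X s - 1) ^ 3 ∈ I1 QL := by
  apply Ideal.mul_mem_left
  have hX : ∀ k : ℕ, (X s : MvPolynomial ι ℚ) ^ k = monomial (Finsupp.single s k) 1 := by
    intro k
    rw [X_pow_eq_monomial]
  have e1 : ((X s : MvPolynomial ι ℚ) - 1) ^ 3 = monomial (Finsupp.single s 3) 1 +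
      monomial (Finsupp.single s 2) (-3) + monomial (Finsupp.single s 1) 3 +
      monomial 0 (-1) := by
    have h1 : (monomial (Finsupp.single s 2) (-3) : MvPolynomial ι ℚ) =
        C (-3) * monomial (Finsupp.single s 2) 1 := by rw [C_mul_monomial, mul_one]
    have h2 : (monomial (Finsupp.single s 1) 3 : MvPolynomial ι ℚ) =
        C 3 * monomial (Finsupp.single s 1) 1 := by rw [C_mul_monomial, mul_one]
    have h3 : (monomial 0 (-1) : MvPolynomial ι ℚ) = C (-1) := rfl
    rw [h1, h2, h3, ← hX, ← hX, ← hX]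
    have h5 : (C 3 : MvPolynomial ι ℚ) = 3 := map_ofNat C 3
    have h4 : (C (-3) : MvPolynomial ι ℚ) = -3 := by rw [map_neg, h5]
    have h6 : (C (-1) : MvPolynomial ι ℚ) = -1 := by rw [map_neg, map_one]
    rw [h4, h5, h6]
    ring
  rw [e1, mem_I1]
  have hL : ∀ P : (ι →₀ ℕ) → ℚ, Lf P (monomial (Finsupp.single s 3) 1 +
      monomial (Finsupp.single s 2) (-3) + monomial (Finsupp.single s 1) 3 +
      monomial 0 (-1) : MvPolynomial ι ℚ) = P (Finsupp.single s 3) - 3 * P (Finsupp.single s 2) +
        3 * P (Finsupp.single s 1) - P 0 := by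
    intro P
    simp only [map_add, Lf_monomial]
    ring
  refine ⟨?_, fun i => ?_, fun Q hQ => ?_⟩
  · rw [hL]; norm_num
  · rw [hL]
    simp only [Finsupp.single_apply, Finsupp.coe_zero, Pi.zero_apply]
    split_ifs <;> norm_num
  · rw [hL]
    have h : ∀ k : ℕ, qf Q (fun i => ((Finsupp.single s k i : ℕ) : ℚ)) = (k : ℚ) ^ 2 * Q s s := by
      intro k
      unfold qf
      rw [Finset.sum_eq_single s]
      · rw [Finset.sum_eq_single s]
        · simp only [Finsupp.single_eq_same]; ring
        · intro j _ hj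
          simp only [Finsupp.single_eq_of_ne hj]
          push_cast; ring
        · intro hh; exact absurd (Finset.mem_univ _) hh
      · intro i _ hi
        apply Finset.sum_eq_zero
        intro j _
        simp only [Finsupp.single_eq_of_ne hi]
        push_cast; ring
      · intro hh; exact absurd (Finset.mem_univ _) hh
    have h0 : qf Q (fun i => (((0 : ι →₀ ℕ) i : ℕ) : ℚ)) = 0 := by
      have := h 0
      rw [Finsupp.single_zero] at this
      rw [this]; norm_num
    rw [h, h, h, h0]
    push_cast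
    ring

/-- the two ideals are comaximal -/
theorem coprime (QL : Set (ι → ι → ℚ)) (o s : ι) (hos : s ≠ o) (n : ℕ) :
    (I1 QL ⊓ RingHom.ker (eval (ptP o) : MvPolynomial ι ℚ →+* ℚ)) ⊔
      RingHom.ker (eval (ptQ o s n) : MvPolynomial ι ℚ →+* ℚ) = ⊤ := by
  rw [Ideal.eq_top_iff_one]
  let g : MvPolynomial ι ℚ := (X o + C 2) * (X s - 1) ^ 3
  have hg : g ∈ I1 QL ⊓ RingHom.ker (eval (ptP o) : MvPolynomial ι ℚ →+* ℚ) := by
    refine ⟨cube_mem QL s _, ?_⟩
    change eval (ptP o) g = 0
    simp [g, ptP]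
  have hval : eval (ptQ o s n) g = 2 ^ (4 * n) / 2 + 2 := by
    simp only [g, map_mul, map_add, map_pow, map_sub, eval_X, eval_C, map_one, ptQ, if_true, hos,
      if_false]
    norm_num
  set c : ℚ := 2 ^ (4 * n) / 2 + 2 with hc
  have hc0 : c ≠ 0 := by
    have : (0 : ℚ) < 2 ^ (4 * n) := by positivity
    rw [hc]; positivity
  have h1 : C c⁻¹ * g ∈ I1 QL ⊓ RingHom.ker (eval (ptP o) : MvPolynomial ι ℚ →+* ℚ) :=
    Ideal.mul_mem_left _ _ hg
  have h2 : 1 - C c⁻¹ * g ∈ RingHom.ker (eval (ptQ o s n) : MvPolynomial ι ℚ →+* ℚ) := by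
    rw [RingHom.mem_ker, map_sub, map_mul, map_one, eval_C, hval, inv_mul_cancel₀ hc0, sub_self]
  have h3 := Ideal.add_mem _ (Ideal.mem_sup_left h1) (Ideal.mem_sup_right h2)
  have h4 : C c⁻¹ * g + (1 - C c⁻¹ * g) = 1 := by ring
  rwa [h4] at h3

end Pool.Agent.H694R2.Tri
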