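import Mathlib
import Pool.Agent.H694R2.TriComplete
import Pool.Agent.Helper844.Sys

set_option autoImplicit false

namespace Pool.Agent.H694R2.Tri

open Pool.Agent.Helper844.Sys

section Elem

variable {ι : Type} [Fintype ι] [DecidableEq ι]

/-- elementary bilinear form -/
def El (i j : ι) (c : ℚ) : ι → ι → ℚ := fun a b => if a = i ∧ b = j then c else 0

theorem qf_El (i j : ι) (c : ℚ) (x : ι → ℚ) : qf (El i j c) x = c * (x i * x j) := by
  unfold qf El
  rw [Finset.sum_eq_single i]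
  · rw [Finset.sum_eq_single j]
    · simp
    · intro b _ hb; simp [hb]
    · intro h; exact absurd (Finset.mem_univ _) h
  · intro a _ ha
    apply Finset.sum_eq_zero
    intro b _
    simp [ha]
  · intro h; exact absurd (Finset.mem_univ _) h

omit [DecidableEq ι] in
theorem qf_add (Q Q' : ι → ι → ℚ) (x : ι → ℚ) : qf (Q + Q') x = qf Q x + qf Q' x := by
  simp only [qf, Pi.add_apply, add_mul, Finset.sum_add_distrib]

/-- diagonal form -/
def Dg (d : ι → ℚ) : ι → ι → ℚ := fun a b => if a = b then d a else 0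

theorem qf_Dg (d : ι → ℚ) (x : ι → ℚ) : qf (Dg d) x = ∑ i, d i * (x i * x i) := by
  unfold qf Dg
  apply Finset.sum_congr rfl
  intro i _
  simp

end Elem

variable {V : Type} [Fintype V] [DecidableEq V]

abbrev Ix (V : Type) : Type := Option (V ⊕ (Fin 2 ⊕ Fin 4))

/-- unit variable -/
def o' : Ix V := none
/-- system variable -/
def iv (v : V) : Ix V := some (Sum.inl v)
/-- Pell variables -/
def ix (k : Fin 2) : Ix V := some (Sum.inr (Sum.inl k))
/-- four square variables -/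
def iw (k : Fin 4) : Ix V := some (Sum.inr (Sum.inr k))

def Qeq (q : Eqn V) : Ix V → Ix V → ℚ :=
  El (iv q.i) (iv q.j) q.e + El (iv q.k) o' q.a + El (iv q.l) o' q.b + El (iv q.m) o' q.c +
    El o' o' q.d

def Qpell : Ix V → Ix V → ℚ :=
  El (ix 0) (ix 0) 1 + El (ix 1) (ix 1) (-2) + El o' o' (-1)

def dsum : Ix V → ℚ
  | none => 0
  | some (Sum.inl _) => 1
  | some (Sum.inr (Sum.inl k)) => if k = 0 then -1 else 0
  | some (Sum.inr (Sum.inr _)) => 1

def Qsum : Ix V → Ix V → ℚ := Dg dsum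

def QLs (L : List (Eqn V)) : Set (Ix V → Ix V → ℚ) :=
  {Q | Q = Qpell ∨ Q = Qsum ∨ ∃ q ∈ L, Q = Qeq q}

theorem qf_Qsum (x : Ix V → ℚ) : qf Qsum x =
    ∑ v, x (iv v) * x (iv v) + ∑ k, x (iw k) * x (iw k) - x (ix 0) * x (ix 0) := by
  unfold Qsum
  rw [qf_Dg, Fintype.sum_option, Fintype.sum_sum_type, Fintype.sum_sum_type, Fin.sum_univ_two]
  simp only [dsum, iv, iw, ix]
  norm_num
  ring

theorem sq_two (a b : ℤ) (h : a * a = 2 * (b * b)) : a = 0 ∧ b = 0 := by
  have hb : b = 0 := by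
    by_contra hb
    have hb' : (b : ℚ) ≠ 0 := by exact_mod_cast hb
    have h1 : ((a : ℚ) / b) * ((a : ℚ) / b) = 2 := by
      have h2 : (a : ℚ) * a = 2 * (b * b) := by exact_mod_cast h
      field_simp
      linarith
    have h2 : IsSquare ((2 : ℕ) : ℚ) := ⟨(a : ℚ) / b, by rw [h1]; norm_num⟩
    rw [Rat.isSquare_natCast_iff] at h2
    obtain ⟨k, hk⟩ := h2
    have h3 : k < 2 := by nlinarith
    interval_cases k <;> omega
  subst hb
  have : a * a = 0 := by linarith
  exact ⟨by simpa using this, rfl⟩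

theorem hinf (L : List (Eqn V)) (a : Ix V → ℤ) (h0 : a o' = 0)
    (hQ : ∀ Q ∈ QLs L, qf Q (fun i => (a i : ℚ)) = 0) : a = 0 := by
  have h1 := hQ Qpell (Or.inl rfl)
  have h2 := hQ Qsum (Or.inr (Or.inl rfl))
  unfold Qpell at h1
  rw [qf_add, qf_add, qf_El, qf_El, qf_El, h0] at h1
  rw [qf_Qsum] at h2
  have h3 : a (ix 0) * a (ix 0) = 2 * (a (ix 1) * a (ix 1)) := by
    have : (a (ix 0) : ℚ) * a (ix 0) = 2 * (a (ix 1) * a (ix 1)) := by
      push_cast at h1; linarith
    exact_mod_cast this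
  obtain ⟨hx, hy⟩ := sq_two _ _ h3
  rw [hx] at h2
  have h4 : ∑ v, (a (iv v) : ℚ) * a (iv v) + ∑ k, (a (iw k) : ℚ) * a (iw k) = 0 := by
    push_cast at h2; linarith
  have h5 : 0 ≤ ∑ v, (a (iv v) : ℚ) * a (iv v) := Finset.sum_nonneg fun _ _ => mul_self_nonneg _
  have h6 : 0 ≤ ∑ k, (a (iw k) : ℚ) * a (iw k) := Finset.sum_nonneg fun _ _ => mul_self_nonneg _
  have h7 : ∑ v, (a (iv v) : ℚ) * a (iv v) = 0 := by linarith
  have h8 : ∑ k, (a (iw k) : ℚ) * a (iw k) = 0 := by linarith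
  rw [Finset.sum_eq_zero_iff_of_nonneg (fun _ _ => mul_self_nonneg _)] at h7 h8
  funext i
  match i with
  | none => exact h0
  | some (Sum.inl v) =>
    have := h7 v (Finset.mem_univ _)
    have h9 := mul_self_eq_zero.1 this
    exact_mod_cast h9
  | some (Sum.inr (Sum.inl k)) =>
    fin_cases k
    · exact hx
    · exact hy
  | some (Sum.inr (Sum.inr k)) =>
    have := h8 k (Finset.mem_univ _)
    have h9 := mul_self_eq_zero.1 this
    exact_mod_cast h9

theorem pell_large (m : ℕ) : ∃ X Y : ℕ, X * X = 2 * (Y * Y) + 1 ∧ m < X := by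
  induction m with
  | zero => exact ⟨1, 0, by norm_num, by norm_num⟩
  | succ m ih =>
    obtain ⟨X, Y, h, hm⟩ := ih
    refine ⟨3 * X + 4 * Y, 2 * X + 3 * Y, ?_, by omega⟩
    nlinarith

theorem system_iff (L : List (Eqn V)) (f : V) (z : ℤ) :
    (∃ v : Ix V → ℤ, v o' = 1 ∧ v (iv f) = z ∧ ∀ Q ∈ QLs L, qf Q (fun i => (v i : ℚ)) = 0) ↔
      ∃ x : V → ℤ, x f = z ∧ ∀ q ∈ L, q.Holds x := by
  constructor
  · rintro ⟨v, h1, h2, h3⟩
    refine ⟨fun u => v (iv u), h2, ?_⟩
    intro q hq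
    have h4 := h3 (Qeq q) (Or.inr (Or.inr ⟨q, hq, rfl⟩))
    unfold Qeq at h4
    rw [qf_add, qf_add, qf_add, qf_add, qf_El, qf_El, qf_El, qf_El, qf_El, h1] at h4
    unfold Eqn.Holds
    have h5 : (q.e : ℚ) * (v (iv q.i) * v (iv q.j)) + q.a * v (iv q.k) + q.b * v (iv q.l) +
        q.c * v (iv q.m) + q.d = 0 := by
      push_cast at h4; linarith
    exact_mod_cast h5
  · rintro ⟨x, h1, h2⟩
    let S : ℕ := ∑ v, (x v).natAbs * (x v).natAbs
    obtain ⟨X, Y, hXY, hX⟩ := pell_large S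
    have hle : S ≤ X * X := by nlinarith
    obtain ⟨w0, w1, w2, w3, hw⟩ := Nat.sum_four_squares (X * X - S)
    have hw' : w0 ^ 2 + w1 ^ 2 + w2 ^ 2 + w3 ^ 2 + S = X * X := by omega
    let v : Ix V → ℤ := fun i => match i with
      | none => 1
      | some (Sum.inl u) => x u
      | some (Sum.inr (Sum.inl k)) => if k = 0 then (X : ℤ) else Y
      | some (Sum.inr (Sum.inr k)) => ![(w0 : ℤ), w1, w2, w3] k
    refine ⟨v, rfl, h1, ?_⟩
    rintro Q (rfl | rfl | ⟨q, hq, rfl⟩)
    · unfold Qpell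
      rw [qf_add, qf_add, qf_El, qf_El, qf_El]
      have e1 : v (ix 0) = X := rfl
      have e2 : v (ix 1) = Y := rfl
      have e3 : v o' = 1 := rfl
      rw [e1, e2, e3]
      have : (X : ℚ) * X = 2 * (Y * Y) + 1 := by exact_mod_cast hXY
      push_cast
      linarith
    · rw [qf_Qsum]
      have e1 : v (ix 0) = X := rfl
      have e2 : ∀ u, v (iv u) = x u := fun u => rfl
      have e3 : ∀ k, v (iw k) = ![(w0 : ℤ), w1, w2, w3] k := fun k => rfl
      simp only [e1, e2, e3]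
      rw [Fin.sum_univ_four]
      simp only [Matrix.cons_val_zero, Matrix.cons_val_one, Matrix.cons_val]
      have h5 : ((w0 ^ 2 + w1 ^ 2 + w2 ^ 2 + w3 ^ 2 + S : ℕ) : ℚ) = ((X * X : ℕ) : ℚ) := by
        exact_mod_cast hw'
      have h6 : ((S : ℕ) : ℚ) = ∑ u, (x u : ℚ) * x u := by
        simp only [S]
        push_cast
        apply Finset.sum_congr rfl
        intro u _
        rw [Nat.cast_natAbs, Int.cast_abs]
        exact abs_mul_abs_self _
      push_cast at h5
      rw [h6] at h5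
      push_cast
      linarith
    · have h4 := h2 q hq
      unfold Eqn.Holds at h4
      unfold Qeq
      rw [qf_add, qf_add, qf_add, qf_add, qf_El, qf_El, qf_El, qf_El, qf_El]
      have e2 : ∀ u, v (iv u) = x u := fun u => rfl
      have e3 : v o' = 1 := rfl
      simp only [e2, e3]
      have h5 : (q.e : ℚ) * (x q.i * x q.j) + q.a * x q.k + q.b * x q.l +
        q.c * x q.m + q.d = 0 := by exact_mod_cast h4
      push_cast
      linarith

end Pool.Agent.H694R2.Tri
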