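import Mathlib
import Pool.Agent.H694R2.TriSys

set_option autoImplicit false

namespace Pool.Agent.H694R2.Tri

open MvPolynomial

abbrev Enc : Type := List (List ℕ × ℕ × ℕ)

/-- decoding of a polynomial -/
noncomputable def dec (p : Enc) : MvPolynomial ℕ ℚ :=
  (p.map (fun t => C ((t.2.1 : ℚ) - (t.2.2 : ℚ)) *
    (t.1.map (X : ℕ → MvPolynomial ℕ ℚ)).prod)).sum

def scale (k : ℕ) (p : Enc) : Enc := p.map (fun t => (t.1, k * t.2.1, k * t.2.2))
def negscale (k : ℕ) (p : Enc) : Enc := p.map (fun t => (t.1, k * t.2.2, k * t.2.1))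
def shift (i : ℕ) (p : Enc) : Enc := p.map (fun t => (i :: t.1, t.2.1, t.2.2))

theorem dec_nil : dec [] = 0 := rfl

theorem dec_cons (t : List ℕ × ℕ × ℕ) (p : Enc) : dec (t :: p) =
    C ((t.2.1 : ℚ) - (t.2.2 : ℚ)) * (t.1.map (X : ℕ → MvPolynomial ℕ ℚ)).prod + dec p := by
  simp [dec]

theorem dec_append (p q : Enc) : dec (p ++ q) = dec p + dec q := by
  simp [dec]

theorem dec_scale (k : ℕ) (p : Enc) : dec (scale k p) = C (k : ℚ) * dec p := by
  induction p with
  | nil => simp [scale, dec_nil]
  | cons t p ih =>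
    have : scale k (t :: p) = (t.1, k * t.2.1, k * t.2.2) :: scale k p := rfl
    rw [this, dec_cons, dec_cons, ih]
    push_cast
    rw [← mul_sub, C_mul]
    ring

theorem dec_negscale (k : ℕ) (p : Enc) : dec (negscale k p) = - C (k : ℚ) * dec p := by
  induction p with
  | nil => simp [negscale, dec_nil]
  | cons t p ih =>
    have : negscale k (t :: p) = (t.1, k * t.2.2, k * t.2.1) :: negscale k p := rfl
    rw [this, dec_cons, dec_cons, ih]
    push_cast
    rw [← mul_sub, C_mul, ← neg_sub (t.2.1 : ℚ) (t.2.2 : ℚ), C_neg]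
    ring

theorem dec_shift (i : ℕ) (p : Enc) : dec (shift i p) = X i * dec p := by
  induction p with
  | nil => simp [shift, dec_nil]
  | cons t p ih =>
    have : shift i (t :: p) = (i :: t.1, t.2.1, t.2.2) :: shift i p := rfl
    rw [this, dec_cons, dec_cons, ih]
    simp only [List.map_cons, List.prod_cons]
    ring

/-- multiplication by `a X_i - b` -/
def mulAB (i a b : ℕ) (p : Enc) : Enc := scale a (shift i p) ++ negscale b p

theorem dec_mulAB (i a b : ℕ) (p : Enc) :
    dec (mulAB i a b p) = (C (a : ℚ) * X i - C (b : ℚ)) * dec p := by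
  unfold mulAB
  rw [dec_append, dec_scale, dec_shift, dec_negscale]
  ring

theorem enc_exists {ι : Type} (κ : ι → ℕ) (g : MvPolynomial ι ℚ) :
    ∃ (p : Enc) (d : ℕ), d ≠ 0 ∧ dec p = C (d : ℚ) * rename κ g := by
  induction g using MvPolynomial.induction_on with
  | C c =>
    refine ⟨[([], c.num.toNat, (-c.num).toNat)], c.den, c.den_nz, ?_⟩
    rw [dec_cons, dec_nil, rename_C, ← C_mul]
    simp only [List.map_nil, List.prod_nil, mul_one, add_zero]
    congr 1
    have h1 : ((c.num.toNat : ℤ) : ℚ) - ((-c.num).toNat : ℤ) = c.num := by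
      have : (c.num.toNat : ℤ) - ((-c.num).toNat : ℤ) = c.num := by omega
      exact_mod_cast this
    have h2 : (c.den : ℚ) * c = c.num := by
      rw [mul_comm]; exact Rat.mul_den_eq_num c
    rw [h2, ← h1]
    push_cast
    rfl
  | add g h ihg ihh =>
    obtain ⟨p, d, hd, hp⟩ := ihg
    obtain ⟨q, e, he, hq⟩ := ihh
    refine ⟨scale e p ++ scale d q, d * e, mul_ne_zero hd he, ?_⟩
    rw [dec_append, dec_scale, dec_scale, hp, hq, map_add]
    push_cast
    rw [C_mul]
    ring
  | mul_X g i ih =>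
    obtain ⟨p, d, hd, hp⟩ := ih
    refine ⟨shift (κ i) p, d, hd, ?_⟩
    rw [dec_shift, hp, map_mul, rename_X]
    ring

/-! ### computability -/

/-- the coefficients for the variable `i` -/
def cfa (io i : ℕ) : ℕ := if i = io then 2 else 1
def cfb (io is n i : ℕ) : ℕ := if i = io then 2 ^ (4 * n) else if i = is then 2 else 1

/-- the list of generators for the parameter `n` -/
def phi (G : List Enc) (N io is n : ℕ) : List Enc :=
  (List.range N).flatMap (fun i => G.map (fun p => mulAB i (cfa io i) (cfb io is n i) p))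

theorem primrec_scale : Primrec₂ scale := by
  unfold scale
  refine Primrec.list_map Primrec.snd ?_
  have h1 : Primrec (fun x : (ℕ × Enc) × (List ℕ × ℕ × ℕ) => x.1.1) :=
    Primrec.fst.comp Primrec.fst
  have h2 : Primrec (fun x : (ℕ × Enc) × (List ℕ × ℕ × ℕ) => x.2) := Primrec.snd
  exact Primrec.pair (Primrec.fst.comp h2) (Primrec.pair
    (Primrec.nat_mul.comp h1 (Primrec.fst.comp (Primrec.snd.comp h2)))
    (Primrec.nat_mul.comp h1 (Primrec.snd.comp (Primrec.snd.comp h2))))

theorem primrec_negscale : Primrec₂ negscale := by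
  unfold negscale
  refine Primrec.list_map Primrec.snd ?_
  have h1 : Primrec (fun x : (ℕ × Enc) × (List ℕ × ℕ × ℕ) => x.1.1) :=
    Primrec.fst.comp Primrec.fst
  have h2 : Primrec (fun x : (ℕ × Enc) × (List ℕ × ℕ × ℕ) => x.2) := Primrec.snd
  exact Primrec.pair (Primrec.fst.comp h2) (Primrec.pair
    (Primrec.nat_mul.comp h1 (Primrec.snd.comp (Primrec.snd.comp h2)))
    (Primrec.nat_mul.comp h1 (Primrec.fst.comp (Primrec.snd.comp h2))))

theorem primrec_shift : Primrec₂ shift := by
  unfold shift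
  refine Primrec.list_map Primrec.snd ?_
  have h1 : Primrec (fun x : (ℕ × Enc) × (List ℕ × ℕ × ℕ) => x.1.1) :=
    Primrec.fst.comp Primrec.fst
  have h2 : Primrec (fun x : (ℕ × Enc) × (List ℕ × ℕ × ℕ) => x.2) := Primrec.snd
  exact Primrec.pair (Primrec.list_cons.comp h1 (Primrec.fst.comp h2)) (Primrec.pair
    (Primrec.fst.comp (Primrec.snd.comp h2)) (Primrec.snd.comp (Primrec.snd.comp h2)))

theorem primrec_two_pow : Primrec (fun m : ℕ => 2 ^ m) := by
  have h : Primrec (fun m : ℕ => Nat.rec (motive := fun _ => ℕ) 1 (fun _ r => 2 * r) m) :=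
    Primrec.nat_rec₁ 1 (Primrec.nat_mul.comp (Primrec.const 2) Primrec.snd)
  refine h.of_eq ?_
  intro m
  induction m with
  | zero => rfl
  | succ m ih =>
    simp only at ih ⊢
    rw [ih, pow_succ, mul_comm]

theorem primrec_cfa (io : ℕ) : Primrec (cfa io) := by
  unfold cfa
  exact Primrec.ite (Primrec.eq.comp Primrec.id (Primrec.const io)) (Primrec.const 2)
    (Primrec.const 1)

theorem primrec_cfb (io is : ℕ) : Primrec₂ (cfb io is) := by
  unfold cfb
  refine Primrec.ite (Primrec.eq.comp Primrec.snd (Primrec.const io)) ?_ ?_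
  · exact primrec_two_pow.comp (Primrec.nat_mul.comp (Primrec.const 4) Primrec.fst)
  · exact Primrec.ite (Primrec.eq.comp Primrec.snd (Primrec.const is)) (Primrec.const 2)
      (Primrec.const 1)

theorem primrec_phi (G : List Enc) (N io is : ℕ) : Primrec (phi G N io is) := by
  unfold phi
  refine Primrec.list_flatMap (Primrec.const _) ?_
  refine Primrec.list_map (Primrec.const _) ?_
  unfold mulAB
  -- arguments: ((n, i), p)
  have hn : Primrec (fun x : (ℕ × ℕ) × Enc => x.1.1) := Primrec.fst.comp Primrec.fst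
  have hi : Primrec (fun x : (ℕ × ℕ) × Enc => x.1.2) := Primrec.snd.comp Primrec.fst
  have hp : Primrec (fun x : (ℕ × ℕ) × Enc => x.2) := Primrec.snd
  exact Primrec.list_append.comp
    (primrec_scale.comp ((primrec_cfa io).comp hi) (primrec_shift.comp hi hp))
    (primrec_negscale.comp ((primrec_cfb io is).comp hn hi) hp)

end Pool.Agent.H694R2.Tri
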