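import Mathlib
import Pool.Agent.H694R2.TriEnc

set_option autoImplicit false

namespace Pool.Agent.H694R2.Tri

open MvPolynomial Pool.Agent.Helper844.Sys Pool.Agent.Helper844.Dio

/-- a recursively enumerable set of natural numbers that is not computable -/
theorem exists_re : ∃ S : ℕ → Prop, REPred S ∧ ¬ ComputablePred S := by
  refine ⟨fun n => ∃ c : Nat.Partrec.Code, Encodable.decode (α := Nat.Partrec.Code) n = some c ∧
    (c.eval 0).Dom, ?_, ?_⟩
  · have h := ComputablePred.halting_problem_re 0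
    have h2 : Partrec fun n : ℕ => (Part.ofOption (Encodable.decode (α := Nat.Partrec.Code) n)).bind
        (fun c => Part.assert (c.eval 0).Dom fun _ => Part.some ()) :=
      (Computable.decode.ofOption).bind (Partrec.comp h Computable.snd).to₂
    refine h2.of_eq fun n => ?_
    ext u
    simp
  · intro hc
    apply ComputablePred.halting_problem 0
    obtain ⟨hd, hcomp⟩ := hc
    have h3 : ComputablePred fun c : Nat.Partrec.Code =>
        ∃ c' : Nat.Partrec.Code, Encodable.decode (α := Nat.Partrec.Code) (Encodable.encode c) =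
          some c' ∧ (c'.eval 0).Dom := ⟨fun c => hd _, hcomp.comp Computable.encode⟩
    refine h3.of_eq fun c => ?_
    simp

section Restrict

variable {ι : Type} [Fintype ι]

/-- restriction to finitely many variables: the other variables are set to constants -/
noncomputable def psi (κ : ι ≃ Fin (Fintype.card ι)) (x : ℕ → ℚ) :
    MvPolynomial ℕ ℚ →ₐ[ℚ] MvPolynomial ι ℚ :=
  aeval (fun j => if h : j < Fintype.card ι then X (κ.symm ⟨j, h⟩) else C (x j))

theorem psi_rename (κ : ι ≃ Fin (Fintype.card ι)) (x : ℕ → ℚ) (g : MvPolynomial ι ℚ) :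
    psi κ x (rename (fun i => (κ i : ℕ)) g) = g := by
  unfold psi
  rw [aeval_rename]
  have : ((fun j => if h : j < Fintype.card ι then X (κ.symm ⟨j, h⟩) else C (x j) :
      ℕ → MvPolynomial ι ℚ) ∘ fun i => (κ i : ℕ)) = X := by
    funext i
    simp
  rw [this, aeval_X_left_apply]

theorem psi_X (κ : ι ≃ Fin (Fintype.card ι)) (x : ℕ → ℚ) (i : ι) :
    psi κ x (X (κ i : ℕ)) = X i := by
  have := psi_rename κ x (X i)
  rwa [rename_X] at this

theorem eval_psi (κ : ι ≃ Fin (Fintype.card ι)) (x : ℕ → ℚ) (f : MvPolynomial ℕ ℚ) :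
    eval (fun i => x (κ i : ℕ)) (psi κ x f) = eval x f := by
  have h : (eval (fun i => x (κ i : ℕ))).comp (psi κ x : MvPolynomial ℕ ℚ →+* MvPolynomial ι ℚ) =
      eval x := by
    apply MvPolynomial.ringHom_ext
    · intro r; simp
    · intro j
      simp only [RingHom.comp_apply, RingHom.coe_coe, psi, aeval_X, eval_X]
      split_ifs with h
      · simp
      · simp
  exact congrArg (fun g => g f) h

theorem psi_monomial (κ : ι ≃ Fin (Fintype.card ι)) (x : ℕ → ℚ) (e : ℕ →₀ ℕ) :
    ∀ c : ℚ, ∃ t : ℚ, psi κ x (monomial e c) =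
      monomial (Finsupp.equivFunOnFinite.symm (fun i : ι => e (κ i : ℕ))) t := by
  classical
  induction e using Finsupp.induction_linear with
  | zero =>
    intro c
    refine ⟨c, ?_⟩
    have : (Finsupp.equivFunOnFinite.symm (fun i : ι => (0 : ℕ →₀ ℕ) (κ i : ℕ))) = 0 := by
      ext i; simp
    rw [this]
    change psi κ x (C c) = C c
    simp [psi]
  | add e1 e2 h1 h2 =>
    intro c
    obtain ⟨t1, h1⟩ := h1 c
    obtain ⟨t2, h2⟩ := h2 1
    refine ⟨t1 * t2, ?_⟩
    have e3 : monomial (e1 + e2) c = monomial e1 c * monomial e2 (1 : ℚ) := by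
      rw [monomial_mul, mul_one]
    have e4 : (Finsupp.equivFunOnFinite.symm (fun i : ι => (e1 + e2) (κ i : ℕ))) =
        Finsupp.equivFunOnFinite.symm (fun i : ι => e1 (κ i : ℕ)) +
          Finsupp.equivFunOnFinite.symm (fun i : ι => e2 (κ i : ℕ)) := by
      ext i; simp
    rw [e3, map_mul, h1, h2, monomial_mul, e4]
  | single j k =>
    intro c
    have e3 : monomial (Finsupp.single j k) c = C c * (X j : MvPolynomial ℕ ℚ) ^ k := by
      rw [X_pow_eq_monomial, C_mul_monomial, mul_one]
    rw [e3, map_mul, map_pow]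
    by_cases h : j < Fintype.card ι
    · refine ⟨c, ?_⟩
      have h1 : psi κ x (X j) = X (κ.symm ⟨j, h⟩) := by simp [psi, h]
      have h2 : psi κ x (C c) = C c := by simp [psi]
      rw [h1, h2, X_pow_eq_monomial, C_mul_monomial, mul_one]
      have e4 : Finsupp.single (κ.symm ⟨j, h⟩) k = Finsupp.equivFunOnFinite.symm
          (fun i : ι => (Finsupp.single j k : ℕ →₀ ℕ) (κ i : ℕ)) := by
        ext i
        simp only [Finsupp.single_apply, Finsupp.equivFunOnFinite_symm_apply_apply]
        by_cases hi : κ.symm ⟨j, h⟩ = i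
        · rw [if_pos hi, if_pos]
          rw [← hi]; simp
        · rw [if_neg hi, if_neg]
          intro hj
          apply hi
          rw [Equiv.symm_apply_eq]
          ext
          exact hj
      rw [e4]
    · refine ⟨c * x j ^ k, ?_⟩
      have h1 : psi κ x (X j) = C (x j) := by simp [psi, h]
      have h2 : psi κ x (C c) = C c := by simp [psi]
      rw [h1, h2, ← C_pow, ← C_mul]
      have : (Finsupp.equivFunOnFinite.symm (fun i : ι => (Finsupp.single j k : ℕ →₀ ℕ) (κ i : ℕ)))
          = 0 := by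
        ext i
        simp only [Finsupp.equivFunOnFinite_symm_apply_apply, Finsupp.single_apply,
          Finsupp.coe_zero, Pi.zero_apply]
        rw [if_neg]
        intro hj
        apply h
        rw [hj]
        exact (κ i).2
      rw [this]
      rfl

theorem psi_card (κ : ι ≃ Fin (Fintype.card ι)) (x : ℕ → ℚ) (f : MvPolynomial ℕ ℚ) :
    (psi κ x f).support.card ≤ f.support.card := by
  classical
  have hsub : (psi κ x f).support ⊆
      f.support.image (fun e => Finsupp.equivFunOnFinite.symm (fun i : ι => e (κ i : ℕ))) := by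
    intro e he
    rw [f.as_sum, map_sum] at he
    have h1 := support_sum he
    rw [Finset.mem_biUnion] at h1
    obtain ⟨a, ha, hea⟩ := h1
    obtain ⟨t, ht⟩ := psi_monomial κ x a (coeff a f)
    rw [ht] at hea
    have h2 := support_monomial_subset hea
    rw [Finset.mem_singleton] at h2
    rw [Finset.mem_image]
    exact ⟨a, ha, h2.symm⟩
  exact (Finset.card_le_card hsub).trans Finset.card_image_le

end Restrict

/-- The undecidability of the trinomial problem. -/
theorem undecidable : ¬ ComputablePred (fun L : List Enc =>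
    ∃ f ∈ Ideal.span {q : MvPolynomial ℕ ℚ | q ∈ L.map dec}, f ≠ 0 ∧ f.support.card ≤ 3) := by
  classical
  intro hcp
  obtain ⟨S, hre, hnc⟩ := exists_re
  obtain ⟨V, hV, fv, L, hL⟩ := exists_system S (dprm hre)
  apply hnc
  -- the ideal of the fixed part
  let κ : Ix V ≃ Fin (Fintype.card (Ix V)) := Fintype.equivFin (Ix V)
  let κ' : Ix V → ℕ := fun i => (κ i : ℕ)
  have hκ' : Function.Injective κ' := fun a b h => κ.injective (Fin.ext h)
  let If : Ideal (MvPolynomial (Ix V) ℚ) :=
    I1 (QLs L) ⊓ RingHom.ker (eval (ptP o') : MvPolynomial (Ix V) ℚ →+* ℚ)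
  obtain ⟨Gs, hGs⟩ : ∃ Gs : Finset (MvPolynomial (Ix V) ℚ), Ideal.span (Gs : Set _) = If :=
    (isNoetherianRing_iff_ideal_fg _).1 inferInstance If
  choose en dn hdn hen using (enc_exists κ' : ∀ g : MvPolynomial (Ix V) ℚ, _)
  let G : List Enc := Gs.toList.map en
  let io : ℕ := κ' o'
  let is : ℕ := κ' (iv fv)
  have hos : (iv fv : Ix V) ≠ o' := by simp [iv, o']
  have hios : is ≠ io := fun h => hos (hκ' h)
  let N := Fintype.card (Ix V)
  let J : ℕ → Ideal (MvPolynomial ℕ ℚ) := fun n =>
    Ideal.span {q : MvPolynomial ℕ ℚ | q ∈ (phi G N io is n).map dec}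
  -- coefficients as functions on the index type
  have hcf : ∀ (n : ℕ) (i : Ix V), ptQ o' (iv fv) n i =
      (cfb io is n (κ' i) : ℚ) / (cfa io (κ' i) : ℚ) := by
    intro n i
    unfold ptQ cfa cfb
    by_cases h1 : i = o'
    · subst h1
      simp [io]
    · have h1' : κ' i ≠ io := fun h => h1 (hκ' h)
      by_cases h2 : i = iv fv
      · subst h2
        simp [h1, h1', is]
      · have h2' : κ' i ≠ is := fun h => h2 (hκ' h)
        simp [h1, h1', h2, h2']
  have hcfa : ∀ i : ℕ, (cfa io i : ℚ) ≠ 0 := by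
    intro i; unfold cfa; split_ifs <;> norm_num
  -- membership of generators
  have hmem : ∀ (n : ℕ) (q : MvPolynomial ℕ ℚ), q ∈ (phi G N io is n).map dec ↔
      ∃ i : Ix V, ∃ g ∈ Gs, q = (C (cfa io (κ' i) : ℚ) * X (κ' i) - C (cfb io is n (κ' i) : ℚ)) *
        (C (dn g : ℚ) * rename κ' g) := by
    intro n q
    simp only [phi, G, List.mem_map, List.mem_flatMap, List.mem_range, Finset.mem_toList]
    constructor
    · rintro ⟨p, ⟨j, hj, p', ⟨g, hg, rfl⟩, rfl⟩, rfl⟩
      refine ⟨κ.symm ⟨j, hj⟩, g, hg, ?_⟩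
      rw [dec_mulAB, hen]
      have : κ' (κ.symm ⟨j, hj⟩) = j := by simp [κ']
      rw [this]
    · rintro ⟨i, g, hg, rfl⟩
      refine ⟨_, ⟨κ' i, (κ i).2, en g, ⟨g, hg, rfl⟩, rfl⟩, ?_⟩
      rw [dec_mulAB, hen]
  -- soundness
  have hsound : ∀ n, (∃ f ∈ J n, f ≠ 0 ∧ f.support.card ≤ 3) → S n := by
    rintro n ⟨f, hfJ, hf0, hcard⟩
    obtain ⟨x, hx⟩ : ∃ x : ℕ → ℚ, eval x f ≠ 0 := by
      by_contra hcon
      push Not at hcon
      apply hf0
      apply MvPolynomial.funext
      intro x
      rw [hcon x, map_zero]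
    have hψ : psi κ x f ∈ If ⊓ RingHom.ker (eval (ptQ o' (iv fv) n) :
        MvPolynomial (Ix V) ℚ →+* ℚ) := by
      have hle : J n ≤ Ideal.comap (psi κ x) (If ⊓ RingHom.ker (eval (ptQ o' (iv fv) n) :
          MvPolynomial (Ix V) ℚ →+* ℚ)) := by
        apply Ideal.span_le.2
        intro q hq
        obtain ⟨i, g, hg, rfl⟩ := (hmem n q).1 hq
        rw [SetLike.mem_coe, Ideal.mem_comap, map_mul, map_mul]
        have e1 : psi κ x (rename κ' g) = g := psi_rename κ x g
        have e2 : psi κ x (C (dn g : ℚ)) = C (dn g : ℚ) := by simp [psi]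
        have e3 : psi κ x (C (cfa io (κ' i) : ℚ) * X (κ' i) - C (cfb io is n (κ' i) : ℚ)) =
            C (cfa io (κ' i) : ℚ) * X i - C (cfb io is n (κ' i) : ℚ) := by
          rw [map_sub, map_mul, psi_X κ x i]
          simp [psi]
        rw [e1, e2, e3]
        refine ⟨?_, ?_⟩
        · apply Ideal.mul_mem_left
          apply Ideal.mul_mem_left
          rw [← hGs]
          exact Ideal.subset_span hg
        · change eval (ptQ o' (iv fv) n) _ = 0
          rw [map_mul, map_sub, map_mul, eval_C, eval_C, eval_X, hcf]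
          have := hcfa (κ' i)
          have h0 : (cfa io (κ' i) : ℚ) * ((cfb io is n (κ' i) : ℚ) / (cfa io (κ' i) : ℚ)) -
              (cfb io is n (κ' i) : ℚ) = 0 := by field_simp; ring
          rw [h0, zero_mul]
      exact hle hfJ
    have hψ0 : psi κ x f ≠ 0 := by
      intro h
      apply hx
      rw [← eval_psi κ x f, h, map_zero]
    obtain ⟨v, hv1, hv2, hv3⟩ := sound (QLs L) o' (iv fv) hos n (hinf L) (psi κ x f) hψ0
      ((psi_card κ x f).trans hcard) hψ.1.1 hψ.1.2 hψ.2
    obtain ⟨n', hn', he⟩ := (hL (1 - 4 * n)).1 ((system_iff L fv (1 - 4 * n)).1 ⟨v, hv1, hv2, hv3⟩)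
    have : n = n' := by omega
    rw [this]
    exact hn'
  -- completeness
  have hcompl : ∀ n, S n → ∃ f ∈ J n, f ≠ 0 ∧ f.support.card ≤ 3 := by
    intro n hn
    obtain ⟨v, hv1, hv2, hv3⟩ := (system_iff L fv (1 - 4 * n)).2 ((hL (1 - 4 * n)).2 ⟨n, hn, rfl⟩)
    obtain ⟨f, hf0, hcard, hf1, hfp, hfq⟩ := complete (QLs L) o' (iv fv) hos n v hv1 hv2 hv3
    refine ⟨rename κ' f, ?_, ?_, ?_⟩
    · have h1 : f ∈ If ⊓ RingHom.ker (eval (ptQ o' (iv fv) n) : MvPolynomial (Ix V) ℚ →+* ℚ) :=
        ⟨⟨hf1, hfp⟩, hfq⟩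
      rw [← Ideal.mul_eq_inf_of_coprime (coprime (QLs L) o' (iv fv) hos n)] at h1
      have hle : If * RingHom.ker (eval (ptQ o' (iv fv) n) : MvPolynomial (Ix V) ℚ →+* ℚ) ≤
          Ideal.comap (rename κ' : MvPolynomial (Ix V) ℚ →ₐ[ℚ] MvPolynomial ℕ ℚ) (J n) := by
        have hker : RingHom.ker (eval (ptQ o' (iv fv) n) : MvPolynomial (Ix V) ℚ →+* ℚ) ≤
            Ideal.span (Set.range fun i : Ix V => (C (cfa io (κ' i) : ℚ) * X i -
              C (cfb io is n (κ' i) : ℚ) : MvPolynomial (Ix V) ℚ)) := by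
          intro g hg
          apply mem_span_of_eval (fun i => (cfa io (κ' i) : ℚ)) (fun i => (cfb io is n (κ' i) : ℚ))
            (fun i => hcfa _)
          have : (fun i => (cfb io is n (κ' i) : ℚ) / (cfa io (κ' i) : ℚ)) =
              ptQ o' (iv fv) n := by
            funext i; rw [hcf]
          rw [this]
          exact hg
        refine (Ideal.mul_mono_right hker).trans ?_
        rw [← hGs, Ideal.span_mul_span']
        apply Ideal.span_le.2
        rintro _ ⟨g, hg, _, ⟨i, rfl⟩, rfl⟩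
        change rename κ' (g * (C (cfa io (κ' i) : ℚ) * X i - C (cfb io is n (κ' i) : ℚ))) ∈ J n
        have h2 : (C (cfa io (κ' i) : ℚ) * X (κ' i) - C (cfb io is n (κ' i) : ℚ)) *
            (C (dn g : ℚ) * rename κ' g) ∈ J n :=
          Ideal.subset_span ((hmem n _).2 ⟨i, g, hg, rfl⟩)
        have h3 : rename κ' (g * (C (cfa io (κ' i) : ℚ) * X i - C (cfb io is n (κ' i) : ℚ))) =
            C ((dn g : ℚ)⁻¹) * ((C (cfa io (κ' i) : ℚ) * X (κ' i) -
              C (cfb io is n (κ' i) : ℚ)) * (C (dn g : ℚ) * rename κ' g)) := by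
          have h4 : (C ((dn g : ℚ)⁻¹) * C (dn g : ℚ) : MvPolynomial ℕ ℚ) = 1 := by
            rw [← C_mul, inv_mul_cancel₀ (by exact_mod_cast hdn g), C_1]
          rw [map_mul, map_sub, map_mul, rename_C, rename_C, rename_X]
          calc rename κ' g * (C (cfa io (κ' i) : ℚ) * X (κ' i) - C (cfb io is n (κ' i) : ℚ))
              = 1 * (rename κ' g * (C (cfa io (κ' i) : ℚ) * X (κ' i) -
                  C (cfb io is n (κ' i) : ℚ))) := by rw [one_mul]
            _ = _ := by rw [← h4]; ring
        rw [h3]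
        exact Ideal.mul_mem_left _ _ h2
      exact hle h1
    · intro h
      apply hf0
      apply rename_injective κ' hκ'
      rw [h, map_zero]
    · rw [support_rename_of_injective hκ']
      exact Finset.card_image_le.trans hcard
  -- conclusion
  obtain ⟨hd, hcomp⟩ := hcp
  have h3 : ComputablePred fun n : ℕ =>
      ∃ f ∈ Ideal.span {q : MvPolynomial ℕ ℚ | q ∈ (phi G N io is n).map dec},
        f ≠ 0 ∧ f.support.card ≤ 3 :=
    ⟨fun n => hd _, hcomp.comp (primrec_phi G N io is).to_comp⟩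
  exact h3.of_eq fun n => ⟨hsound n, hcompl n⟩

end Pool.Agent.H694R2.Tri
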